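import Pool.Agent.Helper187.Leg.Norm

open MeasureTheory Set Real Filter Topology
open scoped ENNReal

namespace Pool.Agent.Helper187.Leg

/-- indicator of the `ψ`-periodic set: last fraction `l` of each of the `P` cells of the block. -/
noncomputable def EE (θ T : ℝ) (P : ℕ) (l : ℝ) (x : ℝ) : ℝ :=
  ∑ j ∈ Finset.range P,
    (Ico (sin (θ + T * ((j + 1 - l) / P))) (sin (θ + T * ((j + 1) / P)))).indicator 1 x

/-- cell endpoints. -/
noncomputable def cpt (θ T : ℝ) (P : ℕ) (j : ℕ) : ℝ := sin (θ + T * (j / P))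

/-- the pattern copied affinely (in `x`) on each cell of the block. -/
noncomputable def HH {m : ℕ} (g : ℝ) (c a : Fin m → ℝ) (θ T : ℝ) (P : ℕ) (x : ℝ) : ℝ :=
  ∑ j ∈ Finset.range P, (Ico (cpt θ T P j) (cpt θ T P (j + 1))).indicator
    (fun x => pat g c a ((x - cpt θ T P j) / (cpt θ T P (j + 1) - cpt θ T P j))) x

end Pool.Agent.Helper187.Leg
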