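import Pool.Agent.Helper187.Leg.Defs

open MeasureTheory Set Real Filter Topology
open scoped ENNReal

namespace Pool.Agent.Helper187.Leg.T1

open Pool.Agent.Helper187.Leg



lemma sinc_tail {X : ℝ} (hX : 1 ≤ X) : |∫ v in (1 : ℝ)..X, sinc v| ≤ 2 := by
  have hX0 : 0 < X := by linarith
  have hpos : ∀ x ∈ (uIcc (1 : ℝ) X), 0 < x := by
    intro x hx
    rw [uIcc_of_le hX] at hx
    linarith [hx.1]
  have h1 : ∫ v in (1 : ℝ)..X, sinc v = ∫ v in (1 : ℝ)..X, v⁻¹ * sin v := by
    apply intervalIntegral.integral_congr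
    intro x hx
    have := hpos x hx
    show sinc x = x⁻¹ * sin x
    rw [sinc_of_ne_zero this.ne', div_eq_inv_mul]
  have hc2 : ContinuousOn (fun x : ℝ => -(x ^ 2)⁻¹) (uIcc (1 : ℝ) X) := by
    apply ContinuousOn.neg
    apply ContinuousOn.inv₀ (by fun_prop)
    intro x hx
    have := hpos x hx
    positivity
  have hc3 : IntervalIntegrable (fun x : ℝ => (x ^ 2)⁻¹) volume 1 X := by
    apply ContinuousOn.intervalIntegrable
    apply ContinuousOn.inv₀ (by fun_prop)
    intro x hx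
    have := hpos x hx
    positivity
  have h2 := intervalIntegral.integral_mul_deriv_eq_deriv_mul (a := (1 : ℝ)) (b := X)
    (u := fun x : ℝ => x⁻¹) (u' := fun x : ℝ => -(x ^ 2)⁻¹) (v := fun x => -cos x)
    (v' := fun x => sin x)
    (fun x hx => hasDerivAt_inv (hpos x hx).ne')
    (fun x _ => by
      have h0 := (hasDerivAt_cos x).neg
      rw [neg_neg] at h0
      exact h0)
    hc2.intervalIntegrable (continuous_sin.intervalIntegrable _ _)
  rw [h1, h2]
  have h3 : |∫ x in (1 : ℝ)..X, -(x ^ 2)⁻¹ * -cos x| ≤ 1 - X⁻¹ := by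
    have h4 : ∫ x in (1 : ℝ)..X, (x ^ 2)⁻¹ = 1 - X⁻¹ := by
      have h5 := intervalIntegral.integral_eq_sub_of_hasDerivAt (a := (1 : ℝ)) (b := X)
        (f := fun x : ℝ => -x⁻¹) (f' := fun x : ℝ => (x ^ 2)⁻¹)
        (fun x hx => by
          have h0 := (hasDerivAt_inv (hpos x hx).ne').neg
          rw [neg_neg] at h0
          exact h0)
        hc3
      rw [h5]; ring
    rw [← h4]
    apply intervalIntegral.abs_integral_le_integral_abs hX |>.trans
    apply intervalIntegral.integral_mono_on hX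
    · apply ContinuousOn.intervalIntegrable
      exact (hc2.mul continuous_cos.neg.continuousOn).abs
    · exact hc3
    · intro x hx
      have hx0 : 0 < x := by linarith [hx.1]
      rw [neg_mul_neg, abs_mul, abs_of_pos (by positivity : 0 < (x ^ 2)⁻¹)]
      have := abs_cos_le_one x
      have h6 : 0 < (x ^ 2)⁻¹ := by positivity
      nlinarith
  have h7 : |X⁻¹ * -cos X - (1 : ℝ)⁻¹ * -cos 1| ≤ X⁻¹ + 1 := by
    have ha : |X⁻¹ * -cos X| ≤ X⁻¹ := by
      rw [abs_mul, abs_neg, abs_of_pos (by positivity : 0 < X⁻¹)]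
      have := abs_cos_le_one X
      have h6 : 0 < X⁻¹ := by positivity
      nlinarith
    have hb : |(1 : ℝ)⁻¹ * -cos 1| ≤ 1 := by
      rw [inv_one, one_mul, abs_neg]; exact abs_cos_le_one 1
    calc |X⁻¹ * -cos X - (1 : ℝ)⁻¹ * -cos 1| ≤ |X⁻¹ * -cos X| + |(1 : ℝ)⁻¹ * -cos 1| := abs_sub _ _
      _ ≤ _ := add_le_add ha hb
  calc |X⁻¹ * -cos X - (1 : ℝ)⁻¹ * -cos 1 - ∫ x in (1 : ℝ)..X, -(x ^ 2)⁻¹ * -cos x|
      ≤ |X⁻¹ * -cos X - (1 : ℝ)⁻¹ * -cos 1| + |∫ x in (1 : ℝ)..X, -(x ^ 2)⁻¹ * -cos x| := abs_sub _ _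
    _ ≤ (X⁻¹ + 1) + (1 - X⁻¹) := add_le_add h7 h3
    _ = 2 := by ring

lemma sinc_small {X : ℝ} (hX0 : 0 ≤ X) (hX : X ≤ 1) : |∫ v in (0 : ℝ)..X, sinc v| ≤ 1 := by
  have := intervalIntegral.norm_integral_le_of_norm_le_const (a := (0 : ℝ)) (b := X)
    (f := sinc) (C := 1) (fun x _ => by rw [Real.norm_eq_abs]; exact abs_sinc_le_one x)
  rw [Real.norm_eq_abs, sub_zero, abs_of_nonneg hX0] at this
  linarith

lemma sinc_prim_nonneg {X : ℝ} (hX0 : 0 ≤ X) : |∫ v in (0 : ℝ)..X, sinc v| ≤ 3 := by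
  rcases le_total X 1 with h | h
  · linarith [sinc_small hX0 h]
  · rw [← intervalIntegral.integral_add_adjacent_intervals (b := 1)
      (continuous_sinc.intervalIntegrable _ _) (continuous_sinc.intervalIntegrable _ _)]
    have h1 := sinc_small zero_le_one le_rfl
    have h2 := sinc_tail h
    calc _ ≤ |∫ v in (0 : ℝ)..1, sinc v| + |∫ v in (1 : ℝ)..X, sinc v| := abs_add_le _ _
      _ ≤ 3 := by linarith

lemma sinc_prim (X : ℝ) : |∫ v in (0 : ℝ)..X, sinc v| ≤ 3 := by
  rcases le_total 0 X with h | h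
  · exact sinc_prim_nonneg h
  · have h1 : ∫ v in (0 : ℝ)..X, sinc v = -∫ v in (0 : ℝ)..(-X), sinc v := by
      have h2 := intervalIntegral.integral_comp_neg (a := (0 : ℝ)) (b := X) (f := sinc)
      simp only [sinc_neg, neg_zero] at h2
      rw [h2, intervalIntegral.integral_symm]
    rw [h1, abs_neg]
    exact sinc_prim_nonneg (by linarith)

lemma sinc_int (a b : ℝ) : |∫ v in a..b, sinc v| ≤ 6 := by
  have h := intervalIntegral.integral_interval_sub_left (a := (0 : ℝ)) (b := b) (c := a)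
    (continuous_sinc.intervalIntegrable (μ := volume) _ _)
    (continuous_sinc.intervalIntegrable (μ := volume) _ _)
  rw [← h]
  calc _ ≤ |∫ v in (0 : ℝ)..b, sinc v| + |∫ v in (0 : ℝ)..a, sinc v| := abs_sub _ _
    _ ≤ 6 := by linarith [sinc_prim a, sinc_prim b]

/-- absolute bound for the integral of the Dirichlet-type kernel over any interval. -/
theorem sinc_int_bound : ∃ C : ℝ, 0 < C ∧ ∀ (μ z a b : ℝ), a ≤ b →
    |∫ s in a..b, sin (μ * (z - s)) / (z - s)| ≤ C := by
  refine ⟨6, by norm_num, fun μ z a b _ => ?_⟩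
  by_cases hμ : μ = 0
  · simp [hμ]
  · have h1 : ∫ s in a..b, sin (μ * (z - s)) / (z - s) =
        ∫ s in a..b, μ * sinc (μ * z - μ * s) := by
      apply intervalIntegral.integral_congr_ae
      have : ∀ᵐ s : ℝ, s ≠ z := by
        rw [ae_iff]; simp
      filter_upwards [this] with s hs _
      have hzs : z - s ≠ 0 := sub_ne_zero.2 hs.symm
      rw [← mul_sub, sinc_of_ne_zero (mul_ne_zero hμ hzs)]
      field_simp
    rw [h1, intervalIntegral.integral_const_mul,
      intervalIntegral.integral_comp_sub_mul (f := sinc) hμ, smul_eq_mul, ← mul_assoc,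
      mul_inv_cancel₀ hμ, one_mul]
    exact sinc_int _ _

theorem near_bound : ∃ C : ℝ, 0 < C ∧ ∀ (μ z l : ℝ), 0 < l → z ≠ 1 →
    |∫ s in (1 - l)..1, sin (μ * (z - s)) / (z - s)| ≤ C * (√l / √|z - 1|) := by
  obtain ⟨C, hC, hb⟩ := sinc_int_bound
  refine ⟨2 * C + 2, by linarith, fun μ z l hl hz => ?_⟩
  have hd : 0 < |z - 1| := abs_pos.2 (sub_ne_zero.2 hz)
  have hsd : 0 < √|z - 1| := Real.sqrt_pos.2 hd
  have hsl : 0 < √l := Real.sqrt_pos.2 hl
  rcases le_or_gt |z - 1| (2 * l) with h | h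
  · have h1 := hb μ z (1 - l) 1 (by linarith)
    have h2 : 1 ≤ 2 * (√l / √|z - 1|) := by
      rw [← mul_div_assoc, one_le_div hsd]
      rw [Real.sqrt_le_left (by positivity)]
      rw [mul_pow, Real.sq_sqrt hl.le]
      linarith
    have h3 : 0 < √l / √|z - 1| := by positivity
    nlinarith
  · have h1 : ∀ s ∈ uIoc (1 - l) 1, ‖sin (μ * (z - s)) / (z - s)‖ ≤ 2 / |z - 1| := by
      intro s hs
      rw [uIoc_of_le (by linarith)] at hs
      have h2 : |z - 1| / 2 ≤ |z - s| := by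
        have h3 : |z - 1| ≤ |z - s| + |s - 1| := by
          calc |z - 1| = |(z - s) + (s - 1)| := by congr 1; ring
            _ ≤ _ := abs_add_le _ _
        have h4 : |s - 1| ≤ l := by
          rw [abs_le]; constructor <;> linarith [hs.1, hs.2]
        linarith
      have h5 : 0 < |z - s| := by linarith
      rw [norm_div, Real.norm_eq_abs, Real.norm_eq_abs, div_le_div_iff₀ h5 hd]
      have := abs_sin_le_one (μ * (z - s))
      nlinarith
    have h2 := intervalIntegral.norm_integral_le_of_norm_le_const h1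
    rw [Real.norm_eq_abs] at h2
    have h3 : |1 - (1 - l)| = l := by
      rw [sub_sub_cancel, abs_of_pos hl]
    rw [h3] at h2
    have h4 : l / |z - 1| ≤ √l / √|z - 1| := by
      rw [← Real.sqrt_div hl.le]
      apply Real.le_sqrt_of_sq_le
      have h5 : l / |z - 1| ≤ 1 := by rw [div_le_one hd]; linarith
      have h6 : 0 < l / |z - 1| := by positivity
      nlinarith
    have h5 : 0 < √l / √|z - 1| := by positivity
    calc |∫ s in (1 - l)..1, sin (μ * (z - s)) / (z - s)| ≤ 2 / |z - 1| * l := h2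
      _ = 2 * (l / |z - 1|) := by ring
      _ ≤ 2 * (√l / √|z - 1|) := by linarith
      _ ≤ _ := by nlinarith

end Pool.Agent.Helper187.Leg.T1
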