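import Pool.Agent.Helper187.Leg.Defs

open MeasureTheory Set Real Filter Topology
open scoped ENNReal

namespace Pool.Agent.Helper187.Leg.T2

open Pool.Agent.Helper187.Leg



theorem j1489_sin_nat (j : ℕ) (x : ℝ) : |sin (j * x)| ≤ j * |sin x| := by
  induction j with
  | zero => simp
  | succ n ih =>
    have h1 : sin (((n + 1 : ℕ) : ℝ) * x) = sin (n * x) * cos x + cos (n * x) * sin x := by
      push_cast
      rw [add_mul, one_mul, sin_add]
    rw [h1]
    have h2 : |sin (n * x) * cos x| ≤ n * |sin x| := by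
      rw [abs_mul]
      calc |sin (n * x)| * |cos x| ≤ |sin (n * x)| * 1 :=
            mul_le_mul_of_nonneg_left (abs_cos_le_one x) (abs_nonneg _)
        _ ≤ n * |sin x| := by linarith
    have h3 : |cos (n * x) * sin x| ≤ |sin x| := by
      rw [abs_mul]
      calc |cos (n * x)| * |sin x| ≤ 1 * |sin x| :=
            mul_le_mul_of_nonneg_right (abs_cos_le_one _) (abs_nonneg _)
        _ = |sin x| := one_mul _
    have h4 := abs_add_le (sin (n * x) * cos x) (cos (n * x) * sin x)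
    push_cast
    linarith

theorem j1489_sin_half (j : ℕ) (x : ℝ) : |sin (j * x)| ≤ j * (2 * |sin (x / 2)|) := by
  refine (j1489_sin_nat j x).trans ?_
  apply mul_le_mul_of_nonneg_left _ (Nat.cast_nonneg j)
  have h1 : sin x = 2 * sin (x / 2) * cos (x / 2) := by
    rw [← sin_two_mul]
    congr 1
    ring
  rw [h1, abs_mul, abs_mul, abs_two]
  have h2 := abs_cos_le_one (x / 2)
  have h3 := abs_nonneg (sin (x / 2))
  nlinarith

theorem j1489_dirichlet (n : ℕ) (x : ℝ) :
    2 * sin (x / 2) * ∑ j ∈ Finset.range n, sin ((j + 1) * x) =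
      cos (x / 2) - cos ((n + 1 / 2) * x) := by
  induction n with
  | zero =>
    simp only [Finset.range_zero, Finset.sum_empty, mul_zero, Nat.cast_zero, zero_add]
    rw [show (1 / 2 : ℝ) * x = x / 2 by ring, sub_self]
  | succ n ih =>
    rw [Finset.sum_range_succ, mul_add, ih]
    have h1 : cos ((n + 1 / 2) * x) = cos ((n + 1) * x) * cos (x / 2) +
        sin ((n + 1) * x) * sin (x / 2) := by
      rw [← cos_sub]
      congr 1
      ring
    have h2 : cos (((n + 1 : ℕ) + 1 / 2) * x) = cos ((n + 1) * x) * cos (x / 2) -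
        sin ((n + 1) * x) * sin (x / 2) := by
      rw [← cos_add]
      push_cast
      congr 1
      ring
    rw [h1, h2]
    ring

theorem j1489_abel (a b : ℕ → ℝ) (B : ℝ) (M : ℕ)
    (hA : ∀ n, M ≤ n → |∑ j ∈ Finset.Ico M n, a j| ≤ B) (hb : Antitone b) (hb0 : ∀ n, 0 ≤ b n)
    (n : ℕ) (hn : M ≤ n) : |∑ j ∈ Finset.Ico M n, a j * b j| ≤ B * b M := by
  have hB : 0 ≤ B := (abs_nonneg _).trans (hA M le_rfl)
  have key : ∀ n, M ≤ n → |∑ j ∈ Finset.Ico M n, a j * b j -
      (∑ j ∈ Finset.Ico M n, a j) * b n| ≤ B * (b M - b n) := by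
    intro n hn
    induction n, hn using Nat.le_induction with
    | base => simp
    | succ n hn ih =>
      have h1 : ∑ j ∈ Finset.Ico M (n + 1), a j * b j -
          (∑ j ∈ Finset.Ico M (n + 1), a j) * b (n + 1) =
          (∑ j ∈ Finset.Ico M n, a j * b j - (∑ j ∈ Finset.Ico M n, a j) * b n) +
          (∑ j ∈ Finset.Ico M (n + 1), a j) * (b n - b (n + 1)) := by
        rw [Finset.sum_Ico_succ_top hn, Finset.sum_Ico_succ_top hn]
        ring
      rw [h1]
      refine (abs_add_le _ _).trans ?_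
      have h2 : 0 ≤ b n - b (n + 1) := sub_nonneg.2 (hb (Nat.le_succ n))
      rw [abs_mul, abs_of_nonneg h2]
      have h3 := mul_le_mul_of_nonneg_right (hA (n + 1) (by omega)) h2
      linarith
  have h1 := key n hn
  have h2 : |(∑ j ∈ Finset.Ico M n, a j) * b n| ≤ B * b n := by
    rw [abs_mul, abs_of_nonneg (hb0 n)]
    exact mul_le_mul_of_nonneg_right (hA n hn) (hb0 n)
  have h3 := abs_add_le (∑ j ∈ Finset.Ico M n, a j * b j - (∑ j ∈ Finset.Ico M n, a j) * b n)
    ((∑ j ∈ Finset.Ico M n, a j) * b n)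
  rw [sub_add_cancel] at h3
  linarith

/-- uniform bound for the partial sums of the sawtooth series. -/
theorem sum_sin_bound : ∃ C : ℝ, 0 < C ∧ ∀ (m : ℕ) (μ : ℝ),
    |∑ j ∈ Finset.range m, sin ((j + 1) * μ) / (j + 1)| ≤ C := by
  refine ⟨5, by norm_num, ?_⟩
  intro m μ
  set s0 := |sin (μ / 2)| with hs0
  have hs0n : 0 ≤ s0 := abs_nonneg _
  have hterm : ∀ j : ℕ, |sin ((j + 1) * μ) / (j + 1)| ≤ 2 * s0 := by
    intro j
    have hj : (0 : ℝ) < (j : ℝ) + 1 := by positivity
    rw [abs_div, abs_of_pos hj, div_le_iff₀ hj]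
    have := j1489_sin_half (j + 1) μ
    push_cast at this
    linarith
  have hfirst : ∀ M : ℕ, |∑ j ∈ Finset.range M, sin ((j + 1) * μ) / (j + 1)| ≤ M * (2 * s0) := by
    intro M
    refine (Finset.abs_sum_le_sum_abs _ _).trans ?_
    refine (Finset.sum_le_sum fun j _ => hterm j).trans ?_
    simp
  rcases eq_or_lt_of_le hs0n with h0 | hpos
  · have := hfirst m
    rw [← h0] at this
    linarith
  · set M := ⌊1 / (2 * s0)⌋₊ with hM
    have hM1 : (M : ℝ) * (2 * s0) ≤ 1 := by
      have := Nat.floor_le (show 0 ≤ 1 / (2 * s0) by positivity)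
      rw [← hM, le_div_iff₀ (by positivity)] at this
      exact this
    have hM2 : 1 / ((M : ℝ) + 1) ≤ 2 * s0 := by
      have := Nat.lt_floor_add_one (1 / (2 * s0))
      rw [← hM, div_lt_iff₀ (by positivity)] at this
      rw [div_le_iff₀ (by positivity)]
      linarith
    rcases le_total m M with h | h
    · have h1 := hfirst m
      have h2 : (m : ℝ) * (2 * s0) ≤ M * (2 * s0) :=
        mul_le_mul_of_nonneg_right (by exact_mod_cast h) (by positivity)
      linarith
    · rw [← Finset.sum_range_add_sum_Ico _ h]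
      have hpart : ∀ n : ℕ, |∑ j ∈ Finset.range n, sin (((j : ℝ) + 1) * μ)| ≤ 1 / s0 := by
        intro n
        have h1 := j1489_dirichlet n μ
        rw [le_div_iff₀ hpos, hs0, ← abs_mul]
        have h2 : (∑ j ∈ Finset.range n, sin (((j : ℝ) + 1) * μ)) * sin (μ / 2) =
            (cos (μ / 2) - cos ((n + 1 / 2) * μ)) / 2 := by linarith
        rw [h2, abs_div, abs_two, div_le_one (by norm_num)]
        have h3 := abs_sub (cos (μ / 2)) (cos ((n + 1 / 2) * μ))
        have h4 := abs_cos_le_one (μ / 2)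
        have h5 := abs_cos_le_one ((n + 1 / 2) * μ)
        linarith
      have htail := j1489_abel (fun j => sin (((j : ℝ) + 1) * μ)) (fun j => 1 / ((j : ℝ) + 1))
        (2 / s0) M (by
          intro n hn
          rw [Finset.sum_Ico_eq_sub _ hn]
          have h1 := abs_sub (∑ j ∈ Finset.range n, sin (((j : ℝ) + 1) * μ))
            (∑ j ∈ Finset.range M, sin (((j : ℝ) + 1) * μ))
          have h2 := hpart n
          have h3 := hpart M
          have h4 : 2 / s0 = 1 / s0 + 1 / s0 := by ring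
          rw [h4]
          linarith) (by
          intro i j hij
          have : (i : ℝ) ≤ j := by exact_mod_cast hij
          exact one_div_le_one_div_of_le (by positivity) (by linarith)) (by
          intro n
          positivity) m h
      have h1 : ∑ j ∈ Finset.Ico M m, sin (((j : ℝ) + 1) * μ) * (1 / ((j : ℝ) + 1)) =
          ∑ j ∈ Finset.Ico M m, sin (((j : ℝ) + 1) * μ) / ((j : ℝ) + 1) := by
        apply Finset.sum_congr rfl
        intro j _
        ring
      rw [h1] at htail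
      have h2 : 2 / s0 * (1 / ((M : ℝ) + 1)) ≤ 4 := by
        calc 2 / s0 * (1 / ((M : ℝ) + 1)) ≤ 2 / s0 * (2 * s0) :=
              mul_le_mul_of_nonneg_left hM2 (by positivity)
          _ = 4 := by field_simp; norm_num
      have h3 := hfirst M
      have h4 := abs_add_le (∑ j ∈ Finset.range M, sin (((j : ℝ) + 1) * μ) / ((j : ℝ) + 1))
        (∑ j ∈ Finset.Ico M m, sin (((j : ℝ) + 1) * μ) / ((j : ℝ) + 1))
      linarith

theorem j1489_sqrt_sum (m n : ℕ) : ∑ i ∈ Finset.Ioc m n, 1 / √(i : ℝ) ≤ 2 * √(n : ℝ) := by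
  induction n with
  | zero => simp
  | succ n ih =>
    rcases Nat.lt_or_ge n m with h | h
    · rw [Finset.Ioc_eq_empty (by omega)]
      simp
    · rw [Finset.sum_Ioc_succ_top h]
      have h0 : (0 : ℝ) ≤ n := Nat.cast_nonneg n
      have h1 : √((n + 1 : ℕ) : ℝ) ^ 2 = n + 1 := by
        rw [Real.sq_sqrt (by positivity)]
        push_cast
        ring
      have h2 : √(n : ℝ) ^ 2 = n := Real.sq_sqrt h0
      have h3 : 0 < √((n + 1 : ℕ) : ℝ) := Real.sqrt_pos.2 (by positivity)
      have h4 : 0 ≤ √(n : ℝ) := Real.sqrt_nonneg _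
      have h5 : √(n : ℝ) ≤ √((n + 1 : ℕ) : ℝ) := Real.sqrt_le_sqrt (by push_cast; linarith)
      have h6 : 1 / √((n + 1 : ℕ) : ℝ) ≤ 2 * √((n + 1 : ℕ) : ℝ) - 2 * √(n : ℝ) := by
        rw [div_le_iff₀ h3]
        nlinarith [sq_nonneg (√((n + 1 : ℕ) : ℝ) - √(n : ℝ))]
      linarith

theorem j1489_harm (m n : ℕ) :
    ∑ i ∈ Finset.Ioc m n, 1 / (i : ℝ) ≤ 2 * √((n : ℝ) / (m + 1)) := by
  have hm : (0 : ℝ) < √((m : ℝ) + 1) := Real.sqrt_pos.2 (by positivity)
  have h1 : ∑ i ∈ Finset.Ioc m n, 1 / (i : ℝ) ≤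
      ∑ i ∈ Finset.Ioc m n, (1 / √((m : ℝ) + 1)) * (1 / √(i : ℝ)) := by
    apply Finset.sum_le_sum
    intro i hi
    rw [Finset.mem_Ioc] at hi
    have hi0 : (0 : ℝ) < i := by
      have : 0 < i := by omega
      exact_mod_cast this
    have hi1 : (m : ℝ) + 1 ≤ i := by exact_mod_cast hi.1
    have h2 : √((m : ℝ) + 1) ≤ √(i : ℝ) := Real.sqrt_le_sqrt hi1
    have h3 : 0 < √(i : ℝ) := Real.sqrt_pos.2 hi0
    have h4 : √(i : ℝ) * √(i : ℝ) = i := Real.mul_self_sqrt hi0.le
    rw [one_div_mul_one_div]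
    apply one_div_le_one_div_of_le (by positivity)
    calc √((m : ℝ) + 1) * √(i : ℝ) ≤ √(i : ℝ) * √(i : ℝ) :=
          mul_le_mul_of_nonneg_right h2 h3.le
      _ = i := h4
  refine h1.trans ?_
  rw [← Finset.mul_sum, Real.sqrt_div (Nat.cast_nonneg n)]
  have h2 := j1489_sqrt_sum m n
  calc (1 / √((m : ℝ) + 1)) * ∑ i ∈ Finset.Ioc m n, 1 / √(i : ℝ)
      ≤ (1 / √((m : ℝ) + 1)) * (2 * √(n : ℝ)) := mul_le_mul_of_nonneg_left h2 (by positivity)
    _ = 2 * (√(n : ℝ) / √((m : ℝ) + 1)) := by ring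

theorem j1489_sq (a b : ℕ) (ha : 2 ≤ a) : ∑ i ∈ Finset.Icc a b, 2 / (i : ℝ) ^ 2 ≤ 2 := by
  have h1 : ∀ b : ℕ, ∑ i ∈ Finset.Icc 2 (b + 1), 1 / (i : ℝ) ^ 2 ≤ 1 - 1 / ((b : ℝ) + 1) := by
    intro b
    induction b with
    | zero => simp
    | succ b ih =>
      rw [Finset.sum_Icc_succ_top (by omega)]
      have hb : (0 : ℝ) < (b : ℝ) + 1 := by positivity
      have h2 : 1 / (((b + 1 + 1 : ℕ) : ℝ)) ^ 2 ≤ 1 / ((b : ℝ) + 1) - 1 / (((b + 1 : ℕ) : ℝ) + 1) := by
        push_cast
        rw [div_sub_div _ _ (by positivity) (by positivity)]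
        rw [div_le_div_iff₀ (by positivity) (by positivity)]
        nlinarith
      linarith
  have h2 : ∑ i ∈ Finset.Icc a b, 2 / (i : ℝ) ^ 2 ≤ ∑ i ∈ Finset.Icc 2 (b + 1), 2 / (i : ℝ) ^ 2 := by
    apply Finset.sum_le_sum_of_subset_of_nonneg
    · intro i hi
      rw [Finset.mem_Icc] at hi ⊢
      omega
    · intro i _ _
      positivity
  have h3 : ∑ i ∈ Finset.Icc 2 (b + 1), 2 / (i : ℝ) ^ 2 =
      2 * ∑ i ∈ Finset.Icc 2 (b + 1), 1 / (i : ℝ) ^ 2 := by
    rw [Finset.mul_sum]
    apply Finset.sum_congr rfl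
    intro i _
    ring
  have h4 := h1 b
  have h5 : (0 : ℝ) ≤ 1 / ((b : ℝ) + 1) := by positivity
  linarith

theorem j1489_sinpart (C1 : ℝ) (hC : ∀ (m : ℕ) (μ : ℝ),
    |∑ j ∈ Finset.range m, sin ((j + 1) * μ) / (j + 1)| ≤ C1) (a b : ℕ) (ha : 1 ≤ a) (μ : ℝ) :
    |∑ i ∈ Finset.Icc a b, sin (i * μ) / i| ≤ 2 * C1 := by
  have hC0 : 0 ≤ C1 := (abs_nonneg _).trans (hC 0 0)
  rcases Nat.lt_or_ge b a with h | h
  · rw [Finset.Icc_eq_empty (by omega)]
    simp only [Finset.sum_empty, abs_zero]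
    linarith
  · obtain ⟨a', rfl⟩ : ∃ a', a = a' + 1 := ⟨a - 1, by omega⟩
    have h1 : ∑ i ∈ Finset.Icc (a' + 1) b, sin (i * μ) / i =
        ∑ j ∈ Finset.Ico a' b, sin ((j + 1) * μ) / (j + 1) := by
      have := Finset.sum_Ico_add' (fun i : ℕ => sin ((i : ℝ) * μ) / (i : ℝ)) a' b 1
      simp only [Nat.cast_add, Nat.cast_one] at this
      rw [this]
      apply Finset.sum_congr _ (fun _ _ => rfl)
      ext i
      simp only [Finset.mem_Icc, Finset.mem_Ico]
      omega
    rw [h1, Finset.sum_Ico_eq_sub _ (by omega)]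
    have h2 := hC b μ
    have h3 := hC a' μ
    have h4 := abs_sub (∑ j ∈ Finset.range b, sin (((j : ℝ) + 1) * μ) / ((j : ℝ) + 1))
      (∑ j ∈ Finset.range a', sin (((j : ℝ) + 1) * μ) / ((j : ℝ) + 1))
    linarith

/-- the far terms for a fixed `z` -/
theorem j1489_far (C1 : ℝ) (hC : ∀ (m : ℕ) (μ : ℝ),
    |∑ j ∈ Finset.range m, sin ((j + 1) * μ) / (j + 1)| ≤ C1) (μ z : ℝ) (hz : |z| ≤ 1)
    (a b a' b' : ℕ) (ha : 2 ≤ a) (ha' : 2 ≤ a') (Q : ℝ)
    (hQ : |∑ i ∈ Finset.Icc a b, cos (i * μ) / i - ∑ i ∈ Finset.Icc a' b', cos (i * μ) / i| ≤ Q) :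
    |∑ i ∈ Finset.Icc a b, sin (μ * (z - i)) / (z - i) +
      ∑ i ∈ Finset.Icc a' b', sin (μ * (z + i)) / (z + i)| ≤ Q + 4 * C1 + 4 := by
  have hpos : ∀ i : ℕ, 2 ≤ i → |sin (μ * (z - i)) / (z - i) -
      (-(sin (μ * z) * (cos (i * μ) / i)) + cos (μ * z) * (sin (i * μ) / i))| ≤ 2 / (i : ℝ) ^ 2 := by
    intro i hi
    have hi2 : (2 : ℝ) ≤ i := by exact_mod_cast hi
    rw [abs_le] at hz
    have h1 : z - i ≠ 0 := by
      intro h
      linarith
    have h2 : (i : ℝ) ≠ 0 := by linarith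
    have h3 : sin (μ * (z - i)) / (z - i) -
      (-(sin (μ * z) * (cos (i * μ) / i)) + cos (μ * z) * (sin (i * μ) / i)) =
        sin (μ * (z - i)) * (z / (i * (z - i))) := by
      have h4 : sin (μ * (z - i)) = sin (μ * z) * cos (i * μ) - cos (μ * z) * sin (i * μ) := by
        rw [← sin_sub]
        congr 1
        ring
      have h5 : -(sin (μ * z) * (cos (i * μ) / i)) + cos (μ * z) * (sin (i * μ) / i) =
          - (sin (μ * (z - i)) / i) := by
        rw [h4]
        ring
      rw [h5]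
      field_simp
      ring
    rw [h3, abs_mul, abs_div, abs_mul, abs_of_pos (show (0 : ℝ) < i by linarith)]
    have h6 : (i : ℝ) / 2 ≤ |z - i| := by
      rw [abs_of_neg (by linarith)]
      linarith
    have h7 : |z| ≤ 1 := by
      rw [abs_le]
      exact hz
    have h8 : |z| / (i * |z - i|) ≤ 1 / (i * (i / 2)) := by
      apply div_le_div₀ (by norm_num) h7 (by positivity)
      exact mul_le_mul_of_nonneg_left h6 (by linarith)
    have h9 := abs_sin_le_one (μ * (z - i))
    calc |sin (μ * (z - i))| * (|z| / (i * |z - i|)) ≤ 1 * (1 / (i * (i / 2))) :=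
          mul_le_mul h9 h8 (by positivity) (by norm_num)
      _ = 2 / (i : ℝ) ^ 2 := by
        field_simp
  have hneg : ∀ i : ℕ, 2 ≤ i → |sin (μ * (z + i)) / (z + i) -
      ((sin (μ * z) * (cos (i * μ) / i)) + cos (μ * z) * (sin (i * μ) / i))| ≤ 2 / (i : ℝ) ^ 2 := by
    intro i hi
    have hi2 : (2 : ℝ) ≤ i := by exact_mod_cast hi
    rw [abs_le] at hz
    have h1 : z + i ≠ 0 := by
      intro h
      linarith
    have h2 : (i : ℝ) ≠ 0 := by linarith
    have h3 : sin (μ * (z + i)) / (z + i) -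
      ((sin (μ * z) * (cos (i * μ) / i)) + cos (μ * z) * (sin (i * μ) / i)) =
        -(sin (μ * (z + i)) * (z / (i * (z + i)))) := by
      have h4 : sin (μ * (z + i)) = sin (μ * z) * cos (i * μ) + cos (μ * z) * sin (i * μ) := by
        rw [← sin_add]
        congr 1
        ring
      have h5 : (sin (μ * z) * (cos (i * μ) / i)) + cos (μ * z) * (sin (i * μ) / i) =
          (sin (μ * (z + i)) / i) := by
        rw [h4]
        ring
      rw [h5]
      field_simp
      ring
    rw [h3, abs_neg, abs_mul, abs_div, abs_mul, abs_of_pos (show (0 : ℝ) < i by linarith)]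
    have h6 : (i : ℝ) / 2 ≤ |z + i| := by
      rw [abs_of_pos (by linarith)]
      linarith
    have h7 : |z| ≤ 1 := by
      rw [abs_le]
      exact hz
    have h8 : |z| / (i * |z + i|) ≤ 1 / (i * (i / 2)) := by
      apply div_le_div₀ (by norm_num) h7 (by positivity)
      exact mul_le_mul_of_nonneg_left h6 (by linarith)
    have h9 := abs_sin_le_one (μ * (z + i))
    calc |sin (μ * (z + i))| * (|z| / (i * |z + i|)) ≤ 1 * (1 / (i * (i / 2))) :=
          mul_le_mul h9 h8 (by positivity) (by norm_num)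
      _ = 2 / (i : ℝ) ^ 2 := by
        field_simp
  have hsumpos : |∑ i ∈ Finset.Icc a b, (sin (μ * (z - i)) / (z - i) -
      (-(sin (μ * z) * (cos (i * μ) / i)) + cos (μ * z) * (sin (i * μ) / i)))| ≤ 2 := by
    refine (Finset.abs_sum_le_sum_abs _ _).trans ?_
    refine (Finset.sum_le_sum fun i hi => hpos i ?_).trans (j1489_sq a b ha)
    rw [Finset.mem_Icc] at hi
    omega
  have hsumneg : |∑ i ∈ Finset.Icc a' b', (sin (μ * (z + i)) / (z + i) -
      ((sin (μ * z) * (cos (i * μ) / i)) + cos (μ * z) * (sin (i * μ) / i)))| ≤ 2 := by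
    refine (Finset.abs_sum_le_sum_abs _ _).trans ?_
    refine (Finset.sum_le_sum fun i hi => hneg i ?_).trans (j1489_sq a' b' ha')
    rw [Finset.mem_Icc] at hi
    omega
  have hs1 := j1489_sinpart C1 hC a b (by omega) μ
  have hs2 := j1489_sinpart C1 hC a' b' (by omega) μ
  rw [Finset.sum_sub_distrib, Finset.sum_add_distrib, Finset.sum_neg_distrib, ← Finset.mul_sum,
    ← Finset.mul_sum] at hsumpos
  rw [Finset.sum_sub_distrib, Finset.sum_add_distrib, ← Finset.mul_sum,
    ← Finset.mul_sum] at hsumneg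
  set F1 := ∑ i ∈ Finset.Icc a b, sin (μ * (z - i)) / (z - i)
  set F2 := ∑ i ∈ Finset.Icc a' b', sin (μ * (z + i)) / (z + i)
  set c1 := ∑ i ∈ Finset.Icc a b, cos (i * μ) / i
  set c2 := ∑ i ∈ Finset.Icc a' b', cos (i * μ) / i
  set s1 := ∑ i ∈ Finset.Icc a b, sin (i * μ) / i
  set s2 := ∑ i ∈ Finset.Icc a' b', sin (i * μ) / i
  have hS := abs_sin_le_one (μ * z)
  have hCo := abs_cos_le_one (μ * z)
  have e1 : |sin (μ * z) * (c1 - c2)| ≤ Q := by
    rw [abs_mul]
    calc |sin (μ * z)| * |c1 - c2| ≤ 1 * |c1 - c2| :=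
          mul_le_mul_of_nonneg_right hS (abs_nonneg _)
      _ ≤ Q := by linarith
  have e2 : |cos (μ * z) * s1| ≤ 2 * C1 := by
    rw [abs_mul]
    calc |cos (μ * z)| * |s1| ≤ 1 * |s1| := mul_le_mul_of_nonneg_right hCo (abs_nonneg _)
      _ ≤ 2 * C1 := by linarith
  have e3 : |cos (μ * z) * s2| ≤ 2 * C1 := by
    rw [abs_mul]
    calc |cos (μ * z)| * |s2| ≤ 1 * |s2| := mul_le_mul_of_nonneg_right hCo (abs_nonneg _)
      _ ≤ 2 * C1 := by linarith
  rw [abs_le] at hsumpos hsumneg e1 e2 e3 ⊢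
  constructor <;> nlinarith

theorem j1489_cos_le (S : Finset ℕ) (μ : ℝ) :
    |∑ i ∈ S, cos (i * μ) / i| ≤ ∑ i ∈ S, 1 / (i : ℝ) := by
  refine (Finset.abs_sum_le_sum_abs _ _).trans (Finset.sum_le_sum fun i _ => ?_)
  rw [abs_div, abs_of_nonneg (show (0 : ℝ) ≤ (i : ℝ) from Nat.cast_nonneg i)]
  exact div_le_div_of_nonneg_right (abs_cos_le_one _) (Nat.cast_nonneg i)

theorem j1489_harm_mono (S : Finset ℕ) (m n : ℕ) (hS : S ⊆ Finset.Ioc m n) :
    ∑ i ∈ S, 1 / (i : ℝ) ≤ 2 * √((n : ℝ) / (m + 1)) :=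
  (Finset.sum_le_sum_of_subset_of_nonneg hS (fun i _ _ => by positivity)).trans (j1489_harm m n)

theorem j1489_diff (m n : ℕ) (hmn : m ≤ n) (μ : ℝ) :
    |∑ i ∈ Finset.Icc 2 n, cos (i * μ) / i - ∑ i ∈ Finset.Icc 2 m, cos (i * μ) / i| ≤
      2 * √((n : ℝ) / (m + 1)) := by
  have hsub : Finset.Icc 2 m ⊆ Finset.Icc 2 n := Finset.Icc_subset_Icc_right hmn
  have h1 := Finset.sum_sdiff (f := fun i : ℕ => cos (i * μ) / (i : ℝ)) hsub
  have h2 : ∑ i ∈ Finset.Icc 2 n, cos (i * μ) / i - ∑ i ∈ Finset.Icc 2 m, cos (i * μ) / i =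
      ∑ i ∈ Finset.Icc 2 n \ Finset.Icc 2 m, cos (i * μ) / i := by
    linarith
  rw [h2]
  refine (j1489_cos_le _ μ).trans (j1489_harm_mono _ m n ?_)
  intro i hi
  rw [Finset.mem_sdiff, Finset.mem_Icc, Finset.mem_Icc] at hi
  rw [Finset.mem_Ioc]
  omega

/-- the bound for the cosine part -/
theorem j1489_Q (P : ℕ) (y : ℝ) (k : ℤ) (μ : ℝ) (hP : 0 < P) (hk1 : (k : ℝ) < y)
    (hk2 : y < k + 1) (hy1 : -P < y) (hy2 : y < 2 * P) :
    |∑ i ∈ Finset.Icc (max 2 (-k).toNat) (P - 1 - k : ℤ).toNat, cos (i * μ) / i -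
      ∑ i ∈ Finset.Icc (max 2 (k - P + 1 : ℤ).toNat) k.toNat, cos (i * μ) / i| ≤
      4 * (√(P / |y|) + √(P / |y - P|)) := by
  have hPr : (0 : ℝ) < P := by exact_mod_cast hP
  have hU : 0 ≤ √(P / |y|) := Real.sqrt_nonneg _
  have hV : 0 ≤ √(P / |y - P|) := Real.sqrt_nonneg _
  have hdouble : ∀ x : ℝ, 0 ≤ x → √(2 * x) ≤ 2 * √x := by
    intro x hx
    rw [Real.sqrt_le_left (by positivity)]
    rw [mul_pow, Real.sq_sqrt hx]
    linarith
  rcases lt_or_ge k 0 with hk0 | hk0
  · -- k < 0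
    have e1 : k.toNat = 0 := by omega
    have e2 : Finset.Icc (max 2 (k - P + 1 : ℤ).toNat) k.toNat = ∅ := by
      apply Finset.Icc_eq_empty
      omega
    rw [e2, Finset.sum_empty, sub_zero]
    obtain ⟨q, hq⟩ : ∃ q : ℕ, k = -(q : ℤ) - 1 := ⟨(-k - 1).toNat, by omega⟩
    have hkr : (k : ℝ) = -(q : ℝ) - 1 := by rw [hq]; push_cast; ring
    refine (j1489_cos_le _ μ).trans ((j1489_harm_mono _ q (P - 1 - k : ℤ).toNat ?_).trans ?_)
    · intro i hi
      rw [Finset.mem_Icc] at hi
      rw [Finset.mem_Ioc]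
      omega
    · have hy0 : y < 0 := by
        have : (k : ℝ) + 1 ≤ 0 := by exact_mod_cast hk0
        linarith
      have habs : |y| = -y := abs_of_neg hy0
      have hkP : -(P : ℤ) ≤ k := by
        have h1 : (-(P : ℤ) : ℝ) < (k : ℝ) + 1 := by push_cast; linarith
        have h2 : (-(P : ℤ)) < k + 1 := by exact_mod_cast h1
        omega
      have hb : (((P - 1 - k : ℤ).toNat : ℕ) : ℝ) ≤ 2 * P := by
        have : (P - 1 - k : ℤ).toNat ≤ 2 * P := by omega
        exact_mod_cast this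
      have h1 : (((P - 1 - k : ℤ).toNat : ℕ) : ℝ) / ((q : ℝ) + 1) ≤ 2 * (P / |y|) := by
        rw [← mul_div_assoc]
        apply div_le_div₀ (by positivity) hb (by rw [habs]; linarith)
        rw [habs]
        linarith
      have h2 := Real.sqrt_le_sqrt h1
      have h3 := hdouble (P / |y|) (by positivity)
      linarith
  · rcases lt_or_ge k (P : ℤ) with hkP | hkP
    · -- 0 ≤ k < P
      have e1 : max 2 (-k).toNat = 2 := by omega
      have e2 : max 2 (k - P + 1 : ℤ).toNat = 2 := by omega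
      rw [e1, e2]
      have hy0 : 0 < y := by
        have : (0 : ℝ) ≤ k := by exact_mod_cast hk0
        linarith
      have hyP : y < P := by
        have : (k : ℝ) + 1 ≤ P := by exact_mod_cast hkP
        linarith
      have habs1 : |y| = y := abs_of_pos hy0
      have habs2 : |y - P| = P - y := by rw [abs_of_neg (by linarith)]; ring
      have hkn : ((k.toNat : ℕ) : ℝ) = k := by
        have : ((k.toNat : ℕ) : ℤ) = k := by omega
        exact_mod_cast this
      have hbn : (((P - 1 - k : ℤ).toNat : ℕ) : ℝ) = P - 1 - k := by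
        have : (((P - 1 - k : ℤ).toNat : ℕ) : ℤ) = P - 1 - k := by omega
        exact_mod_cast this
      have hk0r : (0 : ℝ) ≤ k := by exact_mod_cast hk0
      rcases le_total k.toNat (P - 1 - k : ℤ).toNat with h | h
      · refine (j1489_diff _ _ h μ).trans ?_
        have h1 : (((P - 1 - k : ℤ).toNat : ℕ) : ℝ) / (((k.toNat : ℕ) : ℝ) + 1) ≤ P / |y| := by
          rw [hkn, hbn, habs1]
          apply div_le_div₀ hPr.le (by linarith) hy0 (by linarith)
        have h2 := Real.sqrt_le_sqrt h1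
        linarith
      · rw [abs_sub_comm]
        refine (j1489_diff _ _ h μ).trans ?_
        have h1 : ((k.toNat : ℕ) : ℝ) / ((((P - 1 - k : ℤ).toNat : ℕ) : ℝ) + 1) ≤ P / |y - P| := by
          rw [hkn, hbn, habs2]
          apply div_le_div₀ hPr.le (by linarith) (by linarith) (by linarith)
        have h2 := Real.sqrt_le_sqrt h1
        linarith
    · -- P ≤ k
      have e2 : Finset.Icc (max 2 (-k).toNat) (P - 1 - k : ℤ).toNat = ∅ := by
        apply Finset.Icc_eq_empty
        omega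
      rw [e2, Finset.sum_empty, zero_sub, abs_neg]
      obtain ⟨q, hq⟩ : ∃ q : ℕ, k = (q : ℤ) + P := ⟨(k - P).toNat, by omega⟩
      have hkr : (k : ℝ) = (q : ℝ) + P := by rw [hq]; push_cast; ring
      refine (j1489_cos_le _ μ).trans ((j1489_harm_mono _ q k.toNat ?_).trans ?_)
      · intro i hi
        rw [Finset.mem_Icc] at hi
        rw [Finset.mem_Ioc]
        omega
      · have hq0 : (0 : ℝ) ≤ q := Nat.cast_nonneg q
        have hy0 : 0 < y - P := by linarith
        have habs : |y - P| = y - P := abs_of_pos hy0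
        have hkn : ((k.toNat : ℕ) : ℝ) = k := by
          have : ((k.toNat : ℕ) : ℤ) = k := by omega
          exact_mod_cast this
        have h1 : ((k.toNat : ℕ) : ℝ) / ((q : ℝ) + 1) ≤ 2 * (P / |y - P|) := by
          rw [← mul_div_assoc, hkn, habs]
          apply div_le_div₀ (by positivity) (by linarith) hy0 (by linarith)
        have h2 := Real.sqrt_le_sqrt h1
        have h3 := hdouble (P / |y - P|) (by positivity)
        linarith

/-- splitting of the sum over `j` -/
theorem j1489_split (P : ℕ) (k : ℤ) (f : ℕ → ℝ) :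
    ∑ j ∈ Finset.range P, f j =
      ∑ j ∈ (Finset.range P).filter (fun j : ℕ => |(j : ℤ) - k| ≤ 1), f j +
      (∑ i ∈ Finset.Icc (max 2 (-k).toNat) (P - 1 - k : ℤ).toNat, f ((i : ℤ) + k).toNat +
      ∑ i ∈ Finset.Icc (max 2 (k - P + 1 : ℤ).toNat) k.toNat, f (k - (i : ℤ)).toNat) := by
  rw [← Finset.sum_filter_add_sum_filter_not (Finset.range P)
    (fun j : ℕ => |(j : ℤ) - k| ≤ 1)]
  congr 1
  rw [← Finset.sum_filter_add_sum_filter_not
    ((Finset.range P).filter (fun j : ℕ => ¬ |(j : ℤ) - k| ≤ 1)) (fun j : ℕ => 0 < (j : ℤ) - k)]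
  congr 1
  · apply Finset.sum_nbij' (fun j : ℕ => ((j : ℤ) - k).toNat) (fun i : ℕ => ((i : ℤ) + k).toNat)
    · intro j hj
      rw [Finset.mem_filter, Finset.mem_filter, Finset.mem_range, abs_le] at hj
      rw [Finset.mem_Icc]
      omega
    · intro i hi
      rw [Finset.mem_Icc] at hi
      rw [Finset.mem_filter, Finset.mem_filter, Finset.mem_range, abs_le]
      omega
    · intro j hj
      rw [Finset.mem_filter, Finset.mem_filter, Finset.mem_range, abs_le] at hj
      omega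
    · intro i hi
      rw [Finset.mem_Icc] at hi
      omega
    · intro j hj
      rw [Finset.mem_filter, Finset.mem_filter, Finset.mem_range, abs_le] at hj
      congr 1
      omega
  · apply Finset.sum_nbij' (fun j : ℕ => (k - (j : ℤ)).toNat) (fun i : ℕ => (k - (i : ℤ)).toNat)
    · intro j hj
      rw [Finset.mem_filter, Finset.mem_filter, Finset.mem_range, abs_le] at hj
      rw [Finset.mem_Icc]
      omega
    · intro i hi
      rw [Finset.mem_Icc] at hi
      rw [Finset.mem_filter, Finset.mem_filter, Finset.mem_range, abs_le]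
      omega
    · intro j hj
      rw [Finset.mem_filter, Finset.mem_filter, Finset.mem_range, abs_le] at hj
      omega
    · intro i hi
      rw [Finset.mem_Icc] at hi
      omega
    · intro j hj
      rw [Finset.mem_filter, Finset.mem_filter, Finset.mem_range, abs_le] at hj
      congr 1
      omega

theorem block_sum_bound
    (near_bound : ∃ C : ℝ, 0 < C ∧ ∀ (μ z l : ℝ), 0 < l → z ≠ 1 →
      |∫ s in (1 - l)..1, sin (μ * (z - s)) / (z - s)| ≤ C * (√l / √|z - 1|)) :
    ∃ C : ℝ, 0 < C ∧ ∀ (P : ℕ) (μ l y : ℝ), 0 < P → 0 < l → l ≤ 1 →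
    -P < y → y < 2 * P → (∀ k : ℤ, y ≠ k) →
    |∑ j ∈ Finset.range P, ∫ s in (1 - l)..1, sin (μ * (y - j - s)) / (y - j - s)| ≤
      C * √l * (√(P / |y|) + √(P / |y - P|) + 1 / √(Int.fract y) + 1 / √(1 - Int.fract y)) := by
  obtain ⟨C0, hC0, hnear⟩ := near_bound
  obtain ⟨C1, hC1, hsin⟩ := sum_sin_bound
  refine ⟨3 * C0 + 4 + (4 * C1 + 4), by positivity, ?_⟩
  intro P μ l y hP hl hl1 hy1 hy2 hyk
  set k : ℤ := ⌊y⌋ with hk
  set θ : ℝ := Int.fract y with hθ
  have hyθ : y = k + θ := (Int.floor_add_fract y).symm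
  have hθ1 : θ < 1 := Int.fract_lt_one y
  have hθ0 : 0 < θ := by
    rcases eq_or_lt_of_le (Int.fract_nonneg y) with h | h
    · exact absurd (by rw [hyθ, hθ, ← h, add_zero]) (hyk k)
    · exact h
  set U := √(P / |y|) with hU
  set V := √(P / |y - P|) with hV
  have hU0 : 0 ≤ U := Real.sqrt_nonneg _
  have hV0 : 0 ≤ V := Real.sqrt_nonneg _
  have hl0 : 0 < √l := Real.sqrt_pos.2 hl
  have hll : l ≤ √l := by
    have h1 : √l * √l = l := Real.mul_self_sqrt hl.le
    have h2 : √l ≤ 1 := (Real.sqrt_le_sqrt hl1).trans_eq Real.sqrt_one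
    nlinarith
  have hsθ : 0 < √θ := Real.sqrt_pos.2 hθ0
  have hsθ' : 0 < √(1 - θ) := Real.sqrt_pos.2 (by linarith)
  have hW1 : 1 ≤ 1 / √θ := by
    rw [le_div_iff₀ hsθ, one_mul]
    exact (Real.sqrt_le_sqrt hθ1.le).trans_eq Real.sqrt_one
  have hW2 : 0 ≤ 1 / √(1 - θ) := by positivity
  rw [j1489_split P k (fun j => ∫ s in (1 - l)..1, sin (μ * (y - j - s)) / (y - j - s))]
  -- near part
  have hN : |∑ j ∈ (Finset.range P).filter (fun j : ℕ => |(j : ℤ) - k| ≤ 1),
      ∫ s in (1 - l)..1, sin (μ * (y - j - s)) / (y - j - s)| ≤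
      3 * (C0 * (√l * (1 / √θ + 1 / √(1 - θ)))) := by
    have hcard : ((Finset.range P).filter (fun j : ℕ => |(j : ℤ) - k| ≤ 1)).card ≤ 3 := by
      have h1 : ((Finset.range P).filter (fun j : ℕ => |(j : ℤ) - k| ≤ 1)).card ≤
          (Finset.Icc (k - 1) (k + 1)).card := by
        apply Finset.card_le_card_of_injOn (fun j : ℕ => (j : ℤ))
        · intro j hj
          simp only [Finset.coe_filter, Finset.mem_range, mem_ofPred_eq, abs_le] at hj
          simp only [Finset.coe_Icc, Set.mem_Icc]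
          omega
        · intro a _ b _ hab
          have hab' : (a : ℤ) = (b : ℤ) := hab
          exact_mod_cast hab'
      rw [Int.card_Icc] at h1
      omega
    have hterm : ∀ j ∈ (Finset.range P).filter (fun j : ℕ => |(j : ℤ) - k| ≤ 1),
        |∫ s in (1 - l)..1, sin (μ * (y - j - s)) / (y - j - s)| ≤
        C0 * (√l * (1 / √θ + 1 / √(1 - θ))) := by
      intro j hj
      rw [Finset.mem_filter, abs_le] at hj
      have hne : y - j ≠ 1 := by
        intro h
        apply hyk ((j : ℤ) + 1)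
        push_cast
        linarith
      refine (hnear μ (y - j) l hl hne).trans ?_
      apply mul_le_mul_of_nonneg_left _ hC0.le
      rw [mul_add, mul_one_div, mul_one_div]
      have hcase : θ ≤ |y - j - 1| ∨ 1 - θ ≤ |y - j - 1| := by
        rcases (by omega : (j : ℤ) - k = -1 ∨ (j : ℤ) - k = 0 ∨ (j : ℤ) - k = 1) with h | h | h
        · left
          have h' : (j : ℝ) - k = -1 := by exact_mod_cast h
          have : y - j - 1 = θ := by linarith
          rw [this]
          exact le_abs_self θ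
        · right
          have h' : (j : ℝ) - k = 0 := by exact_mod_cast h
          have : y - j - 1 = -(1 - θ) := by linarith
          rw [this, abs_neg]
          exact le_abs_self _
        · right
          have h' : (j : ℝ) - k = 1 := by exact_mod_cast h
          have : y - j - 1 = -(2 - θ) := by linarith
          rw [this, abs_neg, abs_of_pos (by linarith)]
          linarith
      rcases hcase with h | h
      · have h1 : √l / √|y - j - 1| ≤ √l / √θ :=
          div_le_div_of_nonneg_left hl0.le hsθ (Real.sqrt_le_sqrt h)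
        have h2 : 0 ≤ √l / √(1 - θ) := by positivity
        linarith
      · have h1 : √l / √|y - j - 1| ≤ √l / √(1 - θ) :=
          div_le_div_of_nonneg_left hl0.le hsθ' (Real.sqrt_le_sqrt h)
        have h2 : 0 ≤ √l / √θ := by positivity
        linarith
    refine (Finset.abs_sum_le_sum_abs _ _).trans ((Finset.sum_le_sum hterm).trans ?_)
    rw [Finset.sum_const, nsmul_eq_mul]
    apply mul_le_mul_of_nonneg_right _ (by positivity)
    exact_mod_cast hcard
  -- far part
  have hF : |∑ i ∈ Finset.Icc (max 2 (-k).toNat) (P - 1 - k : ℤ).toNat,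
      (∫ s in (1 - l)..1, sin (μ * (y - (((i : ℤ) + k).toNat : ℕ) - s)) /
        (y - (((i : ℤ) + k).toNat : ℕ) - s)) +
      ∑ i ∈ Finset.Icc (max 2 (k - P + 1 : ℤ).toNat) k.toNat,
      (∫ s in (1 - l)..1, sin (μ * (y - ((k - (i : ℤ)).toNat : ℕ) - s)) /
        (y - ((k - (i : ℤ)).toNat : ℕ) - s))| ≤ (4 * (U + V) + 4 * C1 + 4) * l := by
    have hp : ∀ i ∈ Finset.Icc (max 2 (-k).toNat) (P - 1 - k : ℤ).toNat,
        (∫ s in (1 - l)..1, sin (μ * (y - (((i : ℤ) + k).toNat : ℕ) - s)) /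
        (y - (((i : ℤ) + k).toNat : ℕ) - s)) =
        ∫ s in (1 - l)..1, sin (μ * ((θ - s) - i)) / ((θ - s) - i) := by
      intro i hi
      rw [Finset.mem_Icc] at hi
      have h1 : ((((i : ℤ) + k).toNat : ℕ) : ℤ) = i + k := by omega
      have h2 : ((((i : ℤ) + k).toNat : ℕ) : ℝ) = i + k := by exact_mod_cast h1
      rw [h2]
      congr 1
      funext s
      rw [show y - ((i : ℝ) + k) - s = (θ - s) - i by rw [hyθ]; ring]
    have hm : ∀ i ∈ Finset.Icc (max 2 (k - P + 1 : ℤ).toNat) k.toNat,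
        (∫ s in (1 - l)..1, sin (μ * (y - ((k - (i : ℤ)).toNat : ℕ) - s)) /
        (y - ((k - (i : ℤ)).toNat : ℕ) - s)) =
        ∫ s in (1 - l)..1, sin (μ * ((θ - s) + i)) / ((θ - s) + i) := by
      intro i hi
      rw [Finset.mem_Icc] at hi
      have h1 : (((k - (i : ℤ)).toNat : ℕ) : ℤ) = k - i := by omega
      have h2 : (((k - (i : ℤ)).toNat : ℕ) : ℝ) = k - i := by exact_mod_cast h1
      rw [h2]
      congr 1
      funext s
      rw [show y - ((k : ℝ) - i) - s = (θ - s) + i by rw [hyθ]; ring]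
    rw [Finset.sum_congr rfl hp, Finset.sum_congr rfl hm]
    have hle : (1 - l) ≤ 1 := by linarith
    have hip : ∀ i ∈ Finset.Icc (max 2 (-k).toNat) (P - 1 - k : ℤ).toNat,
        IntervalIntegrable (fun s : ℝ => sin (μ * ((θ - s) - i)) / ((θ - s) - i)) volume
          (1 - l) 1 := by
      intro i hi
      rw [Finset.mem_Icc] at hi
      have hi2 : (2 : ℝ) ≤ i := by
        have : 2 ≤ i := by omega
        exact_mod_cast this
      apply ContinuousOn.intervalIntegrable_of_Icc hle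
      apply ContinuousOn.div (by fun_prop) (by fun_prop)
      intro s hs h
      rw [Set.mem_Icc] at hs
      linarith [hs.1, hs.2]
    have him : ∀ i ∈ Finset.Icc (max 2 (k - P + 1 : ℤ).toNat) k.toNat,
        IntervalIntegrable (fun s : ℝ => sin (μ * ((θ - s) + i)) / ((θ - s) + i)) volume
          (1 - l) 1 := by
      intro i hi
      rw [Finset.mem_Icc] at hi
      have hi2 : (2 : ℝ) ≤ i := by
        have : 2 ≤ i := by omega
        exact_mod_cast this
      apply ContinuousOn.intervalIntegrable_of_Icc hle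
      apply ContinuousOn.div (by fun_prop) (by fun_prop)
      intro s hs h
      rw [Set.mem_Icc] at hs
      linarith [hs.1, hs.2]
    rw [← intervalIntegral.integral_finsetSum hip, ← intervalIntegral.integral_finsetSum him]
    have hsp : IntervalIntegrable (fun s : ℝ =>
        ∑ i ∈ Finset.Icc (max 2 (-k).toNat) (P - 1 - k : ℤ).toNat,
          sin (μ * ((θ - s) - i)) / ((θ - s) - i)) volume (1 - l) 1 := by
      have := IntervalIntegrable.sum _ hip
      simpa only [Finset.sum_fn] using this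
    have hsm : IntervalIntegrable (fun s : ℝ =>
        ∑ i ∈ Finset.Icc (max 2 (k - P + 1 : ℤ).toNat) k.toNat,
          sin (μ * ((θ - s) + i)) / ((θ - s) + i)) volume (1 - l) 1 := by
      have := IntervalIntegrable.sum _ him
      simpa only [Finset.sum_fn] using this
    rw [← intervalIntegral.integral_add hsp hsm]
    have hQ := j1489_Q P y k μ hP (by linarith) (by linarith) hy1 hy2
    have hb := intervalIntegral.norm_integral_le_of_norm_le_const (a := 1 - l) (b := 1)
      (C := 4 * (U + V) + 4 * C1 + 4)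
      (f := fun s : ℝ => ∑ i ∈ Finset.Icc (max 2 (-k).toNat) (P - 1 - k : ℤ).toNat,
          sin (μ * ((θ - s) - i)) / ((θ - s) - i) +
        ∑ i ∈ Finset.Icc (max 2 (k - P + 1 : ℤ).toNat) k.toNat,
          sin (μ * ((θ - s) + i)) / ((θ - s) + i)) (by
        intro s hs
        rw [Set.uIoc_of_le hle, Set.mem_Ioc] at hs
        rw [Real.norm_eq_abs]
        apply j1489_far C1 hsin μ (θ - s) _ _ _ _ _ (le_max_left _ _) (le_max_left _ _) _ hQ
        rw [abs_le]
        constructor <;> linarith [hs.1, hs.2])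
    rw [Real.norm_eq_abs, show |(1 : ℝ) - (1 - l)| = l by rw [sub_sub_cancel]; exact abs_of_pos hl]
      at hb
    exact hb
  refine (abs_add_le _ _).trans ?_
  have h1 : (4 * (U + V) + 4 * C1 + 4) * l ≤ (4 * (U + V) + 4 * C1 + 4) * √l :=
    mul_le_mul_of_nonneg_left hll (by positivity)
  have h2 : (4 * C1 + 4) * √l ≤ (4 * C1 + 4) * √l * (1 / √θ) := by
    have : 0 ≤ (4 * C1 + 4) * √l := by positivity
    nlinarith
  have h3 : 0 ≤ (4 * C1 + 4) * √l * (1 / √(1 - θ)) := by positivity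
  have h4 : 0 ≤ (3 * C0 + (4 * C1 + 4)) * √l * (U + V) := by positivity
  have h5 : 0 ≤ 4 * √l * (1 / √θ + 1 / √(1 - θ)) := by positivity
  have h6 := hN.trans le_rfl
  have h7 := hF.trans h1
  calc _ ≤ 3 * (C0 * (√l * (1 / √θ + 1 / √(1 - θ)))) + (4 * (U + V) + 4 * C1 + 4) * √l :=
        add_le_add h6 h7
    _ ≤ (3 * C0 + 4 + (4 * C1 + 4)) * √l * (U + V + 1 / √θ + 1 / √(1 - θ)) := by
        nlinarith

end Pool.Agent.Helper187.Leg.T2
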