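import Pool.Agent.Helper187.Leg.Major
import Pool.Agent.Helper187.Leg.BDefs
import Pool.Agent.Helper187.Leg.T1
import Pool.Agent.Helper187.Leg.T2

open MeasureTheory Set Real Filter Topology
open scoped ENNReal

namespace Pool.Agent.Helper187.Leg

theorem Sn_ind (n : ℕ) (x : ℝ) {a b : ℝ} (ha : -1 ≤ a) (hab : a ≤ b) (hb : b ≤ 1) :
    Sn n ((Ico a b).indicator 1) x = ∫ t in a..b, LK n x t := by
  unfold Sn
  rw [intervalIntegral.integral_of_le (by norm_num), intervalIntegral.integral_of_le hab]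
  have h1 : ∀ t, LK n x t * (Ico a b).indicator (1 : ℝ → ℝ) t = (Ico a b).indicator (LK n x) t := by
    intro t
    by_cases ht : t ∈ Ico a b
    · rw [indicator_of_mem ht, indicator_of_mem ht]; simp
    · rw [indicator_of_notMem ht, indicator_of_notMem ht]; simp
  simp_rw [h1]
  rw [setIntegral_indicator measurableSet_Ico]
  refine setIntegral_congr_set ?_
  have : (Ioc (-1 : ℝ) 1 ∩ Ico a b : Set ℝ) =ᵐ[volume] (Ioo a b : Set ℝ) := by
    have hne : ∀ᵐ t : ℝ ∂volume, t ≠ a := by rw [ae_iff]; simp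
    filter_upwards [hne] with t ht
    refine propext ?_
    constructor
    · rintro ⟨h1, h2⟩; exact ⟨lt_of_le_of_ne h2.1 (Ne.symm ht), h2.2⟩
    · rintro ⟨h1, h2⟩; exact ⟨⟨by linarith, by linarith⟩, h1.le, h2⟩
  exact this.trans Ioo_ae_eq_Ioc

/-- the model sum. -/
noncomputable def MS (n : ℕ) (θ T : ℝ) (P : ℕ) (l ψ : ℝ) : ℝ :=
  ∑ j ∈ Finset.range P, ∫ φ in (θ + T * ((j + 1 - l) / P))..(θ + T * ((j + 1) / P)),
    sin ((n + 1) * (ψ - φ)) / (ψ - φ)

theorem MS_eq (n : ℕ) (θ T : ℝ) (P : ℕ) (l ψ : ℝ) (hT : 0 < T) (hP : 0 < P) :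
    MS n θ T P l ψ = ∑ j ∈ Finset.range P, ∫ s in (1 - l)..1,
      sin (((n + 1) * (T / P)) * ((ψ - θ) * P / T - j - s)) / ((ψ - θ) * P / T - j - s) := by
  unfold MS
  refine Finset.sum_congr rfl fun j _ => ?_
  have hP' : (0 : ℝ) < P := by exact_mod_cast hP
  have h := intervalIntegral.smul_integral_comp_mul_add (a := 1 - l) (b := 1)
    (fun φ => sin ((n + 1) * (ψ - φ)) / (ψ - φ)) (T / P) (θ + T * (j / P))
  have e1 : T / P * (1 - l) + (θ + T * (j / P)) = θ + T * ((j + 1 - l) / P) := by field_simp; ring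
  have e2 : T / P * 1 + (θ + T * (j / P)) = θ + T * ((j + 1) / P) := by field_simp; ring
  rw [e1, e2] at h
  rw [← h, smul_eq_mul, ← intervalIntegral.integral_const_mul]
  refine intervalIntegral.integral_congr fun s _ => ?_
  have e3 : ψ - (T / P * s + (θ + T * (j / P))) = (T / P) * ((ψ - θ) * P / T - j - s) := by
    field_simp; ring
  rw [e3]
  have hTP : 0 < T / P := by positivity
  rw [← mul_assoc]
  rcases eq_or_ne ((ψ - θ) * P / T - j - s) 0 with h0 | h0
  · rw [h0]; simp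
  · rw [mul_div_assoc', mul_div_mul_left _ _ hTP.ne']

/-- majorant on a block. -/
noncomputable def WW (θ T : ℝ) (P : ℕ) (ψ : ℝ) : ℝ :=
  √T / √|ψ - θ| + √T / √|ψ - (θ + T)| + 1 / √(Int.fract ((ψ - θ) * P / T))
    + 1 / √(1 - Int.fract ((ψ - θ) * P / T))

theorem MS_near : ∃ C : ℝ, 0 < C ∧ ∀ (n : ℕ) (θ T : ℝ) (P : ℕ) (l ψ : ℝ), 0 < T → 0 < P → 0 < l → l ≤ 1 →
    θ - T < ψ → ψ < θ + 2 * T → (∀ k : ℤ, (ψ - θ) * P / T ≠ k) →
    |MS n θ T P l ψ| ≤ C * √l * WW θ T P ψ := by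
  obtain ⟨C, hC, H⟩ := T2.block_sum_bound T1.near_bound
  refine ⟨C, hC, fun n θ T P l ψ hT hP hl hl1 h1 h2 hk => ?_⟩
  have hP' : (0 : ℝ) < P := by exact_mod_cast hP
  rw [MS_eq n θ T P l ψ hT hP]
  refine (H P _ l ((ψ - θ) * P / T) hP hl hl1 ?_ ?_ hk).trans (le_of_eq ?_)
  · rw [lt_div_iff₀ hT]; nlinarith
  · rw [div_lt_iff₀ hT]; nlinarith
  · unfold WW
    congr 1
    have e1 : √((P : ℝ) / |(ψ - θ) * P / T|) = √T / √|ψ - θ| := by
      rw [← sqrt_div' _ (abs_nonneg _)]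
      congr 1
      rw [abs_div, abs_mul, abs_of_pos hP', abs_of_pos hT]
      rcases eq_or_ne (ψ - θ) 0 with h0 | h0
      · rw [h0]; simp
      · have : |ψ - θ| ≠ 0 := abs_ne_zero.2 h0
        field_simp
    have e2 : √((P : ℝ) / |(ψ - θ) * P / T - P|) = √T / √|ψ - (θ + T)| := by
      rw [← sqrt_div' _ (abs_nonneg _)]
      congr 1
      have : (ψ - θ) * P / T - P = (ψ - (θ + T)) * P / T := by field_simp; ring
      rw [this, abs_div, abs_mul, abs_of_pos hP', abs_of_pos hT]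
      rcases eq_or_ne (ψ - (θ + T)) 0 with h0 | h0
      · rw [h0]; simp
      · have : |ψ - (θ + T)| ≠ 0 := abs_ne_zero.2 h0
        field_simp
    rw [e1, e2]

theorem MS_far (n : ℕ) (θ T : ℝ) (P : ℕ) (l ψ d : ℝ) (hT : 0 < T) (hP : 0 < P) (hl : 0 ≤ l) (hl1 : l ≤ 1)
    (hd : 0 < d) (h : ∀ φ, θ ≤ φ → φ ≤ θ + T → d ≤ |ψ - φ|) :
    |MS n θ T P l ψ| ≤ T * l / d := by
  unfold MS
  have hP' : (0 : ℝ) < P := by exact_mod_cast hP
  refine (Finset.abs_sum_le_sum_abs _ _).trans ?_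
  have key : ∀ j ∈ Finset.range P,
      |∫ φ in (θ + T * ((j + 1 - l) / P))..(θ + T * ((j + 1) / P)), sin ((n + 1) * (ψ - φ)) / (ψ - φ)|
        ≤ (1 / d) * (T * l / P) := by
    intro j hj
    have hjP : (j : ℝ) + 1 ≤ P := by exact_mod_cast Finset.mem_range.1 hj
    have hle : θ + T * ((j + 1 - l) / P) ≤ θ + T * ((j + 1) / P) := by
      have : ((j : ℝ) + 1 - l) / P ≤ (j + 1) / P := div_le_div_of_nonneg_right (by linarith) hP'.le
      nlinarith
    have h1 := intervalIntegral.norm_integral_le_of_norm_le_const (a := θ + T * ((j + 1 - l) / P))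
      (b := θ + T * ((j + 1) / P)) (C := 1 / d) (f := fun φ => sin ((n + 1) * (ψ - φ)) / (ψ - φ)) ?_
    · refine h1.trans (le_of_eq ?_)
      rw [abs_of_nonneg (by linarith)]
      field_simp; ring
    · intro φ hφ
      rw [uIoc_of_le hle] at hφ
      have hj0 : 0 ≤ ((j : ℝ) + 1 - l) / P := div_nonneg (by have : (0:ℝ) ≤ j := Nat.cast_nonneg j; linarith) hP'.le
      have hj1 : ((j : ℝ) + 1) / P ≤ 1 := by rw [div_le_one hP']; exact hjP
      have := h φ (by nlinarith [hφ.1]) (by nlinarith [hφ.2])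
      rw [Real.norm_eq_abs, abs_div]
      exact div_le_div₀ zero_le_one (abs_sin_le_one _) hd this
  refine (Finset.sum_le_sum key).trans (le_of_eq ?_)
  rw [Finset.sum_const, Finset.card_range, nsmul_eq_mul]
  field_simp

/-- the integral of the block majorant. -/
theorem WW_int (θ T : ℝ) (P : ℕ) (hT : 0 < T) (hP : 0 < P) :
    ∫⁻ ψ in Ioo (θ - T) (θ + 2 * T), ENNReal.ofReal (WW θ T P ψ) ≤ ENNReal.ofReal (36 * T) := by
  have hP' : (0 : ℝ) < P := by exact_mod_cast hP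
  set w := T / P with hw
  have hwpos : 0 < w := by positivity
  set A := Ioo (θ - T) (θ + 2 * T) with hA
  have hmeas : ∀ c s : ℝ, Measurable fun ψ : ℝ => ENNReal.ofReal (s / √|ψ - c|) := fun c s => by fun_prop
  have hmf : Measurable fun ψ : ℝ => ENNReal.ofReal (1 / √(Int.fract ((ψ - θ) * P / T))) := by
    have : Measurable fun ψ : ℝ => Int.fract ((ψ - θ) * P / T) := measurable_fract.comp (by fun_prop)
    fun_prop
  -- splitting
  have h1 : ∀ ψ, ENNReal.ofReal (WW θ T P ψ) ≤ ENNReal.ofReal (√T / √|ψ - θ|)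
      + (ENNReal.ofReal (√T / √|ψ - (θ + T)|) + (ENNReal.ofReal (1 / √(Int.fract ((ψ - θ) * P / T)))
      + ENNReal.ofReal (1 / √(1 - Int.fract ((ψ - θ) * P / T))))) := by
    intro ψ
    unfold WW
    rw [ENNReal.ofReal_add (by positivity) (by positivity), ENNReal.ofReal_add (by positivity) (by positivity),
      ENNReal.ofReal_add (by positivity) (by positivity), add_assoc, add_assoc]
  refine (lintegral_mono h1).trans ?_
  rw [lintegral_add_left (hmeas _ _), lintegral_add_left (hmeas _ _), lintegral_add_left hmf]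
  have hsq2 : √(2 * T) ≤ (3 / 2) * √T := by
    rw [sqrt_mul (by norm_num)]
    apply mul_le_mul_of_nonneg_right _ (sqrt_nonneg _)
    rw [sqrt_le_left (by norm_num)]; norm_num
  have hTT : √T * √T = T := mul_self_sqrt hT.le
  have i1 : ∫⁻ ψ in A, ENNReal.ofReal (√T / √|ψ - θ|) ≤ ENNReal.ofReal (6 * T) := by
    refine (sq_sym θ (2 * T) (√T) (by linarith) (sqrt_nonneg _) A ?_).trans (ENNReal.ofReal_le_ofReal ?_)
    · intro x hx; exact ⟨by linarith [hx.1], by linarith [hx.2]⟩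
    · nlinarith [sqrt_nonneg T]
  have i2 : ∫⁻ ψ in A, ENNReal.ofReal (√T / √|ψ - (θ + T)|) ≤ ENNReal.ofReal (6 * T) := by
    refine (sq_sym (θ + T) (2 * T) (√T) (by linarith) (sqrt_nonneg _) A ?_).trans (ENNReal.ofReal_le_ofReal ?_)
    · intro x hx; exact ⟨by linarith [hx.1], by linarith [hx.2]⟩
    · nlinarith [sqrt_nonneg T]
  -- the cells
  set cell : Fin (3 * P) → Set ℝ := fun j => Ico (θ - T + w * j) (θ - T + w * (j + 1)) with hcell
  have hcov : A ⊆ ⋃ j, cell j := by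
    intro ψ hψ
    have h0 : 0 ≤ (ψ - (θ - T)) / w := div_nonneg (by linarith [hψ.1]) hwpos.le
    have hlt : ⌊(ψ - (θ - T)) / w⌋₊ < 3 * P := by
      rw [Nat.floor_lt h0, div_lt_iff₀ hwpos]
      have : ((3 * P : ℕ) : ℝ) * w = 3 * T := by rw [hw]; push_cast; field_simp
      rw [this]; linarith [hψ.2]
    refine mem_iUnion.2 ⟨⟨_, hlt⟩, ?_⟩
    have f1 := Nat.floor_le h0
    have f2 := Nat.lt_floor_add_one ((ψ - (θ - T)) / w)
    rw [le_div_iff₀ hwpos] at f1
    rw [div_lt_iff₀ hwpos] at f2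
    exact ⟨by simp only; linarith, by simp only; linarith⟩
  have hfr : ∀ j : Fin (3 * P), ∀ ψ ∈ cell j, Int.fract ((ψ - θ) * P / T) = (ψ - (θ - T + w * j)) / w := by
    intro j ψ hψ
    have e : (ψ - θ) * P / T = (ψ - θ) / w := by rw [hw]; field_simp
    rw [Int.fract_eq_iff]
    refine ⟨div_nonneg (by linarith [hψ.1]) hwpos.le, by rw [div_lt_one hwpos]; linarith [hψ.2], (j : ℤ) - P, ?_⟩
    rw [e, ← sub_div]
    push_cast
    have e3 : ψ - θ - (ψ - (θ - T + w * j)) = (((j : ℕ) : ℝ) - P) * w := by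
      have : (P : ℝ) * w = T := by rw [hw]; field_simp
      nlinarith
    rw [e3, mul_div_assoc, div_self hwpos.ne', mul_one]
  have hww : √w * √w = w := mul_self_sqrt hwpos.le
  have hsumw : ∀ s : ℝ, ∑ _j : Fin (3 * P), ENNReal.ofReal (4 * w) = ENNReal.ofReal (12 * T) := by
    intro _
    rw [Finset.sum_const, Finset.card_univ, Fintype.card_fin, nsmul_eq_mul, ← ENNReal.ofReal_natCast,
      ← ENNReal.ofReal_mul (by positivity)]
    congr 1
    rw [hw]; push_cast; field_simp; norm_num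
  have i3 : ∫⁻ ψ in A, ENNReal.ofReal (1 / √(Int.fract ((ψ - θ) * P / T))) ≤ ENNReal.ofReal (12 * T) := by
    refine (lintegral_mono_set hcov).trans ((lintegral_iUnion_le _ _).trans ?_)
    rw [tsum_fintype, ← hsumw 0]
    refine Finset.sum_le_sum fun j _ => ?_
    have : ∫⁻ ψ in cell j, ENNReal.ofReal (1 / √(Int.fract ((ψ - θ) * P / T)))
        = ∫⁻ ψ in cell j, ENNReal.ofReal (√w / √|ψ - (θ - T + w * j)|) := by
      refine setLIntegral_congr_fun measurableSet_Ico ?_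
      intro ψ hψ
      simp only
      rw [hfr j ψ hψ, abs_of_nonneg (by linarith [hψ.1] : 0 ≤ ψ - (θ - T + w * j)), sqrt_div' _ hwpos.le, one_div_div]
    rw [this]
    refine (sq_sym _ w (√w) hwpos.le (sqrt_nonneg _) _ ?_).trans (ENNReal.ofReal_le_ofReal ?_)
    · intro x hx; exact ⟨by linarith [hx.1], by have := hx.2; linarith⟩
    · nlinarith
  have i4 : ∫⁻ ψ in A, ENNReal.ofReal (1 / √(1 - Int.fract ((ψ - θ) * P / T))) ≤ ENNReal.ofReal (12 * T) := by
    refine (lintegral_mono_set hcov).trans ((lintegral_iUnion_le _ _).trans ?_)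
    rw [tsum_fintype, ← hsumw 0]
    refine Finset.sum_le_sum fun j _ => ?_
    have : ∫⁻ ψ in cell j, ENNReal.ofReal (1 / √(1 - Int.fract ((ψ - θ) * P / T)))
        = ∫⁻ ψ in cell j, ENNReal.ofReal (√w / √|ψ - (θ - T + w * (j + 1))|) := by
      refine setLIntegral_congr_fun measurableSet_Ico ?_
      intro ψ hψ
      simp only
      have e5 : 1 - (ψ - (θ - T + w * (j : ℕ))) / w = |ψ - (θ - T + w * ((j : ℕ) + 1))| / w := by
        rw [abs_of_nonpos (by have := hψ.2; linarith)]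
        field_simp; ring
      rw [hfr j ψ hψ, e5, sqrt_div' _ hwpos.le, one_div_div]
    rw [this]
    refine (sq_sym _ w (√w) hwpos.le (sqrt_nonneg _) _ ?_).trans (ENNReal.ofReal_le_ofReal ?_)
    · intro x hx; exact ⟨by have := hx.1; linarith, by have := hx.2; linarith⟩
    · nlinarith
  calc _ ≤ ENNReal.ofReal (6 * T) + (ENNReal.ofReal (6 * T) + (ENNReal.ofReal (12 * T) + ENNReal.ofReal (12 * T))) :=
        add_le_add i1 (add_le_add i2 (add_le_add i3 i4))
    _ = ENNReal.ofReal (36 * T) := by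
        rw [← ENNReal.ofReal_add (by positivity) (by positivity), ← ENNReal.ofReal_add (by positivity) (by positivity),
          ← ENNReal.ofReal_add (by positivity) (by positivity)]
        congr 1; ring

end Pool.Agent.Helper187.Leg
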