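import Pool.Agent.Helper187.Leg.B1a

open MeasureTheory Set Real Filter Topology
open scoped ENNReal

namespace Pool.Agent.Helper187.Leg

theorem EE_zero (θ T : ℝ) (P : ℕ) : EE θ T P 0 = fun _ => 0 := by
  funext x
  unfold EE
  refine Finset.sum_eq_zero fun j _ => ?_
  simp

theorem EE_ii (θ T : ℝ) (P : ℕ) (l : ℝ) : IntervalIntegrable (EE θ T P l) volume (-1) 1 := by
  unfold EE
  exact ii_sum _ _ fun j _ => ind_ii _ _

/-- the partial sums of the periodic indicator. -/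
theorem Sn_EE (n : ℕ) (θ T : ℝ) (P : ℕ) (l x : ℝ) (hT : 0 < T) (hP : 0 < P) (hl : 0 ≤ l) (hl1 : l ≤ 1)
    (hθ : -(π / 2) ≤ θ) (hθT : θ + T ≤ π / 2) :
    Sn n (EE θ T P l) x = ∑ j ∈ Finset.range P,
      ∫ t in (sin (θ + T * ((j + 1 - l) / P)))..(sin (θ + T * ((j + 1) / P))), LK n x t := by
  have hP' : (0 : ℝ) < P := by exact_mod_cast hP
  unfold EE
  rw [Sn_sum n _ _ (fun j _ => ind_ii _ _)]
  refine Finset.sum_congr rfl fun j hj => ?_
  have hjP : (j : ℝ) + 1 ≤ P := by exact_mod_cast Finset.mem_range.1 hj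
  have hj0 : 0 ≤ ((j : ℝ) + 1 - l) / P := div_nonneg (by have : (0:ℝ) ≤ j := Nat.cast_nonneg j; linarith) hP'.le
  have hj1 : ((j : ℝ) + 1) / P ≤ 1 := by rw [div_le_one hP']; exact hjP
  have hj2 : ((j : ℝ) + 1 - l) / P ≤ (j + 1) / P := div_le_div_of_nonneg_right (by linarith) hP'.le
  exact Sn_ind n x (neg_one_le_sin _) (sin_le_sin_of_le_of_le_pi_div_two (by nlinarith) (by nlinarith) (by nlinarith)) (sin_le_one _)

section
variable
  (R1 : ∃ (C : ℝ) (c : ℕ → ℝ), 0 < C ∧ (∀ n, |c n| ≤ C) ∧ ∀ ρ : ℝ, 0 < ρ → ∃ Cρ : ℝ, 0 < Cρ ∧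
      ∀ (n : ℕ) (ψ α β : ℝ), |ψ| ≤ π / 2 - ρ → -(π / 2) + ρ ≤ α → α ≤ β → β ≤ π / 2 - ρ →
        |(∫ t in (sin α)..(sin β), LK n (sin ψ) t)
          - c n * ∫ φ in α..β, sin ((n + 1) * (ψ - φ)) / (ψ - φ)| ≤ Cρ * (β - α))
  (R2 : ∀ ρ : ℝ, 0 < ρ → ∃ Cρ : ℝ, 0 < Cρ ∧
      ∀ (n : ℕ) (ψ α β : ℝ), |ψ| < π / 2 → π / 2 - ρ / 2 ≤ |ψ| → -(π / 2) + ρ ≤ α → α ≤ β →
        β ≤ π / 2 - ρ → |∫ t in (sin α)..(sin β), LK n (sin ψ) t| ≤ Cρ * (β - α) / √(cos ψ))

include R1 in
theorem Sn_EE_int : ∃ C : ℝ, 0 < C ∧ ∀ ρ : ℝ, 0 < ρ → ∃ Cρ : ℝ, 0 < Cρ ∧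
    ∀ (n : ℕ) (ψ θ T : ℝ) (P : ℕ) (l : ℝ), 0 < T → 0 < P → 0 ≤ l → l ≤ 1 → |ψ| ≤ π / 2 - ρ →
      -(π / 2) + ρ ≤ θ → θ + T ≤ π / 2 - ρ →
      |Sn n (EE θ T P l) (sin ψ)| ≤ C * |MS n θ T P l ψ| + Cρ * T := by
  obtain ⟨C, c, hC, hc, H⟩ := R1
  refine ⟨C, hC, fun ρ hρ => ?_⟩
  obtain ⟨K, hK, HK⟩ := H ρ hρ
  refine ⟨K, hK, fun n ψ θ T P l hT hP hl hl1 hψ hθ hθT => ?_⟩
  have hP' : (0 : ℝ) < P := by exact_mod_cast hP
  rw [Sn_EE n θ T P l _ hT hP hl hl1 (by linarith) (by linarith)]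
  have h1 : |(∑ j ∈ Finset.range P,
      ∫ t in (sin (θ + T * ((j + 1 - l) / P)))..(sin (θ + T * ((j + 1) / P))), LK n (sin ψ) t)
      - c n * MS n θ T P l ψ| ≤ K * T := by
    unfold MS
    rw [Finset.mul_sum, ← Finset.sum_sub_distrib]
    refine (Finset.abs_sum_le_sum_abs _ _).trans ?_
    have key : ∀ j ∈ Finset.range P,
        |(∫ t in (sin (θ + T * ((j + 1 - l) / P)))..(sin (θ + T * ((j + 1) / P))), LK n (sin ψ) t)
          - c n * ∫ φ in (θ + T * ((j + 1 - l) / P))..(θ + T * ((j + 1) / P)), sin ((n + 1) * (ψ - φ)) / (ψ - φ)|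
          ≤ K * (T / P) := by
      intro j hj
      have hjP : (j : ℝ) + 1 ≤ P := by exact_mod_cast Finset.mem_range.1 hj
      have hj0 : 0 ≤ ((j : ℝ) + 1 - l) / P := div_nonneg (by have : (0:ℝ) ≤ j := Nat.cast_nonneg j; linarith) hP'.le
      have hj1 : ((j : ℝ) + 1) / P ≤ 1 := by rw [div_le_one hP']; exact hjP
      have hj2 : ((j : ℝ) + 1 - l) / P ≤ (j + 1) / P := div_le_div_of_nonneg_right (by linarith) hP'.le
      refine (HK n ψ _ _ hψ (by nlinarith) (by nlinarith) (by nlinarith)).trans ?_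
      apply mul_le_mul_of_nonneg_left _ hK.le
      have e : θ + T * (((j : ℝ) + 1) / P) - (θ + T * (((j : ℝ) + 1 - l) / P)) = T / P * l := by field_simp; ring
      rw [e]
      nlinarith [div_pos hT hP']
    refine (Finset.sum_le_sum key).trans (le_of_eq ?_)
    rw [Finset.sum_const, Finset.card_range, nsmul_eq_mul]
    field_simp
  have h2 := abs_sub_abs_le_abs_sub (∑ j ∈ Finset.range P,
      ∫ t in (sin (θ + T * ((j + 1 - l) / P)))..(sin (θ + T * ((j + 1) / P))), LK n (sin ψ) t) (c n * MS n θ T P l ψ)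
  have h3 : |c n * MS n θ T P l ψ| ≤ C * |MS n θ T P l ψ| := by
    rw [abs_mul]; exact mul_le_mul_of_nonneg_right (hc n) (abs_nonneg _)
  linarith

include R2 in
theorem Sn_EE_ext : ∀ ρ : ℝ, 0 < ρ → ∃ Cρ : ℝ, 0 < Cρ ∧
    ∀ (n : ℕ) (ψ θ T : ℝ) (P : ℕ) (l : ℝ), 0 < T → 0 < P → 0 ≤ l → l ≤ 1 → |ψ| < π / 2 → π / 2 - ρ / 2 ≤ |ψ| →
      -(π / 2) + ρ ≤ θ → θ + T ≤ π / 2 - ρ →
      |Sn n (EE θ T P l) (sin ψ)| ≤ Cρ * T / √(cos ψ) := by
  intro ρ hρ
  obtain ⟨K, hK, HK⟩ := R2 ρ hρ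
  refine ⟨K, hK, fun n ψ θ T P l hT hP hl hl1 hψ hψ' hθ hθT => ?_⟩
  have hP' : (0 : ℝ) < P := by exact_mod_cast hP
  rw [Sn_EE n θ T P l _ hT hP hl hl1 (by linarith) (by linarith)]
  refine (Finset.abs_sum_le_sum_abs _ _).trans ?_
  have key : ∀ j ∈ Finset.range P,
      |(∫ t in (sin (θ + T * ((j + 1 - l) / P)))..(sin (θ + T * ((j + 1) / P))), LK n (sin ψ) t)|
        ≤ K * (T / P) / √(cos ψ) := by
    intro j hj
    have hjP : (j : ℝ) + 1 ≤ P := by exact_mod_cast Finset.mem_range.1 hj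
    have hj0 : 0 ≤ ((j : ℝ) + 1 - l) / P := div_nonneg (by have : (0:ℝ) ≤ j := Nat.cast_nonneg j; linarith) hP'.le
    have hj1 : ((j : ℝ) + 1) / P ≤ 1 := by rw [div_le_one hP']; exact hjP
    have hj2 : ((j : ℝ) + 1 - l) / P ≤ (j + 1) / P := div_le_div_of_nonneg_right (by linarith) hP'.le
    refine (HK n ψ _ _ hψ hψ' (by nlinarith) (by nlinarith) (by nlinarith)).trans ?_
    apply div_le_div_of_nonneg_right _ (sqrt_nonneg _)
    apply mul_le_mul_of_nonneg_left _ hK.le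
    have e : θ + T * (((j : ℝ) + 1) / P) - (θ + T * (((j : ℝ) + 1 - l) / P)) = T / P * l := by field_simp; ring
    rw [e]
    nlinarith [div_pos hT hP']
  refine (Finset.sum_le_sum key).trans (le_of_eq ?_)
  rw [Finset.sum_const, Finset.card_range, nsmul_eq_mul]
  field_simp

/-- majorant of the maximal function of one block at a point (interior region). -/
noncomputable def GG (α β T : ℝ) (P : ℕ → ℕ) (M : ℕ) (ψ : ℝ) : ℝ≥0∞ :=
  (∑ r ∈ Finset.range M, (Ioo (α + T * r - T) (α + T * r + 2 * T)).indicator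
      (fun ψ => ENNReal.ofReal (WW (α + T * r) T (P r) ψ)) ψ)
    + ((Icc α β).indicator 1 ψ + (ENNReal.ofReal (√T / √|ψ - α|) + ENNReal.ofReal (√T / √|ψ - β|)))

theorem MS_GG : ∃ C : ℝ, 0 < C ∧ ∀ (α β T : ℝ) (P : ℕ → ℕ) (M : ℕ) (n r : ℕ) (l ψ : ℝ), 0 < T → (∀ r, 0 < P r) →
    0 < l → l ≤ 1 → β = α + T * M → r < M → (∀ k : ℤ, (ψ - (α + T * r)) * P r / T ≠ k) →
    ENNReal.ofReal |MS n (α + T * r) T (P r) l ψ| ≤ ENNReal.ofReal (C * √l) * GG α β T P M ψ := by
  obtain ⟨C, hC, H⟩ := MS_near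
  refine ⟨C + 1, by positivity, fun α β T P M n r l ψ hT hP hl hl1 hβ hr hk => ?_⟩
  have hrM : (r : ℝ) + 1 ≤ M := by exact_mod_cast hr
  have hr0 : (0 : ℝ) ≤ r := Nat.cast_nonneg r
  set θ := α + T * r with hθ
  have hsl : l ≤ √l := by
    rw [le_sqrt hl.le hl.le]; nlinarith
  have hslpos : 0 < √l := sqrt_pos.2 hl
  by_cases hin : ψ ∈ Ioo (θ - T) (θ + 2 * T)
  · have h1 := H n θ T (P r) l ψ hT (hP r) hl hl1 hin.1 hin.2 hk
    have hW : 0 ≤ WW θ T (P r) ψ := by unfold WW; positivity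
    calc ENNReal.ofReal |MS n θ T (P r) l ψ| ≤ ENNReal.ofReal ((C + 1) * √l * WW θ T (P r) ψ) := by
          refine ENNReal.ofReal_le_ofReal (h1.trans ?_)
          apply mul_le_mul_of_nonneg_right _ hW
          nlinarith
      _ = ENNReal.ofReal ((C + 1) * √l) * ENNReal.ofReal (WW θ T (P r) ψ) := ENNReal.ofReal_mul (by positivity)
      _ ≤ _ := by
          refine mul_le_mul_right ?_ _
          refine le_trans ?_ le_self_add
          have := Finset.single_le_sum (f := fun r : ℕ => (Ioo (α + T * r - T) (α + T * r + 2 * T)).indicator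
            (fun ψ => ENNReal.ofReal (WW (α + T * r) T (P r) ψ)) ψ) (fun _ _ => zero_le) (Finset.mem_range.2 hr)
          refine le_trans ?_ this
          rw [indicator_of_mem hin]
  · -- far
    have hfar : ∀ d : ℝ, 0 < d → (∀ φ, θ ≤ φ → φ ≤ θ + T → d ≤ |ψ - φ|) →
        |MS n θ T (P r) l ψ| ≤ T * l / d := fun d hd h => MS_far n θ T (P r) l ψ d hT (hP r) hl.le hl1 hd h
    have hTT : √T * √T = T := mul_self_sqrt hT.le
    have hsT : 0 < √T := sqrt_pos.2 hT
    -- general claim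
    have claim : ∀ X : ℝ≥0∞, (ENNReal.ofReal |MS n θ T (P r) l ψ| ≤ ENNReal.ofReal ((C + 1) * √l) * X) →
        X ≤ ((Icc α β).indicator 1 ψ + (ENNReal.ofReal (√T / √|ψ - α|) + ENNReal.ofReal (√T / √|ψ - β|))) →
        ENNReal.ofReal |MS n θ T (P r) l ψ| ≤ ENNReal.ofReal ((C + 1) * √l) * GG α β T P M ψ := by
      intro X h1 h2
      refine h1.trans (mul_le_mul_right (h2.trans ?_) _)
      exact le_add_self
    rw [mem_Ioo, not_and_or, not_lt, not_lt] at hin
    rcases hin with hL | hR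
    · -- left of the block
      have hd : ∀ φ, θ ≤ φ → φ ≤ θ + T → θ - ψ ≤ |ψ - φ| := fun φ h1 _ => by
        rw [abs_of_nonpos (by linarith)]; linarith
      have h1 := hfar (θ - ψ) (by linarith) hd
      by_cases hψα : α ≤ ψ
      · apply claim 1
        · rw [mul_one]
          refine ENNReal.ofReal_le_ofReal (h1.trans ?_)
          rw [div_le_iff₀ (by linarith)]
          have : T * l ≤ √l * (θ - ψ) := by
            nlinarith [mul_le_mul_of_nonneg_right hL hslpos.le]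
          nlinarith [mul_nonneg (mul_nonneg hC.le hslpos.le) (by linarith : 0 ≤ θ - ψ)]
        · have hm : ψ ∈ Icc α β := ⟨hψα, by nlinarith⟩
          rw [indicator_of_mem hm]
          simp
      · push Not at hψα
        have hd2 : 0 < α - ψ := by linarith
        apply claim (ENNReal.ofReal (√T / √|ψ - α|))
        · rw [← ENNReal.ofReal_mul (by positivity)]
          refine ENNReal.ofReal_le_ofReal (h1.trans ?_)
          rw [abs_of_neg (by linarith : ψ - α < 0), neg_sub]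
          have hs1 : √(α - ψ) ≤ √(θ - ψ) := sqrt_le_sqrt (by nlinarith)
          have hs2 : √T ≤ √(θ - ψ) := sqrt_le_sqrt (by linarith)
          have hs3 : √(θ - ψ) * √(θ - ψ) = θ - ψ := mul_self_sqrt (by nlinarith)
          have hs4 : 0 < √(α - ψ) := sqrt_pos.2 hd2
          have hq : T / (θ - ψ) ≤ √T / √(α - ψ) := by
            rw [div_le_div_iff₀ (by nlinarith) hs4]
            calc T * √(α - ψ) = √T * (√T * √(α - ψ)) := by rw [← mul_assoc, hTT]
              _ ≤ √T * (√(θ - ψ) * √(θ - ψ)) := by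
                  apply mul_le_mul_of_nonneg_left _ hsT.le
                  exact mul_le_mul hs2 hs1 hs4.le (sqrt_nonneg _)
              _ = √T * (θ - ψ) := by rw [hs3]
          calc T * l / (θ - ψ) = l * (T / (θ - ψ)) := by ring
            _ ≤ √l * (√T / √(α - ψ)) := mul_le_mul hsl hq (div_nonneg hT.le (by linarith)) hslpos.le
            _ ≤ (C + 1) * √l * (√T / √(α - ψ)) := by
                have : 0 ≤ √l * (√T / √(α - ψ)) := by positivity
                nlinarith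
        · exact le_trans le_self_add le_add_self
    · have hd : ∀ φ, θ ≤ φ → φ ≤ θ + T → ψ - (θ + T) ≤ |ψ - φ| := fun φ _ h2 => by
        rw [abs_of_nonneg (by linarith)]; linarith
      have h1 := hfar (ψ - (θ + T)) (by linarith) hd
      by_cases hψβ : ψ ≤ β
      · apply claim 1
        · rw [mul_one]
          refine ENNReal.ofReal_le_ofReal (h1.trans ?_)
          rw [div_le_iff₀ (by linarith)]
          have : T * l ≤ √l * (ψ - (θ + T)) := by
            nlinarith [mul_le_mul_of_nonneg_right hR hslpos.le]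
          nlinarith [mul_nonneg (mul_nonneg hC.le hslpos.le) (by linarith : 0 ≤ ψ - (θ + T))]
        · have hm : ψ ∈ Icc α β := ⟨by nlinarith, hψβ⟩
          rw [indicator_of_mem hm]
          simp
      · push Not at hψβ
        have hd2 : 0 < ψ - β := by linarith
        apply claim (ENNReal.ofReal (√T / √|ψ - β|))
        · rw [← ENNReal.ofReal_mul (by positivity)]
          refine ENNReal.ofReal_le_ofReal (h1.trans ?_)
          rw [abs_of_pos (by linarith : 0 < ψ - β)]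
          have hs1 : √(ψ - β) ≤ √(ψ - (θ + T)) := sqrt_le_sqrt (by nlinarith)
          have hs2 : √T ≤ √(ψ - (θ + T)) := sqrt_le_sqrt (by linarith)
          have hs3 : √(ψ - (θ + T)) * √(ψ - (θ + T)) = ψ - (θ + T) := mul_self_sqrt (by nlinarith)
          have hs4 : 0 < √(ψ - β) := sqrt_pos.2 hd2
          have hq : T / (ψ - (θ + T)) ≤ √T / √(ψ - β) := by
            rw [div_le_div_iff₀ (by nlinarith) hs4]
            calc T * √(ψ - β) = √T * (√T * √(ψ - β)) := by rw [← mul_assoc, hTT]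
              _ ≤ √T * (√(ψ - (θ + T)) * √(ψ - (θ + T))) := by
                  apply mul_le_mul_of_nonneg_left _ hsT.le
                  exact mul_le_mul hs2 hs1 hs4.le (sqrt_nonneg _)
              _ = √T * (ψ - (θ + T)) := by rw [hs3]
          calc T * l / (ψ - (θ + T)) = l * (T / (ψ - (θ + T))) := by ring
            _ ≤ √l * (√T / √(ψ - β)) := mul_le_mul hsl hq (div_nonneg hT.le (by linarith)) hslpos.le
            _ ≤ (C + 1) * √l * (√T / √(ψ - β)) := by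
                have : 0 ≤ √l * (√T / √(ψ - β)) := by positivity
                nlinarith
        · exact le_trans le_add_self le_add_self

end

end Pool.Agent.Helper187.Leg
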