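import Pool.Agent.Helper187.Leg.B1b

open MeasureTheory Set Real Filter Topology
open scoped ENNReal

namespace Pool.Agent.Helper187.Leg

theorem sum_cos_le (α T : ℝ) (M : ℕ) (hT : 0 < T) (hα : -(π / 2) < α) (hβ : α + T * M < π / 2) :
    ∑ r ∈ Finset.range M, T * (cos (α + T * r) + 2 * T) ≤ (sin (α + T * M) - sin α) + 3 * T * (T * M) := by
  have key : ∀ r ∈ Finset.range M, T * (cos (α + T * r) + 2 * T)
      ≤ (sin (α + T * (r + 1 : ℕ)) - sin (α + T * r)) + 3 * T * T := by
    intro r hr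
    have h1 : sin (α + T * (r + 1 : ℕ)) - sin (α + T * r) = ∫ x in (α + T * r)..(α + T * (r + 1 : ℕ)), cos x := by
      rw [integral_cos]
    have hle : α + T * r ≤ α + T * (r + 1 : ℕ) := by push_cast; nlinarith
    have h2 : ∫ x in (α + T * r)..(α + T * (r + 1 : ℕ)), (cos (α + T * r) - T)
        ≤ ∫ x in (α + T * r)..(α + T * (r + 1 : ℕ)), cos x := by
      refine intervalIntegral.integral_mono_on hle (intervalIntegrable_const) (continuous_cos.intervalIntegrable _ _) ?_
      intro x hx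
      have := abs_cos_sub_cos_le (α + T * r) x
      have h3 : |α + T * r - x| ≤ T := by
        rw [abs_of_nonpos (by linarith [hx.1])]
        have := hx.2; push_cast at this; linarith
      linarith [(abs_le.1 (this.trans h3)).2]
    rw [intervalIntegral.integral_const, smul_eq_mul] at h2
    have h4 : α + T * (r + 1 : ℕ) - (α + T * r) = T := by push_cast; ring
    rw [h4] at h2
    rw [h1]
    nlinarith
  refine (Finset.sum_le_sum key).trans (le_of_eq ?_)
  rw [Finset.sum_add_distrib, Finset.sum_range_sub (fun r : ℕ => sin (α + T * r))]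
  simp
  ring

/-- weighted integral of the majorant. -/
theorem GG_int (α β T : ℝ) (P : ℕ → ℕ) (M : ℕ) (hT : 0 < T) (hT1 : T ≤ 1) (hP : ∀ r, 0 < P r)
    (hα : -(π / 2) < α) (hβ : β = α + T * M) (hβ2 : β < π / 2) :
    ∫⁻ ψ in Ioo (-(π / 2)) (π / 2), ENNReal.ofReal (cos ψ) * GG α β T P M ψ
      ≤ ENNReal.ofReal (37 * (sin β - sin α) + 500 * √T) := by
  have hmcos : Measurable fun ψ : ℝ => ENNReal.ofReal (cos ψ) := by fun_prop
  have hmW : ∀ r : ℕ, Measurable fun ψ : ℝ => ENNReal.ofReal (WW (α + T * r) T (P r) ψ) := by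
    intro r
    unfold WW
    have : Measurable fun ψ : ℝ => Int.fract ((ψ - (α + T * r)) * (P r) / T) := measurable_fract.comp (by fun_prop)
    fun_prop
  have hαβ : α ≤ β := by rw [hβ]; have : (0 : ℝ) ≤ M := Nat.cast_nonneg M; nlinarith
  have hsin : 0 ≤ sin β - sin α := by
    have := sin_le_sin_of_le_of_le_pi_div_two hα.le hβ2.le hαβ
    linarith
  have hTT : √T * √T = T := mul_self_sqrt hT.le
  have hsT : 0 < √T := sqrt_pos.2 hT
  have hsT1 : √T ≤ 1 := by rw [sqrt_le_one]; exact hT1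
  have hTsT : T ≤ √T := by nlinarith
  -- the first part
  have p1 : ∫⁻ ψ in Ioo (-(π / 2)) (π / 2), ENNReal.ofReal (cos ψ) *
      (∑ r ∈ Finset.range M, (Ioo (α + T * r - T) (α + T * r + 2 * T)).indicator
      (fun ψ => ENNReal.ofReal (WW (α + T * r) T (P r) ψ)) ψ)
      ≤ ENNReal.ofReal (36 * ((sin β - sin α) + 3 * T * (T * M))) := by
    calc _ = ∫⁻ ψ in Ioo (-(π / 2)) (π / 2), ∑ r ∈ Finset.range M, ENNReal.ofReal (cos ψ) *
          (Ioo (α + T * r - T) (α + T * r + 2 * T)).indicator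
          (fun ψ => ENNReal.ofReal (WW (α + T * r) T (P r) ψ)) ψ := by
          simp_rw [Finset.mul_sum]
      _ = ∑ r ∈ Finset.range M, ∫⁻ ψ in Ioo (-(π / 2)) (π / 2), ENNReal.ofReal (cos ψ) *
          (Ioo (α + T * r - T) (α + T * r + 2 * T)).indicator
          (fun ψ => ENNReal.ofReal (WW (α + T * r) T (P r) ψ)) ψ := by
          refine lintegral_finsetSum' _ fun r _ => ?_
          exact (hmcos.mul ((hmW r).indicator measurableSet_Ioo)).aemeasurable
      _ ≤ ∑ r ∈ Finset.range M, ENNReal.ofReal (36 * (T * (cos (α + T * r) + 2 * T))) := by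
          refine Finset.sum_le_sum fun r hr => ?_
          have hrM : (r : ℝ) + 1 ≤ M := by exact_mod_cast Finset.mem_range.1 hr
          have hr0 : (0 : ℝ) ≤ r := Nat.cast_nonneg r
          have hcospos : 0 ≤ cos (α + T * r) :=
            cos_nonneg_of_neg_pi_div_two_le_of_le (by nlinarith) (by nlinarith)
          calc _ ≤ ∫⁻ ψ in Ioo (-(π / 2)) (π / 2), ENNReal.ofReal (cos (α + T * r) + 2 * T) *
                (Ioo (α + T * r - T) (α + T * r + 2 * T)).indicator
                (fun ψ => ENNReal.ofReal (WW (α + T * r) T (P r) ψ)) ψ := by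
                refine lintegral_mono fun ψ => ?_
                by_cases hψ : ψ ∈ Ioo (α + T * r - T) (α + T * r + 2 * T)
                · refine mul_le_mul_left ?_ _
                  refine ENNReal.ofReal_le_ofReal ?_
                  have := abs_cos_sub_cos_le ψ (α + T * r)
                  have h3 : |ψ - (α + T * r)| ≤ 2 * T := by
                    rw [abs_le]; constructor
                    · linarith [hψ.1]
                    · linarith [hψ.2]
                  linarith [(abs_le.1 (this.trans h3)).2]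
                · rw [indicator_of_notMem hψ]; simp
            _ ≤ ∫⁻ ψ, ENNReal.ofReal (cos (α + T * r) + 2 * T) *
                (Ioo (α + T * r - T) (α + T * r + 2 * T)).indicator
                (fun ψ => ENNReal.ofReal (WW (α + T * r) T (P r) ψ)) ψ := setLIntegral_le_lintegral _ _
            _ = ENNReal.ofReal (cos (α + T * r) + 2 * T) *
                ∫⁻ ψ in Ioo (α + T * r - T) (α + T * r + 2 * T), ENNReal.ofReal (WW (α + T * r) T (P r) ψ) := by
                rw [lintegral_const_mul _ ((hmW r).indicator measurableSet_Ioo), lintegral_indicator measurableSet_Ioo]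
            _ ≤ ENNReal.ofReal (cos (α + T * r) + 2 * T) * ENNReal.ofReal (36 * T) :=
                mul_le_mul_right (WW_int _ _ _ hT (hP r)) _
            _ = _ := by
                rw [← ENNReal.ofReal_mul (by positivity)]
                congr 1; ring
      _ = ENNReal.ofReal (∑ r ∈ Finset.range M, 36 * (T * (cos (α + T * r) + 2 * T))) := by
          rw [ENNReal.ofReal_sum_of_nonneg]
          intro r hr
          have hrM : (r : ℝ) + 1 ≤ M := by exact_mod_cast Finset.mem_range.1 hr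
          have hr0 : (0 : ℝ) ≤ r := Nat.cast_nonneg r
          have hcospos : 0 ≤ cos (α + T * r) :=
            cos_nonneg_of_neg_pi_div_two_le_of_le (by nlinarith) (by nlinarith)
          positivity
      _ ≤ _ := by
          refine ENNReal.ofReal_le_ofReal ?_
          rw [← Finset.mul_sum]
          have := sum_cos_le α T M hT hα (by rw [← hβ]; exact hβ2)
          rw [← hβ] at this
          linarith
  have p2 : ∫⁻ ψ in Ioo (-(π / 2)) (π / 2), ENNReal.ofReal (cos ψ) * (Icc α β).indicator 1 ψ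
      ≤ ENNReal.ofReal (sin β - sin α) := by
    calc _ ≤ ∫⁻ ψ in Icc α β, ENNReal.ofReal (cos ψ) := by
          rw [← lintegral_indicator measurableSet_Icc, ← lintegral_indicator measurableSet_Ioo]
          refine lintegral_mono fun ψ => ?_
          by_cases h1 : ψ ∈ Ioo (-(π / 2)) (π / 2)
          · rw [indicator_of_mem h1]
            by_cases h2 : ψ ∈ Icc α β
            · rw [indicator_of_mem h2, indicator_of_mem h2]; simp
            · rw [indicator_of_notMem h2, indicator_of_notMem h2]; simp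
          · rw [indicator_of_notMem h1]; exact zero_le
      _ = ENNReal.ofReal (∫ ψ in Icc α β, cos ψ) := by
          rw [ofReal_integral_eq_lintegral_ofReal]
          · exact continuous_cos.continuousOn.integrableOn_Icc
          · filter_upwards [ae_restrict_mem measurableSet_Icc] with ψ hψ
            exact cos_nonneg_of_neg_pi_div_two_le_of_le (by linarith [hψ.1]) (by linarith [hψ.2])
      _ ≤ _ := by
          rw [integral_Icc_eq_integral_Ioc, ← intervalIntegral.integral_of_le hαβ, integral_cos]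
  have p3 : ∀ c : ℝ, -(π / 2) < c → c < π / 2 → ∫⁻ ψ in Ioo (-(π / 2)) (π / 2), ENNReal.ofReal (cos ψ) * ENNReal.ofReal (√T / √|ψ - c|)
      ≤ ENNReal.ofReal (4 * √T * √π) := by
    intro c hc1 hc2
    calc _ ≤ ∫⁻ ψ in Ioo (-(π / 2)) (π / 2), ENNReal.ofReal (√T / √|ψ - c|) := by
          refine lintegral_mono fun ψ => ?_
          calc _ ≤ 1 * ENNReal.ofReal (√T / √|ψ - c|) := by
                refine mul_le_mul_left ?_ _
                rw [← ENNReal.ofReal_one]; exact ENNReal.ofReal_le_ofReal (cos_le_one ψ)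
            _ = _ := one_mul _
      _ ≤ _ := by
          refine sq_sym c π (√T) pi_pos.le (sqrt_nonneg _) _ ?_
          intro x hx
          exact ⟨by linarith [hx.1, hx.2], by linarith [hx.1, hx.2]⟩
  have hsplit : ∀ ψ, ENNReal.ofReal (cos ψ) * GG α β T P M ψ = ENNReal.ofReal (cos ψ) *
      (∑ r ∈ Finset.range M, (Ioo (α + T * r - T) (α + T * r + 2 * T)).indicator
      (fun ψ => ENNReal.ofReal (WW (α + T * r) T (P r) ψ)) ψ) + (ENNReal.ofReal (cos ψ) * (Icc α β).indicator 1 ψ
      + (ENNReal.ofReal (cos ψ) * ENNReal.ofReal (√T / √|ψ - α|) + ENNReal.ofReal (cos ψ) * ENNReal.ofReal (√T / √|ψ - β|))) := by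
    intro ψ; unfold GG; ring
  simp_rw [hsplit]
  have m1 : Measurable fun ψ : ℝ => ENNReal.ofReal (cos ψ) *
      (∑ r ∈ Finset.range M, (Ioo (α + T * r - T) (α + T * r + 2 * T)).indicator
      (fun ψ => ENNReal.ofReal (WW (α + T * r) T (P r) ψ)) ψ) :=
    hmcos.mul (Finset.measurable_fun_sum _ fun r _ => (hmW r).indicator measurableSet_Ioo)
  have m2 : Measurable fun ψ : ℝ => ENNReal.ofReal (cos ψ) * (Icc α β).indicator (1 : ℝ → ℝ≥0∞) ψ :=
    hmcos.mul (measurable_one.indicator measurableSet_Icc)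
  have m3 : Measurable fun ψ : ℝ => ENNReal.ofReal (cos ψ) * ENNReal.ofReal (√T / √|ψ - α|) := by fun_prop
  rw [lintegral_add_left m1, lintegral_add_left m2, lintegral_add_left m3]
  have hπ : √π ≤ 2 := by
    rw [sqrt_le_left (by norm_num)]; linarith [pi_lt_four]
  have hTM : T * M ≤ 4 := by
    have : T * M = β - α := by rw [hβ]; ring
    rw [this]; linarith [pi_lt_four]
  calc _ ≤ ENNReal.ofReal (36 * ((sin β - sin α) + 3 * T * (T * M))) + (ENNReal.ofReal (sin β - sin α)
        + (ENNReal.ofReal (4 * √T * √π) + ENNReal.ofReal (4 * √T * √π))) :=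
        add_le_add p1 (add_le_add p2 (add_le_add (p3 α hα (by linarith)) (p3 β (by linarith) hβ2)))
    _ = ENNReal.ofReal (36 * ((sin β - sin α) + 3 * T * (T * M)) + ((sin β - sin α) + (4 * √T * √π + 4 * √T * √π))) := by
        rw [← ENNReal.ofReal_add (by positivity) (by positivity), ← ENNReal.ofReal_add (by positivity) (by positivity),
          ← ENNReal.ofReal_add (by positivity) (by positivity)]
    _ ≤ _ := by
        refine ENNReal.ofReal_le_ofReal ?_
        have e1 : 3 * T * (T * M) ≤ 12 * √T := by nlinarith [mul_nonneg hT.le (by have : (0 : ℝ) ≤ M := Nat.cast_nonneg M; positivity : 0 ≤ T * M)]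
        nlinarith

section
variable
  (R1 : ∃ (C : ℝ) (c : ℕ → ℝ), 0 < C ∧ (∀ n, |c n| ≤ C) ∧ ∀ ρ : ℝ, 0 < ρ → ∃ Cρ : ℝ, 0 < Cρ ∧
      ∀ (n : ℕ) (ψ α β : ℝ), |ψ| ≤ π / 2 - ρ → -(π / 2) + ρ ≤ α → α ≤ β → β ≤ π / 2 - ρ →
        |(∫ t in (sin α)..(sin β), LK n (sin ψ) t)
          - c n * ∫ φ in α..β, sin ((n + 1) * (ψ - φ)) / (ψ - φ)| ≤ Cρ * (β - α))
  (R2 : ∀ ρ : ℝ, 0 < ρ → ∃ Cρ : ℝ, 0 < Cρ ∧
      ∀ (n : ℕ) (ψ α β : ℝ), |ψ| < π / 2 → π / 2 - ρ / 2 ≤ |ψ| → -(π / 2) + ρ ≤ α → α ≤ β →
        β ≤ π / 2 - ρ → |∫ t in (sin α)..(sin β), LK n (sin ψ) t| ≤ Cρ * (β - α) / √(cos ψ))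

include R1 R2 in
theorem B1 : ∃ C0 : ℝ, 0 < C0 ∧ ∀ α β : ℝ, -(π / 2) < α → α < β → β < π / 2 → ∀ τ : ℝ, 0 < τ →
    ∃ M0 : ℕ, 0 < M0 ∧ ∀ M : ℕ, M0 ≤ M → ∀ P : ℕ → ℕ, (∀ r, 0 < P r) → ∀ l : ℝ, 0 ≤ l → l ≤ 1 →
      ∫⁻ x in Ioo (-1 : ℝ) 1, (⨆ r ∈ Finset.range M,
        Smax (EE (α + (β - α) / M * r) ((β - α) / M) (P r) l) x)
        ≤ ENNReal.ofReal (C0 * √l * (sin β - sin α) + τ) := by
  obtain ⟨C1, hC1, H1⟩ := Sn_EE_int R1
  obtain ⟨C2, hC2, H2⟩ := MS_GG
  refine ⟨37 * C1 * C2, by positivity, fun α β hα hαβ hβ τ hτ => ?_⟩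
  -- the interior parameter
  obtain ⟨ρ, hρ, hρα, hρβ⟩ : ∃ ρ : ℝ, 0 < ρ ∧ -(π / 2) + ρ ≤ α ∧ β ≤ π / 2 - ρ :=
    ⟨min (α + π / 2) (π / 2 - β), lt_min (by linarith) (by linarith),
      by linarith [min_le_left (α + π / 2) (π / 2 - β)], by linarith [min_le_right (α + π / 2) (π / 2 - β)]⟩
  obtain ⟨K1, hK1, HK1⟩ := H1 (ρ / 2) (by linarith)
  obtain ⟨K2, hK2, HK2⟩ := Sn_EE_ext R2 ρ hρ
  -- choice of `M0`
  have hlim : Tendsto (fun M : ℕ => C1 * C2 * (500 * √((β - α) / M)) + (K1 + K2) * ((β - α) / M) * 4) atTop (𝓝 0) := by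
    have t1 : Tendsto (fun M : ℕ => (β - α) / M) atTop (𝓝 0) := tendsto_const_div_atTop_nhds_zero_nat _
    have t2 : Tendsto (fun M : ℕ => √((β - α) / M)) atTop (𝓝 0) := by
      have := (continuous_sqrt.tendsto 0).comp t1
      rw [sqrt_zero] at this
      exact this
    have := ((t2.const_mul 500).const_mul (C1 * C2)).add ((t1.const_mul (K1 + K2)).mul_const 4)
    simpa using this
  have ht1 : Tendsto (fun M : ℕ => (β - α) / M) atTop (𝓝 0) := tendsto_const_div_atTop_nhds_zero_nat _
  obtain ⟨M1, hM1⟩ := ((hlim.eventually_lt_const hτ).and (ht1.eventually_lt_const one_pos)).exists_forall_of_atTop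
  refine ⟨max M1 1, by positivity, fun M hM P hP l hl hl1 => ?_⟩
  have hMpos : 0 < M := lt_of_lt_of_le (by positivity) hM
  have hM' : (0 : ℝ) < M := by exact_mod_cast hMpos
  obtain ⟨hA, hB⟩ := hM1 M ((le_max_left _ _).trans hM)
  set T := (β - α) / M with hT
  have hTpos : 0 < T := div_pos (by linarith) hM'
  have hβT : β = α + T * M := by rw [hT]; field_simp; ring
  rcases hl.eq_or_lt with h0 | hlpos
  · rw [← h0]
    have : ∀ x, (⨆ r ∈ Finset.range M, Smax (EE (α + T * r) T (P r) 0) x) = 0 := by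
      intro x
      simp only [EE_zero]
      simp [Smax, Sn]
    simp_rw [this]
    simp
  -- pointwise bound
  have hblock : ∀ r : ℕ, r < M → -(π / 2) + ρ ≤ α + T * r ∧ α + T * r + T ≤ π / 2 - ρ := by
    intro r hr
    have hrM : (r : ℝ) + 1 ≤ M := by exact_mod_cast hr
    have hr0 : (0 : ℝ) ≤ r := Nat.cast_nonneg r
    constructor
    · nlinarith
    · nlinarith
  have hgood : ∀ᵐ ψ : ℝ ∂volume, ∀ r : ℕ, ∀ k : ℤ, (ψ - (α + T * r)) * P r / T ≠ k := by
    rw [ae_all_iff]; intro r
    rw [ae_all_iff]; intro k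
    have hPr : (0 : ℝ) < P r := by exact_mod_cast hP r
    have : {ψ : ℝ | ¬ ((ψ - (α + T * r)) * P r / T ≠ k)} ⊆ {(k : ℝ) * T / P r + (α + T * r)} := by
      intro ψ hψ
      simp only [mem_ofPred_eq, not_not] at hψ
      rw [mem_singleton_iff]
      rw [div_eq_iff hTpos.ne'] at hψ
      field_simp
      linarith
    rw [ae_iff]
    exact measure_mono_null this (measure_singleton _)
  have hpt : ∀ᵐ ψ ∂(volume.restrict (Ioo (-(π / 2)) (π / 2))),
      ENNReal.ofReal (cos ψ) * (⨆ r ∈ Finset.range M, Smax (EE (α + T * r) T (P r) l) (sin ψ))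
        ≤ ENNReal.ofReal (C1 * (C2 * √l)) * (ENNReal.ofReal (cos ψ) * GG α β T P M ψ) + ENNReal.ofReal ((K1 + K2) * T) := by
    filter_upwards [ae_restrict_mem measurableSet_Ioo, ae_restrict_of_ae hgood] with ψ hψ hg
    have hcos : 0 < cos ψ := cos_pos_of_mem_Ioo hψ
    have hcos1 : cos ψ ≤ 1 := cos_le_one ψ
    have hs : (⨆ r ∈ Finset.range M, Smax (EE (α + T * r) T (P r) l) (sin ψ))
        ≤ ENNReal.ofReal (C1 * (C2 * √l)) * GG α β T P M ψ + ENNReal.ofReal ((K1 + K2) * T / √(cos ψ)) := by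
      refine iSup₂_le fun r hr => iSup_le fun n => ?_
      rw [Finset.mem_range] at hr
      obtain ⟨hb1, hb2⟩ := hblock r hr
      rw [Real.enorm_eq_ofReal_abs]
      have hsc : 0 < √(cos ψ) := sqrt_pos.2 hcos
      have hsc1 : √(cos ψ) ≤ 1 := by rw [sqrt_le_one]; exact hcos1
      by_cases hin : |ψ| ≤ π / 2 - ρ / 2
      · have b1 := HK1 n ψ (α + T * r) T (P r) l hTpos (hP r) hlpos.le hl1 hin (by linarith) (by linarith)
        have b2 := H2 α β T P M n r l ψ hTpos hP hlpos hl1 hβT hr (hg r)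
        calc ENNReal.ofReal |Sn n (EE (α + T * r) T (P r) l) (sin ψ)|
            ≤ ENNReal.ofReal (C1 * |MS n (α + T * r) T (P r) l ψ| + K1 * T) := ENNReal.ofReal_le_ofReal b1
          _ = ENNReal.ofReal C1 * ENNReal.ofReal |MS n (α + T * r) T (P r) l ψ| + ENNReal.ofReal (K1 * T) := by
              rw [ENNReal.ofReal_add (by positivity) (by positivity), ENNReal.ofReal_mul hC1.le]
          _ ≤ ENNReal.ofReal C1 * (ENNReal.ofReal (C2 * √l) * GG α β T P M ψ) + ENNReal.ofReal ((K1 + K2) * T / √(cos ψ)) := by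
              refine add_le_add (mul_le_mul_right b2 _) (ENNReal.ofReal_le_ofReal ?_)
              rw [le_div_iff₀ hsc]
              have : K1 * T * √(cos ψ) ≤ K1 * T * 1 := mul_le_mul_of_nonneg_left hsc1 (by positivity)
              nlinarith [mul_pos hK2 hTpos]
          _ = _ := by rw [← mul_assoc, ← ENNReal.ofReal_mul hC1.le]
      · push Not at hin
        have b1 := HK2 n ψ (α + T * r) T (P r) l hTpos (hP r) hlpos.le hl1 (abs_lt.2 ⟨by linarith [hψ.1], hψ.2⟩)
          hin.le (by linarith) (by linarith)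
        refine le_trans (ENNReal.ofReal_le_ofReal (b1.trans ?_)) le_add_self
        apply div_le_div_of_nonneg_right _ hsc.le
        nlinarith [mul_pos hK1 hTpos]
    calc _ ≤ ENNReal.ofReal (cos ψ) * (ENNReal.ofReal (C1 * (C2 * √l)) * GG α β T P M ψ + ENNReal.ofReal ((K1 + K2) * T / √(cos ψ))) :=
          mul_le_mul_right hs _
      _ = ENNReal.ofReal (C1 * (C2 * √l)) * (ENNReal.ofReal (cos ψ) * GG α β T P M ψ)
          + ENNReal.ofReal (cos ψ * ((K1 + K2) * T / √(cos ψ))) := by
          rw [ENNReal.ofReal_mul hcos.le]; ring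
      _ ≤ _ := by
          refine add_le_add le_rfl (ENNReal.ofReal_le_ofReal ?_)
          have hsc : 0 < √(cos ψ) := sqrt_pos.2 hcos
          have hsc1 : √(cos ψ) ≤ 1 := by rw [sqrt_le_one]; exact hcos1
          have e : cos ψ * ((K1 + K2) * T / √(cos ψ)) = √(cos ψ) * ((K1 + K2) * T) := by
            have : cos ψ = √(cos ψ) * √(cos ψ) := (mul_self_sqrt hcos.le).symm
            calc cos ψ * ((K1 + K2) * T / √(cos ψ)) = (√(cos ψ) * √(cos ψ)) * ((K1 + K2) * T / √(cos ψ)) := by rw [← this]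
              _ = _ := by field_simp
          rw [e]
          have : 0 ≤ (K1 + K2) * T := by positivity
          nlinarith
  refine (lint_sin_le _).trans ((lintegral_mono_ae hpt).trans ?_)
  have hmG : Measurable fun ψ : ℝ => ENNReal.ofReal (cos ψ) * GG α β T P M ψ := by
    have hmcos : Measurable fun ψ : ℝ => ENNReal.ofReal (cos ψ) := by fun_prop
    have hmW : ∀ r : ℕ, Measurable fun ψ : ℝ => ENNReal.ofReal (WW (α + T * r) T (P r) ψ) := by
      intro r
      unfold WW
      have : Measurable fun ψ : ℝ => Int.fract ((ψ - (α + T * r)) * (P r) / T) := measurable_fract.comp (by fun_prop)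
      fun_prop
    unfold GG
    refine hmcos.mul ((Finset.measurable_fun_sum _ fun r _ => (hmW r).indicator measurableSet_Ioo).add
      ((measurable_one.indicator measurableSet_Icc).add ?_))
    fun_prop
  rw [lintegral_add_left (hmG.const_mul _), lintegral_const_mul _ hmG, lintegral_const, Measure.restrict_apply_univ,
    Real.volume_Ioo]
  have hsin : 0 ≤ sin β - sin α := by
    have := sin_le_sin_of_le_of_le_pi_div_two hα.le hβ.le hαβ.le
    linarith
  calc _ ≤ ENNReal.ofReal (C1 * (C2 * √l)) * ENNReal.ofReal (37 * (sin β - sin α) + 500 * √T)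
        + ENNReal.ofReal ((K1 + K2) * T) * ENNReal.ofReal (π / 2 - -(π / 2)) :=
        add_le_add (mul_le_mul_right (GG_int α β T P M hTpos hB.le hP hα hβT hβ) _) le_rfl
    _ = ENNReal.ofReal (C1 * (C2 * √l) * (37 * (sin β - sin α) + 500 * √T) + (K1 + K2) * T * (π / 2 - -(π / 2))) := by
        rw [← ENNReal.ofReal_mul (by positivity), ← ENNReal.ofReal_mul (by positivity),
          ← ENNReal.ofReal_add (by positivity) (mul_nonneg (by positivity) (by linarith [pi_pos]))]
    _ ≤ _ := by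
        refine ENNReal.ofReal_le_ofReal ?_
        have hsl : √l ≤ 1 := by rw [sqrt_le_one]; exact hl1
        have hsl0 : 0 ≤ √l := sqrt_nonneg l
        have e1 : C1 * (C2 * √l) * (500 * √T) ≤ C1 * C2 * (500 * √T) := by
          have : 0 ≤ C1 * C2 * (500 * √T) := by positivity
          nlinarith
        have e2 : (K1 + K2) * T * (π / 2 - -(π / 2)) ≤ (K1 + K2) * T * 4 := by
          apply mul_le_mul_of_nonneg_left _ (by positivity)
          linarith [pi_lt_four]
        nlinarith

end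

end Pool.Agent.Helper187.Leg
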