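import Pool.Agent.Helper187.Leg.BDefs

open MeasureTheory Set Real Filter Topology
open scoped ENNReal

namespace Pool.Agent.Helper187.Leg.B2

open Pool.Agent.Helper187.Leg



/-! ### TARGETS -/

/-- common refinement. -/
theorem _root_.Pool.Agent.Helper187.Leg.StepOn.add {J : Set ℝ} {h k : ℝ → ℝ} (hs : StepOn J h) (ks : StepOn J k) :
    StepOn J (fun x => h x + k x) := by
  classical
  obtain ⟨ι, hι, a, b, c, hab, hin, hdis, hJ, hc, h0⟩ := hs
  obtain ⟨κ, hκ, a', b', c', hab', hin', hdis', hJ', hc', h0'⟩ := ks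
  refine ⟨{p : ι × κ // max (a p.1) (a' p.2) < min (b p.1) (b' p.2)}, inferInstance,
    fun p => max (a p.1.1) (a' p.1.2), fun p => min (b p.1.1) (b' p.1.2),
    fun p => c p.1.1 + c' p.1.2, fun p => p.2, fun p => ⟨?_, ?_⟩, ?_, ?_, ?_, ?_⟩
  · exact lt_of_lt_of_le (hin p.1.1).1 (le_max_left _ _)
  · exact lt_of_le_of_lt (min_le_left _ _) (hin p.1.1).2
  · rintro ⟨⟨i, j⟩, hij⟩ ⟨⟨i', j'⟩, hij'⟩ hne
    simp only
    rw [← Ico_inter_Ico, ← Ico_inter_Ico]
    by_cases h1 : i = i'
    · have h2 : j ≠ j' := by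
        rintro rfl
        subst h1
        exact hne rfl
      exact (hdis' j j' h2).mono inter_subset_right inter_subset_right
    · exact (hdis i i' h1).mono inter_subset_left inter_subset_left
  · ext x
    simp only [mem_iUnion]
    constructor
    · intro hx
      have hx1 := hx
      have hx2 := hx
      rw [hJ] at hx1
      rw [hJ'] at hx2
      obtain ⟨i, hi⟩ := mem_iUnion.1 hx1
      obtain ⟨j, hj⟩ := mem_iUnion.1 hx2
      have hmem : x ∈ Ico (max (a i) (a' j)) (min (b i) (b' j)) := by
        rw [← Ico_inter_Ico]; exact ⟨hi, hj⟩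
      exact ⟨⟨(i, j), lt_of_le_of_lt hmem.1 hmem.2⟩, hmem⟩
    · rintro ⟨⟨⟨i, j⟩, hij⟩, hx⟩
      simp only at hx
      rw [← Ico_inter_Ico] at hx
      rw [hJ]
      exact mem_iUnion.2 ⟨i, hx.1⟩
  · rintro ⟨⟨i, j⟩, hij⟩ x hx
    simp only at hx ⊢
    rw [← Ico_inter_Ico] at hx
    rw [hc i x hx.1, hc' j x hx.2]
  · intro x hx
    simp only
    rw [h0 x hx, h0' x hx, add_zero]

lemma le_div_iff_w {u v t x : ℝ} (huv : u < v) : t ≤ (x - u) / (v - u) ↔ u + t * (v - u) ≤ x := by
  rw [le_div_iff₀ (by linarith)]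
  constructor <;> intro h <;> linarith

lemma step_one {u v : ℝ} (hu : -1 < u) (huv : u < v) (hv : v < 1) (t c : ℝ) (ht : 0 ≤ t ∧ t ≤ 1) :
    StepOn (Ico u v) ((Ico u v).indicator fun x => if t ≤ (x - u) / (v - u) then c else 0) := by
  have hD : 0 < v - u := by linarith
  set w := u + t * (v - u) with hw
  have hwu : u ≤ w := by nlinarith [ht.1]
  have hwv : w ≤ v := by nlinarith [ht.2]
  rcases eq_or_lt_of_le hwv with h1 | h1
  · refine (StepOn.const hu huv hv 0).congr fun x => ?_
    by_cases hx : x ∈ Ico u v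
    · rw [indicator_of_mem hx, indicator_of_mem hx, if_neg]
      rw [le_div_iff_w huv, ← hw, h1]
      exact not_le.mpr hx.2
    · rw [indicator_of_notMem hx, indicator_of_notMem hx]
  · rcases eq_or_lt_of_le hwu with h2 | h2
    · refine (StepOn.const hu huv hv c).congr fun x => ?_
      by_cases hx : x ∈ Ico u v
      · rw [indicator_of_mem hx, indicator_of_mem hx, if_pos]
        rw [le_div_iff_w huv, ← hw, ← h2]
        exact hx.1
      · rw [indicator_of_notMem hx, indicator_of_notMem hx]
    · have hd : Disjoint (Ico u w) (Ico w v) := by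
        rw [disjoint_left]
        intro x hx hx'
        exact absurd hx.2 (not_lt.mpr hx'.1)
      have key := (StepOn.const hu h2 (h1.trans hv) 0).union
        (StepOn.const (hu.trans h2) h1 hv c) hd
      rw [Ico_union_Ico_eq_Ico hwu hwv] at key
      refine key.congr fun x => ?_
      by_cases hx : x ∈ Ico u v
      · rw [indicator_of_mem hx]
        by_cases hxw : w ≤ x
        · have m1 : x ∉ Ico u w := fun h => absurd h.2 (not_lt.mpr hxw)
          have m2 : x ∈ Ico w v := ⟨hxw, hx.2⟩
          rw [if_pos ((le_div_iff_w huv).mpr hxw), indicator_of_notMem m1,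
            indicator_of_mem m2, zero_add]
        · have m1 : x ∈ Ico u w := ⟨hx.1, not_le.mp hxw⟩
          have m2 : x ∉ Ico w v := fun h => hxw h.1
          rw [if_neg (fun h => hxw ((le_div_iff_w huv).mp h)),
            indicator_of_mem m1, indicator_of_notMem m2, add_zero]
      · have m1 : x ∉ Ico u w := fun h => hx ⟨h.1, h.2.trans h1⟩
        have m2 : x ∉ Ico w v := fun h => hx ⟨hwu.trans h.1, h.2⟩
        rw [indicator_of_notMem hx, indicator_of_notMem m1, indicator_of_notMem m2, add_zero]

lemma pat_step {m : ℕ} (g : ℝ) (c a : Fin m → ℝ) (ha : ∀ k, 0 ≤ a k ∧ a k ≤ 1) {u v : ℝ}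
    (hu : -1 < u) (huv : u < v) (hv : v < 1) :
    StepOn (Ico u v) ((Ico u v).indicator fun x => pat g c a ((x - u) / (v - u))) := by
  classical
  have key : ∀ s : Finset (Fin m), StepOn (Ico u v) ((Ico u v).indicator fun x =>
      g + ∑ k ∈ s, if a k ≤ (x - u) / (v - u) then c k else 0) := by
    intro s
    induction s using Finset.induction with
    | empty => simpa using StepOn.const hu huv hv g
    | insert i s hi ih =>
      refine (ih.add (step_one hu huv hv (a i) (c i) (ha i))).congr fun x => ?_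
      by_cases hx : x ∈ Ico u v
      · rw [indicator_of_mem hx, indicator_of_mem hx, indicator_of_mem hx, Finset.sum_insert hi]
        ring
      · rw [indicator_of_notMem hx, indicator_of_notMem hx, indicator_of_notMem hx, add_zero]
  exact key Finset.univ

lemma pat_bound {m : ℕ} (g : ℝ) (c a : Fin m → ℝ) (s : ℝ) :
    ‖pat g c a s‖ₑ ≤ ENNReal.ofReal |g| + ∑ k, if a k ≤ s then ENNReal.ofReal |c k| else 0 := by
  unfold pat
  refine (enorm_add_le _ _).trans ?_
  gcongr
  · rw [← ofReal_norm, Real.norm_eq_abs]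
  · refine (enorm_sum_le _ _).trans ?_
    apply Finset.sum_le_sum
    intro k _
    split_ifs
    · rw [← ofReal_norm, Real.norm_eq_abs]
    · simp

lemma pat_int {m : ℕ} (g : ℝ) (c a : Fin m → ℝ) (ha : ∀ k, 0 ≤ a k ∧ a k ≤ 1) {u v : ℝ}
    (huv : u < v) :
    ∫⁻ x in Ico u v, ‖pat g c a ((x - u) / (v - u))‖ₑ ≤
      ENNReal.ofReal ((v - u) * (|g| + ∑ k, |c k| * (1 - a k))) := by
  have hD : 0 < v - u := by linarith
  have hm : ∀ k, MeasurableSet {x : ℝ | a k ≤ (x - u) / (v - u)} := by
    intro k
    exact measurableSet_le measurable_const (by fun_prop)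
  calc ∫⁻ x in Ico u v, ‖pat g c a ((x - u) / (v - u))‖ₑ
      ≤ ∫⁻ x in Ico u v, (ENNReal.ofReal |g| +
          ∑ k, if a k ≤ (x - u) / (v - u) then ENNReal.ofReal |c k| else 0) :=
        lintegral_mono fun x => pat_bound g c a _
    _ = ENNReal.ofReal |g| * ENNReal.ofReal (v - u) +
          ∑ k, ENNReal.ofReal |c k| * ENNReal.ofReal ((v - u) * (1 - a k)) := by
        rw [lintegral_add_left measurable_const, setLIntegral_const, Real.volume_Ico,
          lintegral_finsetSum]
        · congr 1
          apply Finset.sum_congr rfl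
          intro k _
          have e1 : ∀ x : ℝ, (if a k ≤ (x - u) / (v - u) then ENNReal.ofReal |c k| else 0) =
              ({x : ℝ | a k ≤ (x - u) / (v - u)}).indicator (fun _ => ENNReal.ofReal |c k|) x := by
            intro x
            rw [indicator_apply]
            rfl
          simp_rw [e1]
          rw [lintegral_indicator (hm k), setLIntegral_const, Measure.restrict_apply (hm k)]
          congr 1
          have e2 : {x : ℝ | a k ≤ (x - u) / (v - u)} ∩ Ico u v = Ico (u + a k * (v - u)) v := by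
            ext x
            simp only [mem_inter_iff, mem_Ico]
            constructor
            · rintro ⟨h1, h2, h3⟩
              exact ⟨(le_div_iff_w huv).mp h1, h3⟩
            · rintro ⟨h1, h3⟩
              refine ⟨(le_div_iff_w huv).mpr h1, ?_, h3⟩
              nlinarith [(ha k).1]
          rw [e2, Real.volume_Ico]
          congr 1
          ring
        · intro k _
          exact Measurable.ite (hm k) measurable_const measurable_const
    _ = ENNReal.ofReal ((v - u) * (|g| + ∑ k, |c k| * (1 - a k))) := by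
        have e3 : ∀ k, ENNReal.ofReal |c k| * ENNReal.ofReal ((v - u) * (1 - a k)) =
            ENNReal.ofReal ((v - u) * (|c k| * (1 - a k))) := by
          intro k
          rw [← ENNReal.ofReal_mul (abs_nonneg _)]
          congr 1; ring
        simp_rw [e3]
        rw [← ENNReal.ofReal_mul (abs_nonneg _), ← ENNReal.ofReal_sum_of_nonneg,
          ← ENNReal.ofReal_add]
        · congr 1
          rw [mul_add, Finset.mul_sum]
          ring
        · positivity
        · apply Finset.sum_nonneg
          intro k _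
          have := (ha k).2
          have : 0 ≤ 1 - a k := by linarith
          positivity
        · intro k _
          have := (ha k).2
          have : 0 ≤ 1 - a k := by linarith
          positivity

lemma vol_affine (u D : ℝ) (hD : 0 < D) (S : Set ℝ) :
    volume ((fun x : ℝ => (x - u) / D) ⁻¹' S) = ENNReal.ofReal D * volume S := by
  have e : (fun x : ℝ => (x - u) / D) ⁻¹' S = (fun x => x + (-u)) ⁻¹' ((fun x => x * D⁻¹) ⁻¹' S) := by
    ext x
    simp only [mem_preimage, div_eq_mul_inv, sub_eq_add_neg]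
  rw [e, measure_preimage_add_right, Real.volume_preimage_mul_right (inv_ne_zero hD.ne'), inv_inv,
    abs_of_pos hD]

theorem HH_step {m : ℕ} (g : ℝ) (c a : Fin m → ℝ) (θ T : ℝ) (P : ℕ) (hP : 0 < P)
    (ha : ∀ k, 0 ≤ a k ∧ a k ≤ 1) (hθ : -(π / 2) < θ) (hT : 0 < T) (hθT : θ + T < π / 2) :
    StepOn (Ico (sin θ) (sin (θ + T))) (HH g c a θ T P) ∧
      (∀ v, volume (Ico (sin θ) (sin (θ + T)) ∩ (HH g c a θ T P) ⁻¹' {v})
        = ENNReal.ofReal (sin (θ + T) - sin θ) * volume (Ico 0 1 ∩ (pat g c a) ⁻¹' {v})) ∧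
      ∫⁻ x, ‖HH g c a θ T P x‖ₑ
        ≤ ENNReal.ofReal ((sin (θ + T) - sin θ) * (|g| + ∑ k, |c k| * (1 - a k))) := by
  classical
  have hPr : (0:ℝ) < P := by exact_mod_cast hP
  set X : ℕ → ℝ := cpt θ T P with hX
  have hX0 : X 0 = sin θ := by simp [hX, cpt]
  have hXP : X P = sin (θ + T) := by
    simp only [hX, cpt]
    rw [div_self hPr.ne', mul_one]
  have harg : ∀ j ≤ P, θ ≤ θ + T * (j / P) ∧ θ + T * (j / P) ≤ θ + T := by
    intro j hj
    have h1 : (0:ℝ) ≤ j / P := by positivity
    have h2 : (j:ℝ) / P ≤ 1 := by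
      rw [div_le_one hPr]; exact_mod_cast hj
    constructor <;> nlinarith
  have hmono : ∀ i j, i < j → j ≤ P → X i < X j := by
    intro i j hij hj
    simp only [hX, cpt]
    obtain ⟨h1, h2⟩ := harg i (by omega)
    obtain ⟨h3, h4⟩ := harg j hj
    apply Real.strictMonoOn_sin
    · constructor <;> linarith
    · constructor <;> linarith
    · have : (i:ℝ) / P < j / P := by
        apply div_lt_div_of_pos_right _ hPr
        exact_mod_cast hij
      nlinarith
  have hmono' : ∀ i j, i ≤ j → j ≤ P → X i ≤ X j := by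
    intro i j hij hj
    rcases eq_or_lt_of_le hij with h | h
    · rw [h]
    · exact (hmono i j h hj).le
  have hlow : ∀ j ≤ P, -1 < X j := by
    intro j hj
    simp only [hX, cpt]
    obtain ⟨h1, h2⟩ := harg j hj
    have e0 : (-1:ℝ) = sin (-(π / 2)) := by rw [Real.sin_neg, Real.sin_pi_div_two]
    rw [e0]
    apply Real.strictMonoOn_sin
    · constructor <;> linarith [Real.pi_pos]
    · constructor <;> linarith
    · linarith
  have hhigh : ∀ j ≤ P, X j < 1 := by
    intro j hj
    simp only [hX, cpt]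
    obtain ⟨h1, h2⟩ := harg j hj
    rw [← Real.sin_pi_div_two]
    apply Real.strictMonoOn_sin
    · constructor <;> linarith
    · constructor <;> linarith [Real.pi_pos]
    · linarith
  -- the cells
  have hcover : ∀ n ≤ P, ∀ x, x ∈ Ico (X 0) (X n) → ∃ j < n, x ∈ Ico (X j) (X (j + 1)) := by
    intro n
    induction n with
    | zero =>
      intro _ x hx
      exact absurd hx.2 (not_lt.mpr hx.1)
    | succ n ih =>
      intro hn x hx
      by_cases h1 : x < X n
      · obtain ⟨j, hj, hx'⟩ := ih (by omega) x ⟨hx.1, h1⟩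
        exact ⟨j, by omega, hx'⟩
      · exact ⟨n, by omega, not_lt.mp h1, hx.2⟩
  have hUn : (⋃ j : Fin P, Ico (X j) (X (j + 1))) = Ico (sin θ) (sin (θ + T)) := by
    rw [← hX0, ← hXP]
    ext x
    simp only [mem_iUnion]
    constructor
    · rintro ⟨j, hj⟩
      exact ⟨(hmono' 0 j (Nat.zero_le _) j.2.le).trans hj.1,
        lt_of_lt_of_le hj.2 (hmono' (j + 1) P j.2 le_rfl)⟩
    · intro hx
      obtain ⟨j, hj, hx'⟩ := hcover P le_rfl x hx
      exact ⟨⟨j, hj⟩, hx'⟩
  have hdisj : ∀ i j : Fin P, i ≠ j → Disjoint (Ico (X i) (X (i + 1))) (Ico (X j) (X (j + 1))) := by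
    have aux : ∀ i j : Fin P, i < j → Disjoint (Ico (X i) (X (i + 1))) (Ico (X j) (X (j + 1))) := by
      intro i j hij
      rw [disjoint_left]
      intro x hx hx'
      have : X (i + 1) ≤ X j := hmono' _ _ (by exact hij) j.2.le
      exact absurd hx.2 (not_lt.mpr (this.trans hx'.1))
    intro i j hij
    rcases lt_or_gt_of_ne hij with h | h
    · exact aux i j h
    · exact (aux j i h).symm
  have hcell : ∀ j : Fin P, StepOn (Ico (X j) (X (j + 1))) ((Ico (X j) (X (j + 1))).indicator
      (fun x => pat g c a ((x - X j) / (X (j + 1) - X j)))) := fun j =>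
    pat_step g c a ha (hlow j j.2.le) (hmono j (j + 1) (Nat.lt_succ_self _) j.2)
      (hhigh (j + 1) j.2)
  have hHH : ∀ x, HH g c a θ T P x = ∑ j : Fin P, (Ico (X j) (X (j + 1))).indicator
      (fun x => pat g c a ((x - X j) / (X (j + 1) - X j))) x := by
    intro x
    unfold HH
    rw [Finset.sum_range]
  have hstep : StepOn (Ico (sin θ) (sin (θ + T))) (HH g c a θ T P) := by
    have key := StepOn.glue (fun j : Fin P => Ico (X j) (X (j + 1)))
      (fun j : Fin P => (Ico (X j) (X (j + 1))).indicator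
      (fun x => pat g c a ((x - X j) / (X (j + 1) - X j)))) hcell hdisj
    rw [hUn] at key
    exact key.congr fun x => (hHH x).symm
  have hHmeas : Measurable (HH g c a θ T P) := hstep.meas
  have hoff : ∀ x, x ∉ Ico (sin θ) (sin (θ + T)) → HH g c a θ T P x = 0 := by
    obtain ⟨ι, hι, a1, b1, c1, -, -, -, -, -, h0⟩ := hstep
    exact h0
  have hon : ∀ j : Fin P, ∀ x ∈ Ico (X j) (X (j + 1)), HH g c a θ T P x =
      pat g c a ((x - X j) / (X (j + 1) - X j)) := by
    intro j x hx
    rw [hHH, Finset.sum_eq_single j]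
    · rw [indicator_of_mem hx]
    · intro i _ hij
      rw [indicator_of_notMem]
      intro hx'
      exact disjoint_left.1 (hdisj i j hij) hx' hx
    · intro h; exact absurd (Finset.mem_univ j) h
  have hDpos : ∀ j : Fin P, 0 < X (j + 1) - X j := fun j =>
    sub_pos.mpr (hmono j (j + 1) (Nat.lt_succ_self _) j.2)
  have hDsum : ∑ j : Fin P, (X (j + 1) - X j) = sin (θ + T) - sin θ := by
    rw [← Finset.sum_range (fun j => X (j + 1) - X j), Finset.sum_range_sub, hX0, hXP]
  refine ⟨hstep, ?_, ?_⟩
  · intro v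
    have e1 : Ico (sin θ) (sin (θ + T)) ∩ (HH g c a θ T P) ⁻¹' {v} =
        ⋃ j : Fin P, (Ico (X j) (X (j + 1)) ∩ (HH g c a θ T P) ⁻¹' {v}) := by
      rw [← hUn, iUnion_inter]
    rw [e1, measure_iUnion]
    · rw [tsum_fintype]
      have e2 : ∀ j : Fin P, volume (Ico (X j) (X (j + 1)) ∩ (HH g c a θ T P) ⁻¹' {v}) =
          ENNReal.ofReal (X (j + 1) - X j) * volume (Ico 0 1 ∩ (pat g c a) ⁻¹' {v}) := by
        intro j
        rw [← vol_affine (X j) (X (j + 1) - X j) (hDpos j)]
        congr 1
        ext x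
        simp only [mem_inter_iff, mem_preimage, mem_singleton_iff]
        have h1 : (x - X j) / (X (j + 1) - X j) ∈ Ico (0:ℝ) 1 ↔ x ∈ Ico (X j) (X (j + 1)) := by
          simp only [mem_Ico]
          rw [div_lt_one (hDpos j), le_div_iff₀ (hDpos j), zero_mul]
          constructor
          · rintro ⟨h2, h3⟩; constructor <;> linarith
          · rintro ⟨h2, h3⟩; constructor <;> linarith
        rw [h1]
        constructor
        · rintro ⟨h2, h3⟩
          exact ⟨h2, by rw [← hon j x h2]; exact h3⟩
        · rintro ⟨h2, h3⟩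
          exact ⟨h2, by rw [hon j x h2]; exact h3⟩
      simp_rw [e2]
      rw [← Finset.sum_mul, ← ENNReal.ofReal_sum_of_nonneg (fun j _ => (hDpos j).le), hDsum]
    · intro i j hij
      exact (hdisj i j hij).mono inter_subset_left inter_subset_left
    · intro j
      exact measurableSet_Ico.inter (hHmeas (measurableSet_singleton v))
  · have e1 : ∫⁻ x, ‖HH g c a θ T P x‖ₑ = ∫⁻ x in Ico (sin θ) (sin (θ + T)), ‖HH g c a θ T P x‖ₑ := by
      rw [← lintegral_indicator measurableSet_Ico]
      apply lintegral_congr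
      intro x
      by_cases hx : x ∈ Ico (sin θ) (sin (θ + T))
      · rw [indicator_of_mem hx]
      · rw [indicator_of_notMem hx, hoff x hx, enorm_zero]
    rw [e1, ← hUn, lintegral_iUnion (fun j => measurableSet_Ico) (fun i j hij => hdisj i j hij),
      tsum_fintype]
    calc ∑ j : Fin P, ∫⁻ x in Ico (X j) (X (j + 1)), ‖HH g c a θ T P x‖ₑ
        ≤ ∑ j : Fin P, ENNReal.ofReal ((X (j + 1) - X j) * (|g| + ∑ k, |c k| * (1 - a k))) := by
          apply Finset.sum_le_sum
          intro j _
          have e3 : ∫⁻ x in Ico (X j) (X (j + 1)), ‖HH g c a θ T P x‖ₑ =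
              ∫⁻ x in Ico (X j) (X (j + 1)), ‖pat g c a ((x - X j) / (X (j + 1) - X j))‖ₑ := by
            apply setLIntegral_congr_fun measurableSet_Ico
            intro x hx
            simp only
            rw [hon j x hx]
          rw [e3]
          exact pat_int g c a ha (hmono j (j + 1) (Nat.lt_succ_self _) j.2)
      _ = ENNReal.ofReal ((sin (θ + T) - sin θ) * (|g| + ∑ k, |c k| * (1 - a k))) := by
          rw [← ENNReal.ofReal_sum_of_nonneg, ← Finset.sum_mul, hDsum]
          intro j _
          have h2 : 0 ≤ |g| + ∑ k, |c k| * (1 - a k) := by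
            apply add_nonneg (abs_nonneg _)
            apply Finset.sum_nonneg
            intro k _
            have := (ha k).2
            have : 0 ≤ 1 - a k := by linarith
            positivity
          exact mul_nonneg (hDpos j).le h2

end Pool.Agent.Helper187.Leg.B2
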