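import Pool.Agent.Helper187.Leg.BDefs

open MeasureTheory Set Real Filter Topology
open scoped ENNReal

namespace Pool.Agent.Helper187.Leg.B3

open Pool.Agent.Helper187.Leg



/-! ### preliminaries on blocks -/

theorem sin_block_mono {θ T : ℝ} (hθ : -(π / 2) < θ) (hT : 0 < T) (hθT : θ + T < π / 2)
    {s s' : ℝ} (hs : 0 ≤ s) (hss : s ≤ s') (hs' : s' ≤ 1) :
    sin (θ + T * s) ≤ sin (θ + T * s') := by
  apply strictMonoOn_sin.monotoneOn
  · constructor
    · nlinarith
    · nlinarith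
  · constructor
    · nlinarith
    · nlinarith
  · nlinarith

theorem sin_block_strict {θ T : ℝ} (hθ : -(π / 2) < θ) (hT : 0 < T) (hθT : θ + T < π / 2)
    {s s' : ℝ} (hs : 0 ≤ s) (hss : s < s') (hs' : s' ≤ 1) :
    sin (θ + T * s) < sin (θ + T * s') := by
  apply strictMonoOn_sin
  · constructor
    · nlinarith
    · nlinarith
  · constructor
    · nlinarith
    · nlinarith
  · nlinarith

theorem sin_block_lip {θ T : ℝ} (hT : 0 < T) {s s' : ℝ} (hss : s ≤ s') :
    sin (θ + T * s') - sin (θ + T * s) ≤ T * (s' - s) := by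
  have h1 := abs_sin_sub_sin_le (θ + T * s') (θ + T * s)
  have h2 : |θ + T * s' - (θ + T * s)| = T * (s' - s) := by
    rw [show θ + T * s' - (θ + T * s) = T * (s' - s) by ring, abs_of_nonneg]
    exact mul_nonneg hT.le (by linarith)
  rw [h2] at h1
  exact (le_abs_self _).trans h1

theorem frac_facts {P j : ℕ} (hj : j < P) :
    (0 : ℝ) ≤ j / P ∧ (j : ℝ) / P < ((j + 1 : ℕ) : ℝ) / P ∧ ((j + 1 : ℕ) : ℝ) / P ≤ 1 ∧
      ((j + 1 : ℕ) : ℝ) / P - j / P = 1 / P := by
  have hP : (0 : ℝ) < P := by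
    have : 0 < P := by omega
    exact_mod_cast this
  refine ⟨by positivity, ?_, ?_, ?_⟩
  · rw [div_lt_div_iff_of_pos_right hP]
    push_cast
    linarith
  · rw [div_le_one hP]
    exact_mod_cast hj
  · rw [← sub_div]
    push_cast
    ring

theorem cpt_lt {θ T : ℝ} (hθ : -(π / 2) < θ) (hT : 0 < T) (hθT : θ + T < π / 2)
    {P j : ℕ} (hj : j < P) : cpt θ T P j < cpt θ T P (j + 1) := by
  obtain ⟨h1, h2, h3, -⟩ := frac_facts hj
  exact sin_block_strict hθ hT hθT h1 h2 h3

theorem cpt_sub_le {θ T : ℝ} (hT : 0 < T) {P j : ℕ} (hj : j < P) :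
    cpt θ T P (j + 1) - cpt θ T P j ≤ T / P := by
  obtain ⟨h1, h2, h3, h4⟩ := frac_facts hj
  have := sin_block_lip (θ := θ) hT h2.le
  rw [h4] at this
  calc _ ≤ _ := this
    _ = _ := by ring

theorem cpt_ge {θ T : ℝ} (P j : ℕ) : -1 ≤ cpt θ T P j := neg_one_le_sin _

theorem cpt_le {θ T : ℝ} (P j : ℕ) : cpt θ T P j ≤ 1 := sin_le_one _

/-- the pattern is a combination of indicators. -/
theorem HH_eq {m : ℕ} (g : ℝ) (c a : Fin m → ℝ) {θ T : ℝ} (ha : ∀ k, 0 ≤ a k ∧ a k ≤ 1)
    (hθ : -(π / 2) < θ) (hT : 0 < T) (hθT : θ + T < π / 2) (P : ℕ) (x : ℝ) :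
    HH g c a θ T P x = ∑ j ∈ Finset.range P,
      (g * (Ico (cpt θ T P j) (cpt θ T P (j + 1))).indicator 1 x +
        ∑ k, c k * (Ico (cpt θ T P j + a k * (cpt θ T P (j + 1) - cpt θ T P j))
          (cpt θ T P (j + 1))).indicator 1 x) := by
  unfold HH
  apply Finset.sum_congr rfl
  intro j hj
  have hj' := Finset.mem_range.1 hj
  have hlt := cpt_lt hθ hT hθT hj'
  set u := cpt θ T P j with hu
  set v := cpt θ T P (j + 1) with hv
  have hD : 0 < v - u := by linarith
  by_cases hx : x ∈ Ico u v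
  · rw [indicator_of_mem hx, indicator_of_mem hx]
    unfold pat
    simp only [Pi.one_apply, mul_one]
    congr 1
    apply Finset.sum_congr rfl
    intro k _
    by_cases hk : a k ≤ (x - u) / (v - u)
    · rw [if_pos hk]
      rw [le_div_iff₀ hD] at hk
      have : x ∈ Ico (u + a k * (v - u)) v := ⟨by linarith, hx.2⟩
      rw [indicator_of_mem this]
      simp
    · rw [if_neg hk]
      rw [not_le, div_lt_iff₀ hD] at hk
      have : x ∉ Ico (u + a k * (v - u)) v := fun h => by linarith [h.1]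
      rw [indicator_of_notMem this]
      simp
  · rw [indicator_of_notMem hx, indicator_of_notMem hx]
    have : ∑ k, c k * (Ico (u + a k * (v - u)) v).indicator (1 : ℝ → ℝ) x = 0 := by
      apply Finset.sum_eq_zero
      intro k _
      have : x ∉ Ico (u + a k * (v - u)) v := by
        intro h
        apply hx
        refine ⟨?_, h.2⟩
        have := mul_nonneg (ha k).1 hD.le
        linarith [h.1]
      rw [indicator_of_notMem this]
      simp
    rw [this]
    simp

theorem Sn_ind_eq (n : ℕ) (x : ℝ) {u v : ℝ} (hu : -1 ≤ u) (huv : u ≤ v) (hv : v ≤ 1) :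
    Sn n ((Ico u v).indicator 1) x = ∫ t in u..v, LK n x t := by
  unfold Sn
  rw [intervalIntegral.integral_of_le (by norm_num), intervalIntegral.integral_of_le huv,
    ← integral_indicator measurableSet_Ioc, ← integral_indicator measurableSet_Ioc]
  apply integral_congr_ae
  have h1 : ∀ᵐ t : ℝ, t ≠ u := by rw [ae_iff]; simp
  have h2 : ∀ᵐ t : ℝ, t ≠ v := by rw [ae_iff]; simp
  filter_upwards [h1, h2] with t ht1 ht2
  by_cases ht : t ∈ Ioc u v
  · have h3 : t ∈ Ico u v := ⟨ht.1.le, lt_of_le_of_ne ht.2 ht2⟩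
    have h4 : t ∈ Ioc (-1 : ℝ) 1 := ⟨by linarith [ht.1], by linarith [ht.2]⟩
    rw [indicator_of_mem ht, indicator_of_mem h4, indicator_of_mem h3]
    simp
  · rw [indicator_of_notMem ht]
    have h3 : t ∉ Ico u v := fun h => ht ⟨lt_of_le_of_ne h.1 (Ne.symm ht1), h.2.le⟩
    by_cases h4 : t ∈ Ioc (-1 : ℝ) 1
    · rw [indicator_of_mem h4, indicator_of_notMem h3]
      simp
    · rw [indicator_of_notMem h4]

theorem Sn_ind_approx (n : ℕ) (x : ℝ) {u v s τ1 : ℝ} (hu : -1 ≤ u) (huv : u ≤ v) (hv : v ≤ 1)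
    (h : ∀ t ∈ Icc u v, |LK n x t - LK n x s| ≤ τ1) :
    |Sn n ((Ico u v).indicator 1) x - LK n x s * (v - u)| ≤ τ1 * (v - u) := by
  rw [Sn_ind_eq n x hu huv hv]
  have h1 : IntervalIntegrable (LK n x) volume u v := (LK_cont n x).intervalIntegrable _ _
  have h2 : (∫ t in u..v, LK n x t) - LK n x s * (v - u) = ∫ t in u..v, (LK n x t - LK n x s) := by
    rw [intervalIntegral.integral_sub h1 intervalIntegrable_const, intervalIntegral.integral_const,
      smul_eq_mul, mul_comm (v - u)]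
  rw [h2]
  have h3 := intervalIntegral.norm_integral_le_of_norm_le_const (a := u) (b := v) (C := τ1)
    (f := fun t => LK n x t - LK n x s) (fun t ht => by
      rw [uIoc_of_le huv] at ht
      exact h t ⟨ht.1.le, ht.2⟩)
  rwa [Real.norm_eq_abs, abs_of_nonneg (sub_nonneg.2 huv)] at h3

theorem LK_unif (n : ℕ) {τ : ℝ} (hτ : 0 < τ) : ∃ δ : ℝ, 0 < δ ∧ ∀ x ∈ Icc (-1 : ℝ) 1,
    ∀ t ∈ Icc (-1 : ℝ) 1, ∀ s ∈ Icc (-1 : ℝ) 1, |t - s| < δ → |LK n x t - LK n x s| ≤ τ := by
  have h1 : UniformContinuousOn (fun q : ℝ × ℝ => LK n q.1 q.2)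
      (Icc (-1 : ℝ) 1 ×ˢ Icc (-1 : ℝ) 1) :=
    (isCompact_Icc.prod isCompact_Icc).uniformContinuousOn_of_continuous
      (LK_cont2 n).continuousOn
  rw [Metric.uniformContinuousOn_iff] at h1
  obtain ⟨δ, hδ, h2⟩ := h1 τ hτ
  refine ⟨δ, hδ, fun x hx t ht s hs hts => ?_⟩
  have h3 := h2 (x, t) ⟨hx, ht⟩ (x, s) ⟨hx, hs⟩ (by
    rw [Prod.dist_eq, dist_self, Real.dist_eq]
    simpa using hts)
  rw [Real.dist_eq] at h3
  exact h3.le

theorem LK_unif_all (n0 : ℕ) {τ : ℝ} (hτ : 0 < τ) : ∃ δ : ℝ, 0 < δ ∧ ∀ n ≤ n0,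
    ∀ x ∈ Icc (-1 : ℝ) 1,
    ∀ t ∈ Icc (-1 : ℝ) 1, ∀ s ∈ Icc (-1 : ℝ) 1, |t - s| < δ → |LK n x t - LK n x s| ≤ τ := by
  induction n0 with
  | zero =>
    obtain ⟨δ, hδ, h⟩ := LK_unif 0 hτ
    refine ⟨δ, hδ, fun n hn => ?_⟩
    have : n = 0 := by omega
    rw [this]
    exact h
  | succ n0 ih =>
    obtain ⟨δ1, hδ1, h1⟩ := ih
    obtain ⟨δ2, hδ2, h2⟩ := LK_unif (n0 + 1) hτ
    refine ⟨min δ1 δ2, lt_min hδ1 hδ2, fun n hn x hx t ht s hs hts => ?_⟩
    rcases Nat.lt_or_ge n (n0 + 1) with h | h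
    · exact h1 n (by omega) x hx t ht s hs (hts.trans_le (min_le_left _ _))
    · have : n = n0 + 1 := by omega
      rw [this]
      exact h2 x hx t ht s hs (hts.trans_le (min_le_right _ _))

theorem sum_cpt {θ T : ℝ} (P : ℕ) :
    ∑ j ∈ Finset.range P, (cpt θ T P (j + 1) - cpt θ T P j) = cpt θ T P P - cpt θ T P 0 :=
  Finset.sum_range_sub (cpt θ T P) P

/-! ### TARGETS -/

/-- low frequencies of a fine pattern are negligible. -/
theorem HH_low {m : ℕ} (g : ℝ) (c a : Fin m → ℝ) (θ T : ℝ)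
    (ha : ∀ k, 0 ≤ a k ∧ a k ≤ 1) (h0 : g + ∑ k, c k * (1 - a k) = 0)
    (hθ : -(π / 2) < θ) (hT : 0 < T) (hθT : θ + T < π / 2) (n0 : ℕ) {τ : ℝ} (hτ : 0 < τ) :
    ∃ P0 : ℕ, ∀ P, P0 ≤ P → ∀ n, n ≤ n0 → ∀ x ∈ Ioo (-1 : ℝ) 1, |Sn n (HH g c a θ T P) x| ≤ τ := by
  set A : ℝ := |g| + ∑ k, |c k| with hA
  have hA0 : 0 ≤ A := by positivity
  obtain ⟨δ, hδ, hunif⟩ := LK_unif_all n0 (τ := τ / (2 * A + 1)) (by positivity)
  set τ1 := τ / (2 * A + 1) with hτ1
  have hτ10 : 0 < τ1 := by positivity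
  obtain ⟨P1, hP1⟩ := exists_nat_gt (T / δ)
  refine ⟨P1 + 1, fun P hP n hn x hx => ?_⟩
  have hPpos : (0 : ℝ) < P := by
    have : 0 < P := by omega
    exact_mod_cast this
  have hTP : T / P < δ := by
    rw [div_lt_iff₀ hδ] at hP1
    rw [div_lt_iff₀ hPpos]
    have : (P1 : ℝ) ≤ P := by
      have : P1 ≤ P := by omega
      exact_mod_cast this
    nlinarith
  have hxI : x ∈ Icc (-1 : ℝ) 1 := ⟨hx.1.le, hx.2.le⟩
  have hHH : HH g c a θ T P = fun x => ∑ j ∈ Finset.range P,
      (g * (Ico (cpt θ T P j) (cpt θ T P (j + 1))).indicator 1 x +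
        ∑ k, c k * (Ico (cpt θ T P j + a k * (cpt θ T P (j + 1) - cpt θ T P j))
          (cpt θ T P (j + 1))).indicator 1 x) := funext fun x => HH_eq g c a ha hθ hT hθT P x
  have hSn : Sn n (HH g c a θ T P) x = ∑ j ∈ Finset.range P,
      (g * Sn n ((Ico (cpt θ T P j) (cpt θ T P (j + 1))).indicator 1) x +
        ∑ k, c k * Sn n ((Ico (cpt θ T P j + a k * (cpt θ T P (j + 1) - cpt θ T P j))
          (cpt θ T P (j + 1))).indicator 1) x) := by
    rw [hHH, Sn_sum n (Finset.range P) (fun j x =>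
      (g * (Ico (cpt θ T P j) (cpt θ T P (j + 1))).indicator 1 x +
        ∑ k, c k * (Ico (cpt θ T P j + a k * (cpt θ T P (j + 1) - cpt θ T P j))
          (cpt θ T P (j + 1))).indicator 1 x))
      (fun j _ => ((ind_ii _ _).const_mul _).add (ii_sum _ _ fun k _ => (ind_ii _ _).const_mul _))]
    apply Finset.sum_congr rfl
    intro j _
    rw [Sn_add n ((ind_ii _ _).const_mul _) (ii_sum _ _ fun k _ => (ind_ii _ _).const_mul _),
      Sn_const_mul, Sn_sum n Finset.univ _ (fun k _ => (ind_ii _ _).const_mul _)]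
    congr 1
    apply Finset.sum_congr rfl
    intro k _
    rw [Sn_const_mul]
  rw [hSn]
  have hterm : ∀ j ∈ Finset.range P, |g * Sn n ((Ico (cpt θ T P j) (cpt θ T P (j + 1))).indicator 1) x +
        ∑ k, c k * Sn n ((Ico (cpt θ T P j + a k * (cpt θ T P (j + 1) - cpt θ T P j))
          (cpt θ T P (j + 1))).indicator 1) x| ≤ τ1 * A * (cpt θ T P (j + 1) - cpt θ T P j) := by
    intro j hj
    have hj' := Finset.mem_range.1 hj
    have hlt := cpt_lt hθ hT hθT hj'
    have hsub := cpt_sub_le (θ := θ) hT hj'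
    have hge := cpt_ge (θ := θ) (T := T) P j
    have hle := cpt_le (θ := θ) (T := T) P (j + 1)
    set u := cpt θ T P j with hu
    set v := cpt θ T P (j + 1) with hv
    set L := LK n x u with hL
    have hb : ∀ t ∈ Icc u v, |LK n x t - LK n x u| ≤ τ1 := by
      intro t ht
      apply hunif n hn x hxI t ⟨by linarith [ht.1], by linarith [ht.2]⟩ u
        ⟨by linarith, by linarith⟩
      rw [abs_of_nonneg (by linarith [ht.1])]
      linarith [ht.2]
    have h1 := Sn_ind_approx n x (s := u) (τ1 := τ1) hge hlt.le hle hb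
    have h2 : ∀ k, |Sn n ((Ico (u + a k * (v - u)) v).indicator 1) x - L * ((1 - a k) * (v - u))| ≤
        τ1 * (v - u) := by
      intro k
      have hk := ha k
      have hm1 : 0 ≤ a k * (v - u) := mul_nonneg hk.1 (by linarith)
      have hm2 : a k * (v - u) ≤ v - u := by nlinarith
      have h3 := Sn_ind_approx n x (u := u + a k * (v - u)) (v := v) (s := u) (τ1 := τ1)
        (by linarith) (by linarith) hle (fun t ht => hb t ⟨by linarith [ht.1], ht.2⟩)
      have h4 : v - (u + a k * (v - u)) = (1 - a k) * (v - u) := by ring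
      rw [h4] at h3
      refine h3.trans ?_
      have : (1 - a k) * (v - u) ≤ v - u := by linarith
      gcongr
    have hzero : g * (L * (v - u)) + ∑ k, c k * (L * ((1 - a k) * (v - u))) = 0 := by
      have : g * (L * (v - u)) + ∑ k, c k * (L * ((1 - a k) * (v - u))) =
          (g + ∑ k, c k * (1 - a k)) * (L * (v - u)) := by
        rw [add_mul, Finset.sum_mul]
        congr 1
        apply Finset.sum_congr rfl
        intro k _
        ring
      rw [this, h0, zero_mul]
    have heq : g * Sn n ((Ico u v).indicator 1) x +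
        ∑ k, c k * Sn n ((Ico (u + a k * (v - u)) v).indicator 1) x =
        g * (Sn n ((Ico u v).indicator 1) x - L * (v - u)) +
        ∑ k, c k * (Sn n ((Ico (u + a k * (v - u)) v).indicator 1) x - L * ((1 - a k) * (v - u))) := by
      have : ∑ k, c k * (Sn n ((Ico (u + a k * (v - u)) v).indicator 1) x -
          L * ((1 - a k) * (v - u))) =
          ∑ k, c k * Sn n ((Ico (u + a k * (v - u)) v).indicator 1) x -
          ∑ k, c k * (L * ((1 - a k) * (v - u))) := by
        rw [← Finset.sum_sub_distrib]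
        apply Finset.sum_congr rfl
        intro k _
        ring
      rw [this]
      linarith
    rw [heq]
    calc _ ≤ |g * (Sn n ((Ico u v).indicator 1) x - L * (v - u))| +
          |∑ k, c k * (Sn n ((Ico (u + a k * (v - u)) v).indicator 1) x -
            L * ((1 - a k) * (v - u)))| := abs_add_le _ _
      _ ≤ |g| * (τ1 * (v - u)) + ∑ k, |c k| * (τ1 * (v - u)) := by
          apply add_le_add
          · rw [abs_mul]; gcongr
          · refine (Finset.abs_sum_le_sum_abs _ _).trans ?_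
            apply Finset.sum_le_sum
            intro k _
            rw [abs_mul]
            gcongr
            exact h2 k
      _ = τ1 * A * (v - u) := by
          rw [← Finset.sum_mul, hA]; ring
  calc _ ≤ ∑ j ∈ Finset.range P, |g * Sn n ((Ico (cpt θ T P j) (cpt θ T P (j + 1))).indicator 1) x +
        ∑ k, c k * Sn n ((Ico (cpt θ T P j + a k * (cpt θ T P (j + 1) - cpt θ T P j))
          (cpt θ T P (j + 1))).indicator 1) x| := Finset.abs_sum_le_sum_abs _ _
    _ ≤ ∑ j ∈ Finset.range P, τ1 * A * (cpt θ T P (j + 1) - cpt θ T P j) :=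
        Finset.sum_le_sum hterm
    _ = τ1 * A * (cpt θ T P P - cpt θ T P 0) := by
        rw [← Finset.mul_sum, sum_cpt]
    _ ≤ τ1 * A * 2 := by
        have h1 := cpt_ge (θ := θ) (T := T) P 0
        have h2 := cpt_le (θ := θ) (T := T) P P
        gcongr
        linarith
    _ ≤ τ := by
        have : τ1 * (2 * A + 1) = τ := by
          rw [hτ1]; field_simp
        nlinarith

theorem sin_taylor (p h : ℝ) (hh : |h| ≤ 1) : |sin (p + h) - sin p - h * cos p| ≤ h ^ 2 := by
  have h1 : sin (p + h) - sin p - h * cos p = sin p * (cos h - 1) + cos p * (sin h - h) := by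
    rw [sin_add]; ring
  have h2 : |cos h - 1| ≤ h ^ 2 / 2 := by
    rw [abs_le]
    constructor
    · linarith [one_sub_sq_div_two_le_cos (x := h)]
    · linarith [cos_le_one h, sq_nonneg h]
  have h3 : |sin h - h| ≤ h ^ 2 / 2 := by
    rw [abs_sub_comm]
    refine (abs_sub_sin_le h).trans ?_
    have h4 : |h| ^ 3 = |h| * h ^ 2 := by rw [pow_succ, sq_abs]; ring
    rw [h4]
    nlinarith [sq_nonneg h, abs_nonneg h]
  rw [h1]
  calc |sin p * (cos h - 1) + cos p * (sin h - h)|
      ≤ |sin p * (cos h - 1)| + |cos p * (sin h - h)| := abs_add_le _ _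
    _ = |sin p| * |cos h - 1| + |cos p| * |sin h - h| := by rw [abs_mul, abs_mul]
    _ ≤ 1 * (h ^ 2 / 2) + 1 * (h ^ 2 / 2) := by
        gcongr
        · exact abs_sin_le_one p
        · exact abs_cos_le_one p
    _ = h ^ 2 := by ring

theorem affine_close (p w a : ℝ) (hw : 0 ≤ w) (hw1 : w ≤ 1) (ha : 0 ≤ a) (ha1 : a ≤ 1) :
    |(sin p + a * (sin (p + w) - sin p)) - sin (p + w * a)| ≤ 2 * w ^ 2 := by
  have hwa : w * a ≤ 1 := by nlinarith
  have h1 := sin_taylor p w (by rw [abs_of_nonneg hw]; exact hw1)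
  have h2 := sin_taylor p (w * a) (by rw [abs_of_nonneg (by positivity)]; exact hwa)
  have h3 : (sin p + a * (sin (p + w) - sin p)) - sin (p + w * a) =
      a * (sin (p + w) - sin p - w * cos p) - (sin (p + w * a) - sin p - w * a * cos p) := by ring
  rw [h3]
  calc _ ≤ |a * (sin (p + w) - sin p - w * cos p)| + |sin (p + w * a) - sin p - w * a * cos p| :=
        abs_sub _ _
    _ = a * |sin (p + w) - sin p - w * cos p| + |sin (p + w * a) - sin p - w * a * cos p| := by
        rw [abs_mul, abs_of_nonneg ha]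
    _ ≤ 1 * w ^ 2 + (w * a) ^ 2 := by gcongr
    _ ≤ 2 * w ^ 2 := by
        have : (w * a) ^ 2 ≤ w ^ 2 := by
          rw [mul_pow]
          have : a ^ 2 ≤ 1 := by nlinarith
          nlinarith [sq_nonneg w]
        linarith

/-- difference of two indicators with the same right end point. -/
theorem NN_bracket {C r : ℝ} (hC : 0 < C)
    (hint : ∀ A B : ℝ, -1 + r ≤ A → A < B → B ≤ 1 - r →
      NN ((Ico A B).indicator 1) ≤ ENNReal.ofReal (C * (B - A) ^ ((3 : ℝ) / 4)))
    (u y v ρ : ℝ) (hu : -1 + r ≤ u) (hy : -1 + r ≤ y) (huv : u ≤ v) (hyv : y ≤ v)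
    (hv : v ≤ 1 - r) (hρ : |u - y| ≤ ρ) :
    NN (fun x => (Ico u v).indicator 1 x - (Ico y v).indicator 1 x) ≤
      ENNReal.ofReal (C * ρ ^ ((3 : ℝ) / 4)) := by
  have hρ0 : 0 ≤ ρ := (abs_nonneg _).trans hρ
  rcases lt_trichotomy u y with h | h | h
  · have e : (fun x => (Ico u v).indicator (1 : ℝ → ℝ) x - (Ico y v).indicator 1 x) =
        (Ico u y).indicator 1 := by
      funext x
      by_cases h1 : x ∈ Ico u y
      · have h2 : x ∈ Ico u v := ⟨h1.1, lt_of_lt_of_le h1.2 hyv⟩
        have h3 : x ∉ Ico y v := fun h => by linarith [h.1, h1.2]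
        rw [indicator_of_mem h1, indicator_of_mem h2, indicator_of_notMem h3, sub_zero]
      · rw [indicator_of_notMem h1]
        by_cases h2 : x ∈ Ico y v
        · have h3 : x ∈ Ico u v := ⟨by linarith [h2.1], h2.2⟩
          rw [indicator_of_mem h2, indicator_of_mem h3, sub_self]
        · have h3 : x ∉ Ico u v := by
            intro h3
            by_cases h4 : x < y
            · exact h1 ⟨h3.1, h4⟩
            · exact h2 ⟨not_lt.1 h4, h3.2⟩
          rw [indicator_of_notMem h2, indicator_of_notMem h3, sub_self]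
    rw [e]
    refine (hint u y hu h (hyv.trans hv)).trans (ENNReal.ofReal_le_ofReal ?_)
    have : y - u ≤ ρ := by
      rw [abs_sub_comm] at hρ
      exact (le_abs_self _).trans hρ
    have h0 : 0 ≤ y - u := by linarith
    gcongr
  · rw [h]
    simp only [sub_self]
    rw [NN_zero]
    exact zero_le
  · have e : (fun x => (Ico u v).indicator (1 : ℝ → ℝ) x - (Ico y v).indicator 1 x) =
        fun x => (-1 : ℝ) * (Ico y u).indicator 1 x := by
      funext x
      by_cases h1 : x ∈ Ico y u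
      · have h2 : x ∈ Ico y v := ⟨h1.1, lt_of_lt_of_le h1.2 huv⟩
        have h3 : x ∉ Ico u v := fun h => by linarith [h.1, h1.2]
        rw [indicator_of_mem h1, indicator_of_mem h2, indicator_of_notMem h3]
        simp
      · rw [indicator_of_notMem h1]
        by_cases h2 : x ∈ Ico u v
        · have h3 : x ∈ Ico y v := ⟨by linarith [h2.1], h2.2⟩
          rw [indicator_of_mem h2, indicator_of_mem h3]
          simp
        · have h3 : x ∉ Ico y v := by
            intro h3
            by_cases h4 : x < u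
            · exact h1 ⟨h3.1, h4⟩
            · exact h2 ⟨not_lt.1 h4, h3.2⟩
          rw [indicator_of_notMem h2, indicator_of_notMem h3]
          simp
    rw [e, NN_const_mul _ (ind_ii _ _)]
    have : ‖(-1 : ℝ)‖ₑ = 1 := by simp
    rw [this, one_mul]
    refine (hint y u hy h (huv.trans hv)).trans (ENNReal.ofReal_le_ofReal ?_)
    have : u - y ≤ ρ := (le_abs_self _).trans hρ
    have h0 : 0 ≤ u - y := by linarith
    gcongr

/-- the affine pattern and the `ψ`-periodic pattern are close in the maximal norm. -/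
theorem HH_psi
    (NN_interval : ∀ (e r : ℝ), 0 < e → e < 1 → 0 < r → ∃ C : ℝ, 0 < C ∧ ∀ A B : ℝ,
      -1 + r ≤ A → A < B → B ≤ 1 - r →
      NN ((Ico A B).indicator 1) ≤ ENNReal.ofReal (C * (B - A) ^ e))
    {m : ℕ} (g : ℝ) (c a : Fin m → ℝ) (θ T : ℝ)
    (ha : ∀ k, 0 ≤ a k ∧ a k ≤ 1)
    (hθ : -(π / 2) < θ) (hT : 0 < T) (hθT : θ + T < π / 2) {τ : ℝ} (hτ : 0 < τ) :
    ∃ P0 : ℕ, ∀ P, P0 ≤ P →
      NN (fun x => HH g c a θ T P x - (g * EE θ T P 1 x + ∑ k, c k * EE θ T P (1 - a k) x))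
        ≤ ENNReal.ofReal τ := by
  set r : ℝ := min (1 + sin θ) (1 - sin (θ + T)) with hr
  have hr1 : 0 < 1 + sin θ := by
    have h1 : sin (-(π / 2)) < sin θ := by
      apply strictMonoOn_sin _ _ hθ
      · constructor <;> linarith [pi_pos]
      · constructor <;> linarith
    rw [sin_neg, sin_pi_div_two] at h1
    linarith
  have hr2 : 0 < 1 - sin (θ + T) := by
    have h1 : sin (θ + T) < sin (π / 2) := by
      apply strictMonoOn_sin _ _ hθT
      · constructor <;> linarith
      · constructor <;> linarith [pi_pos]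
    rw [sin_pi_div_two] at h1
    linarith
  have hr0 : 0 < r := lt_min hr1 hr2
  obtain ⟨C, hC, hint⟩ := NN_interval (3 / 4) r (by norm_num) (by norm_num) hr0
  set S : ℝ := ∑ k, |c k| with hS
  have hS0 : 0 ≤ S := by positivity
  set K : ℝ := S * (C * (2 * T ^ 2) ^ ((3 : ℝ) / 4)) with hK
  have hlim : Tendsto (fun P : ℕ => K * (P : ℝ) ^ (-(1 / 2 : ℝ))) atTop (𝓝 (K * 0)) :=
    ((tendsto_rpow_neg_atTop (by norm_num : (0 : ℝ) < 1 / 2)).comp
      tendsto_natCast_atTop_atTop).const_mul K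
  rw [mul_zero] at hlim
  have hev := hlim.eventually (gt_mem_nhds hτ)
  rw [eventually_atTop] at hev
  obtain ⟨P1, hP1⟩ := hev
  obtain ⟨P2, hP2⟩ := exists_nat_gt T
  refine ⟨max P1 (P2 + 1), fun P hP => ?_⟩
  have hPP1 : P1 ≤ P := (le_max_left _ _).trans hP
  have hPP2 : P2 + 1 ≤ P := (le_max_right _ _).trans hP
  have hPpos : (0 : ℝ) < P := by
    have : 0 < P := by omega
    exact_mod_cast this
  have hTP : T / P ≤ 1 := by
    rw [div_le_one hPpos]
    have : (P2 : ℝ) ≤ P := by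
      have : P2 ≤ P := by omega
      exact_mod_cast this
    linarith
  -- rewrite the difference
  set y : ℕ → Fin m → ℝ := fun j k => sin (θ + T * ((j + 1 - (1 - a k)) / P)) with hy
  have hdiff : (fun x => HH g c a θ T P x - (g * EE θ T P 1 x + ∑ k, c k * EE θ T P (1 - a k) x)) =
      fun x => ∑ j ∈ Finset.range P, ∑ k, c k *
        ((Ico (cpt θ T P j + a k * (cpt θ T P (j + 1) - cpt θ T P j))
          (cpt θ T P (j + 1))).indicator 1 x - (Ico (y j k) (cpt θ T P (j + 1))).indicator 1 x) := by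
    funext x
    rw [HH_eq g c a ha hθ hT hθT P x]
    have e1 : EE θ T P 1 x = ∑ j ∈ Finset.range P,
        (Ico (cpt θ T P j) (cpt θ T P (j + 1))).indicator 1 x := by
      unfold EE cpt
      apply Finset.sum_congr rfl
      intro j _
      rw [show ((j : ℝ) + 1 - 1) = j by ring]
      push_cast
      rfl
    have e2 : ∀ k, EE θ T P (1 - a k) x = ∑ j ∈ Finset.range P,
        (Ico (y j k) (cpt θ T P (j + 1))).indicator 1 x := by
      intro k
      unfold EE cpt
      apply Finset.sum_congr rfl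
      intro j _
      push_cast
      rfl
    simp only [e1, e2]
    rw [Finset.sum_add_distrib, ← Finset.mul_sum]
    have e3 : ∑ k, c k * ∑ j ∈ Finset.range P, (Ico (y j k) (cpt θ T P (j + 1))).indicator 1 x =
        ∑ j ∈ Finset.range P, ∑ k, c k * (Ico (y j k) (cpt θ T P (j + 1))).indicator (1 : ℝ → ℝ) x := by
      rw [Finset.sum_comm]
      apply Finset.sum_congr rfl
      intro k _
      rw [Finset.mul_sum]
    rw [e3]
    rw [add_sub_add_left_eq_sub, ← Finset.sum_sub_distrib]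
    apply Finset.sum_congr rfl
    intro j _
    rw [← Finset.sum_sub_distrib]
    apply Finset.sum_congr rfl
    intro k _
    ring
  rw [hdiff]
  have hii : ∀ (j : ℕ) (k : Fin m), IntervalIntegrable (fun x =>
      ((Ico (cpt θ T P j + a k * (cpt θ T P (j + 1) - cpt θ T P j))
          (cpt θ T P (j + 1))).indicator (1 : ℝ → ℝ) x -
            (Ico (y j k) (cpt θ T P (j + 1))).indicator 1 x)) volume (-1) 1 :=
    fun j k => (ind_ii _ _).sub (ind_ii _ _)
  refine (NN_sum _ _ fun j _ => ii_sum _ _ fun k _ => (hii j k).const_mul _).trans ?_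
  have hjk : ∀ j ∈ Finset.range P, NN (fun x => ∑ k, c k *
        ((Ico (cpt θ T P j + a k * (cpt θ T P (j + 1) - cpt θ T P j))
          (cpt θ T P (j + 1))).indicator 1 x - (Ico (y j k) (cpt θ T P (j + 1))).indicator 1 x)) ≤
      ENNReal.ofReal (S * (C * (2 * (T / P) ^ 2) ^ ((3 : ℝ) / 4))) := by
    intro j hj
    have hj' := Finset.mem_range.1 hj
    obtain ⟨f1, f2, f3, f4⟩ := frac_facts hj'
    refine (NN_sum _ _ fun k _ => (hii j k).const_mul _).trans ?_
    rw [hS, Finset.sum_mul, ENNReal.ofReal_sum_of_nonneg (fun k _ => by positivity)]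
    apply Finset.sum_le_sum
    intro k _
    rw [NN_const_mul _ (hii j k), ENNReal.ofReal_mul (abs_nonneg _), Real.enorm_eq_ofReal_abs]
    gcongr
    -- the bracket
    have hk := ha k
    have hlt := cpt_lt hθ hT hθT hj'
    have hycl : (j : ℝ) / P ≤ ((j : ℝ) + 1 - (1 - a k)) / P := by
      gcongr
      linarith
    have hycr : ((j : ℝ) + 1 - (1 - a k)) / P ≤ ((j + 1 : ℕ) : ℝ) / P := by
      push_cast
      gcongr
      linarith
    have hylow : cpt θ T P j ≤ y j k := sin_block_mono hθ hT hθT f1 hycl (hycr.trans f3)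
    have hyhigh : y j k ≤ cpt θ T P (j + 1) :=
      sin_block_mono hθ hT hθT (f1.trans hycl) hycr f3
    have hlow : -1 + r ≤ cpt θ T P j := by
      have h1 : sin (θ + T * 0) ≤ cpt θ T P j :=
        sin_block_mono hθ hT hθT le_rfl f1 (f2.le.trans f3)
      rw [mul_zero, add_zero] at h1
      have h2 : r ≤ 1 + sin θ := min_le_left _ _
      linarith
    have hhigh : cpt θ T P (j + 1) ≤ 1 - r := by
      have h1 : cpt θ T P (j + 1) ≤ sin (θ + T * 1) :=
        sin_block_mono hθ hT hθT (f1.trans f2.le) f3 le_rfl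
      rw [mul_one] at h1
      have h2 : r ≤ 1 - sin (θ + T) := min_le_right _ _
      linarith
    have hclose : |(cpt θ T P j + a k * (cpt θ T P (j + 1) - cpt θ T P j)) - y j k| ≤
        2 * (T / P) ^ 2 := by
      have h1 := affine_close (θ + T * (j / P)) (T / P) (a k) (by positivity) hTP hk.1 hk.2
      have h2 : cpt θ T P j = sin (θ + T * (j / P)) := rfl
      have h3 : cpt θ T P (j + 1) = sin (θ + T * (j / P) + T / P) := by
        unfold cpt
        congr 1
        push_cast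
        ring
      have h4 : y j k = sin (θ + T * (j / P) + T / P * a k) := by
        rw [hy]
        simp only
        congr 1
        ring
      rw [h2, h3, h4]
      exact h1
    have hm1 : 0 ≤ a k * (cpt θ T P (j + 1) - cpt θ T P j) := mul_nonneg hk.1 (by linarith)
    have hm2 : a k * (cpt θ T P (j + 1) - cpt θ T P j) ≤ cpt θ T P (j + 1) - cpt θ T P j := by
      nlinarith
    exact NN_bracket hC hint _ _ _ _ (by linarith) (by linarith) (by linarith) hyhigh hhigh hclose
  refine (Finset.sum_le_sum hjk).trans ?_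
  rw [Finset.sum_const, Finset.card_range, nsmul_eq_mul]
  have hfin : (P : ℝ) * (S * (C * (2 * (T / P) ^ 2) ^ ((3 : ℝ) / 4))) = K * (P : ℝ) ^ (-(1 / 2 : ℝ)) := by
    have h1 : (2 * (T / P) ^ 2 : ℝ) = (2 * T ^ 2) * ((P : ℝ) ^ (-(2 : ℝ))) := by
      rw [rpow_neg hPpos.le]
      rw [show ((2 : ℝ)) = ((2 : ℕ) : ℝ) by norm_num, rpow_natCast]
      field_simp
    rw [h1, mul_rpow (by positivity) (by positivity), ← rpow_mul hPpos.le, hK]
    have h2 : (P : ℝ) * (P : ℝ) ^ (-(2 : ℝ) * (3 / 4)) = (P : ℝ) ^ (-(1 / 2 : ℝ)) := by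
      nth_rewrite 1 [← rpow_one (P : ℝ)]
      rw [← rpow_add hPpos]
      norm_num
    calc _ = S * (C * (2 * T ^ 2) ^ ((3 : ℝ) / 4)) * ((P : ℝ) * (P : ℝ) ^ (-(2 : ℝ) * (3 / 4))) := by
          ring
      _ = _ := by rw [h2]
  rw [← ENNReal.ofReal_natCast, ← ENNReal.ofReal_mul (by positivity), hfin]
  exact ENNReal.ofReal_le_ofReal (hP1 P hPP1).le

end Pool.Agent.Helper187.Leg.B3
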