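import Pool.Agent.Helper187.Leg.BDefs

open MeasureTheory Set Real Filter Topology
open scoped ENNReal

namespace Pool.Agent.Helper187.Leg.B4

open Pool.Agent.Helper187.Leg



/-! ### TARGET -/

/-- super-lacunary selection of the frequencies of `M` blocks with disjoint supports. -/
theorem selection (M : ℕ) (h : ℕ → ℕ → ℝ → ℝ) (hi : ∀ r P, IntervalIntegrable (h r P) volume (-1) 1)
    (hm : ∀ r P, Measurable (h r P))
    (hsupp : ∀ r q P Q x, r ≠ q → h r P x ≠ 0 → h q Q x = 0)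
    (hlow : ∀ (r n0 : ℕ) (τ : ℝ), 0 < τ → ∃ P0 : ℕ, ∀ P, P0 ≤ P → ∀ n, n ≤ n0 →
      ∀ x ∈ Ioo (-1 : ℝ) 1, |Sn n (h r P) x| ≤ τ)
    (htail : ∀ (r P : ℕ) (τ : ℝ), 0 < P → 0 < τ → ∃ m : ℕ,
      ∫⁻ x in Ioo (-1 : ℝ) 1, (⨆ n : ℕ, ⨆ (_ : m ≤ n), ‖Sn n (h r P) x - h r P x‖ₑ)
        ≤ ENNReal.ofReal τ)
    (Pmin : ℕ → ℕ) {τ : ℝ} (hτ : 0 < τ) :
    ∃ P : ℕ → ℕ, (∀ r, 0 < P r) ∧ (∀ r, Pmin r ≤ P r) ∧
      NN (fun x => ∑ r ∈ Finset.range M, h r (P r) x)
        ≤ (∫⁻ x in Ioo (-1 : ℝ) 1, ‖∑ r ∈ Finset.range M, h r (P r) x‖ₑ)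
          + (∫⁻ x in Ioo (-1 : ℝ) 1, ⨆ r ∈ Finset.range M, Smax (h r (P r)) x)
          + ENNReal.ofReal τ := by
  classical
  choose P0 hP0 using hlow
  choose m hm' using htail
  set τ1 : ℝ := τ / (4 * (M + 1)) with hτ1
  have hτ1pos : 0 < τ1 := by positivity
  -- recursive construction
  let Q : ℕ → ℕ → ℕ := fun r n0 => max (Pmin r) (max 1 (P0 r n0 τ1 hτ1pos))
  have hQ1 : ∀ r n0, 0 < Q r n0 := fun r n0 =>
    lt_of_lt_of_le Nat.one_pos ((le_max_left _ _).trans (le_max_right _ _))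
  let seq : ℕ → ℕ × ℕ := fun r => Nat.rec (motive := fun _ => ℕ × ℕ)
    (Q 0 0, m 0 (Q 0 0) τ1 (hQ1 0 0) hτ1pos)
    (fun r s => (Q (r + 1) s.2, max s.2 (m (r + 1) (Q (r + 1) s.2) τ1 (hQ1 _ _) hτ1pos))) r
  have hseq0 : seq 0 = (Q 0 0, m 0 (Q 0 0) τ1 (hQ1 0 0) hτ1pos) := rfl
  have hseqS : ∀ r, seq (r + 1) = (Q (r + 1) (seq r).2,
      max (seq r).2 (m (r + 1) (Q (r + 1) (seq r).2) τ1 (hQ1 _ _) hτ1pos)) := fun r => rfl
  let P : ℕ → ℕ := fun r => (seq r).1
  let N : ℕ → ℕ := fun r => (seq r).2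
  have hPpos : ∀ r, 0 < P r := by
    intro r
    cases r with
    | zero => exact hQ1 0 0
    | succ r => exact hQ1 (r + 1) _
  have hPmin : ∀ r, Pmin r ≤ P r := by
    intro r
    cases r with
    | zero => exact le_max_left _ _
    | succ r => exact le_max_left _ _
  have hNmono : Monotone N := monotone_nat_of_le_succ fun r => by
    show (seq r).2 ≤ (seq (r + 1)).2
    rw [hseqS r]
    exact le_max_left _ _
  have hPlow : ∀ r n, n ≤ N r → ∀ x ∈ Ioo (-1 : ℝ) 1, |Sn n (h (r + 1) (P (r + 1))) x| ≤ τ1 := by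
    intro r n hn x hx
    refine hP0 (r + 1) (N r) τ1 hτ1pos (P (r + 1)) ?_ n hn x hx
    show _ ≤ (seq (r + 1)).1
    rw [hseqS r]
    exact (le_max_right _ _).trans (le_max_right _ _)
  have hE : ∀ r, ∫⁻ x in Ioo (-1 : ℝ) 1,
      (⨆ n : ℕ, ⨆ (_ : N r ≤ n), ‖Sn n (h r (P r)) x - h r (P r) x‖ₑ) ≤ ENNReal.ofReal τ1 := by
    intro r
    have hNm : m r (P r) τ1 (hPpos r) hτ1pos ≤ N r := by
      cases r with
      | zero => exact le_rfl
      | succ r => exact le_max_right _ _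
    refine (lintegral_mono fun x => ?_).trans (hm' r (P r) τ1 (hPpos r) hτ1pos)
    exact iSup_mono fun n => iSup_mono' fun hn => ⟨hNm.trans hn, le_rfl⟩
  refine ⟨P, hPpos, hPmin, ?_⟩
  -- pointwise bound
  have hpt : ∀ x ∈ Ioo (-1 : ℝ) 1, Smax (fun x => ∑ r ∈ Finset.range M, h r (P r) x) x
      ≤ ‖∑ r ∈ Finset.range M, h r (P r) x‖ₑ
        + ((⨆ r ∈ Finset.range M, Smax (h r (P r)) x)
        + ((∑ q ∈ Finset.range M,
            (⨆ n : ℕ, ⨆ (_ : N q ≤ n), ‖Sn n (h q (P q)) x - h q (P q) x‖ₑ))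
          + M * ENNReal.ofReal τ1)) := by
    intro x hx
    refine iSup_le fun n => ?_
    rw [Sn_sum n _ _ (fun i _ => hi i (P i))]
    -- the exceptional index
    obtain ⟨r, hr⟩ : ∃ r, ∀ q, n < N q → q ≠ r → |Sn n (h q (P q)) x| ≤ τ1 := by
      by_cases hex : ∃ r, n < N r
      · refine ⟨Nat.find hex, fun q hq hqr => ?_⟩
        have h1 : Nat.find hex ≤ q := Nat.find_min' hex hq
        have h2 : Nat.find hex < q := lt_of_le_of_ne h1 (Ne.symm hqr)
        obtain ⟨q', rfl⟩ : ∃ q', q = q' + 1 := ⟨q - 1, by omega⟩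
        have h3 : n ≤ N q' := (Nat.find_spec hex).le.trans (hNmono (by omega))
        exact hPlow q' n h3 x hx
      · push Not at hex
        exact ⟨0, fun q hq => absurd hq (not_lt.2 (hex q))⟩
    set A : ℕ → ℝ := fun q => if N q ≤ n then h q (P q) x else 0 with hA
    have hsum : ∑ q ∈ Finset.range M, Sn n (h q (P q)) x
        = ∑ q ∈ Finset.range M, A q + ∑ q ∈ Finset.range M, (Sn n (h q (P q)) x - A q) := by
      rw [← Finset.sum_add_distrib]
      refine Finset.sum_congr rfl fun q _ => by ring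
    have hAle : ‖∑ q ∈ Finset.range M, A q‖ₑ ≤ ‖∑ r ∈ Finset.range M, h r (P r) x‖ₑ := by
      by_cases hz : ∀ q ∈ Finset.range M, h q (P q) x = 0
      · have : ∑ q ∈ Finset.range M, A q = 0 := by
          refine Finset.sum_eq_zero fun q hq => ?_
          simp only [hA, hz q hq, ite_self]
        rw [this]; simp
      · push Not at hz
        obtain ⟨q0, hq0, hne⟩ := hz
        have hoth : ∀ q, q ≠ q0 → h q (P q) x = 0 := fun q hq =>
          hsupp q0 q (P q0) (P q) x (Ne.symm hq) hne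
        rw [Finset.sum_eq_single q0 (fun q _ hq => by simp only [hA, hoth q hq, ite_self])
            (fun hh => absurd hq0 hh),
          Finset.sum_eq_single q0 (fun q _ hq => hoth q hq) (fun hh => absurd hq0 hh)]
        simp only [hA]
        split_ifs
        · exact le_rfl
        · simp
    have hterm : ∀ q ∈ Finset.range M, ‖Sn n (h q (P q)) x - A q‖ₑ
        ≤ (if r = q then Smax (h q (P q)) x else 0)
          + ((⨆ n : ℕ, ⨆ (_ : N q ≤ n), ‖Sn n (h q (P q)) x - h q (P q) x‖ₑ)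
            + ENNReal.ofReal τ1) := by
      intro q _
      by_cases hq : N q ≤ n
      · simp only [hA, hq, if_true]
        refine le_trans ?_ (le_add_left (le_add_right le_rfl))
        exact le_iSup₂ (f := fun n (_ : N q ≤ n) => ‖Sn n (h q (P q)) x - h q (P q) x‖ₑ) n hq
      · simp only [hA, hq, if_false, sub_zero]
        by_cases hqr : r = q
        · subst hqr
          rw [if_pos rfl]
          exact le_add_right (le_iSup (fun n => ‖Sn n (h r (P r)) x‖ₑ) n)
        · refine le_trans ?_ (le_add_left (le_add_left le_rfl))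
          have := hr q (not_le.1 hq) (Ne.symm hqr)
          rw [← ofReal_norm, Real.norm_eq_abs]
          exact ENNReal.ofReal_le_ofReal this
    have hone : (∑ q ∈ Finset.range M, (if r = q then Smax (h q (P q)) x else 0))
        ≤ ⨆ r ∈ Finset.range M, Smax (h r (P r)) x := by
      rw [Finset.sum_ite_eq]
      split_ifs with hr'
      · exact le_iSup₂ (f := fun r (_ : r ∈ Finset.range M) => Smax (h r (P r)) x) r hr'
      · exact zero_le
    calc ‖∑ q ∈ Finset.range M, Sn n (h q (P q)) x‖ₑ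
        ≤ ‖∑ q ∈ Finset.range M, A q‖ₑ + ‖∑ q ∈ Finset.range M, (Sn n (h q (P q)) x - A q)‖ₑ := by
          rw [hsum]; exact enorm_add_le _ _
      _ ≤ ‖∑ r ∈ Finset.range M, h r (P r) x‖ₑ
          + ∑ q ∈ Finset.range M, ‖Sn n (h q (P q)) x - A q‖ₑ :=
          add_le_add hAle (enorm_sum_le _ _)
      _ ≤ ‖∑ r ∈ Finset.range M, h r (P r) x‖ₑ
          + ∑ q ∈ Finset.range M, ((if r = q then Smax (h q (P q)) x else 0)
          + ((⨆ n : ℕ, ⨆ (_ : N q ≤ n), ‖Sn n (h q (P q)) x - h q (P q) x‖ₑ)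
            + ENNReal.ofReal τ1)) :=
          add_le_add le_rfl (Finset.sum_le_sum hterm)
      _ ≤ _ := by
          rw [Finset.sum_add_distrib, Finset.sum_add_distrib, Finset.sum_const, Finset.card_range,
            nsmul_eq_mul]
          exact add_le_add le_rfl (add_le_add hone le_rfl)
  -- integrate
  have hmeasE : ∀ q, Measurable fun x =>
      (⨆ n : ℕ, ⨆ (_ : N q ≤ n), ‖Sn n (h q (P q)) x - h q (P q) x‖ₑ) := by
    intro q
    refine Measurable.iSup fun n => Measurable.iSup fun _ => ?_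
    exact ((Sn_cont n (hi q (P q))).measurable.sub (hm q (P q))).enorm
  have hmeas1 : Measurable fun x => ‖∑ r ∈ Finset.range M, h r (P r) x‖ₑ :=
    (Finset.measurable_sum _ fun r _ => hm r (P r)).enorm
  have hmeas2 : Measurable fun x => (⨆ r ∈ Finset.range M, Smax (h r (P r)) x) := by
    refine Measurable.iSup fun r => Measurable.iSup fun _ => ?_
    exact Smax_meas (hi r (P r))
  have hI3 : ∫⁻ x in Ioo (-1 : ℝ) 1, ((∑ q ∈ Finset.range M,
            (⨆ n : ℕ, ⨆ (_ : N q ≤ n), ‖Sn n (h q (P q)) x - h q (P q) x‖ₑ))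
          + M * ENNReal.ofReal τ1) ≤ ENNReal.ofReal τ := by
    rw [lintegral_add_right _ measurable_const, lintegral_finsetSum _ (fun q _ => hmeasE q),
      lintegral_const, Measure.restrict_apply_univ, Real.volume_Ioo]
    calc (∑ q ∈ Finset.range M, ∫⁻ x in Ioo (-1 : ℝ) 1,
            (⨆ n : ℕ, ⨆ (_ : N q ≤ n), ‖Sn n (h q (P q)) x - h q (P q) x‖ₑ))
          + M * ENNReal.ofReal τ1 * ENNReal.ofReal (1 - -1)
        ≤ (∑ q ∈ Finset.range M, ENNReal.ofReal τ1)
          + M * ENNReal.ofReal τ1 * ENNReal.ofReal (1 - -1) :=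
          add_le_add (Finset.sum_le_sum fun q _ => hE q) le_rfl
      _ = ENNReal.ofReal (M * τ1 + M * τ1 * (1 - -1)) := by
          rw [Finset.sum_const, Finset.card_range, nsmul_eq_mul,
            ENNReal.ofReal_add (by positivity) (by norm_num; positivity),
            ENNReal.ofReal_mul (by positivity), ENNReal.ofReal_mul (by positivity),
            ENNReal.ofReal_mul (by positivity), ENNReal.ofReal_natCast]
      _ ≤ ENNReal.ofReal τ := by
          apply ENNReal.ofReal_le_ofReal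
          have hM : (0 : ℝ) ≤ M := Nat.cast_nonneg M
          have h4 : (M + 1 : ℝ) * τ1 = τ / 4 := by
            rw [hτ1]; field_simp
          nlinarith
  unfold NN
  calc ∫⁻ x in Ioo (-1 : ℝ) 1, Smax (fun x => ∑ r ∈ Finset.range M, h r (P r) x) x
      ≤ ∫⁻ x in Ioo (-1 : ℝ) 1, (‖∑ r ∈ Finset.range M, h r (P r) x‖ₑ
        + ((⨆ r ∈ Finset.range M, Smax (h r (P r)) x)
        + ((∑ q ∈ Finset.range M,
            (⨆ n : ℕ, ⨆ (_ : N q ≤ n), ‖Sn n (h q (P q)) x - h q (P q) x‖ₑ))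
          + M * ENNReal.ofReal τ1))) :=
        setLIntegral_mono' measurableSet_Ioo hpt
    _ ≤ _ := by
        rw [lintegral_add_left hmeas1, lintegral_add_left hmeas2, add_assoc]
        exact add_le_add le_rfl (add_le_add le_rfl hI3)

end Pool.Agent.Helper187.Leg.B4

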