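import Pool.Agent.Helper187.Leg.Main1

open MeasureTheory Set Real Filter Topology
open scoped ENNReal

namespace Pool.Agent.Helper187.Leg

theorem HH_zero_P {m : ℕ} (g : ℝ) (c a : Fin m → ℝ) (θ T : ℝ) : HH g c a θ T 0 = fun _ => 0 := by
  funext x; simp [HH]

theorem Smax_psi {m : ℕ} (g : ℝ) (c a : Fin m → ℝ) (θ T : ℝ) (P : ℕ) (x : ℝ) :
    Smax (fun x => g * EE θ T P 1 x + ∑ k, c k * EE θ T P (1 - a k) x) x
      ≤ ‖g‖ₑ * Smax (EE θ T P 1) x + ∑ k, ‖c k‖ₑ * Smax (EE θ T P (1 - a k)) x := by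
  have h1 := Smax_add (h := fun x => g * EE θ T P 1 x) (k := fun x => ∑ k, c k * EE θ T P (1 - a k) x)
    ((EE_ii θ T P 1).const_mul g) (ii_sum _ _ fun k _ => (EE_ii θ T P (1 - a k)).const_mul (c k)) x
  refine h1.trans (add_le_add ?_ ?_)
  · rw [Smax_const_mul]
  · refine (Smax_sum Finset.univ (fun k x => c k * EE θ T P (1 - a k) x)
      (fun k _ => (EE_ii θ T P (1 - a k)).const_mul (c k)) x).trans ?_
    refine Finset.sum_le_sum fun k _ => ?_
    rw [Smax_const_mul]

theorem blockThm : ∃ C : ℝ, 0 < C ∧ ∀ (A B : ℝ), -1 < A → A < B → B < 1 →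
    ∀ (m : ℕ) (g : ℝ) (c a : Fin m → ℝ) (η : ℝ), 0 < η → η ≤ 1 →
    (∀ k, 1 - η ≤ a k ∧ a k ≤ 1) → g + ∑ k, c k * (1 - a k) = 0 → ∀ τ : ℝ, 0 < τ →
    ∃ h : ℝ → ℝ, StepOn (Ico A B) h ∧
      (∀ v, volume (Ico A B ∩ h ⁻¹' {v})
        = ENNReal.ofReal (B - A) * volume (Ico 0 1 ∩ (pat g c a) ⁻¹' {v})) ∧
      NN h ≤ ENNReal.ofReal (C * (B - A) * (|g| + (∑ k, |c k|) * √η) + τ) := by
  obtain ⟨C0, hC0, H0⟩ := fB1
  refine ⟨C0 + 1, by positivity, fun A B hA hAB hB m g c a η hη hη1 ha hmean τ hτ => ?_⟩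
  -- angular coordinates
  obtain ⟨α, hα⟩ : ∃ α, α = arcsin A := ⟨_, rfl⟩
  obtain ⟨β, hβ⟩ : ∃ β, β = arcsin B := ⟨_, rfl⟩
  have hα1 : -(π / 2) < α := by rw [hα]; exact neg_pi_div_two_lt_arcsin.2 hA
  have hβ1 : β < π / 2 := by rw [hβ]; exact arcsin_lt_pi_div_two.2 hB
  have hsα : sin α = A := by rw [hα]; exact sin_arcsin hA.le (by linarith)
  have hsβ : sin β = B := by rw [hβ]; exact sin_arcsin (by linarith) hB.le
  have hαβ : α < β := by rw [hα, hβ]; exact strictMonoOn_arcsin ⟨hA.le, by linarith⟩ ⟨by linarith, hB.le⟩ hAB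
  set W := |g| + ∑ k, |c k| with hW
  have hW0 : 0 ≤ W := by positivity
  set τ1 := τ / (4 * (W + 1)) with hτ1
  have hτ1pos : 0 < τ1 := by positivity
  have hWτ : W * τ1 ≤ τ / 4 := by
    rw [hτ1, mul_div_assoc', div_le_div_iff₀ (by positivity) (by norm_num)]
    nlinarith
  obtain ⟨M0, hM0, HB1⟩ := H0 α β hα1 hαβ hβ1 τ1 hτ1pos
  set M := M0 with hM
  have hM' : (0 : ℝ) < M := by exact_mod_cast hM0
  set T := (β - α) / M with hT
  have hTpos : 0 < T := div_pos (by linarith) hM'
  have hβT : β = α + T * M := by rw [hT]; field_simp; ring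
  have ha0 : ∀ k, 0 ≤ a k ∧ a k ≤ 1 := fun k => ⟨by linarith [(ha k).1], (ha k).2⟩
  have hblock : ∀ r : ℕ, r < M → -(π / 2) < α + T * r ∧ α + T * r + T < π / 2 ∧ α + T * r + T ≤ β ∧ α ≤ α + T * r := by
    intro r hr
    have hrM : (r : ℝ) + 1 ≤ M := by exact_mod_cast hr
    have hr0 : (0 : ℝ) ≤ r := Nat.cast_nonneg r
    refine ⟨by nlinarith, by nlinarith, by nlinarith, by nlinarith⟩
  -- the block functions
  set H : ℕ → ℕ → ℝ → ℝ := fun r P => if r < M then HH g c a (α + T * r) T P else fun _ => 0 with hH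
  have hstep : ∀ r P, r < M → 0 < P → StepOn (Ico (sin (α + T * r)) (sin (α + T * r + T))) (HH g c a (α + T * r) T P) :=
    fun r P hr hP => (B2.HH_step g c a (α + T * r) T P hP ha0 (hblock r hr).1 hTpos (hblock r hr).2.1).1
  have hHcase : ∀ r P, (∃ J, StepOn J (H r P)) := by
    intro r P
    by_cases hr : r < M
    · simp only [hH, if_pos hr]
      rcases Nat.eq_zero_or_pos P with h0 | h0
      · rw [h0, HH_zero_P]; exact ⟨∅, StepOn.empty⟩
      · exact ⟨_, hstep r P hr h0⟩
    · simp only [hH, if_neg hr]; exact ⟨∅, StepOn.empty⟩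
  have hsupp0 : ∀ r P x, H r P x ≠ 0 → r < M ∧ x ∈ Ico (sin (α + T * r)) (sin (α + T * r + T)) := by
    intro r P x hx
    by_cases hr : r < M
    · simp only [hH, if_pos hr] at hx
      refine ⟨hr, ?_⟩
      rcases Nat.eq_zero_or_pos P with h0 | h0
      · rw [h0, HH_zero_P] at hx; exact absurd rfl hx
      · by_contra hxn
        obtain ⟨ι, hι, a', b', c', -, -, -, -, -, h00⟩ := hstep r P hr h0
        exact hx (h00 x hxn)
    · simp only [hH, if_neg hr] at hx
      exact absurd rfl hx
  have hsep : ∀ r q, r < q → q < M → sin (α + T * r + T) ≤ sin (α + T * q) := by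
    intro r q hrq hq
    have h1 : (r : ℝ) + 1 ≤ q := by exact_mod_cast hrq
    refine sin_le_sin_of_le_of_le_pi_div_two ?_ ?_ ?_
    · linarith [(hblock r (hrq.trans hq)).1]
    · linarith [(hblock q hq).2.1]
    · nlinarith
  have hdisj : ∀ r q x, r < M → q < M → r ≠ q → x ∈ Ico (sin (α + T * r)) (sin (α + T * r + T)) →
      x ∈ Ico (sin (α + T * q)) (sin (α + T * q + T)) → False := by
    intro r q x hr hq hne h1 h2
    rcases lt_or_gt_of_ne hne with h | h
    · have := hsep r q h hq; linarith [h1.2, h2.1]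
    · have := hsep q r h hr; linarith [h2.2, h1.1]
  -- the ψ version
  set Ψ : ℕ → ℕ → ℝ → ℝ := fun r P x => g * EE (α + T * r) T P 1 x + ∑ k, c k * EE (α + T * r) T P (1 - a k) x with hΨ
  have hPmin : ∀ r : ℕ, ∃ P0 : ℕ, r < M → ∀ P, P0 ≤ P → NN (fun x => HH g c a (α + T * r) T P x - Ψ r P x) ≤ ENNReal.ofReal (τ / (4 * M)) := by
    intro r
    by_cases hr : r < M
    · obtain ⟨P0, hP0⟩ := B3.HH_psi (fun e r he he1 hr => fNN_interval e r he he1 hr) g c a (α + T * r) T ha0
        (hblock r hr).1 hTpos (hblock r hr).2.1 (τ := τ / (4 * M)) (by positivity)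
      exact ⟨P0, fun _ => hP0⟩
    · exact ⟨0, fun h => absurd h hr⟩
  choose Pmin hPmin' using hPmin
  obtain ⟨P, hPpos, hPge, hPN⟩ := B4.selection M H (fun r P => (hHcase r P).choose_spec.ii)
    (fun r P => (hHcase r P).choose_spec.meas)
    (by
      intro r q P Q x hne hx
      by_contra hx2
      obtain ⟨h1, h2⟩ := hsupp0 r P x hx
      obtain ⟨h3, h4⟩ := hsupp0 q Q x hx2
      exact hdisj r q x h1 h3 hne h2 h4)
    (by
      intro r n0 τ' hτ'
      by_cases hr : r < M
      · simp only [hH, if_pos hr]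
        exact B3.HH_low g c a (α + T * r) T ha0 hmean (hblock r hr).1 hTpos (hblock r hr).2.1 n0 hτ'
      · refine ⟨0, fun P _ n _ x _ => ?_⟩
        simp only [hH, if_neg hr]
        simp [Sn, hτ'.le])
    (by
      intro r P τ' _ hτ'
      exact ftail (hHcase r P).choose_spec hτ')
    Pmin (τ := τ / 4) (by positivity)
  -- the function
  set h : ℝ → ℝ := fun x => ∑ r ∈ Finset.range M, H r (P r) x with hh
  have hHr : ∀ r, r < M → H r (P r) = HH g c a (α + T * r) T (P r) := fun r hr => by simp only [hH, if_pos hr]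
  have hon : ∀ r, r < M → ∀ x ∈ Ico (sin (α + T * r)) (sin (α + T * r + T)), h x = HH g c a (α + T * r) T (P r) x := by
    intro r hr x hx
    simp only [hh]
    rw [Finset.sum_eq_single r, hHr r hr]
    · intro q hq hqr
      by_contra hne
      obtain ⟨h1, h2⟩ := hsupp0 q (P q) x hne
      exact hdisj q r x h1 hr hqr h2 hx
    · intro hn; exact absurd (Finset.mem_range.2 hr) hn
  have hunion : Ico A B = ⋃ r : Fin M, Ico (sin (α + T * r)) (sin (α + T * r + T)) := by
    have hsucc : ∀ r : ℕ, α + T * r + T = α + T * ((r + 1 : ℕ) : ℝ) := by intro r; push_cast; ring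
    have key : ∀ N : ℕ, N ≤ M → Ico A (sin (α + T * N)) = ⋃ r : Fin N, Ico (sin (α + T * r)) (sin (α + T * r + T)) := by
      intro N
      induction N with
      | zero => intro _; simp [hsα]
      | succ N ih =>
        intro hN
        have ih' := ih (by omega)
        have hmono1 : A ≤ sin (α + T * N) := by
          rw [← hsα]
          have := hblock N (by omega)
          refine sin_le_sin_of_le_of_le_pi_div_two hα1.le ?_ ?_
          · linarith
          · linarith
        have hmono2 : sin (α + T * N) ≤ sin (α + T * ((N + 1 : ℕ) : ℝ)) := by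
          have := hblock N (by omega)
          rw [← hsucc N]
          refine sin_le_sin_of_le_of_le_pi_div_two (by linarith) (by linarith) (by linarith)
        rw [← Ico_union_Ico_eq_Ico hmono1 hmono2, ih']
        ext x
        simp only [mem_union, mem_iUnion]
        constructor
        · rintro (⟨r, hr⟩ | hx)
          · exact ⟨⟨r, by omega⟩, hr⟩
          · refine ⟨⟨N, by omega⟩, ?_⟩
            simp only
            rw [hsucc N]; exact hx
        · rintro ⟨⟨r, hr⟩, hx⟩
          by_cases hrN : r < N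
          · exact Or.inl ⟨⟨r, hrN⟩, hx⟩
          · have : r = N := by omega
            subst this
            right
            simp only at hx
            rw [hsucc r] at hx; exact hx
    have := key M le_rfl
    rw [← hβT, hsβ] at this
    exact this
  have hfin : ∀ x, h x = ∑ r : Fin M, HH g c a (α + T * r) T (P r) x := by
    intro x
    simp only [hh]
    rw [Finset.sum_range]
    refine Finset.sum_congr rfl fun r _ => ?_
    rw [hHr r r.2]
  have hlen : ∑ r : Fin M, (sin (α + T * r + T) - sin (α + T * r)) = B - A := by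
    have := Finset.sum_range_sub (fun r : ℕ => sin (α + T * r)) M
    rw [Finset.sum_range] at this
    rw [← hsα, ← hsβ, hβT]
    simp only [Nat.cast_zero, mul_zero, add_zero] at this
    rw [← this]
    refine Finset.sum_congr rfl fun r _ => ?_
    congr 2; push_cast; ring
  have hnonneg : ∀ r : Fin M, 0 ≤ sin (α + T * r + T) - sin (α + T * r) := by
    intro r
    have := hblock r r.2
    have := sin_le_sin_of_le_of_le_pi_div_two (x := α + T * r) (y := α + T * r + T) (by linarith) (by linarith) (by linarith)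
    linarith
  refine ⟨h, ?_, ?_, ?_⟩
  · have hg := StepOn.glue (fun r : Fin M => Ico (sin (α + T * r)) (sin (α + T * r + T)))
      (fun r : Fin M => HH g c a (α + T * r) T (P r)) (fun r => hstep r (P r) r.2 (hPpos r))
      (by
        intro r q hrq
        rw [disjoint_left]
        intro x h1 h2
        exact hdisj r q x r.2 q.2 (fun e => hrq (Fin.ext e)) h1 h2)
    rw [hunion]
    exact hg.congr fun x => (hfin x).symm
  · intro v
    have e1 : Ico A B ∩ h ⁻¹' {v} = ⋃ r : Fin M, (Ico (sin (α + T * r)) (sin (α + T * r + T)) ∩ (HH g c a (α + T * r) T (P r)) ⁻¹' {v}) := by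
      rw [hunion, iUnion_inter]
      refine iUnion_congr fun r => ?_
      ext x
      simp only [mem_inter_iff, mem_preimage, mem_singleton_iff]
      constructor
      · rintro ⟨h1, h2⟩; exact ⟨h1, by rw [← hon r r.2 x h1]; exact h2⟩
      · rintro ⟨h1, h2⟩; exact ⟨h1, by rw [hon r r.2 x h1]; exact h2⟩
    rw [e1, measure_iUnion]
    · rw [tsum_fintype]
      calc _ = ∑ r : Fin M, ENNReal.ofReal (sin (α + T * r + T) - sin (α + T * r)) * volume (Ico 0 1 ∩ (pat g c a) ⁻¹' {v}) := by
            refine Finset.sum_congr rfl fun r _ => ?_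
            exact (B2.HH_step g c a (α + T * r) T (P r) (hPpos r) ha0 (hblock r r.2).1 hTpos (hblock r r.2).2.1).2.1 v
        _ = _ := by
            rw [← Finset.sum_mul, ← ENNReal.ofReal_sum_of_nonneg (fun r _ => hnonneg r), hlen]
    · intro r q hrq
      rw [Function.onFun, disjoint_left]
      intro x h1 h2
      exact hdisj r q x r.2 q.2 (fun e => hrq (Fin.ext e)) h1.1 h2.1
    · intro r
      exact measurableSet_Ico.inter ((hstep r (P r) r.2 (hPpos r)).meas (measurableSet_singleton v))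
  · -- the bound
    have hsη : 0 ≤ √η := sqrt_nonneg η
    have hηs : η ≤ √η := by rw [le_sqrt hη.le hη.le]; nlinarith
    have t1 : ∫⁻ x in Ioo (-1 : ℝ) 1, ‖∑ r ∈ Finset.range M, H r (P r) x‖ₑ
        ≤ ENNReal.ofReal ((B - A) * (|g| + (∑ k, |c k|) * √η)) := by
      calc _ ≤ ∫⁻ x, ∑ r : Fin M, ‖HH g c a (α + T * r) T (P r) x‖ₑ := by
            refine (setLIntegral_le_lintegral _ _).trans (lintegral_mono fun x => ?_)
            have := hfin x
            simp only [hh] at this
            rw [this]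
            exact enorm_sum_le _ _
        _ = ∑ r : Fin M, ∫⁻ x, ‖HH g c a (α + T * r) T (P r) x‖ₑ := by
            refine lintegral_finsetSum' _ fun r _ => ?_
            exact (hstep r (P r) r.2 (hPpos r)).meas.enorm.aemeasurable
        _ ≤ ∑ r : Fin M, ENNReal.ofReal ((sin (α + T * r + T) - sin (α + T * r)) * (|g| + ∑ k, |c k| * (1 - a k))) := by
            refine Finset.sum_le_sum fun r _ => ?_
            exact (B2.HH_step g c a (α + T * r) T (P r) (hPpos r) ha0 (hblock r r.2).1 hTpos (hblock r r.2).2.1).2.2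
        _ = ENNReal.ofReal ((B - A) * (|g| + ∑ k, |c k| * (1 - a k))) := by
            have hnn : 0 ≤ |g| + ∑ k, |c k| * (1 - a k) := by
              have : 0 ≤ ∑ k, |c k| * (1 - a k) := Finset.sum_nonneg fun k _ => mul_nonneg (abs_nonneg _) (by linarith [(ha k).2])
              positivity
            rw [← ENNReal.ofReal_sum_of_nonneg (fun r _ => mul_nonneg (hnonneg r) hnn), ← Finset.sum_mul, hlen]
        _ ≤ _ := by
            refine ENNReal.ofReal_le_ofReal ?_
            apply mul_le_mul_of_nonneg_left _ (by linarith)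
            rw [Finset.sum_mul]
            have : ∑ k, |c k| * (1 - a k) ≤ ∑ k, |c k| * √η := Finset.sum_le_sum fun k _ =>
              mul_le_mul_of_nonneg_left (by linarith [(ha k).1]) (abs_nonneg _)
            linarith
    have t2 : ∫⁻ x in Ioo (-1 : ℝ) 1, ⨆ r ∈ Finset.range M, Smax (H r (P r)) x
        ≤ ENNReal.ofReal (C0 * (B - A) * (|g| + (∑ k, |c k|) * √η) + τ / 2) := by
      have hEm : ∀ (r : ℕ) (l : ℝ), Measurable (Smax (EE (α + T * r) T (P r) l)) := fun r l => Smax_meas (EE_ii _ _ _ _)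
      have hsm : ∀ l : ℝ, Measurable fun x => ⨆ r ∈ Finset.range M, Smax (EE (α + T * r) T (P r) l) x := by
        intro l
        refine Measurable.iSup fun r => Measurable.iSup fun _ => hEm r l
      have hΨii : ∀ r, IntervalIntegrable (Ψ r (P r)) volume (-1) 1 := fun r =>
        ((EE_ii _ _ _ _).const_mul g).add (ii_sum _ _ fun k _ => (EE_ii _ _ _ _).const_mul (c k))
      have hDii : ∀ r : Fin M, IntervalIntegrable (fun x => HH g c a (α + T * r) T (P r) x - Ψ r (P r) x) volume (-1) 1 :=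
        fun r => (hstep r (P r) r.2 (hPpos r)).ii.sub (hΨii r)
      have hpt : ∀ x, (⨆ r ∈ Finset.range M, Smax (H r (P r)) x)
          ≤ (∑ r : Fin M, Smax (fun x => HH g c a (α + T * r) T (P r) x - Ψ r (P r) x) x)
            + (‖g‖ₑ * (⨆ r ∈ Finset.range M, Smax (EE (α + T * r) T (P r) 1) x)
            + ∑ k, ‖c k‖ₑ * (⨆ r ∈ Finset.range M, Smax (EE (α + T * r) T (P r) (1 - a k)) x)) := by
        intro x
        refine iSup₂_le fun r hr => ?_
        have hr' := Finset.mem_range.1 hr
        rw [hHr r hr']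
        have e : HH g c a (α + T * r) T (P r) = fun x => (HH g c a (α + T * r) T (P r) x - Ψ r (P r) x) + Ψ r (P r) x := by
          funext x; ring
        rw [e]
        refine (Smax_add (hDii ⟨r, hr'⟩) (hΨii r) x).trans (add_le_add ?_ ((Smax_psi g c a _ _ _ x).trans (add_le_add ?_ ?_)))
        · have := Finset.single_le_sum (f := fun r : Fin M => Smax (fun x => HH g c a (α + T * r) T (P r) x - Ψ r (P r) x) x)
            (fun _ _ => zero_le) (Finset.mem_univ (⟨r, hr'⟩ : Fin M))
          exact this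
        · refine mul_le_mul_right ?_ _
          exact le_iSup₂ (f := fun (r : ℕ) (_ : r ∈ Finset.range M) => Smax (EE (α + T * r) T (P r) 1) x) r hr
        · refine Finset.sum_le_sum fun k _ => mul_le_mul_right ?_ _
          exact le_iSup₂ (f := fun (r : ℕ) (_ : r ∈ Finset.range M) => Smax (EE (α + T * r) T (P r) (1 - a k)) x) r hr
      refine (lintegral_mono fun x => hpt x).trans ?_
      rw [lintegral_add_left (Finset.measurable_fun_sum _ fun r _ => Smax_meas (hDii r)),
        lintegral_add_left ((hsm 1).const_mul _), lintegral_const_mul _ (hsm 1),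
        lintegral_finsetSum' _ (fun r _ => (Smax_meas (hDii r)).aemeasurable),
        lintegral_finsetSum' _ (fun k _ => ((hsm (1 - a k)).const_mul _).aemeasurable)]
      have s1 : ∑ r : Fin M, ∫⁻ x in Ioo (-1 : ℝ) 1, Smax (fun x => HH g c a (α + T * r) T (P r) x - Ψ r (P r) x) x
          ≤ ENNReal.ofReal (τ / 4) := by
        calc _ ≤ ∑ _r : Fin M, ENNReal.ofReal (τ / (4 * M)) := Finset.sum_le_sum fun r _ => hPmin' r r.2 (P r) (hPge r)
          _ = _ := by
              rw [Finset.sum_const, Finset.card_univ, Fintype.card_fin, nsmul_eq_mul, ← ENNReal.ofReal_natCast,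
                ← ENNReal.ofReal_mul (by positivity)]
              congr 1; field_simp
      have s2 : ‖g‖ₑ * ∫⁻ x in Ioo (-1 : ℝ) 1, ⨆ r ∈ Finset.range M, Smax (EE (α + T * r) T (P r) 1) x
          ≤ ENNReal.ofReal (|g| * (C0 * (B - A) + τ1)) := by
        have := HB1 M le_rfl P hPpos 1 zero_le_one le_rfl
        rw [hsα, hsβ, sqrt_one, mul_one] at this
        rw [Real.enorm_eq_ofReal_abs, ENNReal.ofReal_mul (abs_nonneg _)]
        exact mul_le_mul_right this _
      have s3 : ∑ k, ‖c k‖ₑ * ∫⁻ x in Ioo (-1 : ℝ) 1, ⨆ r ∈ Finset.range M, Smax (EE (α + T * r) T (P r) (1 - a k)) x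
          ≤ ENNReal.ofReal (∑ k, |c k| * (C0 * √η * (B - A) + τ1)) := by
        rw [ENNReal.ofReal_sum_of_nonneg (fun k _ => mul_nonneg (abs_nonneg _)
          (add_nonneg (mul_nonneg (by positivity) (by linarith)) hτ1pos.le))]
        refine Finset.sum_le_sum fun k _ => ?_
        have := HB1 M le_rfl P hPpos (1 - a k) (by linarith [(ha k).2]) (by linarith [(ha0 k).1])
        rw [hsα, hsβ] at this
        rw [Real.enorm_eq_ofReal_abs, ENNReal.ofReal_mul (abs_nonneg _)]
        refine mul_le_mul_right (this.trans (ENNReal.ofReal_le_ofReal ?_)) _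
        have h2 : √(1 - a k) ≤ √η := sqrt_le_sqrt (by linarith [(ha k).1])
        have h3 : C0 * √(1 - a k) * (B - A) ≤ C0 * √η * (B - A) := by
          apply mul_le_mul_of_nonneg_right _ (by linarith)
          exact mul_le_mul_of_nonneg_left h2 hC0.le
        linarith
      have s4 : ∑ k, ∫⁻ x in Ioo (-1 : ℝ) 1, ‖c k‖ₑ * (⨆ r ∈ Finset.range M, Smax (EE (α + T * r) T (P r) (1 - a k)) x)
          = ∑ k, ‖c k‖ₑ * ∫⁻ x in Ioo (-1 : ℝ) 1, ⨆ r ∈ Finset.range M, Smax (EE (α + T * r) T (P r) (1 - a k)) x :=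
        Finset.sum_congr rfl fun k _ => lintegral_const_mul _ (hsm (1 - a k))
      rw [s4]
      refine (add_le_add s1 (add_le_add s2 s3)).trans ?_
      have hnn1 : 0 ≤ |g| * (C0 * (B - A) + τ1) := mul_nonneg (abs_nonneg _) (add_nonneg (mul_nonneg hC0.le (by linarith)) hτ1pos.le)
      have hnn2 : 0 ≤ ∑ k, |c k| * (C0 * √η * (B - A) + τ1) := Finset.sum_nonneg fun k _ => mul_nonneg (abs_nonneg _)
        (add_nonneg (mul_nonneg (by positivity) (by linarith)) hτ1pos.le)
      rw [← ENNReal.ofReal_add hnn1 hnn2, ← ENNReal.ofReal_add (by positivity) (by positivity)]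
      refine ENNReal.ofReal_le_ofReal ?_
      rw [← Finset.sum_mul]
      have e : |g| * (C0 * (B - A) + τ1) + (∑ k, |c k|) * (C0 * √η * (B - A) + τ1)
          = C0 * (B - A) * (|g| + (∑ k, |c k|) * √η) + W * τ1 := by rw [hW]; ring
      rw [e]; linarith
    refine hPN.trans ((add_le_add (add_le_add t1 t2) le_rfl).trans ?_)
    have hnn0 : 0 ≤ (B - A) * (|g| + (∑ k, |c k|) * √η) := mul_nonneg (by linarith) (by positivity)
    obtain ⟨X, hX⟩ : ∃ X, X = (B - A) * (|g| + (∑ k, |c k|) * √η) := ⟨_, rfl⟩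
    have e1 : C0 * (B - A) * (|g| + (∑ k, |c k|) * √η) = C0 * X := by rw [hX]; ring
    have e2 : (C0 + 1) * (B - A) * (|g| + (∑ k, |c k|) * √η) = (C0 + 1) * X := by rw [hX]; ring
    rw [e1, e2, ← hX]
    rw [← hX] at hnn0
    clear hPN t1 t2
    rw [← ENNReal.ofReal_add hnn0 (by positivity), ← ENNReal.ofReal_add (by positivity) (by positivity)]
    refine ENNReal.ofReal_le_ofReal ?_
    linarith

end Pool.Agent.Helper187.Leg
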