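import Pool.Agent.Helper187.Leg.Defs

open MeasureTheory

namespace Pool.Agent.Helper187.Leg.C1

open Pool.Agent.Helper187.Leg





section Quantile

open Set Filter Topology

variable (ν : Measure ℝ) [IsFiniteMeasure ν] 

/-- distribution function -/
noncomputable def GG (x : ℝ) : ℝ := ν.real (Iic x)

lemma GG_mono : Monotone (GG ν) := fun _ _ h => measureReal_mono (Iic_subset_Iic.2 h)

lemma GG_nonneg (x : ℝ) : 0 ≤ GG ν x := measureReal_nonneg

lemma GG_le (x : ℝ) : GG ν x ≤ ν.real univ := measureReal_mono (subset_univ _)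

lemma GG_top : Tendsto (GG ν) atTop (𝓝 (ν.real univ)) := by
  have := tendsto_measure_Iic_atTop ν
  exact (ENNReal.tendsto_toReal (measure_ne_top ν univ)).comp this

lemma GG_bot : Tendsto (GG ν) atBot (𝓝 0) := by
  have h : Tendsto (fun x => ν (Iic x)) atBot (𝓝 (ν (⋂ x : ℝ, Iic x))) :=
    tendsto_measure_iInter_atBot (fun x => measurableSet_Iic.nullMeasurableSet)
      (fun _ _ h => Iic_subset_Iic.2 h) ⟨0, measure_ne_top _ _⟩
  have e : (⋂ x : ℝ, Iic x) = ∅ := by
    ext y
    simp only [mem_iInter, mem_Iic, mem_empty_iff_false, iff_false, not_forall, not_le]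
    exact ⟨y - 1, by linarith⟩
  rw [e, measure_empty] at h
  have := (ENNReal.tendsto_toReal (by simp : (0 : ENNReal) ≠ ⊤)).comp h
  rw [ENNReal.toReal_zero] at this
  exact this

lemma GG_cont [NullSingletonClass ν] : Continuous (GG ν) := by
  rw [continuous_iff_continuousAt]
  intro x
  have h := tendsto_measure_biInter_gt (μ := ν) (s := fun r : ℝ => Icc (x - r) (x + r)) (a := 0)
    (fun r _ => measurableSet_Icc.nullMeasurableSet)
    (fun i j _ hij => Icc_subset_Icc (by linarith) (by linarith)) ⟨1, by norm_num, measure_ne_top _ _⟩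
  have e : (⋂ r > (0 : ℝ), Icc (x - r) (x + r)) = {x} := by
    ext y
    simp only [mem_iInter, mem_Icc, mem_singleton_iff]
    constructor
    · intro hy
      by_contra hne
      have hp : 0 < |y - x| := abs_pos.2 (sub_ne_zero.2 hne)
      have h2 := hy (|y - x| / 2) (by positivity)
      rcases abs_cases (y - x) with ⟨h3, _⟩ | ⟨h3, _⟩ <;> rw [h3] at h2 hp <;> linarith [h2.1, h2.2]
    · rintro rfl r hr
      constructor <;> linarith
  rw [e, measure_singleton] at h
  rw [Metric.continuousAt_iff]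
  intro ε hε
  have h2 : ∀ᶠ r in 𝓝[>] (0 : ℝ), ν (Icc (x - r) (x + r)) < ENNReal.ofReal ε :=
    h.eventually (gt_mem_nhds (by simpa using hε))
  obtain ⟨r, hr, hr0⟩ := (h2.and self_mem_nhdsWithin).exists
  refine ⟨r, hr0, ?_⟩
  intro y hy
  rw [Real.dist_eq] at hy ⊢
  have h3 : (ν.real (Icc (x - r) (x + r))) < ε := by
    have := (ENNReal.toReal_lt_toReal (measure_ne_top _ _) (by simp)).2 hr
    rwa [ENNReal.toReal_ofReal hε.le] at this
  refine lt_of_le_of_lt ?_ h3
  have key : ∀ a b : ℝ, a ≤ b → x - r ≤ a → b ≤ x + r → |GG ν b - GG ν a| ≤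
      ν.real (Icc (x - r) (x + r)) := by
    intro a b hab ha hb
    have h4 : GG ν b = GG ν a + ν.real (Ioc a b) := by
      unfold GG
      rw [← Iic_union_Ioc_eq_Iic hab, measureReal_union _ measurableSet_Ioc]
      rw [Set.disjoint_left]
      intro z hz hz2
      exact absurd hz2.1 (not_lt.2 hz)
    rw [h4, add_sub_cancel_left, abs_of_nonneg measureReal_nonneg]
    exact measureReal_mono (fun z hz => ⟨by linarith [hz.1], by linarith [hz.2]⟩)
  rw [abs_lt] at hy
  rcases le_total x y with hxy | hxy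
  · exact key x y hxy (by have : (0:ℝ) < r := hr0; linarith) (by linarith)
  · rw [abs_sub_comm]
    exact key y x hxy (by linarith) (by have : (0:ℝ) < r := hr0; linarith)

/-- quantile function -/
noncomputable def QQ (s : ℝ) : ℝ := open Classical in
  if s ∈ Ioo 0 (ν.real univ) then sInf {x | s ≤ GG ν x} else 0

variable [NullSingletonClass ν]

lemma QQ_spec {s : ℝ} (hs : s ∈ Ioo 0 (ν.real univ)) (x : ℝ) : QQ ν s ≤ x ↔ s ≤ GG ν x := by
  unfold QQ
  rw [if_pos hs]
  have hne : {x | s ≤ GG ν x}.Nonempty := by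
    have := (GG_top ν).eventually (lt_mem_nhds hs.2)
    obtain ⟨y, hy⟩ := this.exists
    exact ⟨y, le_of_lt hy⟩
  obtain ⟨z, hz⟩ := ((GG_bot ν).eventually (gt_mem_nhds hs.1)).exists
  have hbdd : BddBelow {x | s ≤ GG ν x} := by
    refine ⟨z, ?_⟩
    intro y hy
    by_contra hlt
    push Not at hlt
    have h1 := GG_mono ν hlt.le
    simp only [mem_ofPred_eq] at hy
    linarith
  have hclosed : IsClosed {x | s ≤ GG ν x} := isClosed_le continuous_const (GG_cont ν)
  have hmem := hclosed.csInf_mem hne hbdd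
  constructor
  · intro h
    exact le_trans hmem (GG_mono ν h)
  · intro h
    exact csInf_le hbdd h

lemma GG_QQ {s : ℝ} (hs : s ∈ Ioo 0 (ν.real univ)) : GG ν (QQ ν s) = s := by
  apply le_antisymm
  · obtain ⟨z, hz⟩ := ((GG_bot ν).eventually (gt_mem_nhds hs.1)).exists
    obtain ⟨y, hy⟩ := ((GG_top ν).eventually (lt_mem_nhds hs.2)).exists
    obtain ⟨x, hx⟩ := mem_range_of_exists_le_of_exists_ge (GG_cont ν) ⟨z, hz.le⟩ ⟨y, hy.le⟩
    have := (QQ_spec ν hs x).2 hx.ge
    calc GG ν (QQ ν s) ≤ GG ν x := GG_mono ν this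
      _ = s := hx
  · exact (QQ_spec ν hs _).1 le_rfl

lemma measurable_QQ : Measurable (QQ ν) := by
  apply measurable_of_Iic
  intro x
  have : QQ ν ⁻¹' Iic x = (Ioo 0 (ν.real univ) ∩ Iic (GG ν x)) ∪ ((Ioo 0 (ν.real univ))ᶜ ∩ {_s | 0 ≤ x}) := by
    ext s
    simp only [mem_preimage, mem_Iic, mem_union, mem_inter_iff, mem_compl_iff, mem_ofPred_eq]
    by_cases hs : s ∈ Ioo 0 (ν.real univ)
    · rw [QQ_spec ν hs]
      tauto
    · have : QQ ν s = 0 := by unfold QQ; rw [if_neg hs]
      rw [this]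
      tauto
  rw [this]
  exact (measurableSet_Ioo.inter measurableSet_Iic).union
    (measurableSet_Ioo.compl.inter (MeasurableSet.const _))

lemma mp_QQ : MeasurePreserving (QQ ν) (volume.restrict (Ioo 0 (ν.real univ))) ν := by
  refine ⟨measurable_QQ ν, ?_⟩
  refine Measure.ext_of_Iic _ _ (fun x => ?_)
  rw [Measure.map_apply (measurable_QQ ν) measurableSet_Iic,
    Measure.restrict_apply (measurable_QQ ν measurableSet_Iic)]
  have e : QQ ν ⁻¹' Iic x ∩ Ioo 0 (ν.real univ) = Ioo 0 (ν.real univ) ∩ Iic (GG ν x) := by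
    ext s
    simp only [mem_inter_iff, mem_preimage, mem_Iic]
    constructor
    · rintro ⟨h1, h2⟩
      exact ⟨h2, (QQ_spec ν h2 x).1 h1⟩
    · rintro ⟨h1, h2⟩
      exact ⟨(QQ_spec ν h1 x).2 h2, h1⟩
  rw [e]
  have h0 : ν (Iic x) = ENNReal.ofReal (GG ν x) := by
    unfold GG
    rw [ofReal_measureReal]
  rw [h0]
  rcases lt_or_eq_of_le (GG_le ν x) with h | h
  · have : Ioo 0 (ν.real univ) ∩ Iic (GG ν x) = Ioc 0 (GG ν x) := by
      ext s
      simp only [mem_inter_iff, mem_Ioo, mem_Iic, mem_Ioc]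
      constructor
      · rintro ⟨⟨h1, h2⟩, h3⟩; exact ⟨h1, h3⟩
      · rintro ⟨h1, h2⟩; exact ⟨⟨h1, lt_of_le_of_lt h2 h⟩, h2⟩
    rw [this, Real.volume_Ioc, sub_zero]
  · have : Ioo 0 (ν.real univ) ∩ Iic (GG ν x) = Ioo 0 (ν.real univ) := by
      apply inter_eq_left.2
      intro s hs
      rw [mem_Iic, h]
      exact hs.2.le
    rw [this, Real.volume_Ioo, sub_zero, h]

lemma mp_GG : MeasurePreserving (GG ν) ν (volume.restrict (Ioo 0 (ν.real univ))) := by
  refine ⟨(GG_cont ν).measurable, ?_⟩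
  have h0 : Measure.map (GG ν) ν = Measure.map (GG ν)
      (Measure.map (QQ ν) (volume.restrict (Ioo 0 (ν.real univ)))) := by
    rw [(mp_QQ ν).map_eq]
  rw [h0, Measure.map_map (GG_cont ν).measurable (measurable_QQ ν)]
  have : Measure.map (GG ν ∘ QQ ν) (volume.restrict (Ioo 0 (ν.real univ))) =
      Measure.map id (volume.restrict (Ioo 0 (ν.real univ))) := by
    apply Measure.map_congr
    filter_upwards [ae_restrict_mem measurableSet_Ioo] with s hs
    exact GG_QQ ν hs
  rw [this, Measure.map_id]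

lemma QQ_GG : ∀ᵐ x ∂ν, QQ ν (GG ν x) = x := by
  have hm : MeasurableSet {x | QQ ν (GG ν x) = x} :=
    measurableSet_eq_fun ((measurable_QQ ν).comp (GG_cont ν).measurable) measurable_id
  have h := (mp_QQ ν).map_eq
  have : ∀ᵐ x ∂(Measure.map (QQ ν) (volume.restrict (Ioo 0 (ν.real univ)))),
      QQ ν (GG ν x) = x := by
    rw [ae_map_iff (measurable_QQ ν).aemeasurable hm]
    filter_upwards [ae_restrict_mem measurableSet_Ioo] with s hs
    rw [GG_QQ ν hs]
  rwa [h] at this

end Quantile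

/-- two sets of the same finite measure are isomorphic modulo null sets (atomless case). -/
theorem exists_iso (μ : Measure ℝ) [IsFiniteMeasure μ] [NullSingletonClass μ] {A B : Set ℝ} (hA : MeasurableSet A)
    (hB : MeasurableSet B) (hAB : μ A = μ B) :
    ∃ f g : ℝ → ℝ, MeasurePreserving f (μ.restrict A) (μ.restrict B) ∧
      MeasurePreserving g (μ.restrict B) (μ.restrict A) ∧
      (∀ᵐ x ∂(μ.restrict A), g (f x) = x) ∧ (∀ᵐ x ∂(μ.restrict B), f (g x) = x) := by
  have hreal : (μ.restrict A).real Set.univ = (μ.restrict B).real Set.univ := by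
    simp [Measure.real, hAB]
  have key : ∀ (ν₁ ν₂ : Measure ℝ) [IsFiniteMeasure ν₁] [IsFiniteMeasure ν₂]
      [NullSingletonClass ν₁] [NullSingletonClass ν₂] (_ : ν₁.real Set.univ = ν₂.real Set.univ),
      MeasurePreserving (QQ ν₂ ∘ GG ν₁) ν₁ ν₂ ∧
      (∀ᵐ x ∂ν₁, (QQ ν₁ ∘ GG ν₂) ((QQ ν₂ ∘ GG ν₁) x) = x) := by
    intro ν₁ ν₂ _ _ _ _ h
    constructor
    · have h1 := mp_GG ν₁
      rw [h] at h1
      exact (mp_QQ ν₂).comp h1
    · have h2 : ∀ᵐ x ∂ν₁, GG ν₁ x ∈ Set.Ioo 0 (ν₁.real Set.univ) :=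
        (mp_GG ν₁).quasiMeasurePreserving.ae (ae_restrict_mem measurableSet_Ioo)
      filter_upwards [QQ_GG ν₁, h2] with x hx hx2
      simp only [Function.comp_apply]
      rw [h] at hx2
      rw [GG_QQ ν₂ hx2, hx]
  exact ⟨QQ (μ.restrict B) ∘ GG (μ.restrict A), QQ (μ.restrict A) ∘ GG (μ.restrict B),
    (key _ _ hreal).1, (key _ _ hreal.symm).1, (key _ _ hreal).2, (key _ _ hreal.symm).2⟩

/-- matching of level sets: identity where the labels already agree. -/
theorem match_levels (μ : Measure ℝ) [IsFiniteMeasure μ] [NullSingletonClass μ] (u v : ℝ → ℕ) (hu : Measurable u)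
    (hv : Measurable v) (h : ∀ i, μ (u ⁻¹' {i}) = μ (v ⁻¹' {i})) :
    ∃ τ : MPI μ, (∀ᵐ x ∂μ, u (τ.f x) = v x) ∧ (∀ᵐ x ∂μ, u x = v x → τ.f x = x) := by
  classical
  let A : ℕ → Set ℝ := fun i => v ⁻¹' {i} \ u ⁻¹' {i}
  let B : ℕ → Set ℝ := fun i => u ⁻¹' {i} \ v ⁻¹' {i}
  have hmu : ∀ i, MeasurableSet (u ⁻¹' {i}) := fun i => hu (measurableSet_singleton i)
  have hmv : ∀ i, MeasurableSet (v ⁻¹' {i}) := fun i => hv (measurableSet_singleton i)
  have hA : ∀ i, MeasurableSet (A i) := fun i => (hmv i).diff (hmu i)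
  have hB : ∀ i, MeasurableSet (B i) := fun i => (hmu i).diff (hmv i)
  have hAB : ∀ i, μ (A i) = μ (B i) := by
    intro i
    have e1 : μ (v ⁻¹' {i} ∩ u ⁻¹' {i}) + μ (A i) = μ (v ⁻¹' {i}) :=
      measure_inter_add_sdiff _ (hmu i)
    have e2 : μ (u ⁻¹' {i} ∩ v ⁻¹' {i}) + μ (B i) = μ (u ⁻¹' {i}) :=
      measure_inter_add_sdiff _ (hmv i)
    rw [Set.inter_comm, h i, ← e1] at e2
    exact ((ENNReal.add_right_inj (measure_ne_top _ _)).1 e2).symm
  choose f g hf hg hgf hfg using fun i => exists_iso μ (hA i) (hB i) (hAB i)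
  -- general facts, symmetric in the two sides
  have main : ∀ (u v : ℝ → ℕ) (_ : Measurable u) (_ : Measurable v) (f : ℕ → ℝ → ℝ)
      (_ : ∀ i, MeasurePreserving (f i) (μ.restrict (v ⁻¹' {i} \ u ⁻¹' {i}))
        (μ.restrict (u ⁻¹' {i} \ v ⁻¹' {i}))),
      MeasurePreserving (fun x => if u x = v x then x else f (v x) x) μ μ ∧
      (∀ᵐ x ∂μ, u x ≠ v x → u (f (v x) x) = v x ∧ v (f (v x) x) ≠ v x) := by
    intro u v hu hv f hf
    have hmu : ∀ i, MeasurableSet (u ⁻¹' {i}) := fun i => hu (measurableSet_singleton i)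
    have hmv : ∀ i, MeasurableSet (v ⁻¹' {i}) := fun i => hv (measurableSet_singleton i)
    have hA : ∀ i, MeasurableSet (v ⁻¹' {i} \ u ⁻¹' {i}) := fun i => (hmv i).diff (hmu i)
    have hB : ∀ i, MeasurableSet (u ⁻¹' {i} \ v ⁻¹' {i}) := fun i => (hmu i).diff (hmv i)
    have hD : MeasurableSet {x | u x = v x} := measurableSet_eq_fun hu hv
    have hF : Measurable (fun x => if u x = v x then x else f (v x) x) := by
      apply Measurable.ite hD measurable_id
      have h1 : Measurable (fun p : ℕ × ℝ => f p.1 p.2) :=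
        measurable_from_prod_countable_right fun i => (hf i).measurable
      exact h1.comp (hv.prodMk measurable_id)
    have dA : Pairwise (Function.onFun Disjoint fun i => (v ⁻¹' {i} \ u ⁻¹' {i})) := by
      intro i j hij
      simp only [Function.onFun]
      rw [Set.disjoint_left]
      rintro x ⟨h1, _⟩ ⟨h2, _⟩
      exact hij ((Set.mem_singleton_iff.1 h1).symm.trans (Set.mem_singleton_iff.1 h2))
    have dB : Pairwise (Function.onFun Disjoint fun i => (u ⁻¹' {i} \ v ⁻¹' {i})) := by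
      intro i j hij
      simp only [Function.onFun]
      rw [Set.disjoint_left]
      rintro x ⟨h1, _⟩ ⟨h2, _⟩
      exact hij ((Set.mem_singleton_iff.1 h1).symm.trans (Set.mem_singleton_iff.1 h2))
    have uA : (⋃ i, (v ⁻¹' {i} \ u ⁻¹' {i})) = {x | u x = v x}ᶜ := by
      ext x
      simp only [Set.mem_iUnion, Set.mem_sdiff, Set.mem_preimage, Set.mem_singleton_iff,
        Set.mem_compl_iff, Set.mem_ofPred_eq]
      constructor
      · rintro ⟨i, h1, h2⟩ h3
        exact h2 (h3.trans h1)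
      · intro h1
        exact ⟨v x, rfl, h1⟩
    have uB : (⋃ i, (u ⁻¹' {i} \ v ⁻¹' {i})) = {x | u x = v x}ᶜ := by
      ext x
      simp only [Set.mem_iUnion, Set.mem_sdiff, Set.mem_preimage, Set.mem_singleton_iff,
        Set.mem_compl_iff, Set.mem_ofPred_eq]
      constructor
      · rintro ⟨i, h1, h2⟩ h3
        exact h2 (h3.symm.trans h1)
      · intro h1
        exact ⟨u x, rfl, fun h => h1 h.symm⟩
    have decA : μ = μ.restrict {x | u x = v x} +
        Measure.sum fun i => μ.restrict (v ⁻¹' {i} \ u ⁻¹' {i}) := by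
      rw [← Measure.restrict_iUnion dA hA, uA, Measure.restrict_add_restrict_compl hD]
    have decB : μ = μ.restrict {x | u x = v x} +
        Measure.sum fun i => μ.restrict (u ⁻¹' {i} \ v ⁻¹' {i}) := by
      rw [← Measure.restrict_iUnion dB hB, uB, Measure.restrict_add_restrict_compl hD]
    constructor
    · refine ⟨hF, ?_⟩
      conv_lhs => rw [decA]
      rw [Measure.map_add _ _ hF, Measure.map_sum hF.aemeasurable]
      conv_rhs => rw [decB]
      congr 1
      · have : Measure.map (fun x => if u x = v x then x else f (v x) x)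
            (μ.restrict {x | u x = v x}) = Measure.map id (μ.restrict {x | u x = v x}) := by
          apply Measure.map_congr
          filter_upwards [ae_restrict_mem hD] with x hx
          have hx' : u x = v x := hx
          simp [hx']
        rw [this, Measure.map_id]
      · congr 1
        funext i
        rw [← (hf i).map_eq]
        apply Measure.map_congr
        filter_upwards [ae_restrict_mem (hA i)] with x hx
        have h1 : v x = i := hx.1
        have h2 : ¬ u x = i := hx.2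
        rw [h1, if_neg h2]
    · have h3 : ∀ i, ∀ᵐ x ∂μ, x ∈ (v ⁻¹' {i} \ u ⁻¹' {i}) →
          f i x ∈ (u ⁻¹' {i} \ v ⁻¹' {i}) := by
        intro i
        rw [← ae_restrict_iff' (hA i)]
        exact (hf i).quasiMeasurePreserving.ae (ae_restrict_mem (hB i))
      rw [← ae_all_iff] at h3
      filter_upwards [h3] with x hx hne
      have := hx (v x) ⟨rfl, hne⟩
      exact ⟨this.1, this.2⟩
  obtain ⟨mf, af⟩ := main u v hu hv f hf
  obtain ⟨mg, ag⟩ := main v u hv hu g hg
  have agf : ∀ᵐ x ∂μ, u x ≠ v x → g (v x) (f (v x) x) = x := by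
    have h3 : ∀ i, ∀ᵐ x ∂μ, x ∈ A i → g i (f i x) = x := by
      intro i
      rw [← ae_restrict_iff' (hA i)]
      exact hgf i
    rw [← ae_all_iff] at h3
    filter_upwards [h3] with x hx hne
    exact hx (v x) ⟨rfl, hne⟩
  have afg : ∀ᵐ x ∂μ, v x ≠ u x → f (u x) (g (u x) x) = x := by
    have h3 : ∀ i, ∀ᵐ x ∂μ, x ∈ B i → f i (g i x) = x := by
      intro i
      rw [← ae_restrict_iff' (hB i)]
      exact hfg i
    rw [← ae_all_iff] at h3
    filter_upwards [h3] with x hx hne
    exact hx (u x) ⟨rfl, hne⟩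
  refine ⟨⟨fun x => if u x = v x then x else f (v x) x,
    fun x => if v x = u x then x else g (u x) x, mf, mg, ?_, ?_⟩, ?_, ?_⟩
  · filter_upwards [af, agf] with x h1 h2
    by_cases hx : u x = v x
    · simp [hx]
    · obtain ⟨h3, h4⟩ := h1 hx
      simp only [if_neg hx]
      rw [if_neg (by rw [h3]; exact h4), h3]
      exact h2 hx
  · filter_upwards [ag, afg] with x h1 h2
    by_cases hx : v x = u x
    · simp [hx]
    · obtain ⟨h3, h4⟩ := h1 hx
      simp only [if_neg hx]
      rw [if_neg (by rw [h3]; exact h4), h3]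
      exact h2 hx
  · filter_upwards [af] with x h1
    by_cases hx : u x = v x
    · simp [hx]
    · simp only [if_neg hx]
      exact (h1 hx).1
  · exact Filter.Eventually.of_forall fun x hx => by simp [hx]

end Pool.Agent.Helper187.Leg.C1
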