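import Pool.Agent.Helper187.Leg.Defs

open MeasureTheory Filter

namespace Pool.Agent.Helper187.Leg.C2

open Pool.Agent.Helper187.Leg







/-- eventually constant sequences of measurable functions have a measurable limit -/
theorem exists_lim (μ : Measure ℝ) (F : ℕ → ℝ → ℝ) (hF : ∀ j, Measurable (F j))
    (h : ∀ᵐ x ∂μ, ∀ᶠ j in atTop, F (j + 1) x = F j x) :
    ∃ f : ℝ → ℝ, Measurable f ∧ ∀ᵐ x ∂μ, ∀ᶠ j in atTop, F j x = f x := by
  classical
  have h1 : ∀ᵐ x ∂μ, ∃ c, ∀ᶠ j in atTop, F j x = c := by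
    filter_upwards [h] with x hx
    obtain ⟨k, hk⟩ := eventually_atTop.1 hx
    refine ⟨F k x, eventually_atTop.2 ⟨k, fun j hj => ?_⟩⟩
    induction j, hj using Nat.le_induction with
    | base => rfl
    | succ j hj ih => rw [hk j hj, ih]
  let f0 : ℝ → ℝ := fun x => if h : ∃ c, ∀ᶠ j in atTop, F j x = c then h.choose else 0
  have h2 : ∀ᵐ x ∂μ, ∀ᶠ j in atTop, F j x = f0 x := by
    filter_upwards [h1] with x hx
    simp only [f0, dif_pos hx]
    exact hx.choose_spec
  have h3 : AEMeasurable f0 μ := by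
    apply aemeasurable_of_tendsto_metrizable_ae' (f := F) (fun j => (hF j).aemeasurable)
    filter_upwards [h2] with x hx
    exact tendsto_nhds_of_eventually_eq hx
  refine ⟨h3.mk f0, h3.measurable_mk, ?_⟩
  filter_upwards [h2, h3.ae_eq_mk] with x hx hx'
  rw [← hx']
  exact hx

theorem lim_mp (μ : Measure ℝ) [IsFiniteMeasure μ] (F : ℕ → ℝ → ℝ)
    (hF : ∀ j, MeasurePreserving (F j) μ μ) (f : ℝ → ℝ) (hf : Measurable f)
    (h : ∀ᵐ x ∂μ, ∀ᶠ j in atTop, F j x = f x) : MeasurePreserving f μ μ := by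
  refine ⟨hf, ?_⟩
  ext B hB
  rw [Measure.map_apply hf hB]
  have ht := tendsto_measure_of_ae_tendsto_indicator_of_isFiniteMeasure (μ := μ)
    (A := f ⁻¹' B) (As := fun j => F j ⁻¹' B) atTop (hf hB) (fun j => (hF j).measurable hB) (by
      filter_upwards [h] with x hx
      filter_upwards [hx] with j hj
      rw [Set.mem_preimage, Set.mem_preimage, hj])
  have hc : (fun j => μ (F j ⁻¹' B)) = fun _ => μ B := by
    funext j
    exact (hF j).measure_preimage hB.nullMeasurableSet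
  rw [hc] at ht
  exact (tendsto_nhds_unique ht tendsto_const_nhds)

/-- compositions of the inverses -/
def gcomps {μ : Measure ℝ} (τ : ℕ → MPI μ) : ℕ → ℝ → ℝ
  | 0 => id
  | j + 1 => (τ j).g ∘ gcomps τ j

theorem comps_mp {μ : Measure ℝ} (τ : ℕ → MPI μ) (j : ℕ) : MeasurePreserving (comps τ j) μ μ := by
  induction j with
  | zero => exact MeasurePreserving.id μ
  | succ j ih => exact ih.comp (τ j).f_mp

theorem gcomps_mp {μ : Measure ℝ} (τ : ℕ → MPI μ) (j : ℕ) :
    MeasurePreserving (gcomps τ j) μ μ := by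
  induction j with
  | zero => exact MeasurePreserving.id μ
  | succ j ih => exact (τ j).g_mp.comp ih

theorem gcomps_comps {μ : Measure ℝ} (τ : ℕ → MPI μ) (j : ℕ) :
    ∀ᵐ x ∂μ, gcomps τ j (comps τ j x) = x := by
  induction j with
  | zero => exact ae_of_all _ fun x => rfl
  | succ j ih =>
    filter_upwards [(τ j).f_mp.quasiMeasurePreserving.ae ih, (τ j).gf] with x h1 h2
    change (τ j).g (gcomps τ j (comps τ j ((τ j).f x))) = x
    rw [h1, h2]

theorem comps_gcomps {μ : Measure ℝ} (τ : ℕ → MPI μ) (j : ℕ) :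
    ∀ᵐ x ∂μ, comps τ j (gcomps τ j x) = x := by
  induction j with
  | zero => exact ae_of_all _ fun x => rfl
  | succ j ih =>
    filter_upwards [(gcomps_mp τ j).quasiMeasurePreserving.ae (τ j).fg, ih] with x h1 h2
    change comps τ j ((τ j).f ((τ j).g (gcomps τ j x))) = x
    rw [h1, h2]

theorem meas_g {μ : Measure ℝ} (τ : MPI μ) : μ {y | τ.g y ≠ y} = μ {x | τ.f x ≠ x} := by
  have hm : MeasurableSet {y | τ.g y ≠ y} :=
    (measurableSet_eq_fun τ.g_mp.measurable measurable_id).compl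
  rw [← τ.f_mp.measure_preimage hm.nullMeasurableSet]
  apply measure_congr
  filter_upwards [τ.gf] with x hx
  apply propext
  change τ.g (τ.f x) ≠ τ.f x ↔ τ.f x ≠ x
  rw [hx]
  exact ne_comm

/-- infinite composition of maps with summable displacement. -/
theorem limit_comps (μ : Measure ℝ) [IsFiniteMeasure μ] (τ : ℕ → MPI μ)
    (hsum : ∑' j, μ {x | (τ j).f x ≠ x} ≠ ⊤) :
    ∃ ω : MPI μ, (∀ᵐ x ∂μ, ∀ᶠ j in atTop, comps τ j x = ω.f x) ∧
      (∀ k, ∀ᵐ x ∂μ, (∀ j ≥ k, (τ j).f x = x) → ω.f x = comps τ k x) ∧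
      μ {x | ω.f x ≠ x} ≤ ∑' j, μ {x | (τ j).f x ≠ x} := by
  have hf1 : ∀ᵐ x ∂μ, ∀ᶠ j in atTop, comps τ (j + 1) x = comps τ j x := by
    filter_upwards [ae_eventually_notMem hsum] with x hx
    filter_upwards [hx] with j hj
    have : (τ j).f x = x := by
      by_contra hne
      exact hj hne
    change comps τ j ((τ j).f x) = _
    rw [this]
  have hg1 : ∀ᵐ x ∂μ, ∀ᶠ j in atTop, gcomps τ (j + 1) x = gcomps τ j x := by
    have hsum' : ∑' j, μ (gcomps τ j ⁻¹' {y | (τ j).g y ≠ y}) ≠ ⊤ := by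
      have : ∀ j, μ (gcomps τ j ⁻¹' {y | (τ j).g y ≠ y}) = μ {x | (τ j).f x ≠ x} := by
        intro j
        have hm : MeasurableSet {y | (τ j).g y ≠ y} :=
          (measurableSet_eq_fun (τ j).g_mp.measurable measurable_id).compl
        rw [(gcomps_mp τ j).measure_preimage hm.nullMeasurableSet, meas_g]
      simp only [this]
      exact hsum
    filter_upwards [ae_eventually_notMem hsum'] with x hx
    filter_upwards [hx] with j hj
    by_contra hne
    exact hj hne
  obtain ⟨f, hfm, hf⟩ := exists_lim μ _ (fun j => (comps_mp τ j).measurable) hf1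
  obtain ⟨g, hgm, hg⟩ := exists_lim μ _ (fun j => (gcomps_mp τ j).measurable) hg1
  have hfmp := lim_mp μ _ (comps_mp τ) f hfm hf
  have hgmp := lim_mp μ _ (gcomps_mp τ) g hgm hg
  have hgf : ∀ᵐ x ∂μ, g (f x) = x := by
    filter_upwards [hf, hfmp.quasiMeasurePreserving.ae hg, ae_all_iff.2 (gcomps_comps τ)]
      with x h1 h2 h3
    obtain ⟨j, hj1, hj2⟩ := (h1.and h2).exists
    rw [← hj2, ← hj1]
    exact h3 j
  have hfg : ∀ᵐ x ∂μ, f (g x) = x := by
    filter_upwards [hg, hgmp.quasiMeasurePreserving.ae hf, ae_all_iff.2 (comps_gcomps τ)]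
      with x h1 h2 h3
    obtain ⟨j, hj1, hj2⟩ := (h1.and h2).exists
    rw [← hj2, ← hj1]
    exact h3 j
  have hk : ∀ k, ∀ᵐ x ∂μ, (∀ j ≥ k, (τ j).f x = x) → f x = comps τ k x := by
    intro k
    filter_upwards [hf] with x hx hk
    have hc : ∀ j ≥ k, comps τ j x = comps τ k x := by
      intro j hj
      induction j, hj using Nat.le_induction with
      | base => rfl
      | succ j hj ih =>
        change comps τ j ((τ j).f x) = _
        rw [hk j hj, ih]
    obtain ⟨j, hj1, hj2⟩ := (hx.and (eventually_ge_atTop k)).exists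
    rw [← hj1, hc j hj2]
  refine ⟨⟨f, g, hfmp, hgmp, hgf, hfg⟩, hf, hk, ?_⟩
  refine le_trans ?_ (measure_iUnion_le _)
  apply measure_mono_ae
  filter_upwards [hk 0] with x hx hne
  by_contra hcon
  apply hne
  apply hx
  intro j _
  by_contra hj
  exact hcon (Set.mem_iUnion.2 ⟨j, hj⟩)



open Classical in
theorem upgrade0 {α : Type*} [MeasurableSpace α] [StandardBorelSpace α] (ν : Measure α)
    (f g : α → α) (hf : MeasurePreserving f ν ν) (hg : Measurable g)
    (gf : ∀ᵐ x ∂ν, g (f x) = x) (C : Set α) (hC : MeasurableSet C) (hC0 : ν C = 0)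
    (hCu : ¬ C.Countable) :
    ∃ e : α ≃ᵐ α, MeasurePreserving e ν ν ∧ ∀ᵐ x ∂ν, e x = f x := by
  set A : Set α := {x | g (f x) = x} ∩ (Cᶜ ∩ (f ⁻¹' C)ᶜ) with hA
  have hAm : MeasurableSet A :=
    (measurableSet_eq_fun (hg.comp hf.measurable) measurable_id).inter
      (hC.compl.inter (hf.measurable hC).compl)
  have hAae : ∀ᵐ x ∂ν, x ∈ A := by
    have h1 : ∀ᵐ x ∂ν, x ∉ C := measure_eq_zero_iff_ae_notMem.1 hC0
    have h2 : ∀ᵐ x ∂ν, f x ∉ C := hf.quasiMeasurePreserving.ae h1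
    filter_upwards [gf, h1, h2] with x a1 a2 a3
    exact ⟨a1, a2, a3⟩
  haveI : StandardBorelSpace A := hAm.standardBorel
  have hinj : Function.Injective (fun x : A => f x) := by
    rintro ⟨x, hx⟩ ⟨y, hy⟩ hxy
    have hxy' : f x = f y := hxy
    have : x = y := by
      rw [← hx.1, ← hy.1, hxy']
    exact Subtype.ext this
  have hemb : MeasurableEmbedding (fun x : A => f x) :=
    (hf.measurable.comp measurable_subtype_coe).measurableEmbedding hinj
  set B : Set α := Set.range (fun x : A => f x) with hB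
  have hBm : MeasurableSet B := hemb.measurableSet_range
  let e1 : A ≃ᵐ B := hemb.equivRange
  have hAu : ¬ Countable (Aᶜ : Set α) := by
    intro h
    apply hCu
    have h' : (Aᶜ).Countable := h
    exact h'.mono (show C ⊆ Aᶜ from fun x hx hxA => hxA.2.1 hx)
  have hBu : ¬ Countable (Bᶜ : Set α) := by
    intro h
    apply hCu
    have h' : (Bᶜ).Countable := h
    refine h'.mono (show C ⊆ Bᶜ from ?_)
    rintro x hx ⟨⟨y, hy⟩, rfl⟩
    exact hy.2.2 hx
  haveI : StandardBorelSpace (Aᶜ : Set α) := hAm.compl.standardBorel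
  haveI : StandardBorelSpace (Bᶜ : Set α) := hBm.compl.standardBorel
  let e2 : (Aᶜ : Set α) ≃ᵐ (Bᶜ : Set α) := PolishSpace.measurableEquivOfNotCountable hAu hBu
  let e : α ≃ᵐ α := (MeasurableEquiv.sumCompl hAm).symm.trans
    ((MeasurableEquiv.sumCongr e1 e2).trans (MeasurableEquiv.sumCompl hBm))
  have he : ∀ x ∈ A, e x = f x := by
    intro x hx
    have h1 : x = MeasurableEquiv.sumCompl hAm (Sum.inl ⟨x, hx⟩) := rfl
    have h2 : (MeasurableEquiv.sumCompl hAm).symm x = Sum.inl ⟨x, hx⟩ := by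
      conv_lhs => rw [h1]
      exact (MeasurableEquiv.sumCompl hAm).symm_apply_apply _
    change MeasurableEquiv.sumCompl hBm (MeasurableEquiv.sumCongr e1 e2
      ((MeasurableEquiv.sumCompl hAm).symm x)) = f x
    rw [h2]
    change ((e1 ⟨x, hx⟩ : B) : α) = f x
    rw [MeasurableEmbedding.equivRange_apply]
  have hae : ∀ᵐ x ∂ν, e x = f x := by
    filter_upwards [hAae] with x hx using he x hx
  refine ⟨e, ⟨e.measurable, ?_⟩, hae⟩
  rw [Measure.map_congr hae, hf.map_eq]

theorem liouville_uncountable :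
    ¬ ({x : ℝ | Liouville x} ∩ Set.Ioo (-1 : ℝ) 1).Countable := by
  intro h
  have h1 : ({x : ℝ | Liouville x} ∩ Set.Ioo (-1 : ℝ) 1)ᶜ ∈ residual ℝ := by
    have : ({x : ℝ | Liouville x} ∩ Set.Ioo (-1 : ℝ) 1)ᶜ =
        ⋂ x ∈ ({x : ℝ | Liouville x} ∩ Set.Ioo (-1 : ℝ) 1), ({x}ᶜ : Set ℝ) := by
      ext y
      simp only [Set.mem_compl_iff, Set.mem_iInter, Set.mem_singleton_iff]
      constructor
      · rintro hy x hx rfl; exact hy hx
      · intro hy hy'; exact hy y hy' rfl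
    rw [this, countable_bInter_mem h]
    intro x _
    exact residual_of_dense_open isOpen_compl_singleton (dense_compl_singleton x)
  have h2 : ∀ᶠ x in residual ℝ, Liouville x := eventually_residual_liouville
  have h3 := dense_of_mem_residual (Filter.inter_mem h1 h2)
  obtain ⟨x, hx, hx'⟩ := h3.inter_open_nonempty (Set.Ioo (-1 : ℝ) 1) isOpen_Ioo ⟨0, by norm_num⟩
  exact hx'.1 ⟨hx'.2, hx⟩

/-- upgrade to an honest measurable equivalence of the interval. -/
theorem upgrade (ω : MPI (volume.restrict (Set.Icc (-1 : ℝ) 1))) :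
    ∃ e : Set.Icc (-1 : ℝ) 1 ≃ᵐ Set.Icc (-1 : ℝ) 1, MeasurePreserving e muS muS ∧
      ∀ᵐ x ∂muS, ((e x : Set.Icc (-1 : ℝ) 1) : ℝ) = ω.f x := by
  have hle : (-1 : ℝ) ≤ 1 := by norm_num
  have hval : MeasurePreserving (Subtype.val : Set.Icc (-1 : ℝ) 1 → ℝ) muS
      (volume.restrict (Set.Icc (-1 : ℝ) 1)) := measurePreserving_subtype_coe measurableSet_Icc
  have hpm : Measurable (Set.projIcc (-1 : ℝ) 1 hle) := continuous_projIcc.measurable
  have hproj : MeasurePreserving (Set.projIcc (-1 : ℝ) 1 hle)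
      (volume.restrict (Set.Icc (-1 : ℝ) 1)) muS := by
    refine ⟨hpm, ?_⟩
    rw [← hval.map_eq, Measure.map_map hpm hval.measurable]
    have : Set.projIcc (-1 : ℝ) 1 hle ∘ Subtype.val = id := by
      funext x
      exact Set.projIcc_val hle x
    rw [this, Measure.map_id]
  let f' : Set.Icc (-1 : ℝ) 1 → Set.Icc (-1 : ℝ) 1 := fun x => Set.projIcc (-1) 1 hle (ω.f x)
  let g' : Set.Icc (-1 : ℝ) 1 → Set.Icc (-1 : ℝ) 1 := fun x => Set.projIcc (-1) 1 hle (ω.g x)
  have hf' : MeasurePreserving f' muS muS := hproj.comp (ω.f_mp.comp hval)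
  have hg' : Measurable g' := hpm.comp (ω.g_mp.measurable.comp hval.measurable)
  have hfS : ∀ᵐ (x : Set.Icc (-1 : ℝ) 1) ∂muS, ω.f (x : ℝ) ∈ Set.Icc (-1 : ℝ) 1 :=
    hval.quasiMeasurePreserving.ae (ω.f_mp.quasiMeasurePreserving.ae
      (ae_restrict_mem measurableSet_Icc))
  have hgf : ∀ᵐ x ∂muS, g' (f' x) = x := by
    filter_upwards [hfS, hval.quasiMeasurePreserving.ae ω.gf] with x h1 h2
    have e1 : ((f' x : Set.Icc (-1 : ℝ) 1) : ℝ) = ω.f x := by
      simp only [f', Set.projIcc_of_mem hle h1]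
    change Set.projIcc (-1) 1 hle (ω.g ((f' x : Set.Icc (-1 : ℝ) 1) : ℝ)) = x
    rw [e1, h2]
    exact Set.projIcc_val hle x
  have hLm : MeasurableSet {x : ℝ | Liouville x} := IsGδ.setOfPred_liouville.measurableSet
  obtain ⟨e, he, hae⟩ := upgrade0 muS f' g' hf' hg' hgf (Subtype.val ⁻¹' {x : ℝ | Liouville x})
    (hval.measurable hLm) (by
      rw [hval.measure_preimage hLm.nullMeasurableSet]
      exact le_antisymm ((Measure.restrict_apply_le _ _).trans volume_setOfPred_liouville.le) zero_le) (by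
      intro h
      apply liouville_uncountable
      refine (h.image Subtype.val).mono ?_
      rintro x ⟨hx, hx1, hx2⟩
      exact ⟨⟨x, hx1.le, hx2.le⟩, hx, rfl⟩)
  refine ⟨e, he, ?_⟩
  filter_upwards [hfS, hae] with x h1 h2
  rw [h2]
  simp only [f', Set.projIcc_of_mem hle h1]

end Pool.Agent.Helper187.Leg.C2
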