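import Pool.Agent.Helper187.Leg.PiecesN

open MeasureTheory Set Real Filter Topology
open scoped ENNReal

namespace Pool.Agent.Helper187.Leg.CN

open Pool.Agent.Helper187.Leg




namespace RHC


theorem exists_seq_dep {α : Type*} (Inv : ℕ → α → Prop) (Rel : ℕ → α → α → Prop)
    (h0 : ∃ a, Inv 0 a) (hs : ∀ n a, Inv n a → ∃ b, Inv (n + 1) b ∧ Rel n a b) :
    ∃ u : ℕ → α, (∀ n, Inv n (u n)) ∧ ∀ n, Rel n (u n) (u (n + 1)) := by
  classical
  let g : (n : ℕ) → {a // Inv n a} := fun n => Nat.rec ⟨h0.choose, h0.choose_spec⟩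
    (fun n a => ⟨(hs n a.1 a.2).choose, (hs n a.1 a.2).choose_spec.1⟩) n
  refine ⟨fun n => (g n).1, fun n => (g n).2, fun n => ?_⟩
  exact (hs n (g n).1 (g n).2).choose_spec.2

theorem QQ_close {δ : ℝ} (hδ : 0 < δ) (v : ℝ) : |QQ δ v - v| ≤ δ := by
  have key : ∀ w : ℝ, 0 ≤ w → |δ * ⌊w / δ⌋ - w| ≤ δ := by
    intro w _
    have h1 := Int.floor_le (w / δ)
    have h2 := Int.lt_floor_add_one (w / δ)
    have h3 : δ * ⌊w / δ⌋ ≤ w := by
      have := mul_le_mul_of_nonneg_left h1 hδ.le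
      rwa [mul_div_cancel₀ _ hδ.ne'] at this
    have h4 : w < δ * ⌊w / δ⌋ + δ := by
      have := mul_lt_mul_of_pos_left h2 hδ
      rw [mul_div_cancel₀ _ hδ.ne'] at this
      linarith
    rw [abs_le]
    constructor <;> linarith
  unfold QQ
  split_ifs with h
  · exact key v h
  · push Not at h
    have := key (-v) (by linarith)
    rw [show -(δ * (⌊-v / δ⌋ : ℝ)) - v = -(δ * (⌊-v / δ⌋ : ℝ) - (-v)) by ring, abs_neg]
    exact this

theorem QQ_meas (δ : ℝ) : Measurable (QQ δ) := by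
  unfold QQ
  apply Measurable.ite
  · exact measurableSet_Ici
  · have : Measurable fun x : ℝ => ((⌊x / δ⌋ : ℤ) : ℝ) :=
      (measurable_from_top (f := fun k : ℤ => (k : ℝ))).comp
        (Int.measurable_floor.comp (measurable_id.div_const δ))
    exact this.const_mul δ
  · have : Measurable fun x : ℝ => ((⌊-x / δ⌋ : ℤ) : ℝ) :=
      (measurable_from_top (f := fun k : ℤ => (k : ℝ))).comp
        (Int.measurable_floor.comp (measurable_id.neg.div_const δ))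
    exact (this.const_mul δ).neg

theorem QQ_mem {δ B : ℝ} (hδ : 0 < δ) (v : ℝ) (hv : |v| ≤ B) :
    QQ δ v ∈ (Finset.Icc (-⌊B / δ⌋) ⌊B / δ⌋).image (fun k : ℤ => δ * (k : ℝ)) := by
  rw [abs_le] at hv
  unfold QQ
  rw [Finset.mem_image]
  split_ifs with h
  · refine ⟨⌊v / δ⌋, ?_, rfl⟩
    rw [Finset.mem_Icc]
    have h1 : (0 : ℤ) ≤ ⌊v / δ⌋ := Int.floor_nonneg.mpr (div_nonneg h hδ.le)
    have h2 : ⌊v / δ⌋ ≤ ⌊B / δ⌋ := Int.floor_le_floor (div_le_div_of_nonneg_right hv.2 hδ.le)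
    constructor <;> omega
  · push Not at h
    refine ⟨-⌊-v / δ⌋, ?_, ?_⟩
    · rw [Finset.mem_Icc]
      have h1 : (0 : ℤ) ≤ ⌊-v / δ⌋ := Int.floor_nonneg.mpr (div_nonneg (by linarith) hδ.le)
      have h2 : ⌊-v / δ⌋ ≤ ⌊B / δ⌋ :=
        Int.floor_le_floor (div_le_div_of_nonneg_right (by linarith) hδ.le)
      constructor <;> omega
    · push_cast
      ring

instance instFinMu1 : IsFiniteMeasure mu1 := by
  unfold mu1
  exact ⟨by simp⟩

theorem mu1_univ : mu1 univ = 2 := by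
  unfold mu1
  rw [Measure.restrict_apply_univ, Real.volume_Icc]
  norm_num

theorem mu1_sub {s : Set ℝ} (hs : s ⊆ Icc (-1) 1) : mu1 s = volume s := by
  unfold mu1
  exact Measure.restrict_eq_self _ hs

theorem mu1_Ico {a b : ℝ} (ha : -1 < a) (hb : b < 1) : mu1 (Ico a b) = ENNReal.ofReal (b - a) := by
  rw [mu1_sub, Real.volume_Ico]
  intro x hx
  exact ⟨ha.le.trans hx.1, hx.2.le.trans hb.le⟩

theorem int_mu1 {a b : ℝ} (ha : -1 < a) (hab : a ≤ b) (hb : b < 1) (F : ℝ → ℝ) :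
    ∫ x in a..b, F x = ∫ x in Ico a b, F x ∂mu1 := by
  rw [intervalIntegral.integral_of_le hab, ← integral_Ico_eq_integral_Ioc]
  unfold mu1
  rw [Measure.restrict_restrict measurableSet_Ico, inter_eq_self_of_subset_left]
  intro x hx
  exact ⟨ha.le.trans hx.1, hx.2.le.trans hb.le⟩

theorem int_full (F : ℝ → ℝ) : ∫ x in (-1 : ℝ)..1, F x = ∫ x, F x ∂mu1 := by
  rw [intervalIntegral.integral_of_le (by norm_num), ← integral_Icc_eq_integral_Ioc]
  rfl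

theorem ii_of_int {F : ℝ → ℝ} (h : Integrable F mu1) : IntervalIntegrable F volume (-1) 1 := by
  rw [intervalIntegrable_iff, uIoc_of_le (by norm_num)]
  exact IntegrableOn.mono_set h Ioc_subset_Icc_self

theorem mp_ae (τ : MPI mu1) {p : ℝ → Prop} (h : ∀ᵐ x ∂mu1, p x) : ∀ᵐ x ∂mu1, p (τ.f x) :=
  τ.f_mp.quasiMeasurePreserving.ae h

theorem mp_ae_g (τ : MPI mu1) {p : ℝ → Prop} (h : ∀ᵐ x ∂mu1, p x) : ∀ᵐ x ∂mu1, p (τ.g x) :=
  τ.g_mp.quasiMeasurePreserving.ae h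

/-- composition -/
def mpiComp (τ σ : MPI mu1) : MPI mu1 where
  f := τ.f ∘ σ.f
  g := σ.g ∘ τ.g
  f_mp := τ.f_mp.comp σ.f_mp
  g_mp := σ.g_mp.comp τ.g_mp
  gf := by
    filter_upwards [mp_ae σ τ.gf, σ.gf] with x h1 h2
    simp only [Function.comp_apply]
    rw [h1, h2]
  fg := by
    filter_upwards [mp_ae_g τ σ.fg, τ.fg] with x h1 h2
    simp only [Function.comp_apply]
    rw [h1, h2]

theorem meas_ne (τ : MPI mu1) : MeasurableSet {x | τ.f x ≠ x} :=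
  (measurableSet_eq_fun τ.f_mp.measurable measurable_id).compl

theorem comp_disp (τ σ : MPI mu1) :
    mu1 {x | (mpiComp τ σ).f x ≠ x} ≤ mu1 {x | τ.f x ≠ x} + mu1 {x | σ.f x ≠ x} := by
  have h1 : {x | (mpiComp τ σ).f x ≠ x} ⊆ (σ.f ⁻¹' {x | τ.f x ≠ x}) ∪ {x | σ.f x ≠ x} := by
    intro x hx
    by_contra hcon
    rw [mem_union, not_or] at hcon
    obtain ⟨h2, h3⟩ := hcon
    simp only [mem_preimage, mem_ofPred_eq, not_not] at h2 h3
    apply hx
    show τ.f (σ.f x) = x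
    rw [h2, h3]
  refine (measure_mono h1).trans ((measure_union_le _ _).trans ?_)
  rw [σ.f_mp.measure_preimage (meas_ne τ).nullMeasurableSet]

/-- positivity of the mass of `{F > 0}` on an interval with zero integral -/
theorem pos_mass {F : ℝ → ℝ} (hF : Measurable F) (hFi : Integrable F mu1) {a b κ : ℝ}
    (ha : -1 < a) (hab : a < b) (hb : b < 1) (hκ : 0 < κ)
    (h1 : ∀ᵐ x ∂mu1, x ∈ Ico a b → κ ≤ |F x|) (h2 : ∫ x in a..b, F x = 0) :
    0 < mu1 (Ico a b ∩ {x | 0 < F x}) := by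
  rw [pos_iff_ne_zero]
  intro h0
  rw [int_mu1 ha hab.le hb] at h2
  have h3 : ∀ᵐ x ∂mu1, ¬ (x ∈ Ico a b ∩ {x | 0 < F x}) := measure_eq_zero_iff_ae_notMem.mp h0
  have h4 : ∀ᵐ x ∂(mu1.restrict (Ico a b)), F x ≤ -κ := by
    rw [ae_restrict_iff' measurableSet_Ico]
    filter_upwards [h1, h3] with x hx1 hx3 hx
    have hx4 : ¬ (0 < F x) := fun h => hx3 ⟨hx, h⟩
    push Not at hx4
    have := hx1 hx
    rw [abs_of_nonpos hx4] at this
    linarith
  have h5 : ∫ x in Ico a b, F x ∂mu1 ≤ ∫ x in Ico a b, (-κ) ∂mu1 :=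
    integral_mono_ae hFi.integrableOn (integrable_const _) h4
  rw [h2, setIntegral_const, measureReal_def, mu1_Ico ha hb, ENNReal.toReal_ofReal (by linarith),
    smul_eq_mul] at h5
  nlinarith

theorem neg_mass {F : ℝ → ℝ} (hF : Measurable F) (hFi : Integrable F mu1) {a b κ : ℝ}
    (ha : -1 < a) (hab : a < b) (hb : b < 1) (hκ : 0 < κ)
    (h1 : ∀ᵐ x ∂mu1, x ∈ Ico a b → κ ≤ |F x|) (h2 : ∫ x in a..b, F x = 0) :
    0 < mu1 (Ico a b ∩ {x | F x < 0}) := by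
  have := pos_mass (F := fun x => - F x) hF.neg hFi.neg ha hab hb hκ (by simpa using h1)
    (by rw [intervalIntegral.integral_neg, h2, neg_zero])
  simpa using this



theorem int_of_ii {F : ℝ → ℝ} (h : IntervalIntegrable F volume (-1) 1) : Integrable F mu1 := by
  rw [intervalIntegrable_iff, uIoc_of_le (by norm_num)] at h
  rw [← integrableOn_Icc_iff_integrableOn_Ioc] at h
  exact h

theorem zero_off {J : Set ℝ} {h : ℝ → ℝ} (hs : StepOn J h) : ∀ x, x ∉ J → h x = 0 := by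
  obtain ⟨ι, hι, a, b, c, -, -, -, -, -, h0⟩ := hs
  exact h0

theorem int_est {G s s1 : ℝ → ℝ} {R : Set ℝ} {a b δ δ' c : ℝ} (om : MPI mu1) (hG : Measurable G)
    (hGi : Integrable G mu1) (hs : StepOn R s) (hs1 : StepOn R s1) (ha : -1 < a) (hab : a < b)
    (hb : b < 1) (hd : Disjoint R (Ico a b))
    (hin : ∀ᵐ x ∂mu1, x ∈ R ∪ Ico a b → om.f x ∈ R ∪ Ico a b)
    (hout : ∀ᵐ x ∂mu1, x ∉ R ∪ Ico a b → om.f x = x)
    (hq : ∀ᵐ x ∂mu1, x ∈ R → QQ δ (G x) = s x)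
    (hq1 : ∀ᵐ x ∂mu1, x ∈ R → QQ δ' (G (om.f x)) = s1 x)
    (hδ : 0 < δ) (hδ' : 0 < δ') (hle : δ' ≤ δ) (hz : ∫ x in a..b, G x = 0)
    (hN : NN (fun x => s1 x - s x) ≤ ENNReal.ofReal c) (hc : 0 ≤ c) :
    |∫ x in a..b, G (om.f x)| ≤ 4 * δ + c := by
  have hR : MeasurableSet R := hs.meas_set
  have hZ : MeasurableSet (Ico a b) := measurableSet_Ico
  have hGom : Integrable (fun x => G (om.f x)) mu1 :=
    (om.f_mp.integrable_comp hG.aestronglyMeasurable).mpr hGi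
  have hsi : Integrable s mu1 := int_of_ii hs.ii
  have hs1i : Integrable s1 mu1 := int_of_ii hs1.ii
  have e1 : ∫ x in R ∪ Ico a b, G (om.f x) ∂mu1 = ∫ x in R ∪ Ico a b, G x ∂mu1 := by
    rw [← integral_indicator (hR.union hZ), ← integral_indicator (hR.union hZ)]
    have h1 : ∫ x, (R ∪ Ico a b).indicator (fun x => G (om.f x)) x ∂mu1 =
        ∫ x, (R ∪ Ico a b).indicator G (om.f x) ∂mu1 := by
      apply integral_congr_ae
      filter_upwards [hin, hout] with x h1 h2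
      by_cases hx : x ∈ R ∪ Ico a b
      · rw [indicator_of_mem hx, indicator_of_mem (h1 hx)]
      · have h3 := h2 hx
        rw [indicator_of_notMem hx, h3, indicator_of_notMem hx]
    rw [h1]
    have hm : AEStronglyMeasurable ((R ∪ Ico a b).indicator G) (Measure.map om.f mu1) := by
      exact (hG.indicator (hR.union hZ)).aestronglyMeasurable
    rw [← integral_map om.f_mp.measurable.aemeasurable hm, om.f_mp.map_eq]
  have e2 : ∫ x in R ∪ Ico a b, G (om.f x) ∂mu1 =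
      (∫ x in R, G (om.f x) ∂mu1) + ∫ x in Ico a b, G (om.f x) ∂mu1 :=
    setIntegral_union hd hZ hGom.integrableOn hGom.integrableOn
  have e3 : ∫ x in R ∪ Ico a b, G x ∂mu1 = (∫ x in R, G x ∂mu1) + ∫ x in Ico a b, G x ∂mu1 :=
    setIntegral_union hd hZ hGi.integrableOn hGi.integrableOn
  rw [int_mu1 ha hab.le hb] at hz ⊢
  have e4 : ∫ x in Ico a b, G (om.f x) ∂mu1 = (∫ x in R, (G x - s x) ∂mu1)
      - (∫ x in R, (G (om.f x) - s1 x) ∂mu1) - ∫ x in R, (s1 x - s x) ∂mu1 := by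
    rw [integral_sub hGi.integrableOn hsi.integrableOn,
      integral_sub hGom.integrableOn hs1i.integrableOn,
      integral_sub hs1i.integrableOn hsi.integrableOn]
    linarith
  have hRle : mu1.real R ≤ 2 := by
    rw [measureReal_def]
    have : mu1 R ≤ 2 := by rw [← mu1_univ]; exact measure_mono (subset_univ _)
    exact ENNReal.toReal_le_of_le_ofReal (by norm_num) (by simpa using this)
  have b1 : |∫ x in R, (G x - s x) ∂mu1| ≤ δ * mu1.real R := by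
    rw [← Real.norm_eq_abs]
    apply norm_setIntegral_le_of_norm_le_const_ae' (measure_lt_top _ _)
    filter_upwards [hq] with x h hx
    rw [← h hx, Real.norm_eq_abs, abs_sub_comm]
    exact QQ_close hδ _
  have b2 : |∫ x in R, (G (om.f x) - s1 x) ∂mu1| ≤ δ' * mu1.real R := by
    rw [← Real.norm_eq_abs]
    apply norm_setIntegral_le_of_norm_le_const_ae' (measure_lt_top _ _)
    filter_upwards [hq1] with x h hx
    rw [← h hx, Real.norm_eq_abs, abs_sub_comm]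
    exact QQ_close hδ' _
  have b3 : |∫ x in R, (s1 x - s x) ∂mu1| ≤ c := by
    have h1 : ∫ x in R, (s1 x - s x) ∂mu1 = ∫ x, (s1 x - s x) ∂mu1 := by
      apply setIntegral_eq_integral_of_forall_compl_eq_zero
      intro x hx
      rw [zero_off hs x hx, zero_off hs1 x hx, sub_zero]
    rw [h1, ← int_full]
    have h2 := (abs_int_le_NN (hs1.ii.sub hs.ii)).trans hN
    exact (ENNReal.ofReal_le_ofReal_iff hc).mp h2
  rw [e4]
  have hRn : 0 ≤ mu1.real R := measureReal_nonneg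
  rw [abs_le] at b1 b2 b3 ⊢
  constructor <;> nlinarith



def MatchOnP : Prop := ∀ (D : Set ℝ), MeasurableSet D → ∀ (u w : ℝ → ℝ), Measurable u → Measurable w →
      ∀ (V : Finset ℝ), (∀ᵐ x ∂mu1, x ∈ D → u x ∈ V) → (∀ᵐ x ∂mu1, x ∈ D → w x ∈ V) →
      (∀ v, mu1 (D ∩ u ⁻¹' {v}) = mu1 (D ∩ w ⁻¹' {v})) →
      ∃ τ : MPI mu1, (∀ᵐ x ∂mu1, x ∈ D → τ.f x ∈ D ∧ u (τ.f x) = w x) ∧
        (∀ᵐ x ∂mu1, x ∉ D → τ.f x = x) ∧ (∀ᵐ x ∂mu1, x ∈ D → u x = w x → τ.f x = x)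

def StepApproxP : Prop := ∀ (A B : ℝ), -1 < A → A < B → B < 1 → ∀ (u : ℝ → ℝ), Measurable u →
      ∀ (V : Finset ℝ), (∀ᵐ x ∂(volume.restrict (Ico A B)), u x ∈ V) → ∀ ε : ℝ, 0 < ε →
      ∃ w : ℝ → ℝ, StepOn (Ico A B) w ∧
        (∀ v, volume (Ico A B ∩ w ⁻¹' {v}) = volume (Ico A B ∩ u ⁻¹' {v})) ∧
        volume (Ico A B ∩ {x | w x ≠ u x}) ≤ ENNReal.ofReal ε

theorem stage0 (match_on : MatchOnP) (stepApprox : StepApproxP) {F : ℝ → ℝ} (hF : Measurable F)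
    {R0 : Set ℝ} (hR0 : StepOn R0 (fun _ => 0)) {B δ η : ℝ} (hδ : 0 < δ) (hη : 0 < η)
    (hb : ∀ᵐ x ∂mu1, x ∈ R0 → |F x| ≤ B) :
    ∃ (τ : MPI mu1) (s : ℝ → ℝ), StepOn R0 s ∧
      (∀ᵐ x ∂mu1, x ∈ R0 → QQ δ (F (τ.f x)) = s x ∧ |F (τ.f x)| ≤ B) ∧
      (∀ᵐ x ∂mu1, x ∉ R0 → F (τ.f x) = F x) ∧ mu1 {x | τ.f x ≠ x} ≤ ENNReal.ofReal η := by
  classical
  have hR0m := hR0.meas_set
  have hR0sub := hR0.sub_set
  obtain ⟨ι, hι, a, b, c, hab, hin, hdis, hJ, -, -⟩ := hR0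
  set V : Finset ℝ := (Finset.Icc (-⌊B / δ⌋) ⌊B / δ⌋).image (fun k : ℤ => δ * (k : ℝ)) with hV
  set u : ℝ → ℝ := fun x => QQ δ (F x) with hu
  have hum : Measurable u := (QQ_meas δ).comp hF
  have hIsub : ∀ i, Ico (a i) (b i) ⊆ R0 := by
    intro i
    rw [hJ]
    exact subset_iUnion (fun i => Ico (a i) (b i)) i
  have hae : ∀ i, ∀ᵐ x ∂(volume.restrict (Ico (a i) (b i))), u x ∈ V := by
    intro i
    unfold mu1 at hb
    rw [ae_restrict_iff' measurableSet_Icc] at hb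
    rw [ae_restrict_iff' measurableSet_Ico]
    filter_upwards [hb] with x hx hxi
    have h1 := hIsub i hxi
    have h2 := hR0sub h1
    exact QQ_mem hδ _ (hx ⟨h2.1.le, h2.2.le⟩ h1)
  have hε : 0 < η / ((Fintype.card ι : ℝ) + 1) := by positivity
  choose w hw1 hw2 hw3 using fun i => stepApprox (a i) (b i) (hin i).1 (hab i) (hin i).2 u hum V
    (hae i) _ hε
  have hs : StepOn R0 (fun x => ∑ i, w i x) := by
    rw [hJ]
    exact StepOn.glue _ _ hw1 hdis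
  set s : ℝ → ℝ := fun x => ∑ i, w i x with hsdef
  have hsi : ∀ i, ∀ x ∈ Ico (a i) (b i), s x = w i x := by
    intro i x hx
    rw [hsdef]
    simp only
    rw [Finset.sum_eq_single i]
    · intro j _ hji
      exact zero_off (hw1 j) x (fun hj => disjoint_left.1 (hdis j i hji) hj hx)
    · intro h
      exact absurd (Finset.mem_univ i) h
  obtain ⟨ι', hι', a', b', c', -, -, -, hJ', hc', -⟩ := id hs
  set V' : Finset ℝ := V ∪ Finset.univ.image c' with hV'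
  have h1 : ∀ᵐ x ∂mu1, x ∈ R0 → u x ∈ V' := by
    filter_upwards [hb] with x hx hxR
    exact Finset.mem_union_left _ (QQ_mem hδ _ (hx hxR))
  have h2 : ∀ᵐ x ∂mu1, x ∈ R0 → s x ∈ V' := by
    refine Eventually.of_forall fun x hx => ?_
    rw [hJ'] at hx
    obtain ⟨i, hi⟩ := mem_iUnion.1 hx
    rw [hc' i x hi]
    exact Finset.mem_union_right _ (Finset.mem_image_of_mem _ (Finset.mem_univ i))
  have hlev : ∀ (z : ℝ → ℝ), Measurable z → ∀ v, mu1 (R0 ∩ z ⁻¹' {v}) =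
      ∑' i, volume (Ico (a i) (b i) ∩ z ⁻¹' {v}) := by
    intro z hz v
    rw [mu1_sub, hJ, iUnion_inter, measure_iUnion]
    · intro i j hij
      exact (hdis i j hij).mono inter_subset_left inter_subset_left
    · intro i
      exact measurableSet_Ico.inter (hz (measurableSet_singleton v))
    · intro x hx
      have := hR0sub hx.1
      exact ⟨this.1.le, this.2.le⟩
  have h3 : ∀ v, mu1 (R0 ∩ u ⁻¹' {v}) = mu1 (R0 ∩ s ⁻¹' {v}) := by
    intro v
    rw [hlev u hum v, hlev s hs.meas v]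
    apply tsum_congr
    intro i
    rw [← hw2 i v]
    congr 1
    ext x
    constructor
    · rintro ⟨hx, hx2⟩
      refine ⟨hx, ?_⟩
      simp only [mem_preimage, mem_singleton_iff] at hx2 ⊢
      rw [hsi i x hx, hx2]
    · rintro ⟨hx, hx2⟩
      refine ⟨hx, ?_⟩
      simp only [mem_preimage, mem_singleton_iff] at hx2 ⊢
      rw [← hsi i x hx, hx2]
  obtain ⟨τ, t1, t2, t3⟩ := match_on R0 hR0m u s hum hs.meas V' h1 h2 h3
  refine ⟨τ, s, hs, ?_, ?_, ?_⟩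
  · filter_upwards [t1, mp_ae τ hb] with x hx1 hx2 hx
    exact ⟨(hx1 hx).2, hx2 (hx1 hx).1⟩
  · filter_upwards [t2] with x hx1 hx
    rw [hx1 hx]
  · have hsub : {x | τ.f x ≠ x} ≤ᵐ[mu1] (⋃ i, (Ico (a i) (b i) ∩ {x | w i x ≠ u x}) : Set ℝ) := by
      filter_upwards [t2, t3] with x hx2 hx3 hx
      have hxR : x ∈ R0 := by
        by_contra h
        exact hx (hx2 h)
      have hxne : u x ≠ s x := fun h => hx (hx3 hxR h)
      rw [hJ] at hxR
      obtain ⟨i, hi⟩ := mem_iUnion.1 hxR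
      refine mem_iUnion.2 ⟨i, hi, ?_⟩
      show w i x ≠ u x
      rw [← hsi i x hi]
      exact hxne.symm
    refine (measure_mono_ae hsub).trans ?_
    refine (measure_iUnion_le _).trans ?_
    rw [tsum_fintype]
    have hle : ∀ i ∈ Finset.univ, mu1 (Ico (a i) (b i) ∩ {x | w i x ≠ u x}) ≤
        ENNReal.ofReal (η / ((Fintype.card ι : ℝ) + 1)) := by
      intro i _
      rw [mu1_sub]
      · exact hw3 i
      · intro x hx
        have := hR0sub (hIsub i hx.1)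
        exact ⟨this.1.le, this.2.le⟩
    refine (Finset.sum_le_sum hle).trans ?_
    rw [Finset.sum_const, Finset.card_univ, nsmul_eq_mul]
    rw [← ENNReal.ofReal_natCast, ← ENNReal.ofReal_mul (by positivity)]
    apply ENNReal.ofReal_le_ofReal
    rw [mul_div_assoc', div_le_iff₀ (by positivity)]
    nlinarith



def Op1P (C : ℝ) : Prop := ∀ (F : ℝ → ℝ), Measurable F → ∀ (a b B δ : ℝ), -1 < a → a ≤ b →
      b < 1 → 0 < δ → 0 ≤ B → (∀ᵐ x ∂mu1, x ∈ Ico a b → |F x| ≤ B) → ∀ τ : ℝ, 0 < τ →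
      ∃ (ω : MPI mu1) (h : ℝ → ℝ), StepOn (Ico a b) h ∧
        (∀ᵐ x ∂mu1, x ∉ Ico a b → ω.f x = x) ∧
        (∀ᵐ x ∂mu1, x ∈ Ico a b → ω.f x ∈ Ico a b ∧ QQ δ (F (ω.f x)) = h x) ∧
        NN h ≤ ENNReal.ofReal (C * B * (b - a) + τ) +
          ENNReal.ofReal (|∫ x in a..b, F x| / (b - a) + δ) * NN ((Ico a b).indicator 1)

def Op2P (C : ℝ) : Prop := ∀ (F s : ℝ → ℝ) (R : Set ℝ) (z1 z2 κ δ B : ℝ) (m : ℕ), Measurable F →
      StepOn R s → -1 < z1 → z1 < z2 → z2 < 1 → Disjoint R (Ico z1 z2) → 0 < κ → 0 < δ →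
      4 * δ ≤ κ → κ ≤ B → 0 < m → (∀ᵐ x ∂mu1, x ∈ R → QQ δ (F x) = s x ∧ |F x| ≤ B) →
      (∀ᵐ x ∂mu1, x ∈ Ico z1 z2 → κ ≤ |F x| ∧ |F x| ≤ B) →
      ENNReal.ofReal (8 * δ / κ) ≤ mu1 (Ico z1 z2 ∩ {x | 0 < F x}) →
      ENNReal.ofReal (8 * δ / κ) ≤ mu1 (Ico z1 z2 ∩ {x | F x < 0}) → ∀ τ : ℝ, 0 < τ →
      ∃ (ω : MPI mu1) (s' : ℝ → ℝ), StepOn R s' ∧
        (∀ᵐ x ∂mu1, x ∈ R ∪ Ico z1 z2 → ω.f x ∈ R ∪ Ico z1 z2) ∧
        (∀ᵐ x ∂mu1, x ∉ R ∪ Ico z1 z2 → ω.f x = x) ∧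
        (∀ᵐ x ∂mu1, x ∈ R → QQ (δ / m) (F (ω.f x)) = s' x) ∧
        NN (fun x => s' x - s x) ≤ ENNReal.ofReal (C * (δ + B * √(δ / κ)) + τ) ∧
        mu1 {x | x ∈ R ∧ ω.f x ≠ x} ≤ ENNReal.ofReal (8 * δ / κ + τ)

/-- the invariant -/
def InvL (F : ℝ → ℝ) (R : Set ℝ) (δ B : ℝ) (G s : ℝ → ℝ) : Prop :=
  StepOn R s ∧ (∀ᵐ x ∂mu1, x ∈ R → QQ δ (G x) = s x ∧ |G x| ≤ B) ∧
    (∀ᵐ x ∂mu1, x ∉ R → G x = F x)

theorem step_trans {C1 C2 : ℝ} (hC2 : 0 < C2) (op1 : Op1P C1) (op2 : Op2P C2)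
    {F G s : ℝ → ℝ} (hG : Measurable G) (hGi : Integrable G mu1)
    {R : Set ℝ} {a b a' b' κ δ B B' t : ℝ} {m : ℕ} (hinv : InvL F R δ B G s)
    (ha : -1 < a) (hab : a < b) (hb : b < 1) (ha' : 0 ≤ a') (hab' : a' ≤ b') (hb' : b' ≤ 1 / 2)
    (dRZ : Disjoint R (Ico a b)) (dRI : Disjoint R (Ico a' b'))
    (dZI : Disjoint (Ico a b) (Ico a' b')) (hκ : 0 < κ) (hκB : κ ≤ B) (hBB' : B ≤ B') (hδ : 0 < δ)
    (hm : 0 < m) (h4 : 4 * δ ≤ κ)
    (bZ : ∀ᵐ x ∂mu1, x ∈ Ico a b → κ ≤ |F x| ∧ |F x| ≤ B) (zZ : ∫ x in a..b, F x = 0)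
    (bI : ∀ᵐ x ∂mu1, x ∈ Ico a' b' → |F x| ≤ B)
    (hp1 : ENNReal.ofReal (8 * δ / κ) ≤ mu1 (Ico a b ∩ {x | 0 < F x}))
    (hp2 : ENNReal.ofReal (8 * δ / κ) ≤ mu1 (Ico a b ∩ {x | F x < 0})) (ht : 0 < t) :
    ∃ (τ : MPI mu1) (s' : ℝ → ℝ),
      InvL F (R ∪ (Ico a b ∪ Ico a' b')) (δ / m) B' (G ∘ τ.f) s' ∧
      mu1 {x | τ.f x ≠ x} ≤ ENNReal.ofReal (8 * δ / κ + t) + ENNReal.ofReal (b - a) +
        ENNReal.ofReal (b - a) + ENNReal.ofReal (b' - a') ∧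
      NN (fun x => s' x - s x) ≤ ENNReal.ofReal (C2 * (δ + B * √(δ / κ)) + t) +
        ((ENNReal.ofReal (C1 * B * (b - a) + t) +
          ENNReal.ofReal ((4 * δ + (C2 * (δ + B * √(δ / κ)) + t)) / (b - a) + δ) *
            NN ((Ico a b).indicator 1)) +
        (ENNReal.ofReal (C1 * B * (b' - a') + t) +
          ENNReal.ofReal (|∫ x in a'..b', F x| / (b' - a') + δ) *
            NN ((Ico a' b').indicator 1))) := by
  obtain ⟨hs, hq, hoff⟩ := hinv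
  have hB : 0 ≤ B := hκ.le.trans hκB
  have hmR : (0 : ℝ) < m := by exact_mod_cast hm
  have hδm : 0 < δ / m := by positivity
  have hm1 : (1 : ℝ) ≤ m := by exact_mod_cast hm
  have hδm' : δ / m ≤ δ := div_le_self hδ.le hm1
  have hRm := hs.meas_set
  -- G = F on Z and I
  have hGZ : ∀ᵐ x ∂mu1, x ∈ Ico a b → G x = F x := by
    filter_upwards [hoff] with x hx hxZ
    exact hx (fun h => disjoint_left.1 dRZ h hxZ)
  have hGI : ∀ᵐ x ∂mu1, x ∈ Ico a' b' → G x = F x := by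
    filter_upwards [hoff] with x hx hxZ
    exact hx (fun h => disjoint_left.1 dRI h hxZ)
  have bZG : ∀ᵐ x ∂mu1, x ∈ Ico a b → κ ≤ |G x| ∧ |G x| ≤ B := by
    filter_upwards [hGZ, bZ] with x h1 h2 hx
    rw [h1 hx]
    exact h2 hx
  have hp1' : ENNReal.ofReal (8 * δ / κ) ≤ mu1 (Ico a b ∩ {x | 0 < G x}) := by
    refine hp1.trans (measure_mono_ae ?_)
    filter_upwards [hGZ] with x h1 hx
    exact ⟨hx.1, by rw [mem_ofPred_eq, h1 hx.1]; exact hx.2⟩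
  have hp2' : ENNReal.ofReal (8 * δ / κ) ≤ mu1 (Ico a b ∩ {x | G x < 0}) := by
    refine hp2.trans (measure_mono_ae ?_)
    filter_upwards [hGZ] with x h1 hx
    exact ⟨hx.1, by rw [mem_ofPred_eq, h1 hx.1]; exact hx.2⟩
  obtain ⟨om1, s1, hs1, hin, hout, hq1, hN1, hd1⟩ := op2 G s R a b κ δ B m hG hs ha hab hb dRZ hκ hδ
    h4 hκB hm hq bZG hp1' hp2' t ht
  -- the integral over Z
  have zG : ∫ x in a..b, G x = 0 := by
    rw [int_mu1 ha hab.le hb] at zZ ⊢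
    rw [← zZ]
    apply setIntegral_congr_ae measurableSet_Ico
    exact hGZ
  have hc0 : 0 ≤ C2 * (δ + B * √(δ / κ)) + t := by positivity
  have hest := int_est om1 hG hGi hs hs1 ha hab hb dRZ hin hout
    (by filter_upwards [hq] with x h hx using (h hx).1) hq1 hδ hδm hδm' zG hN1 hc0
  -- F1
  have hF1 : Measurable (fun x => G (om1.f x)) := hG.comp om1.f_mp.measurable
  have bD : ∀ᵐ x ∂mu1, x ∈ R ∪ Ico a b → |G x| ≤ B := by
    filter_upwards [hq, bZG] with x h1 h2 hx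
    rcases hx with hx | hx
    · exact (h1 hx).2
    · exact (h2 hx).2
  have bF1 : ∀ᵐ x ∂mu1, x ∈ R ∪ Ico a b → |G (om1.f x)| ≤ B := by
    filter_upwards [hin, mp_ae om1 bD] with x h1 h2 hx
    exact h2 (h1 hx)
  obtain ⟨om2, h2, hh2, o2, q2, N2⟩ := op1 (fun x => G (om1.f x)) hF1 a b B (δ / m) ha hab.le hb hδm
    hB (by filter_upwards [bF1] with x h hx using h (Or.inr hx)) t ht
  have hF2 : Measurable (fun x => G (om1.f (om2.f x))) := hF1.comp om2.f_mp.measurable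
  have hF2I : ∀ᵐ x ∂mu1, x ∈ Ico a' b' → G (om1.f (om2.f x)) = F x := by
    filter_upwards [o2, hout, hGI] with x k1 k2 k3 hx
    have hxZ : x ∉ Ico a b := fun h => disjoint_left.1 dZI h hx
    have hxR : x ∉ R := fun h => disjoint_left.1 dRI h hx
    rw [k1 hxZ, k2 (by rintro (h | h); exacts [hxR h, hxZ h]), k3 hx]
  obtain ⟨om3, h3, hh3, o3, q3, N3⟩ := op1 (fun x => G (om1.f (om2.f x))) hF2 a' b' B (δ / m)
    (by linarith) hab' (by linarith) hδm hB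
    (by
      filter_upwards [hF2I, bI] with x k1 k2 hx
      rw [k1 hx]
      exact k2 hx) t ht
  -- the new state
  refine ⟨mpiComp (mpiComp om1 om2) om3, fun x => s1 x + (h2 x + h3 x), ⟨?_, ?_, ?_⟩, ?_, ?_⟩
  · refine hs1.union (hh2.union hh3 dZI) ?_
    rw [disjoint_union_right]
    exact ⟨dRZ, dRI⟩
  · have bZ2 : ∀ᵐ x ∂mu1, x ∈ Ico a b → |G (om1.f (om2.f x))| ≤ B := by
      filter_upwards [q2, mp_ae om2 bF1] with x k1 k2 hx
      exact k2 (Or.inr (k1 hx).1)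
    have bI2 : ∀ᵐ x ∂mu1, x ∈ Ico a' b' → |G (om1.f (om2.f x))| ≤ B := by
      filter_upwards [hF2I, bI] with x k1 k2 hx
      rw [k1 hx]
      exact k2 hx
    filter_upwards [o2, o3, q2, q3, hq1, bF1, bZ2, mp_ae om3 bI2] with x k1 k2 k3 k4 k5 k6 k7 k8 hx
    show QQ (δ / m) (G (om1.f (om2.f (om3.f x)))) = s1 x + (h2 x + h3 x) ∧
      |G (om1.f (om2.f (om3.f x)))| ≤ B'
    rcases hx with hx | hx | hx
    · have hxZ : x ∉ Ico a b := fun h => disjoint_left.1 dRZ hx h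
      have hxI : x ∉ Ico a' b' := fun h => disjoint_left.1 dRI hx h
      rw [k2 hxI, k1 hxZ, zero_off hh2 x hxZ, zero_off hh3 x hxI, add_zero, add_zero]
      exact ⟨k5 hx, (k6 (Or.inl hx)).trans hBB'⟩
    · have hxR : x ∉ R := fun h => disjoint_left.1 dRZ h hx
      have hxI : x ∉ Ico a' b' := fun h => disjoint_left.1 dZI hx h
      rw [k2 hxI, zero_off hs1 x hxR, zero_off hh3 x hxI, add_zero, zero_add]
      exact ⟨(k3 hx).2, (k7 hx).trans hBB'⟩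
    · have hxR : x ∉ R := fun h => disjoint_left.1 dRI h hx
      have hxZ : x ∉ Ico a b := fun h => disjoint_left.1 dZI h hx
      rw [zero_off hs1 x hxR, zero_off hh2 x hxZ, zero_add, zero_add]
      exact ⟨(k4 hx).2, (k8 (k4 hx).1).trans hBB'⟩
  · filter_upwards [o2, o3, hout, hoff] with x k1 k2 k3 k4 hx
    rw [mem_union, mem_union, not_or, not_or] at hx
    obtain ⟨hxR, hxZ, hxI⟩ := hx
    show G (om1.f (om2.f (om3.f x))) = F x
    rw [k2 hxI, k1 hxZ, k3 (by rintro (h | h); exacts [hxR h, hxZ h]), k4 hxR]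
  · refine (comp_disp _ _).trans ?_
    have e3 : mu1 {x | om3.f x ≠ x} ≤ ENNReal.ofReal (b' - a') := by
      rw [← mu1_Ico (by linarith : -1 < a') (by linarith : b' < 1)]
      refine measure_mono_ae ?_
      filter_upwards [o3] with x k hx
      by_contra h
      exact hx (k h)
    have e2 : mu1 {x | om2.f x ≠ x} ≤ ENNReal.ofReal (b - a) := by
      rw [← mu1_Ico ha hb]
      refine measure_mono_ae ?_
      filter_upwards [o2] with x k hx
      by_contra h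
      exact hx (k h)
    have e1 : mu1 {x | om1.f x ≠ x} ≤ ENNReal.ofReal (8 * δ / κ + t) + ENNReal.ofReal (b - a) := by
      rw [← mu1_Ico ha hb]
      have hsub : {x | om1.f x ≠ x} ≤ᵐ[mu1] ({x | x ∈ R ∧ om1.f x ≠ x} ∪ Ico a b : Set ℝ) := by
        filter_upwards [hout] with x k hx
        by_cases hxR : x ∈ R
        · exact Or.inl ⟨hxR, hx⟩
        · by_cases hxZ : x ∈ Ico a b
          · exact Or.inr hxZ
          · exact absurd (k (by rintro (h | h); exacts [hxR h, hxZ h])) hx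
      refine (measure_mono_ae hsub).trans ((measure_union_le _ _).trans ?_)
      gcongr
    exact add_le_add ((comp_disp _ _).trans (add_le_add e1 e2)) e3
  · have hi1 : IntervalIntegrable (fun x => s1 x - s x) volume (-1) 1 := hs1.ii.sub hs.ii
    have e1 : (fun x => s1 x + (h2 x + h3 x) - s x) =
        fun x => (s1 x - s x) + (h2 x + h3 x) := by funext x; ring
    rw [e1]
    refine (NN_add hi1 (hh2.ii.add hh3.ii)).trans ?_
    refine add_le_add hN1 ((NN_add hh2.ii hh3.ii).trans (add_le_add ?_ ?_))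
    · refine N2.trans ?_
      gcongr
    · refine N3.trans ?_
      have e2 : ∫ x in a'..b', G (om1.f (om2.f x)) = ∫ x in a'..b', F x := by
        rw [int_mu1 (by linarith) hab' (by linarith), int_mu1 (by linarith) hab' (by linarith)]
        exact setIntegral_congr_ae measurableSet_Ico hF2I
      rw [e2]
      gcongr



theorem exists_D {κ B C2 C3 L NZ A A' : ℝ} {P1 P2 : ℝ≥0∞} (hκ : 0 < κ) (hP1 : 0 < P1)
    (hP2 : 0 < P2) (hA : 0 < A) (hA' : 0 < A') :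
    ∃ D : ℝ, 0 < D ∧ ∀ δ : ℝ, 0 < δ → δ ≤ D → 4 * δ ≤ κ ∧ ENNReal.ofReal (8 * δ / κ) ≤ P1 ∧
      ENNReal.ofReal (8 * δ / κ) ≤ P2 ∧ 8 * δ / κ + δ ≤ A ∧
      C2 * (δ + B * √(δ / κ)) + δ ≤ A' ∧
      ((4 * δ + (C2 * (δ + B * √(δ / κ)) + δ)) / L + δ) * NZ ≤ A' ∧ C3 * δ ≤ A' := by
  have key : ∀ (g : ℝ → ℝ) (c : ℝ), Continuous g → g 0 < c → ∀ᶠ δ in 𝓝[>] (0 : ℝ), g δ ≤ c := by
    intro g c hg h0
    have h1 : Tendsto g (𝓝[>] (0 : ℝ)) (𝓝 (g 0)) := (hg.tendsto 0).mono_left nhdsWithin_le_nhds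
    exact h1.eventually (Iic_mem_nhds h0)
  have keyE : ∀ P : ℝ≥0∞, 0 < P → ∀ᶠ δ in 𝓝[>] (0 : ℝ), ENNReal.ofReal (8 * δ / κ) ≤ P := by
    intro P hP
    have hc : Continuous fun δ : ℝ => ENNReal.ofReal (8 * δ / κ) :=
      ENNReal.continuous_ofReal.comp (by fun_prop)
    have h1 : Tendsto (fun δ : ℝ => ENNReal.ofReal (8 * δ / κ)) (𝓝[>] (0 : ℝ))
        (𝓝 (ENNReal.ofReal (8 * 0 / κ))) := (hc.tendsto 0).mono_left nhdsWithin_le_nhds
    have h0 : ENNReal.ofReal (8 * 0 / κ) < P := by simpa using hP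
    exact h1.eventually (Iic_mem_nhds h0)
  have hall : ∀ᶠ δ in 𝓝[>] (0 : ℝ), 4 * δ ≤ κ ∧ ENNReal.ofReal (8 * δ / κ) ≤ P1 ∧
      ENNReal.ofReal (8 * δ / κ) ≤ P2 ∧ 8 * δ / κ + δ ≤ A ∧
      C2 * (δ + B * √(δ / κ)) + δ ≤ A' ∧
      ((4 * δ + (C2 * (δ + B * √(δ / κ)) + δ)) / L + δ) * NZ ≤ A' ∧ C3 * δ ≤ A' := by
    refine (key (fun δ => 4 * δ) κ (by fun_prop) (by simpa using hκ)).and
      ((keyE P1 hP1).and ((keyE P2 hP2).and
      ((key (fun δ => 8 * δ / κ + δ) A (by fun_prop) (by simpa using hA)).and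
      ((key (fun δ => C2 * (δ + B * √(δ / κ)) + δ) A' (by fun_prop) (by simpa using hA')).and
      ((key (fun δ => ((4 * δ + (C2 * (δ + B * √(δ / κ)) + δ)) / L + δ) * NZ) A' (by fun_prop)
        (by simpa using hA')).and (key (fun δ => C3 * δ) A' (by fun_prop) (by simpa using hA')))))))
  rw [Filter.Eventually, mem_nhdsGT_iff_exists_Ioc_subset] at hall
  obtain ⟨D, hD, hsub⟩ := hall
  exact ⟨D, hD, fun δ h1 h2 => hsub ⟨h1, h2⟩⟩

/-- the sequence of meshes -/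
noncomputable def dl (D : ℕ → ℝ) : ℕ → ℝ
  | 0 => D 0
  | j + 1 => dl D j / ((⌈dl D j / D (j + 1)⌉₊ + 1 : ℕ) : ℝ)

theorem dl_pos {D : ℕ → ℝ} (hD : ∀ j, 0 < D j) : ∀ j, 0 < dl D j := by
  intro j
  induction j with
  | zero => exact hD 0
  | succ j ih =>
    unfold dl
    positivity

theorem dl_le {D : ℕ → ℝ} (hD : ∀ j, 0 < D j) : ∀ j, dl D j ≤ D j := by
  intro j
  cases j with
  | zero => exact le_rfl
  | succ j =>
    unfold dl
    have h1 := dl_pos hD j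
    have h2 := hD (j + 1)
    rw [div_le_iff₀ (by positivity)]
    have h3 : dl D j / D (j + 1) ≤ ((⌈dl D j / D (j + 1)⌉₊ : ℕ) : ℝ) := Nat.le_ceil _
    rw [div_le_iff₀ h2] at h3
    push_cast
    nlinarith

/-- the sets on which the step functions live -/
def RR {F : ℝ → ℝ} {ε : ℝ} (S : Pieces F ε) : ℕ → Set ℝ
  | 0 => S.R0
  | j + 1 => RR S j ∪ (Ico (S.a j) (S.b j) ∪ Ico (S.a' j) (S.b' j))

theorem RR_disjZ {F : ℝ → ℝ} {ε : ℝ} (S : Pieces F ε) : ∀ j k, j ≤ k →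
    Disjoint (RR S j) (Ico (S.a k) (S.b k)) := by
  intro j
  induction j with
  | zero => intro k _; exact S.dRZ k
  | succ j ih =>
    intro k hk
    unfold RR
    rw [disjoint_union_left, disjoint_union_left]
    exact ⟨ih k (by omega), S.dZZ j k (by omega), (S.dZI k j).symm⟩

theorem RR_disjI {F : ℝ → ℝ} {ε : ℝ} (S : Pieces F ε) : ∀ j k, j ≤ k →
    Disjoint (RR S j) (Ico (S.a' k) (S.b' k)) := by
  intro j
  induction j with
  | zero => intro k _; exact S.dRI k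
  | succ j ih =>
    intro k hk
    unfold RR
    rw [disjoint_union_left, disjoint_union_left]
    exact ⟨ih k (by omega), S.dZI j k, S.dII j k (by omega)⟩

theorem RR_mono {F : ℝ → ℝ} {ε : ℝ} (S : Pieces F ε) : Monotone (RR S) := by
  apply monotone_nat_of_le_succ
  intro j
  show RR S j ⊆ RR S (j + 1)
  exact subset_union_left

theorem RR_cover {F : ℝ → ℝ} {ε : ℝ} (S : Pieces F ε) {x : ℝ} (hx : x ∈ Ioo (-1 : ℝ) 1) :
    ∃ j, x ∈ RR S j := by
  have h := S.cover hx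
  rcases h with h | h
  · exact ⟨0, h⟩
  · obtain ⟨j, hj⟩ := mem_iUnion.1 h
    exact ⟨j + 1, Or.inr hj⟩

theorem ae_cover {F : ℝ → ℝ} {ε : ℝ} (S : Pieces F ε) : ∀ᵐ x ∂mu1, ∃ j, x ∈ RR S j := by
  have h1 : ∀ᵐ x ∂mu1, x ∈ Icc (-1 : ℝ) 1 := by
    unfold mu1
    exact ae_restrict_mem measurableSet_Icc
  have h2 : ∀ c : ℝ, ∀ᵐ x ∂mu1, x ≠ c := by
    intro c
    have : ∀ᵐ x ∂(volume : Measure ℝ), x ≠ c := by
      rw [ae_iff]
      simp
    exact ae_restrict_of_ae this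
  filter_upwards [h1, h2 (-1), h2 1] with x k1 k2 k3
  exact RR_cover S ⟨lt_of_le_of_ne k1.1 (Ne.symm k2), lt_of_le_of_ne k1.2 k3⟩



def NNIntervalP : Prop := ∀ (e r : ℝ), 0 < e → e < 1 → 0 < r → ∃ C : ℝ, 0 < C ∧ ∀ A B : ℝ,
      -1 + r ≤ A → A < B → B ≤ 1 - r →
      NN ((Ico A B).indicator 1) ≤ ENNReal.ofReal (C * (B - A) ^ e)

def AssemblyP : Prop := ∀ (s : ℕ → ℝ → ℝ) (J : ℕ → Set ℝ), (∀ j, StepOn (J j) (s j)) → ∀ (F : ℝ → ℝ),
      Measurable F → ∑' j, NN (fun x => s (j + 1) x - s j x) ≠ ⊤ →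
      (∀ᵐ x ∂mu1, Tendsto (fun j => s j x) atTop (𝓝 (F x))) →
      Integrable F mu1 ∧ NN F < ⊤

def LimitCompsP : Prop := ∀ (τ : ℕ → MPI mu1), ∑' j, mu1 {x | (τ j).f x ≠ x} ≠ ⊤ →
      ∃ ω : MPI mu1, (∀ᵐ x ∂mu1, ∀ᶠ j in atTop, comps τ j x = ω.f x) ∧
        (∀ k, ∀ᵐ x ∂mu1, (∀ j ≥ k, (τ j).f x = x) → ω.f x = comps τ k x) ∧
        mu1 {x | ω.f x ≠ x} ≤ ∑' j, mu1 {x | (τ j).f x ≠ x}

theorem NN_empty_ind (a : ℝ) : NN ((Ico a a).indicator 1) = 0 := by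
  have : ((Ico a a).indicator (1 : ℝ → ℝ)) = fun _ => 0 := by
    funext x
    simp
  rw [this, NN_zero]

/-- the displacement bounds -/
noncomputable def dd {F : ℝ → ℝ} {ε : ℝ} (S : Pieces F ε) : ℕ → ℝ
  | 0 => ε / 8
  | j + 1 => ε / 8 * (1 / 2) ^ j + 2 * ((S.b j - S.a j) + (S.b' j - S.a' j))

theorem dd_nonneg {F : ℝ → ℝ} {ε : ℝ} (hε : 0 < ε) (S : Pieces F ε) : ∀ j, 0 ≤ dd S j := by
  intro j
  cases j with
  | zero => unfold dd; positivity
  | succ j =>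
    unfold dd
    have h1 := (S.hab j).2.1
    have h2 := (S.hab' j).2.1
    have h3 : 0 ≤ ε / 8 * (1 / 2 : ℝ) ^ j := by positivity
    linarith

theorem dd_sum {F : ℝ → ℝ} {ε : ℝ} (hε : 0 < ε) (S : Pieces F ε) (n : ℕ) :
    ∑ j ∈ Finset.range n, dd S j ≤ 3 * ε := by
  have hmain : ∑ j ∈ Finset.range (n + 1), dd S j ≤ 3 * ε := by
    rw [Finset.sum_range_succ']
    have h1 : ∑ k ∈ Finset.range n, dd S (k + 1) =
        ε / 8 * ∑ k ∈ Finset.range n, (1 / 2 : ℝ) ^ k +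
          2 * ∑ k ∈ Finset.range n, ((S.b k - S.a k) + (S.b' k - S.a' k)) := by
      rw [Finset.mul_sum, Finset.mul_sum, ← Finset.sum_add_distrib]
      rfl
    rw [h1]
    have h2 := S.small n
    have h3 := sum_geometric_two_le n
    have h4 : dd S 0 = ε / 8 := rfl
    rw [h4]
    nlinarith
  refine le_trans ?_ hmain
  apply Finset.sum_le_sum_of_subset_of_nonneg
  · exact Finset.range_mono (by omega)
  · intro i _ _
    exact dd_nonneg hε S i

/-- the norm bounds -/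
noncomputable def nn {F : ℝ → ℝ} {ε : ℝ} (S : Pieces F ε) (C1 C3 : ℝ) (j : ℕ) : ℝ :=
  (1 / 2 : ℝ) ^ j + ((C1 * (S.B j * (S.b j - S.a j)) + ε / 8 * (1 / 2 : ℝ) ^ j + (1 / 2 : ℝ) ^ j) +
    (C1 * (S.B j * (S.b' j - S.a' j)) + ε / 8 * (1 / 2 : ℝ) ^ j +
      (C3 * (|∫ x in S.a' j..S.b' j, F x| * (S.b' j - S.a' j) ^ (S.e - 1)) + (1 / 2 : ℝ) ^ j)))

theorem nn_summable {F : ℝ → ℝ} {ε : ℝ} (S : Pieces F ε) (C1 C3 : ℝ) :
    Summable (nn S C1 C3) := by
  have hg : Summable (fun j : ℕ => (1 / 2 : ℝ) ^ j) := summable_geometric_two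
  unfold nn
  exact hg.add ((((S.sumZ.mul_left C1).add (hg.mul_left (ε / 8))).add hg).add
    (((S.sumI.mul_left C1).add (hg.mul_left (ε / 8))).add ((S.sumM.mul_left C3).add hg)))

theorem construct' (match_on : MatchOnP) (stepApprox : StepApproxP) (NN_interval : NNIntervalP)
    (assembly : AssemblyP) (limit_comps : LimitCompsP) (op1 : ∃ C : ℝ, 0 < C ∧ Op1P C)
    (op2 : ∃ C : ℝ, 0 < C ∧ Op2P C)
    (F : ℝ → ℝ) (hF : Measurable F) (hFi : Integrable F mu1) {ε : ℝ} (hε : 0 < ε)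
    (S : Pieces F ε) :
    ∃ ω : MPI mu1, mu1 {x | ω.f x ≠ x} ≤ ENNReal.ofReal (3 * ε) ∧ NN (F ∘ ω.f) < ⊤ := by
  classical
  obtain ⟨C1, hC1, op1⟩ := op1
  obtain ⟨C2, hC2, op2⟩ := op2
  obtain ⟨C3, hC3, NI⟩ := NN_interval S.e (1 / 2) S.he.1 S.he.2 (by norm_num)
  have hZfin : ∀ j, NN ((Ico (S.a j) (S.b j)).indicator 1) ≠ ⊤ := by
    intro j
    obtain ⟨h1, h2, h3⟩ := S.hab j
    obtain ⟨C, -, hC⟩ := NN_interval S.e (min (1 + S.a j) (1 - S.b j)) S.he.1 S.he.2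
      (lt_min (by linarith) (by linarith))
    refine ne_top_of_le_ne_top ENNReal.ofReal_ne_top (hC (S.a j) (S.b j) ?_ h2 ?_)
    · have := min_le_left (1 + S.a j) (1 - S.b j)
      linarith
    · have := min_le_right (1 + S.a j) (1 - S.b j)
      linarith
  have hB0 : ∀ j, S.B 0 ≤ S.B j := fun j => S.hB (Nat.zero_le j)
  have hbZ : ∀ j, ∀ᵐ x ∂mu1, x ∈ Ico (S.a j) (S.b j) → S.κ ≤ |F x| := by
    intro j
    filter_upwards [S.bZ j] with x hx h using (hx h).1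
  have hP1 : ∀ j, 0 < mu1 (Ico (S.a j) (S.b j) ∩ {x | 0 < F x}) := fun j =>
    pos_mass hF hFi (S.hab j).1 (S.hab j).2.1 (S.hab j).2.2 S.hκ (hbZ j) (S.zZ j)
  have hP2 : ∀ j, 0 < mu1 (Ico (S.a j) (S.b j) ∩ {x | F x < 0}) := fun j =>
    neg_mass hF hFi (S.hab j).1 (S.hab j).2.1 (S.hab j).2.2 S.hκ (hbZ j) (S.zZ j)
  choose D hD0 hD using fun j : ℕ => exists_D (κ := S.κ) (B := S.B j) (C2 := C2) (C3 := C3)
    (L := S.b j - S.a j) (NZ := (NN ((Ico (S.a j) (S.b j)).indicator 1)).toReal)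
    (A := ε / 8 * (1 / 2) ^ j) (A' := (1 / 2 : ℝ) ^ j) S.hκ (hP1 j) (hP2 j) (by positivity)
    (by positivity)
  -- meshes
  set δ : ℕ → ℝ := dl D with hδdef
  have hδ0 : ∀ j, 0 < δ j := dl_pos hD0
  have hδD : ∀ j, δ j ≤ D j := dl_le hD0
  -- the sequence of states
  obtain ⟨u, hu, hrel⟩ := exists_seq_dep (α := MPI mu1 × (MPI mu1 × (ℝ → ℝ)))
    (fun j p => InvL F (RR S j) (δ j) (S.B j) (F ∘ p.2.1.f) p.2.2 ∧
      (j = 0 → p.2.1.f = p.1.f ∧ mu1 {x | p.1.f x ≠ x} ≤ ENNReal.ofReal (dd S 0)))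
    (fun j p q => q.2.1.f = p.2.1.f ∘ q.1.f ∧
      mu1 {x | q.1.f x ≠ x} ≤ ENNReal.ofReal (dd S (j + 1)) ∧
      NN (fun x => q.2.2 x - p.2.2 x) ≤ ENNReal.ofReal (nn S C1 C3 j))
    (by
      obtain ⟨τ, s, h1, h2, h3, h4⟩ := stage0 match_on stepApprox hF S.hR0 (hδ0 0)
        (by positivity : 0 < ε / 8) S.bR
      exact ⟨(τ, (τ, s)), ⟨h1, h2, h3⟩, fun _ => ⟨rfl, h4⟩⟩)
    (by
      rintro j ⟨τ, ω, s⟩ ⟨hinv, -⟩
      simp only at hinv
      have hG : Measurable (F ∘ ω.f) := hF.comp ω.f_mp.measurable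
      have hGi : Integrable (F ∘ ω.f) mu1 :=
        (ω.f_mp.integrable_comp hF.aestronglyMeasurable).mpr hFi
      obtain ⟨d1, d2, d3, d4, d5, d6, d7⟩ := hD j (δ j) (hδ0 j) (hδD j)
      have hbZ' : ∀ᵐ x ∂mu1, x ∈ Ico (S.a j) (S.b j) → S.κ ≤ |F x| ∧ |F x| ≤ S.B j := by
        filter_upwards [S.bZ j] with x hx h
        exact ⟨(hx h).1, (hx h).2.trans (hB0 j)⟩
      obtain ⟨τ', s', i1, i2, i3⟩ := step_trans hC2 op1 op2 hG hGi hinv (S.hab j).1 (S.hab j).2.1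
        (S.hab j).2.2 (S.hab' j).1 (S.hab' j).2.1 (S.hab' j).2.2 (RR_disjZ S j j le_rfl)
        (RR_disjI S j j le_rfl) (S.dZI j j) S.hκ (S.hκB.trans (hB0 j))
        (S.hB (Nat.le_succ j)) (hδ0 j) (Nat.succ_pos ⌈dl D j / D (j + 1)⌉₊) d1 hbZ' (S.zZ j)
        (S.bI j) d2 d3 (hδ0 j)
      refine ⟨(τ', (mpiComp ω τ', s')), ⟨?_, fun h => absurd h (Nat.succ_ne_zero j)⟩, rfl, ?_, ?_⟩
      · exact i1
      · refine i2.trans ?_
        have hab := (S.hab j).2.1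
        have hab' := (S.hab' j).2.1
        rw [← ENNReal.ofReal_add (by have := hδ0 j; have := S.hκ; positivity) (by linarith),
          ← ENNReal.ofReal_add (by have := hδ0 j; have := S.hκ; have : 0 ≤ 8 * δ j / S.κ + δ j := by positivity
                                   linarith) (by linarith),
          ← ENNReal.ofReal_add (by have := hδ0 j; have := S.hκ; have : 0 ≤ 8 * δ j / S.κ + δ j := by positivity
                                   linarith) (by linarith)]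
        apply ENNReal.ofReal_le_ofReal
        show _ ≤ ε / 8 * (1 / 2) ^ j + 2 * ((S.b j - S.a j) + (S.b' j - S.a' j))
        linarith
      · have hab := (S.hab j).2.1
        have hab' := (S.hab' j).2.1
        have hδj := hδ0 j
        have hκ := S.hκ
        have hBj : 0 ≤ S.B j := hκ.le.trans (S.hκB.trans (hB0 j))
        have hδe : δ j ≤ ε / 8 * (1 / 2) ^ j := by
          have : 0 ≤ 8 * δ j / S.κ := by positivity
          linarith
        refine i3.trans ?_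
        have t1 : ENNReal.ofReal (C2 * (δ j + S.B j * √(δ j / S.κ)) + δ j) ≤
            ENNReal.ofReal ((1 / 2 : ℝ) ^ j) := ENNReal.ofReal_le_ofReal d5
        have t2 : ENNReal.ofReal (C1 * S.B j * (S.b j - S.a j) + δ j) +
            ENNReal.ofReal ((4 * δ j + (C2 * (δ j + S.B j * √(δ j / S.κ)) + δ j)) /
              (S.b j - S.a j) + δ j) * NN ((Ico (S.a j) (S.b j)).indicator 1) ≤
            ENNReal.ofReal (C1 * (S.B j * (S.b j - S.a j)) + ε / 8 * (1 / 2 : ℝ) ^ j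
              + (1 / 2 : ℝ) ^ j) := by
          have hb1 : 0 ≤ S.B j * (S.b j - S.a j) := mul_nonneg hBj (by linarith)
          have hsp : ENNReal.ofReal (C1 * (S.B j * (S.b j - S.a j)) + ε / 8 * (1 / 2 : ℝ) ^ j
              + (1 / 2 : ℝ) ^ j) = ENNReal.ofReal (C1 * (S.B j * (S.b j - S.a j))
                + ε / 8 * (1 / 2 : ℝ) ^ j) + ENNReal.ofReal ((1 / 2 : ℝ) ^ j) :=
            ENNReal.ofReal_add (by positivity) (by positivity)
          rw [hsp]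
          apply add_le_add
          · apply ENNReal.ofReal_le_ofReal
            linarith
          · rw [← ENNReal.ofReal_toReal (hZfin j), ← ENNReal.ofReal_mul' ENNReal.toReal_nonneg]
            exact ENNReal.ofReal_le_ofReal d6
        have t3 : ENNReal.ofReal (C1 * S.B j * (S.b' j - S.a' j) + δ j) +
            ENNReal.ofReal (|∫ x in S.a' j..S.b' j, F x| / (S.b' j - S.a' j) + δ j) *
              NN ((Ico (S.a' j) (S.b' j)).indicator 1) ≤
            ENNReal.ofReal (C1 * (S.B j * (S.b' j - S.a' j)) + ε / 8 * (1 / 2 : ℝ) ^ j +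
              (C3 * (|∫ x in S.a' j..S.b' j, F x| * (S.b' j - S.a' j) ^ (S.e - 1))
                + (1 / 2 : ℝ) ^ j)) := by
          have hb1 : 0 ≤ S.B j * (S.b' j - S.a' j) := mul_nonneg hBj (by linarith)
          have hb2 : 0 ≤ (S.b' j - S.a' j) ^ (S.e - 1) := Real.rpow_nonneg (by linarith) _
          have hsp : ENNReal.ofReal (C1 * (S.B j * (S.b' j - S.a' j)) + ε / 8 * (1 / 2 : ℝ) ^ j +
              (C3 * (|∫ x in S.a' j..S.b' j, F x| * (S.b' j - S.a' j) ^ (S.e - 1))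
                + (1 / 2 : ℝ) ^ j)) = ENNReal.ofReal (C1 * (S.B j * (S.b' j - S.a' j))
                + ε / 8 * (1 / 2 : ℝ) ^ j) + ENNReal.ofReal
              (C3 * (|∫ x in S.a' j..S.b' j, F x| * (S.b' j - S.a' j) ^ (S.e - 1))
                + (1 / 2 : ℝ) ^ j) := ENNReal.ofReal_add (by positivity) (by positivity)
          rw [hsp]
          apply add_le_add
          · apply ENNReal.ofReal_le_ofReal
            linarith
          · rcases eq_or_lt_of_le hab' with heq | hlt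
            · rw [← heq, NN_empty_ind, mul_zero]
              exact zero_le
            · have hI := NI (S.a' j) (S.b' j) (by have := (S.hab' j).1; linarith) hlt
                (by have := (S.hab' j).2.2; linarith)
              have hL : 0 < S.b' j - S.a' j := by linarith
              have hL1 : S.b' j - S.a' j ≤ 1 := by
                have := (S.hab' j).2.2
                have := (S.hab' j).1
                linarith
              calc ENNReal.ofReal (|∫ x in S.a' j..S.b' j, F x| / (S.b' j - S.a' j) + δ j) *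
                  NN ((Ico (S.a' j) (S.b' j)).indicator 1)
                  ≤ ENNReal.ofReal (|∫ x in S.a' j..S.b' j, F x| / (S.b' j - S.a' j) + δ j) *
                    ENNReal.ofReal (C3 * (S.b' j - S.a' j) ^ S.e) := by gcongr
                _ = ENNReal.ofReal ((|∫ x in S.a' j..S.b' j, F x| / (S.b' j - S.a' j) + δ j) *
                    (C3 * (S.b' j - S.a' j) ^ S.e)) :=
                    (ENNReal.ofReal_mul (by positivity)).symm
                _ ≤ _ := by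
                    apply ENNReal.ofReal_le_ofReal
                    have hp : (S.b' j - S.a' j) ^ (S.e - 1) =
                        (S.b' j - S.a' j) ^ S.e / (S.b' j - S.a' j) :=
                      Real.rpow_sub_one hL.ne' S.e
                    have hp1 : (S.b' j - S.a' j) ^ S.e ≤ 1 :=
                      Real.rpow_le_one hL.le hL1 S.he.1.le
                    have hp0 : 0 ≤ (S.b' j - S.a' j) ^ S.e := Real.rpow_nonneg hL.le _
                    have e1 : (|∫ x in S.a' j..S.b' j, F x| / (S.b' j - S.a' j) + δ j) *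
                      (C3 * (S.b' j - S.a' j) ^ S.e) =
                      C3 * (|∫ x in S.a' j..S.b' j, F x| *
                        ((S.b' j - S.a' j) ^ S.e / (S.b' j - S.a' j))) +
                      (C3 * δ j) * (S.b' j - S.a' j) ^ S.e := by
                      ring
                    rw [e1, hp]
                    have h5 : (C3 * δ j) * (S.b' j - S.a' j) ^ S.e ≤ (C3 * δ j) * 1 :=
                      mul_le_mul_of_nonneg_left hp1 (by positivity)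
                    linarith
        have hb1 : 0 ≤ S.B j * (S.b j - S.a j) := mul_nonneg hBj (by linarith)
        have hb1' : 0 ≤ S.B j * (S.b' j - S.a' j) := mul_nonneg hBj (by linarith)
        have hb2 : 0 ≤ (S.b' j - S.a' j) ^ (S.e - 1) := Real.rpow_nonneg (by linarith) _
        refine (add_le_add t1 (add_le_add t2 t3)).trans (le_of_eq ?_)
        unfold nn
        have hX : 0 ≤ (1 / 2 : ℝ) ^ j := by positivity
        have hY : 0 ≤ C1 * (S.B j * (S.b j - S.a j)) + ε / 8 * (1 / 2 : ℝ) ^ j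
              + (1 / 2 : ℝ) ^ j := by positivity
        have hW : 0 ≤ C1 * (S.B j * (S.b' j - S.a' j)) + ε / 8 * (1 / 2 : ℝ) ^ j +
              (C3 * (|∫ x in S.a' j..S.b' j, F x| * (S.b' j - S.a' j) ^ (S.e - 1))
                + (1 / 2 : ℝ) ^ j) := by positivity
        rw [← ENNReal.ofReal_add hY hW, ← ENNReal.ofReal_add hX (add_nonneg hY hW)])
  -- the maps
  set τ : ℕ → MPI mu1 := fun j => (u j).1 with hτ
  have hcomps : ∀ j, comps τ (j + 1) = (u j).2.1.f := by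
    intro j
    induction j with
    | zero =>
      show id ∘ (τ 0).f = _
      rw [((hu 0).2 rfl).1]
      rfl
    | succ j ih =>
      show comps τ (j + 1) ∘ (τ (j + 1)).f = _
      rw [ih, (hrel j).1]
  have hdisp : ∀ j, mu1 {x | (τ j).f x ≠ x} ≤ ENNReal.ofReal (dd S j) := by
    intro j
    cases j with
    | zero => exact ((hu 0).2 rfl).2
    | succ j => exact (hrel j).2.1
  have hsum : ∑' j, mu1 {x | (τ j).f x ≠ x} ≤ ENNReal.ofReal (3 * ε) := by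
    apply ENNReal.tsum_le_of_sum_range_le
    intro n
    calc ∑ j ∈ Finset.range n, mu1 {x | (τ j).f x ≠ x}
        ≤ ∑ j ∈ Finset.range n, ENNReal.ofReal (dd S j) := Finset.sum_le_sum fun j _ => hdisp j
      _ = ENNReal.ofReal (∑ j ∈ Finset.range n, dd S j) :=
          (ENNReal.ofReal_sum_of_nonneg fun j _ => dd_nonneg hε S j).symm
      _ ≤ _ := ENNReal.ofReal_le_ofReal (dd_sum hε S n)
  obtain ⟨ω, w1, -, w3⟩ := limit_comps τ (ne_top_of_le_ne_top ENNReal.ofReal_ne_top hsum)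
  refine ⟨ω, w3.trans hsum, ?_⟩
  have hNsum : ∑' j, NN (fun x => (u (j + 1)).2.2 x - (u j).2.2 x) ≠ ⊤ := by
    have hnn : ∀ j, 0 ≤ nn S C1 C3 j := by
      intro j
      have hab := (S.hab j).2.1
      have hab' := (S.hab' j).2.1
      have hκ := S.hκ
      have hBj : 0 ≤ S.B j := hκ.le.trans (S.hκB.trans (hB0 j))
      have hb1 : 0 ≤ S.B j * (S.b j - S.a j) := mul_nonneg hBj (by linarith)
      have hb1' : 0 ≤ S.B j * (S.b' j - S.a' j) := mul_nonneg hBj (by linarith)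
      have hb2 : 0 ≤ (S.b' j - S.a' j) ^ (S.e - 1) := Real.rpow_nonneg (by linarith) _
      unfold nn
      positivity
    refine ne_top_of_le_ne_top ?_ (ENNReal.tsum_le_tsum fun j => (hrel j).2.2)
    rw [← ENNReal.ofReal_tsum_of_nonneg hnn (nn_summable S C1 C3)]
    exact ENNReal.ofReal_ne_top
  have hδ_lim : Tendsto δ atTop (𝓝 0) := by
    have h1 : ∀ j, δ j ≤ ε / 8 * (1 / 2) ^ j := by
      intro j
      obtain ⟨-, -, -, d4, -⟩ := hD j (δ j) (hδ0 j) (hδD j)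
      have := hδ0 j
      have := S.hκ
      have : 0 ≤ 8 * δ j / S.κ := by positivity
      linarith
    have h2 : Tendsto (fun j : ℕ => ε / 8 * (1 / 2 : ℝ) ^ j) atTop (𝓝 0) := by
      have := (tendsto_pow_atTop_nhds_zero_of_lt_one (by norm_num : (0 : ℝ) ≤ 1 / 2)
        (by norm_num)).const_mul (ε / 8)
      simpa using this
    exact squeeze_zero (fun j => (hδ0 j).le) h1 h2
  have hlim : ∀ᵐ x ∂mu1, Tendsto (fun j => (u j).2.2 x) atTop (𝓝 ((F ∘ ω.f) x)) := by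
    have hall : ∀ᵐ x ∂mu1, ∀ j, x ∈ RR S j → QQ (δ j) (F ((u j).2.1.f x)) = (u j).2.2 x := by
      rw [ae_all_iff]
      intro j
      filter_upwards [(hu j).1.2.1] with x hx h
      exact (hx h).1
    filter_upwards [hall, w1, ae_cover S] with x h1 h2 h3
    obtain ⟨j0, hj0⟩ := h3
    obtain ⟨j1, hj1⟩ := eventually_atTop.1 h2
    rw [tendsto_iff_norm_sub_tendsto_zero]
    apply squeeze_zero' (Eventually.of_forall fun j => norm_nonneg _) _ hδ_lim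
    rw [eventually_atTop]
    refine ⟨max j0 j1, fun j hj => ?_⟩
    have hjR : x ∈ RR S j := RR_mono S (le_trans (le_max_left _ _) hj) hj0
    have hjc : comps τ (j + 1) x = ω.f x := hj1 (j + 1) (by
      have := le_trans (le_max_right j0 j1) hj
      omega)
    rw [hcomps] at hjc
    rw [← h1 j hjR, hjc]
    exact QQ_close (hδ0 j) _
  exact (assembly (fun j => (u j).2.2) (RR S) (fun j => (hu j).1.1) (F ∘ ω.f)
    (hF.comp ω.f_mp.measurable) hNsum hlim).2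


end RHC

/-! ### TARGET -/

theorem construct
    (match_on : ∀ (D : Set ℝ), MeasurableSet D → ∀ (u w : ℝ → ℝ), Measurable u → Measurable w →
      ∀ (V : Finset ℝ), (∀ᵐ x ∂mu1, x ∈ D → u x ∈ V) → (∀ᵐ x ∂mu1, x ∈ D → w x ∈ V) →
      (∀ v, mu1 (D ∩ u ⁻¹' {v}) = mu1 (D ∩ w ⁻¹' {v})) →
      ∃ τ : MPI mu1, (∀ᵐ x ∂mu1, x ∈ D → τ.f x ∈ D ∧ u (τ.f x) = w x) ∧
        (∀ᵐ x ∂mu1, x ∉ D → τ.f x = x) ∧ (∀ᵐ x ∂mu1, x ∈ D → u x = w x → τ.f x = x))
    (stepApprox : ∀ (A B : ℝ), -1 < A → A < B → B < 1 → ∀ (u : ℝ → ℝ), Measurable u →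
      ∀ (V : Finset ℝ), (∀ᵐ x ∂(volume.restrict (Ico A B)), u x ∈ V) → ∀ ε : ℝ, 0 < ε →
      ∃ w : ℝ → ℝ, StepOn (Ico A B) w ∧
        (∀ v, volume (Ico A B ∩ w ⁻¹' {v}) = volume (Ico A B ∩ u ⁻¹' {v})) ∧
        volume (Ico A B ∩ {x | w x ≠ u x}) ≤ ENNReal.ofReal ε)
    (NN_interval : ∀ (e r : ℝ), 0 < e → e < 1 → 0 < r → ∃ C : ℝ, 0 < C ∧ ∀ A B : ℝ,
      -1 + r ≤ A → A < B → B ≤ 1 - r →
      NN ((Ico A B).indicator 1) ≤ ENNReal.ofReal (C * (B - A) ^ e))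
    (assembly : ∀ (s : ℕ → ℝ → ℝ) (J : ℕ → Set ℝ), (∀ j, StepOn (J j) (s j)) → ∀ (F : ℝ → ℝ),
      Measurable F → ∑' j, NN (fun x => s (j + 1) x - s j x) ≠ ⊤ →
      (∀ᵐ x ∂mu1, Tendsto (fun j => s j x) atTop (𝓝 (F x))) →
      Integrable F mu1 ∧ NN F < ⊤)
    (limit_comps : ∀ (τ : ℕ → MPI mu1), ∑' j, mu1 {x | (τ j).f x ≠ x} ≠ ⊤ →
      ∃ ω : MPI mu1, (∀ᵐ x ∂mu1, ∀ᶠ j in atTop, comps τ j x = ω.f x) ∧
        (∀ k, ∀ᵐ x ∂mu1, (∀ j ≥ k, (τ j).f x = x) → ω.f x = comps τ k x) ∧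
        mu1 {x | ω.f x ≠ x} ≤ ∑' j, mu1 {x | (τ j).f x ≠ x})
    (op1 : ∃ C : ℝ, 0 < C ∧ ∀ (F : ℝ → ℝ), Measurable F → ∀ (a b B δ : ℝ), -1 < a → a ≤ b →
      b < 1 → 0 < δ → 0 ≤ B → (∀ᵐ x ∂mu1, x ∈ Ico a b → |F x| ≤ B) → ∀ τ : ℝ, 0 < τ →
      ∃ (ω : MPI mu1) (h : ℝ → ℝ), StepOn (Ico a b) h ∧
        (∀ᵐ x ∂mu1, x ∉ Ico a b → ω.f x = x) ∧
        (∀ᵐ x ∂mu1, x ∈ Ico a b → ω.f x ∈ Ico a b ∧ QQ δ (F (ω.f x)) = h x) ∧
        NN h ≤ ENNReal.ofReal (C * B * (b - a) + τ) +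
          ENNReal.ofReal (|∫ x in a..b, F x| / (b - a) + δ) * NN ((Ico a b).indicator 1))
    (op2 : ∃ C : ℝ, 0 < C ∧ ∀ (F s : ℝ → ℝ) (R : Set ℝ) (z1 z2 κ δ B : ℝ) (m : ℕ), Measurable F →
      StepOn R s → -1 < z1 → z1 < z2 → z2 < 1 → Disjoint R (Ico z1 z2) → 0 < κ → 0 < δ →
      4 * δ ≤ κ → κ ≤ B → 0 < m → (∀ᵐ x ∂mu1, x ∈ R → QQ δ (F x) = s x ∧ |F x| ≤ B) →
      (∀ᵐ x ∂mu1, x ∈ Ico z1 z2 → κ ≤ |F x| ∧ |F x| ≤ B) →
      ENNReal.ofReal (8 * δ / κ) ≤ mu1 (Ico z1 z2 ∩ {x | 0 < F x}) →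
      ENNReal.ofReal (8 * δ / κ) ≤ mu1 (Ico z1 z2 ∩ {x | F x < 0}) → ∀ τ : ℝ, 0 < τ →
      ∃ (ω : MPI mu1) (s' : ℝ → ℝ), StepOn R s' ∧
        (∀ᵐ x ∂mu1, x ∈ R ∪ Ico z1 z2 → ω.f x ∈ R ∪ Ico z1 z2) ∧
        (∀ᵐ x ∂mu1, x ∉ R ∪ Ico z1 z2 → ω.f x = x) ∧
        (∀ᵐ x ∂mu1, x ∈ R → QQ (δ / m) (F (ω.f x)) = s' x) ∧
        NN (fun x => s' x - s x) ≤ ENNReal.ofReal (C * (δ + B * √(δ / κ)) + τ) ∧
        mu1 {x | x ∈ R ∧ ω.f x ≠ x} ≤ ENNReal.ofReal (8 * δ / κ + τ))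
    (F : ℝ → ℝ) (hF : Measurable F) (hFi : Integrable F mu1) {ε : ℝ} (hε : 0 < ε)
    (S : Pieces F ε) :
    ∃ ω : MPI mu1, mu1 {x | ω.f x ≠ x} ≤ ENNReal.ofReal (3 * ε) ∧ NN (F ∘ ω.f) < ⊤ :=
  RHC.construct' match_on stepApprox NN_interval assembly limit_comps op1 op2 F hF hFi hε S

end Pool.Agent.Helper187.Leg.CN
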