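import Mathlib

open MeasureTheory Set
open scoped ENNReal

namespace Pool.Agent.Helper187.Leg

/-- Legendre polynomials (Bonnet recursion). -/
noncomputable def leg : ℕ → ℝ → ℝ
  | 0, _ => 1
  | 1, x => x
  | (n + 2), x => ((2 * n + 3) * x * leg (n + 1) x - (n + 1) * leg n x) / (n + 2)

/-- kernel of the n-th Legendre partial sum. -/
noncomputable def LK (n : ℕ) (x t : ℝ) : ℝ :=
  ∑ k ∈ Finset.range (n + 1), ((k : ℝ) + 1 / 2) * leg k x * leg k t

/-- the n-th Legendre partial sum. -/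
noncomputable def Sn (n : ℕ) (h : ℝ → ℝ) (x : ℝ) : ℝ := ∫ t in (-1 : ℝ)..1, LK n x t * h t

/-- the maximal partial sum. -/
noncomputable def Smax (h : ℝ → ℝ) (x : ℝ) : ℝ≥0∞ := ⨆ n, ‖Sn n h x‖ₑ

/-- the `L¹` norm of the maximal partial sum. -/
noncomputable def NN (h : ℝ → ℝ) : ℝ≥0∞ := ∫⁻ x in Ioo (-1 : ℝ) 1, Smax h x

/-- `h` is a step function with finitely many interior pieces, living on `J`. -/
def StepOn (J : Set ℝ) (h : ℝ → ℝ) : Prop :=
  ∃ (ι : Type) (_ : Fintype ι) (a b c : ι → ℝ), (∀ i, a i < b i) ∧ (∀ i, -1 < a i ∧ b i < 1) ∧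
    (∀ i j, i ≠ j → Disjoint (Ico (a i) (b i)) (Ico (a j) (b j))) ∧
    (J = ⋃ i, Ico (a i) (b i)) ∧ (∀ i, ∀ x ∈ Ico (a i) (b i), h x = c i) ∧ ∀ x, x ∉ J → h x = 0

/-- a pattern on `[0,1)`. -/
noncomputable def pat {m : ℕ} (g : ℝ) (c a : Fin m → ℝ) (s : ℝ) : ℝ :=
  g + ∑ k, if a k ≤ s then c k else 0

/-- a measure preserving map of `(ℝ, μ)` which is invertible modulo null sets. -/
structure MPI (μ : Measure ℝ) where
  f : ℝ → ℝ
  g : ℝ → ℝ
  f_mp : MeasurePreserving f μ μ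
  g_mp : MeasurePreserving g μ μ
  gf : ∀ᵐ x ∂μ, g (f x) = x
  fg : ∀ᵐ x ∂μ, f (g x) = x

/-- composition of the first `j` maps: `comps τ j = τ 0 ∘ τ 1 ∘ ... ∘ τ (j-1)`. -/
def comps {μ : Measure ℝ} (τ : ℕ → MPI μ) : ℕ → ℝ → ℝ
  | 0 => id
  | j + 1 => comps τ j ∘ (τ j).f

/-- Lebesgue measure on `[-1,1]` as a measure on the line. -/
noncomputable def mu1 : Measure ℝ := volume.restrict (Icc (-1 : ℝ) 1)

/-- Lebesgue measure on the interval `[-1, 1]` (as a subtype). -/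
noncomputable def muS : Measure (Icc (-1 : ℝ) 1) := Measure.comap Subtype.val volume

/-- truncation towards zero on the grid of mesh `δ`. -/
noncomputable def QQ (δ v : ℝ) : ℝ := if 0 ≤ v then δ * ⌊v / δ⌋ else -(δ * ⌊-v / δ⌋)

end Pool.Agent.Helper187.Leg
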