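import Pool.Agent.Helper187.Leg.Defs

open MeasureTheory Set Real Filter Topology
open scoped ENNReal

namespace Pool.Agent.Helper187.Leg.L1

open Pool.Agent.Helper187.Leg





theorem inner_int (p : ℝ) (hp : 1 < p) (y : ℝ) (hy : 0 ≤ y) :
    ∫⁻ t in Ioo (0 : ℝ) y, ENNReal.ofReal (t ^ (p - 2)) = ENNReal.ofReal (y ^ (p - 1) / (p - 1)) := by
  have hint : IntegrableOn (fun t : ℝ => t ^ (p - 2)) (Ioo 0 y) volume := by
    have h := intervalIntegral.intervalIntegrable_rpow' (a := 0) (b := y) (r := p - 2) (by linarith)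
    exact (intervalIntegrable_iff_integrableOn_Ioo_of_le hy).1 h
  rw [← ofReal_integral_eq_lintegral_ofReal hint
    ((ae_restrict_iff' measurableSet_Ioo).2 (Eventually.of_forall fun t ht =>
      Real.rpow_nonneg ht.1.le _))]
  congr 1
  rw [← integral_Ioc_eq_integral_Ioo, ← intervalIntegral.integral_of_le hy,
    integral_rpow (Or.inl (by linarith))]
  have e : p - 2 + 1 = p - 1 := by ring
  rw [e, Real.zero_rpow (by linarith), sub_zero]

theorem Lp_sub_Mp (p : ℝ) (hp : 1 < p) (f : ℝ → ℝ) (hf : Measurable f)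
    (hfp : MemLp f (ENNReal.ofReal p) mu1) :
    ∫⁻ t in Ioi (0 : ℝ), ENNReal.ofReal
      (t ^ (p - 2) * |∫ x, (if t < |f x| then f x else 0) ∂mu1|) < ⊤ := by
  have hfin : ∫⁻ x, ‖f x‖ₑ ^ p ∂mu1 < ⊤ := by
    have h := lintegral_rpow_enorm_lt_top_of_eLpNorm_lt_top (p := ENNReal.ofReal p)
      (by simp; linarith) ENNReal.ofReal_ne_top hfp.2
    rwa [ENNReal.toReal_ofReal (by linarith)] at h
  have : IsFiniteMeasure mu1 := by unfold mu1; infer_instance
  -- pointwise bound
  have h1 : ∀ t ∈ Ioi (0 : ℝ), ENNReal.ofReal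
      (t ^ (p - 2) * |∫ x, (if t < |f x| then f x else 0) ∂mu1|) ≤
      ∫⁻ x, ENNReal.ofReal (t ^ (p - 2)) * (if t < |f x| then ‖f x‖ₑ else 0) ∂mu1 := by
    intro t ht
    rw [ENNReal.ofReal_mul (Real.rpow_nonneg (le_of_lt ht) _), ← Real.enorm_eq_ofReal_abs,
      lintegral_const_mul' _ _ ENNReal.ofReal_ne_top]
    gcongr
    refine (enorm_integral_le_lintegral_enorm _).trans (le_of_eq ?_)
    congr 1
    funext x
    split_ifs <;> simp
  have hmeas : Measurable (fun z : ℝ × ℝ => ENNReal.ofReal (z.1 ^ (p - 2)) *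
      (if z.1 < |f z.2| then ‖f z.2‖ₑ else 0)) := by
    apply Measurable.mul
    · exact (measurable_fst.pow_const _).ennreal_ofReal
    · apply Measurable.ite
      · exact measurableSet_lt measurable_fst (hf.comp measurable_snd).abs
      · exact (hf.comp measurable_snd).enorm
      · exact measurable_const
  calc ∫⁻ t in Ioi (0 : ℝ), ENNReal.ofReal
        (t ^ (p - 2) * |∫ x, (if t < |f x| then f x else 0) ∂mu1|)
      ≤ ∫⁻ t in Ioi (0 : ℝ), ∫⁻ x, ENNReal.ofReal (t ^ (p - 2)) *
          (if t < |f x| then ‖f x‖ₑ else 0) ∂mu1 :=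
        setLIntegral_mono' measurableSet_Ioi h1
    _ = ∫⁻ x, (∫⁻ t in Ioi (0 : ℝ), ENNReal.ofReal (t ^ (p - 2)) *
          (if t < |f x| then ‖f x‖ₑ else 0)) ∂mu1 := by
        rw [lintegral_lintegral_swap hmeas.aemeasurable]
    _ = ∫⁻ x, ENNReal.ofReal (1 / (p - 1)) * ‖f x‖ₑ ^ p ∂mu1 := by
        congr 1
        funext x
        have e1 : ∀ t : ℝ, ENNReal.ofReal (t ^ (p - 2)) * (if t < |f x| then ‖f x‖ₑ else 0) =
            (Iio |f x|).indicator (fun t => ENNReal.ofReal (t ^ (p - 2)) * ‖f x‖ₑ) t := by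
          intro t
          by_cases h : t < |f x|
          · rw [if_pos h, indicator_of_mem (show t ∈ Iio |f x| from h)]
          · rw [if_neg h, indicator_of_notMem (show t ∉ Iio |f x| from h), mul_zero]
        simp_rw [e1]
        rw [lintegral_indicator measurableSet_Iio, Measure.restrict_restrict measurableSet_Iio,
          Iio_inter_Ioi, lintegral_mul_const' _ _ (by simp), inner_int p hp _ (abs_nonneg _)]
        have e2 : ‖f x‖ₑ = ENNReal.ofReal |f x| := Real.enorm_eq_ofReal_abs _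
        rw [e2, ENNReal.ofReal_rpow_of_nonneg (abs_nonneg _) (by linarith),
          ← ENNReal.ofReal_mul (by
            apply div_nonneg (Real.rpow_nonneg (abs_nonneg _) _) (by linarith)),
          ← ENNReal.ofReal_mul (by
            apply div_nonneg zero_le_one (by linarith))]
        congr 1
        rcases (abs_nonneg (f x)).eq_or_lt with h | h
        · rw [← h, Real.zero_rpow (by linarith), Real.zero_rpow (by linarith)]; simp
        · have : |f x| ^ p = |f x| ^ (p - 1) * |f x| := by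
            rw [← Real.rpow_add_one h.ne']; congr 1; ring
          rw [this]; ring
    _ = ENNReal.ofReal (1 / (p - 1)) * ∫⁻ x, ‖f x‖ₑ ^ p ∂mu1 :=
        lintegral_const_mul' _ _ ENNReal.ofReal_ne_top
    _ < ⊤ := ENNReal.mul_lt_top ENNReal.ofReal_lt_top hfin

end Pool.Agent.Helper187.Leg.L1
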