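import Pool.Agent.Helper187.Leg.Defs

open MeasureTheory Set Real Filter Topology
open scoped ENNReal

namespace Pool.Agent.Helper187.Leg.M1

open Pool.Agent.Helper187.Leg





theorem thr_mid {μ : Measure ℝ} (h0 : μ univ ≠ 0) {f : ℝ → ℝ}
    (hne : ¬ ∃ c : ℝ, ∀ᵐ x ∂μ, f x = c) :
    ∃ c : ℝ, 0 < μ {x | c < f x} ∧ 0 < μ {x | f x < c} := by
  by_contra hcon
  push Not at hcon
  have hcon' : ∀ c : ℝ, μ {x | c < f x} ≠ 0 → μ {x | f x < c} = 0 := by
    intro c hc
    exact le_antisymm (hcon c (pos_iff_ne_zero.2 hc)) (zero_le)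
  apply hne
  set S : Set ℝ := {c | μ {x | c < f x} = 0} with hS
  by_cases hSe : S.Nonempty
  · have hbdd : BddBelow S := by
      by_contra hb
      apply h0
      have hall : ∀ n : ℕ, μ {x | -(n : ℝ) < f x} = 0 := by
        intro n
        rw [not_bddBelow_iff] at hb
        obtain ⟨c, hc, hcn⟩ := hb (-(n : ℝ))
        refine measure_mono_null ?_ hc
        intro x hx
        exact hcn.trans hx
      have : (univ : Set ℝ) = ⋃ n : ℕ, {x | -(n : ℝ) < f x} := by
        ext x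
        simp only [mem_univ, mem_iUnion, true_iff]
        obtain ⟨n, hn⟩ := exists_nat_gt (-(f x))
        exact ⟨n, by show -(n : ℝ) < f x; linarith⟩
      rw [this]
      exact measure_iUnion_null hall
    refine ⟨sInf S, ?_⟩
    have h1 : μ {x | sInf S < f x} = 0 := by
      have : {x | sInf S < f x} = ⋃ n : ℕ, {x | sInf S + 1 / ((n : ℝ) + 1) < f x} := by
        ext x
        simp only [mem_iUnion, mem_ofPred_eq]
        constructor
        · intro hx
          obtain ⟨n, hn⟩ := exists_nat_one_div_lt (sub_pos.2 hx)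
          exact ⟨n, by linarith⟩
        · rintro ⟨n, hn⟩
          have : (0 : ℝ) < 1 / ((n : ℝ) + 1) := by positivity
          linarith
      rw [this]
      refine measure_iUnion_null fun n => ?_
      have hlt : sInf S < sInf S + 1 / ((n : ℝ) + 1) := by
        have : (0 : ℝ) < 1 / ((n : ℝ) + 1) := by positivity
        linarith
      obtain ⟨c, hc, hcn⟩ := exists_lt_of_csInf_lt hSe hlt
      refine measure_mono_null ?_ hc
      intro x hx
      exact hcn.trans hx
    have h2 : μ {x | f x < sInf S} = 0 := by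
      have : {x | f x < sInf S} = ⋃ n : ℕ, {x | f x < sInf S - 1 / ((n : ℝ) + 1)} := by
        ext x
        simp only [mem_iUnion, mem_ofPred_eq]
        constructor
        · intro hx
          obtain ⟨n, hn⟩ := exists_nat_one_div_lt (sub_pos.2 hx)
          exact ⟨n, by linarith⟩
        · rintro ⟨n, hn⟩
          have : (0 : ℝ) < 1 / ((n : ℝ) + 1) := by positivity
          linarith
      rw [this]
      refine measure_iUnion_null fun n => ?_
      apply hcon'
      intro h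
      have h3 : sInf S - 1 / ((n : ℝ) + 1) ∈ S := h
      have := csInf_le hbdd h3
      have : (0 : ℝ) < 1 / ((n : ℝ) + 1) := by positivity
      linarith
    rw [ae_iff]
    refine measure_mono_null ?_ (measure_union_null h1 h2)
    intro x hx
    rcases lt_or_gt_of_ne hx with h | h
    · exact Or.inr h
    · exact Or.inl h
  · exfalso
    apply h0
    have hall : ∀ n : ℕ, μ {x | f x < (n : ℝ)} = 0 := by
      intro n
      apply hcon'
      intro h
      exact hSe ⟨(n : ℝ), h⟩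
    have : (univ : Set ℝ) = ⋃ n : ℕ, {x | f x < (n : ℝ)} := by
      ext x
      simp only [mem_univ, mem_iUnion, true_iff]
      obtain ⟨n, hn⟩ := exists_nat_gt (f x)
      exact ⟨n, hn⟩
    rw [this]
    exact measure_iUnion_null hall

theorem thr_side {μ : Measure ℝ} {g : ℝ → ℝ} (h : 0 < μ {x | 0 < g x}) :
    ∃ n : ℕ, 0 < μ {x | 1 / ((n : ℝ) + 1) ≤ g x ∧ g x ≤ (n : ℝ) + 1} := by
  by_contra hcon
  push Not at hcon
  have : {x | 0 < g x} ⊆ ⋃ n : ℕ, {x | 1 / ((n : ℝ) + 1) ≤ g x ∧ g x ≤ (n : ℝ) + 1} := by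
    intro x hx
    have hx' : 0 < g x := hx
    obtain ⟨n, hn⟩ := exists_nat_one_div_lt hx'
    obtain ⟨m, hm⟩ := exists_nat_gt (g x)
    refine mem_iUnion.2 ⟨max n m, ?_, ?_⟩
    · refine le_trans ?_ hn.le
      apply one_div_le_one_div_of_le (by positivity)
      have : (n : ℝ) ≤ ((max n m : ℕ) : ℝ) := by exact_mod_cast le_max_left n m
      linarith
    · have : (m : ℝ) ≤ ((max n m : ℕ) : ℝ) := by exact_mod_cast le_max_right n m
      linarith
  have h0 : μ (⋃ n : ℕ, {x | 1 / ((n : ℝ) + 1) ≤ g x ∧ g x ≤ (n : ℝ) + 1}) = 0 :=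
    measure_iUnion_null fun n => le_antisymm (hcon n) zero_le
  exact absurd (measure_mono_null this h0) h.ne'

theorem thr_tk {p : ℝ} {G : ℝ → ℝ}
    (hM : ∫⁻ t in Ioi (0 : ℝ), ENNReal.ofReal (t ^ (p - 2) * |G t|) < ⊤) (hp : 1 < p) :
    ∃ K : ℝ, 0 ≤ K ∧ ∀ k : ℕ, ∃ t : ℝ, (2 : ℝ) ^ k ≤ t ∧ t ≤ 2 ^ (k + 1) ∧
      |G t| ≤ K * ((2 : ℝ) ^ (-(p - 1))) ^ k := by
  set J := ∫⁻ t in Ioi (0 : ℝ), ENNReal.ofReal (t ^ (p - 2) * |G t|) with hJ
  set K0 := J.toReal + 1 with hK0
  have hK0pos : 0 < K0 := by positivity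
  refine ⟨2 * K0, by positivity, fun k => ?_⟩
  have h2k : (0 : ℝ) < 2 ^ k := by positivity
  have hex : ∃ t ∈ Icc ((2 : ℝ) ^ k) (2 ^ (k + 1)), t ^ (p - 2) * |G t| ≤ K0 / 2 ^ k := by
    by_contra hcon
    push Not at hcon
    have h1 : ENNReal.ofReal K0 ≤ J := by
      calc ENNReal.ofReal K0 = ENNReal.ofReal (K0 / 2 ^ k) * volume (Icc ((2 : ℝ) ^ k) (2 ^ (k + 1))) := by
            rw [Real.volume_Icc, ← ENNReal.ofReal_mul (by positivity)]
            congr 1
            rw [pow_succ]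
            field_simp
            ring
        _ = ∫⁻ _ in Icc ((2 : ℝ) ^ k) (2 ^ (k + 1)), ENNReal.ofReal (K0 / 2 ^ k) := by
            rw [setLIntegral_const]
        _ ≤ ∫⁻ t in Icc ((2 : ℝ) ^ k) (2 ^ (k + 1)), ENNReal.ofReal (t ^ (p - 2) * |G t|) := by
            apply setLIntegral_mono' measurableSet_Icc
            intro t ht
            exact ENNReal.ofReal_le_ofReal (hcon t ht).le
        _ ≤ J := by
            apply lintegral_mono_set
            intro t ht
            exact lt_of_lt_of_le h2k ht.1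
    have h2 : K0 ≤ J.toReal := by
      rw [← ENNReal.ofReal_le_ofReal_iff ENNReal.toReal_nonneg, ENNReal.ofReal_toReal hM.ne]
      exact h1
    linarith
  obtain ⟨t, ht, hG⟩ := hex
  refine ⟨t, ht.1, ht.2, ?_⟩
  have htpos : 0 < t := lt_of_lt_of_le h2k ht.1
  have hGt : |G t| ≤ K0 / 2 ^ k * t ^ (2 - p) := by
    have h3 : |G t| = t ^ (2 - p) * (t ^ (p - 2) * |G t|) := by
      rw [← mul_assoc, ← Real.rpow_add htpos]
      simp
    rw [h3, mul_comm]
    exact mul_le_mul_of_nonneg_right hG (by positivity)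
  have ht2 : t ^ (2 - p) ≤ 2 * ((2 : ℝ) ^ k) ^ (2 - p) := by
    rcases le_total p 2 with h | h
    · calc t ^ (2 - p) ≤ ((2 : ℝ) ^ (k + 1)) ^ (2 - p) :=
            Real.rpow_le_rpow htpos.le ht.2 (by linarith)
        _ = 2 ^ (2 - p) * ((2 : ℝ) ^ k) ^ (2 - p) := by
            rw [pow_succ, Real.mul_rpow (by positivity) (by positivity), mul_comm]
        _ ≤ 2 * ((2 : ℝ) ^ k) ^ (2 - p) := by
            apply mul_le_mul_of_nonneg_right _ (by positivity)
            calc (2 : ℝ) ^ (2 - p) ≤ 2 ^ (1 : ℝ) :=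
                  Real.rpow_le_rpow_of_exponent_le (by norm_num) (by linarith)
              _ = 2 := Real.rpow_one 2
    · calc t ^ (2 - p) ≤ ((2 : ℝ) ^ k) ^ (2 - p) :=
            Real.rpow_le_rpow_of_nonpos h2k ht.1 (by linarith)
        _ ≤ 2 * ((2 : ℝ) ^ k) ^ (2 - p) := by
            have : 0 < ((2 : ℝ) ^ k) ^ (2 - p) := by positivity
            linarith
  calc |G t| ≤ K0 / 2 ^ k * t ^ (2 - p) := hGt
    _ ≤ K0 / 2 ^ k * (2 * ((2 : ℝ) ^ k) ^ (2 - p)) :=
        mul_le_mul_of_nonneg_left ht2 (by positivity)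
    _ = 2 * K0 * ((2 : ℝ) ^ (-(p - 1))) ^ k := by
        rw [← Real.rpow_natCast ((2 : ℝ) ^ (-(p - 1))) k, ← Real.rpow_mul (by norm_num),
          ← Real.rpow_natCast (2 : ℝ) k, ← Real.rpow_mul (by norm_num)]
        have : (2 : ℝ) ^ (-(p - 1) * (k : ℝ)) = (2 : ℝ) ^ ((k : ℝ) * (2 - p)) / (2 : ℝ) ^ (k : ℝ) := by
          rw [← Real.rpow_sub (by norm_num)]
          congr 1
          ring
        rw [this]
        ring

theorem thresholds (p : ℝ) (hp : 1 < p) (f : ℝ → ℝ) (hf : Measurable f) (hfi : Integrable f mu1)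
    (hM : ∫⁻ t in Ioi (0 : ℝ), ENNReal.ofReal
      (t ^ (p - 2) * |∫ x, (if t < |f x| then f x else 0) ∂mu1|) < ⊤)
    (hne : ¬ ∃ c : ℝ, ∀ᵐ x ∂mu1, f x = c) {ε : ℝ} (hε : 0 < ε) :
    ∃ (c κ M e : ℝ) (B : ℕ → ℝ) (E : ℕ → Set ℝ), 0 < κ ∧ (0 < e ∧ e < 1) ∧ κ ≤ B 0 ∧ M ≤ B 0 ∧
      Monotone B ∧ (∀ j, B j ≤ B 0 * 2 ^ j) ∧ (∀ k, MeasurableSet (E k)) ∧
      (∀ i j, i ≠ j → Disjoint (E i) (E j)) ∧
      (∀ k, ∀ x ∈ E k, |f x - c| ≤ B k) ∧ (∀ k, ∀ x ∈ E k, M < |f x - c|) ∧
      (∀ x, (∀ k, x ∉ E k) → |f x - c| ≤ B 0) ∧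
      0 < mu1 {x | κ ≤ f x - c ∧ f x - c ≤ M} ∧ 0 < mu1 {x | κ ≤ -(f x - c) ∧ -(f x - c) ≤ M} ∧
      (Summable fun k => B k * (mu1 (E k)).toReal) ∧
      (Summable fun k => |∫ x in E k, (f x - c) ∂mu1| * (mu1 (E k)).toReal ^ (e - 1)) ∧
      (∀ n, ∑ k ∈ Finset.range n, (mu1 (E k)).toReal ≤ ε) := by
  haveI : IsFiniteMeasure mu1 := by unfold mu1; infer_instance
  have hU : mu1 univ ≠ 0 := by
    unfold mu1
    rw [Measure.restrict_apply_univ, Real.volume_Icc]
    simp
  obtain ⟨c, hc1, hc2⟩ := thr_mid hU hne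
  have hc1' : 0 < mu1 {x | 0 < f x - c} := by
    simpa only [sub_pos] using hc1
  have hc2' : 0 < mu1 {x | 0 < -(f x - c)} := by
    have : {x | 0 < -(f x - c)} = {x | f x < c} := by
      ext x
      simp only [mem_ofPred_eq]
      constructor <;> intro h <;> linarith
    rw [this]
    exact hc2
  obtain ⟨n1, hn1⟩ := thr_side (g := fun x => f x - c) hc1'
  obtain ⟨n2, hn2⟩ := thr_side (g := fun x => -(f x - c)) hc2'
  set N : ℕ := max n1 n2 with hN
  set κ : ℝ := 1 / ((N : ℝ) + 1) with hκ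
  set M : ℝ := (N : ℝ) + 1 with hMd
  have hN1 : (n1 : ℝ) ≤ N := by exact_mod_cast le_max_left n1 n2
  have hN2 : (n2 : ℝ) ≤ N := by exact_mod_cast le_max_right n1 n2
  have hκpos : 0 < κ := by positivity
  have hκ1 : κ ≤ 1 := by
    rw [hκ, div_le_one (by positivity)]
    have : (0 : ℝ) ≤ N := Nat.cast_nonneg N
    linarith
  have hm1 : 0 < mu1 {x | κ ≤ f x - c ∧ f x - c ≤ M} := by
    refine lt_of_lt_of_le hn1 (measure_mono ?_)
    rintro x ⟨hx1, hx2⟩
    refine ⟨le_trans ?_ hx1, le_trans hx2 ?_⟩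
    · exact one_div_le_one_div_of_le (by positivity) (by linarith)
    · show (n1 : ℝ) + 1 ≤ M
      rw [hMd]; linarith
  have hm2 : 0 < mu1 {x | κ ≤ -(f x - c) ∧ -(f x - c) ≤ M} := by
    refine lt_of_lt_of_le hn2 (measure_mono ?_)
    rintro x ⟨hx1, hx2⟩
    refine ⟨le_trans ?_ hx1, le_trans hx2 ?_⟩
    · exact one_div_le_one_div_of_le (by positivity) (by linarith)
    · show (n2 : ℝ) + 1 ≤ M
      rw [hMd]; linarith
  -- the good levels
  obtain ⟨K, hK0, hK⟩ := thr_tk hM hp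
  choose t ht1 ht2 ht3 using hK
  set I : ℝ := ∫ x, |f x| ∂mu1 with hI
  have hI0 : 0 ≤ I := integral_nonneg fun x => abs_nonneg _
  have hmark : ∀ a : ℝ, a * mu1.real {x | a ≤ |f x|} ≤ I := fun a =>
    mul_meas_ge_le_integral_of_nonneg (ae_of_all _ fun x => abs_nonneg _) hfi.abs a
  -- choice of k0
  obtain ⟨k0, hk0⟩ : ∃ k0 : ℕ, |c| + M + 1 + I / ε < 2 ^ k0 :=
    pow_unbounded_of_one_lt _ (by norm_num)
  have hcabs := abs_nonneg c
  have hM1 : 1 ≤ M := by
    rw [hMd]
    have : (0 : ℝ) ≤ N := Nat.cast_nonneg N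
    linarith
  have hIε : 0 ≤ I / ε := div_nonneg hI0 hε.le
  set B : ℕ → ℝ := fun k => 2 ^ (k0 + k + 3) with hB
  set E : ℕ → Set ℝ := fun k => {x | t (k0 + k) < |f x| ∧ |f x| ≤ t (k0 + k + 1)} with hE
  have hmt : ∀ k, t k ≤ t (k + 1) := fun k => (ht2 k).trans (ht1 (k + 1))
  have hmono : Monotone t := monotone_nat_of_le_succ hmt
  have hEm : ∀ k, MeasurableSet (E k) := by
    intro k
    have habs : Measurable fun x => |f x| := hf.abs
    exact (measurableSet_lt measurable_const habs).inter (measurableSet_le habs measurable_const)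
  have hEd : ∀ i j, i ≠ j → Disjoint (E i) (E j) := by
    have key : ∀ i j, i < j → Disjoint (E i) (E j) := by
      intro i j hij
      rw [Set.disjoint_left]
      rintro x ⟨_, hx2⟩ ⟨hx3, _⟩
      have : t (k0 + i + 1) ≤ t (k0 + j) := hmono (by omega)
      linarith
    intro i j hij
    rcases lt_or_gt_of_ne hij with h | h
    · exact key i j h
    · exact (key j i h).symm
  have hp2 : ∀ k : ℕ, (2 : ℝ) ^ k0 ≤ 2 ^ (k0 + k) := fun k =>
    pow_le_pow_right₀ (by norm_num) (by omega)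
  have hEB : ∀ k, ∀ x ∈ E k, |f x - c| ≤ B k := by
    rintro k x ⟨_, hx2⟩
    have h1 : |f x - c| ≤ |f x| + |c| := abs_sub _ _
    have h2 := ht2 (k0 + k + 1)
    have h3 : (2 : ℝ) ^ (k0 + k + 1 + 1) = 4 * 2 ^ (k0 + k) := by ring
    have h4 : B k = 8 * 2 ^ (k0 + k) := by rw [hB]; ring
    have h5 := hp2 k
    rw [h3] at h2
    rw [h4]
    have h6 : (0 : ℝ) < 2 ^ (k0 + k) := by positivity
    linarith
  have hEM : ∀ k, ∀ x ∈ E k, M < |f x - c| := by
    rintro k x ⟨hx1, _⟩
    have h1 : |f x| - |c| ≤ |f x - c| := abs_sub_abs_le_abs_sub _ _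
    have h2 := ht1 (k0 + k)
    have h5 := hp2 k
    linarith
  have hEc : ∀ x, (∀ k, x ∉ E k) → |f x - c| ≤ B 0 := by
    intro x hx
    have hle : |f x| ≤ t k0 := by
      by_contra hcon
      push Not at hcon
      have hex : ∃ k, |f x| ≤ t (k0 + k) := by
        obtain ⟨n, hn⟩ := pow_unbounded_of_one_lt |f x| (by norm_num : (1 : ℝ) < 2)
        exact ⟨n, hn.le.trans ((pow_le_pow_right₀ (by norm_num) (by omega)).trans (ht1 (k0 + n)))⟩
      classical
      have hspec := Nat.find_spec hex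
      have hmin := fun m hm => Nat.find_min hex (m := m) hm
      rcases Nat.eq_zero_or_pos (Nat.find hex) with h0 | h0
      · rw [h0, add_zero] at hspec
        linarith
      · obtain ⟨m, hm⟩ : ∃ m, Nat.find hex = m + 1 := ⟨Nat.find hex - 1, by omega⟩
        have h1 := hmin m (by omega)
        push Not at h1
        rw [hm] at hspec
        exact hx m ⟨h1, hspec⟩
    have h1 : |f x - c| ≤ |f x| + |c| := abs_sub _ _
    have h2 := ht2 k0
    have h3 : (2 : ℝ) ^ (k0 + 1) = 2 * 2 ^ k0 := by ring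
    have h4 : B 0 = 8 * 2 ^ k0 := by rw [hB]; ring
    rw [h3] at h2
    rw [h4]
    have h6 : (0 : ℝ) < 2 ^ k0 := by positivity
    linarith
  have hmon : Monotone B := by
    intro i j hij
    exact pow_le_pow_right₀ (by norm_num) (by omega)
  have hB0 : B 0 = 8 * 2 ^ k0 := by rw [hB]; ring
  have hBj : ∀ j, B j ≤ B 0 * 2 ^ j := by
    intro j
    rw [hB]
    apply le_of_eq
    ring
  have h2k0 : (0 : ℝ) < 2 ^ k0 := by positivity
  -- integrals
  have hEint : ∀ k, 2 ^ (k0 + k) * (mu1 (E k)).toReal ≤ ∫ x in E k, |f x| ∂mu1 := by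
    intro k
    have h1 : ∫ _ in E k, (2 : ℝ) ^ (k0 + k) ∂mu1 ≤ ∫ x in E k, |f x| ∂mu1 := by
      apply setIntegral_mono_on (integrableOn_const (measure_ne_top _ _)) hfi.abs.integrableOn
        (hEm k)
      intro x hx
      exact (ht1 (k0 + k)).trans hx.1.le
    rw [setIntegral_const, smul_eq_mul, mul_comm, measureReal_def] at h1
    exact h1
  have hsumI : Summable fun k => ∫ x in E k, |f x| ∂mu1 := by
    have := hasSum_integral_iUnion (μ := mu1) (f := fun x => |f x|) (s := E) hEm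
      (fun i j hij => hEd i j hij) hfi.abs.integrableOn
    exact this.summable
  have hs1 : Summable fun k => B k * (mu1 (E k)).toReal := by
    refine Summable.of_nonneg_of_le (fun k => ?_) (fun k => ?_) (hsumI.mul_left 8)
    · have : 0 ≤ B k := by rw [hB]; positivity
      positivity
    · have h1 := hEint k
      have h2 : B k = 8 * 2 ^ (k0 + k) := by rw [hB]; ring
      rw [h2, mul_assoc]
      linarith
  have hmk : ∀ k, (mu1 (E k)).toReal ≤ I / 2 ^ (k0 + k) := by
    intro k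
    rw [le_div_iff₀ (by positivity), mul_comm]
    refine (hEint k).trans ?_
    exact setIntegral_le_integral hfi.abs (ae_of_all _ fun x => abs_nonneg _)
  have hs3 : ∀ n, ∑ k ∈ Finset.range n, (mu1 (E k)).toReal ≤ ε := by
    intro n
    rw [← ENNReal.toReal_sum (fun k _ => measure_ne_top _ _),
      ← measure_biUnion_finset (fun i _ j _ hij => hEd i j hij) (fun k _ => hEm k)]
    have hsub : (⋃ k ∈ Finset.range n, E k) ⊆ {x | (2 : ℝ) ^ k0 ≤ |f x|} := by
      intro x hx
      simp only [mem_iUnion] at hx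
      obtain ⟨k, _, hx1, _⟩ := hx
      have h2 := ht1 (k0 + k)
      have h5 := hp2 k
      show (2 : ℝ) ^ k0 ≤ |f x|
      linarith
    have h1 : (mu1 (⋃ k ∈ Finset.range n, E k)).toReal ≤ mu1.real {x | (2 : ℝ) ^ k0 ≤ |f x|} :=
      ENNReal.toReal_mono (measure_ne_top _ _) (measure_mono hsub)
    refine h1.trans ?_
    have h2 := hmark (2 ^ k0)
    have h3 : I ≤ ε * 2 ^ k0 := by
      have h4 : I / ε ≤ 2 ^ k0 := by linarith
      rw [div_le_iff₀ hε] at h4
      linarith
    have h5 : 2 ^ k0 * mu1.real {x | (2 : ℝ) ^ k0 ≤ |f x|} ≤ 2 ^ k0 * ε := by linarith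
    exact le_of_mul_le_mul_left h5 h2k0
  -- the exponent
  set q : ℝ := min (p - 1) 1 with hq
  have hq0 : 0 < q := lt_min (by linarith) one_pos
  have hq1 : q ≤ 1 := min_le_right _ _
  have hqp : q ≤ p - 1 := min_le_left _ _
  set e : ℝ := (1 + 1 / (1 + q)) / 2 with he
  have hinv : 1 / (1 + q) < 1 := by
    rw [div_lt_one (by linarith)]; linarith
  have hinv0 : 0 < 1 / (1 + q) := by positivity
  have he0 : 0 < e := by rw [he]; linarith
  have he1 : e < 1 := by rw [he]; linarith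
  have hep : (1 - e) - q * e < 0 := by
    have h1 : 1 / (1 + q) < e := by rw [he]; linarith
    have h2 : 1 < e * (1 + q) := by
      rwa [div_lt_iff₀ (by linarith)] at h1
    linarith
  set r : ℝ := (2 : ℝ) ^ (-q) with hr
  have hr0 : 0 < r := by positivity
  have hrr : (2 : ℝ) ^ (-(p - 1)) ≤ r :=
    Real.rpow_le_rpow_of_exponent_le (by norm_num) (by linarith)
  have hr1 : r < 1 := Real.rpow_lt_one_of_one_lt_of_neg (by norm_num) (by linarith)
  have hr2 : (1 : ℝ) / 2 ≤ r := by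
    rw [hr]
    calc (1 : ℝ) / 2 = 2 ^ (-(1 : ℝ)) := by rw [Real.rpow_neg_one]; norm_num
      _ ≤ 2 ^ (-q) := Real.rpow_le_rpow_of_exponent_le (by norm_num) (by linarith)
  set G : ℝ → ℝ := fun s => ∫ x, (if s < |f x| then f x else 0) ∂mu1 with hG
  have hGi : ∀ s, Integrable (fun x => if s < |f x| then f x else 0) mu1 := by
    intro s
    have : (fun x => if s < |f x| then f x else 0) = indicator {x | s < |f x|} f := by
      ext x
      simp only [indicator, mem_ofPred_eq]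
    rw [this]
    exact hfi.indicator (measurableSet_lt measurable_const hf.abs)
  have hEG : ∀ k, ∫ x in E k, f x ∂mu1 = G (t (k0 + k)) - G (t (k0 + k + 1)) := by
    intro k
    rw [hG]
    simp only []
    rw [← integral_sub (hGi _) (hGi _), ← integral_indicator (hEm k)]
    congr 1
    ext x
    have hmk := hmt (k0 + k)
    by_cases h1 : t (k0 + k) < |f x|
    · by_cases h2 : t (k0 + k + 1) < |f x|
      · have : x ∉ E k := fun hx => absurd hx.2 (not_le.2 h2)
        rw [indicator_of_notMem this, if_pos h1, if_pos h2, sub_self]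
      · have : x ∈ E k := ⟨h1, not_lt.1 h2⟩
        rw [indicator_of_mem this, if_pos h1, if_neg h2, sub_zero]
    · have h2 : ¬ t (k0 + k + 1) < |f x| := by
        push Not at h1 ⊢
        linarith
      have : x ∉ E k := fun hx => h1 hx.1
      rw [indicator_of_notMem this, if_neg h1, if_neg h2, sub_self]
  set C : ℝ := 2 * K + |c| * I + 1 with hC
  have hC0 : 0 < C := by positivity
  have hX : ∀ k, |∫ x in E k, (f x - c) ∂mu1| ≤ C * r ^ k := by
    intro k
    have h1 : ∫ x in E k, (f x - c) ∂mu1 = G (t (k0 + k)) - G (t (k0 + k + 1)) -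
        (mu1 (E k)).toReal * c := by
      rw [integral_sub hfi.integrableOn (integrableOn_const (measure_ne_top _ _)), hEG,
        setIntegral_const, smul_eq_mul, measureReal_def]
    have hrk : ∀ j, k ≤ j → ((2 : ℝ) ^ (-(p - 1))) ^ j ≤ r ^ k := by
      intro j hj
      calc ((2 : ℝ) ^ (-(p - 1))) ^ j ≤ r ^ j := pow_le_pow_left₀ (by positivity) hrr j
        _ ≤ r ^ k := pow_le_pow_of_le_one hr0.le hr1.le hj
    have h2 : |G (t (k0 + k))| ≤ K * r ^ k :=
      (ht3 (k0 + k)).trans (mul_le_mul_of_nonneg_left (hrk _ (by omega)) hK0)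
    have h3 : |G (t (k0 + k + 1))| ≤ K * r ^ k :=
      (ht3 (k0 + k + 1)).trans (mul_le_mul_of_nonneg_left (hrk _ (by omega)) hK0)
    have h4 : (mu1 (E k)).toReal ≤ I * r ^ k := by
      refine (hmk k).trans ?_
      rw [div_eq_mul_inv]
      apply mul_le_mul_of_nonneg_left _ hI0
      have h5 : (2 ^ (k0 + k) : ℝ)⁻¹ ≤ (1 / 2) ^ k := by
        rw [one_div, inv_pow]
        apply inv_anti₀ (by positivity)
        exact pow_le_pow_right₀ (by norm_num) (by omega)
      exact h5.trans (pow_le_pow_left₀ (by norm_num) hr2 k)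
    have h5 : 0 ≤ (mu1 (E k)).toReal := ENNReal.toReal_nonneg
    rw [h1]
    calc |G (t (k0 + k)) - G (t (k0 + k + 1)) - (mu1 (E k)).toReal * c|
        ≤ |G (t (k0 + k)) - G (t (k0 + k + 1))| + |(mu1 (E k)).toReal * c| := abs_sub _ _
      _ ≤ (|G (t (k0 + k))| + |G (t (k0 + k + 1))|) + (mu1 (E k)).toReal * |c| := by
          rw [abs_mul, abs_of_nonneg h5]
          gcongr
          exact abs_sub _ _
      _ ≤ (K * r ^ k + K * r ^ k) + (I * r ^ k) * |c| := by gcongr
      _ ≤ C * r ^ k := by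
          rw [hC]
          have : 0 < r ^ k := by positivity
          nlinarith
  have hX2 : ∀ k, |∫ x in E k, (f x - c) ∂mu1| ≤ B k * (mu1 (E k)).toReal := by
    intro k
    have := norm_setIntegral_le_of_norm_le_const (μ := mu1) (s := E k) (f := fun x => f x - c)
      (C := B k) (measure_lt_top _ _) (fun x hx => hEB k x hx)
    exact this
  have hs2 : Summable fun k => |∫ x in E k, (f x - c) ∂mu1| * (mu1 (E k)).toReal ^ (e - 1) := by
    set ρ : ℝ := r ^ e * (2 : ℝ) ^ (1 - e) with hρ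
    have hρ0 : 0 ≤ ρ := by positivity
    have hρ1 : ρ < 1 := by
      rw [hρ, hr, ← Real.rpow_mul (by norm_num), ← Real.rpow_add (by norm_num)]
      apply Real.rpow_lt_one_of_one_lt_of_neg (by norm_num)
      linarith
    have hgeo := (summable_geometric_of_lt_one hρ0 hρ1).mul_left (C ^ e * (8 * 2 ^ k0) ^ (1 - e))
    refine Summable.of_nonneg_of_le (fun k => by positivity) (fun k => ?_) hgeo
    set X := |∫ x in E k, (f x - c) ∂mu1| with hXd
    set m := (mu1 (E k)).toReal with hm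
    have hX0 : 0 ≤ X := abs_nonneg _
    have hm0 : 0 ≤ m := ENNReal.toReal_nonneg
    have hRHS : 0 ≤ C ^ e * (8 * 2 ^ k0) ^ (1 - e) * ρ ^ k := by positivity
    rcases hX0.eq_or_lt with h0 | hXpos
    · rw [← h0, zero_mul]
      exact hRHS
    rcases hm0.eq_or_lt with h0 | hmpos
    · rw [← h0, Real.zero_rpow (by linarith), mul_zero]
      exact hRHS
    have hBk : 0 < B k := by rw [hB]; positivity
    have h1 : X * m ^ (e - 1) = X ^ e * (X / m) ^ (1 - e) := by
      rw [Real.div_rpow hX0 hm0, show e - 1 = -(1 - e) by ring, Real.rpow_neg hm0,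
        div_eq_mul_inv, ← mul_assoc, ← Real.rpow_add hXpos]
      simp
    rw [h1]
    have h2 : X ^ e ≤ (C * r ^ k) ^ e := Real.rpow_le_rpow hX0 (hX k) he0.le
    have h3 : (X / m) ^ (1 - e) ≤ (B k) ^ (1 - e) := by
      apply Real.rpow_le_rpow (by positivity) _ (by linarith)
      rw [div_le_iff₀ hmpos]
      exact hX2 k
    calc X ^ e * (X / m) ^ (1 - e) ≤ (C * r ^ k) ^ e * (B k) ^ (1 - e) :=
          mul_le_mul h2 h3 (by positivity) (by positivity)
      _ = C ^ e * (8 * 2 ^ k0) ^ (1 - e) * ρ ^ k := by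
          have hBk2 : B k = (8 * 2 ^ k0) * 2 ^ k := by rw [hB]; ring
          rw [hBk2, Real.mul_rpow hC0.le (by positivity),
            Real.mul_rpow (by positivity) (by positivity), hρ, mul_pow]
          have e1 : (r ^ k) ^ e = (r ^ e) ^ k := by
            rw [← Real.rpow_natCast r k, ← Real.rpow_mul hr0.le, ← Real.rpow_natCast (r ^ e) k,
              ← Real.rpow_mul hr0.le, mul_comm]
          have e2 : ((2 : ℝ) ^ k) ^ (1 - e) = ((2 : ℝ) ^ (1 - e)) ^ k := by
            rw [← Real.rpow_natCast 2 k, ← Real.rpow_mul (by norm_num),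
              ← Real.rpow_natCast ((2 : ℝ) ^ (1 - e)) k, ← Real.rpow_mul (by norm_num), mul_comm]
          rw [e1, e2]
          ring
  refine ⟨c, κ, M, e, B, E, hκpos, ⟨he0, he1⟩, ?_, ?_, hmon, hBj, hEm, hEd, hEB, hEM, hEc, hm1, hm2,
    hs1, hs2, hs3⟩
  · rw [hB0]
    linarith
  · rw [hB0]
    linarith

end Pool.Agent.Helper187.Leg.M1
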