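import Pool.Agent.Helper187.Leg.Norm

open MeasureTheory Set Real Filter Topology
open scoped ENNReal

namespace Pool.Agent.Helper187.Leg.O1

open Pool.Agent.Helper187.Leg



/-! ### auxiliary lemmas for TARGET -/

theorem QQ_abs_le {δ : ℝ} (hδ : 0 < δ) (v : ℝ) : |QQ δ v| ≤ |v| ∧ |v - QQ δ v| < δ := by
  unfold QQ
  split_ifs with h
  · have h1 : (0:ℝ) ≤ ⌊v / δ⌋ := by
      exact_mod_cast Int.floor_nonneg.2 (div_nonneg h hδ.le)
    have h2 : δ * ⌊v / δ⌋ ≤ v := by
      have := Int.floor_le (v / δ)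
      rw [le_div_iff₀ hδ] at this
      linarith
    have h3 : v < δ * ⌊v / δ⌋ + δ := by
      have := Int.lt_floor_add_one (v / δ)
      rw [div_lt_iff₀ hδ] at this
      linarith
    rw [abs_of_nonneg (mul_nonneg hδ.le h1), abs_of_nonneg h, abs_of_nonneg (by linarith)]
    constructor <;> linarith
  · push Not at h
    have h0 : 0 ≤ -v := by linarith
    have h1 : (0:ℝ) ≤ ⌊-v / δ⌋ := by
      exact_mod_cast Int.floor_nonneg.2 (div_nonneg h0 hδ.le)
    have h2 : δ * ⌊-v / δ⌋ ≤ -v := by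
      have := Int.floor_le (-v / δ)
      rw [le_div_iff₀ hδ] at this
      linarith
    have h3 : -v < δ * ⌊-v / δ⌋ + δ := by
      have := Int.lt_floor_add_one (-v / δ)
      rw [div_lt_iff₀ hδ] at this
      linarith
    rw [abs_neg, abs_of_nonneg (mul_nonneg hδ.le h1), abs_of_neg h, abs_of_nonpos (by linarith)]
    constructor <;> linarith

theorem QQ_meas (δ : ℝ) : Measurable (QQ δ) := by
  unfold QQ
  refine Measurable.ite measurableSet_Ici ?_ ?_
  · exact ((measurable_from_top (f := fun k : ℤ => (k : ℝ))).comp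
      (Int.measurable_floor.comp (measurable_id.div_const δ))).const_mul δ
  · exact (((measurable_from_top (f := fun k : ℤ => (k : ℝ))).comp
      (Int.measurable_floor.comp (measurable_neg.div_const δ))).const_mul δ).neg

theorem QQ_mem {δ : ℝ} (hδ : 0 < δ) (v : ℝ) : ∃ k : ℤ, QQ δ v = δ * k := by
  unfold QQ
  split_ifs with h
  · exact ⟨_, rfl⟩
  · exact ⟨-⌊-v / δ⌋, by push_cast; ring⟩

theorem fin_val_vol {D : Set ℝ} (hD : MeasurableSet D) {u : ℝ → ℝ} (hu : Measurable u)
    (V : Finset ℝ) (h : ∀ᵐ x ∂volume.restrict D, u x ∈ V) :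
    volume D = ∑ v ∈ V, volume (D ∩ u ⁻¹' {v}) := by
  have h1 : volume D = volume (⋃ v ∈ V, (D ∩ u ⁻¹' {v})) := by
    apply measure_congr
    rw [ae_restrict_iff' hD] at h
    filter_upwards [h] with x hx
    apply propext
    show x ∈ D ↔ x ∈ (⋃ v ∈ V, (D ∩ u ⁻¹' {v}))
    simp only [mem_iUnion, mem_inter_iff, mem_preimage, mem_singleton_iff, exists_prop]
    constructor
    · intro hxD
      exact ⟨u x, hx hxD, hxD, rfl⟩
    · rintro ⟨v, hv, hxD, _⟩
      exact hxD
  rw [h1, measure_biUnion_finset]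
  · intro v _ w _ hvw
    apply disjoint_left.2
    rintro x ⟨_, hx1⟩ ⟨_, hx2⟩
    exact hvw (hx1.symm.trans hx2)
  · intro v _
    exact hD.inter (hu (measurableSet_singleton v))

theorem fin_val_ae {D : Set ℝ} (hD : MeasurableSet D) (hfin : volume D ≠ ⊤) {u : ℝ → ℝ}
    (hu : Measurable u) (V : Finset ℝ) (h : volume D = ∑ v ∈ V, volume (D ∩ u ⁻¹' {v})) :
    ∀ᵐ x ∂volume.restrict D, u x ∈ V := by
  have hm : MeasurableSet (⋃ v ∈ V, (D ∩ u ⁻¹' {v})) :=
    Finset.measurableSet_biUnion V fun v _ => hD.inter (hu (measurableSet_singleton v))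
  have hsub : (⋃ v ∈ V, (D ∩ u ⁻¹' {v})) ⊆ D := by
    intro x hx
    simp only [mem_iUnion, mem_inter_iff, exists_prop] at hx
    obtain ⟨v, _, hxD, _⟩ := hx
    exact hxD
  have h1 : volume (⋃ v ∈ V, (D ∩ u ⁻¹' {v})) = volume D := by
    rw [h, measure_biUnion_finset]
    · intro v _ w _ hvw
      apply disjoint_left.2
      rintro x ⟨_, hx1⟩ ⟨_, hx2⟩
      exact hvw (hx1.symm.trans hx2)
    · intro v _
      exact hD.inter (hu (measurableSet_singleton v))
  have h2 : volume (D \ ⋃ v ∈ V, (D ∩ u ⁻¹' {v})) = 0 := by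
    rw [measure_sdiff hsub hm.nullMeasurableSet (by rw [h1]; exact hfin), h1, tsub_self]
  rw [ae_restrict_iff' hD, ae_iff]
  apply measure_mono_null _ h2
  intro x hx
  simp only [mem_setOf_eq, Classical.not_imp] at hx
  refine ⟨hx.1, ?_⟩
  intro hx2
  simp only [mem_iUnion, mem_inter_iff, mem_preimage, mem_singleton_iff, exists_prop] at hx2
  obtain ⟨v, hv, _, h3⟩ := hx2
  exact hx.2 (h3 ▸ hv)

theorem fin_val_int {D : Set ℝ} (hD : MeasurableSet D) (hfin : volume D ≠ ⊤) {u : ℝ → ℝ}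
    (hu : Measurable u) (V : Finset ℝ) (h : ∀ᵐ x ∂volume.restrict D, u x ∈ V) :
    ∫ x in D, u x = ∑ v ∈ V, v * (volume (D ∩ u ⁻¹' {v})).toReal := by
  haveI : IsFiniteMeasure (volume.restrict D) := ⟨by
    rw [Measure.restrict_apply_univ]; exact lt_top_iff_ne_top.2 hfin⟩
  have h1 : ∫ x in D, u x = ∫ x in D, ∑ v ∈ V, (u ⁻¹' {v}).indicator (fun _ => v) x := by
    apply integral_congr_ae
    filter_upwards [h] with x hx
    rw [Finset.sum_eq_single (u x)]
    · rw [indicator_of_mem (by simp)]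
    · intro v _ hv
      rw [indicator_of_notMem]
      intro h2
      exact hv h2.symm
    · intro h2
      exact absurd hx h2
  rw [h1, integral_finsetSum]
  · apply Finset.sum_congr rfl
    intro v _
    rw [integral_indicator (hu (measurableSet_singleton v)), setIntegral_const, smul_eq_mul, mul_comm]
    congr 1
    rw [Measure.real, Measure.restrict_apply (hu (measurableSet_singleton v)), inter_comm]
  · intro v _
    exact (integrable_const v).indicator (hu (measurableSet_singleton v))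

theorem pat_meas {m : ℕ} (g : ℝ) (c a : Fin m → ℝ) : Measurable (pat g c a) := by
  unfold pat
  apply Measurable.const_add
  apply Finset.measurable_sum
  intro k _
  exact Measurable.ite measurableSet_Ici measurable_const measurable_const

theorem pat_int {m : ℕ} (g : ℝ) (c a : Fin m → ℝ) (ha : ∀ k, 0 ≤ a k ∧ a k ≤ 1) :
    ∫ s in Ico (0:ℝ) 1, pat g c a s = g + ∑ k, c k * (1 - a k) := by
  unfold pat
  have hfin : IsFiniteMeasure (volume.restrict (Ico (0:ℝ) 1)) := ⟨by simp⟩
  have h1 : ∀ k : Fin m, ∀ s : ℝ, (if a k ≤ s then c k else 0) =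
      (Ici (a k)).indicator (fun _ => c k) s := by
    intro k s
    by_cases h : a k ≤ s
    · rw [if_pos h, indicator_of_mem (mem_Ici.2 h)]
    · rw [if_neg h, indicator_of_notMem (fun h2 => h (mem_Ici.1 h2))]
  have hI : ∀ k : Fin m, Integrable (fun s => if a k ≤ s then c k else 0)
      (volume.restrict (Ico (0:ℝ) 1)) := by
    intro k
    simp_rw [h1 k]
    exact (integrable_const _).indicator measurableSet_Ici
  rw [integral_add (integrable_const g) (integrable_finsetSum _ fun k _ => hI k),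
    integral_finsetSum _ (fun k _ => hI k)]
  congr 1
  · simp
  · apply Finset.sum_congr rfl
    intro k _
    simp_rw [h1 k]
    rw [integral_indicator measurableSet_Ici, setIntegral_const, smul_eq_mul, Measure.real,
      Measure.restrict_apply measurableSet_Ici]
    have h2 : Ici (a k) ∩ Ico 0 1 = Ico (a k) 1 := by
      ext s
      simp only [mem_inter_iff, mem_Ici, mem_Ico]
      constructor
      · rintro ⟨h3, h4, h5⟩
        exact ⟨h3, h5⟩
      · rintro ⟨h3, h5⟩
        exact ⟨h3, (ha k).1.trans h3, h5⟩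
    rw [h2, Real.volume_Ico, ENNReal.toReal_ofReal (by linarith [(ha k).2])]
    ring

/-! ### TARGET -/

theorem op1
    (sortedPattern : ∀ (V : Finset ℝ), V.Nonempty → ∀ (p : ℝ → ℝ), (∀ v, 0 ≤ p v) →
      (∀ v, v ∉ V → p v = 0) → ∀ (L : ℝ), ∑ v ∈ V, p v = L → ∀ (lo hi : ℝ),
      (∀ v ∈ V, lo ≤ v) → (∀ v ∈ V, v ≤ hi) →
      ∃ (m : ℕ) (g : ℝ) (c a : Fin m → ℝ), lo ≤ g ∧ (∀ k, 0 ≤ c k) ∧ g + ∑ k, c k ≤ hi ∧
        (∀ k, 0 ≤ a k ∧ a k ≤ L) ∧
        ∀ v, volume (Ico 0 L ∩ (pat g c a) ⁻¹' {v}) = ENNReal.ofReal (p v))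
    (match_on : ∀ (D : Set ℝ), MeasurableSet D → ∀ (u w : ℝ → ℝ), Measurable u → Measurable w →
      ∀ (V : Finset ℝ), (∀ᵐ x ∂mu1, x ∈ D → u x ∈ V) → (∀ᵐ x ∂mu1, x ∈ D → w x ∈ V) →
      (∀ v, mu1 (D ∩ u ⁻¹' {v}) = mu1 (D ∩ w ⁻¹' {v})) →
      ∃ τ : MPI mu1, (∀ᵐ x ∂mu1, x ∈ D → τ.f x ∈ D ∧ u (τ.f x) = w x) ∧
        (∀ᵐ x ∂mu1, x ∉ D → τ.f x = x) ∧ (∀ᵐ x ∂mu1, x ∈ D → u x = w x → τ.f x = x))
    (blockThm : ∃ C : ℝ, 0 < C ∧ ∀ (A B : ℝ), -1 < A → A < B → B < 1 →
      ∀ (m : ℕ) (g : ℝ) (c a : Fin m → ℝ) (η : ℝ), 0 < η → η ≤ 1 →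
      (∀ k, 1 - η ≤ a k ∧ a k ≤ 1) → g + ∑ k, c k * (1 - a k) = 0 → ∀ τ : ℝ, 0 < τ →
      ∃ h : ℝ → ℝ, StepOn (Ico A B) h ∧
        (∀ v, volume (Ico A B ∩ h ⁻¹' {v})
          = ENNReal.ofReal (B - A) * volume (Ico 0 1 ∩ (pat g c a) ⁻¹' {v})) ∧
        NN h ≤ ENNReal.ofReal (C * (B - A) * (|g| + (∑ k, |c k|) * √η) + τ)) :
    ∃ C : ℝ, 0 < C ∧ ∀ (F : ℝ → ℝ), Measurable F → ∀ (a b B δ : ℝ), -1 < a → a ≤ b →
      b < 1 → 0 < δ → 0 ≤ B → (∀ᵐ x ∂mu1, x ∈ Ico a b → |F x| ≤ B) → ∀ τ : ℝ, 0 < τ →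
      ∃ (ω : MPI mu1) (h : ℝ → ℝ), StepOn (Ico a b) h ∧
        (∀ᵐ x ∂mu1, x ∉ Ico a b → ω.f x = x) ∧
        (∀ᵐ x ∂mu1, x ∈ Ico a b → ω.f x ∈ Ico a b ∧ QQ δ (F (ω.f x)) = h x) ∧
        NN h ≤ ENNReal.ofReal (C * B * (b - a) + τ) +
          ENNReal.ofReal (|∫ x in a..b, F x| / (b - a) + δ) * NN ((Ico a b).indicator 1) := by
  classical
  obtain ⟨C, hC, hblock⟩ := blockThm
  refine ⟨4 * C, by linarith, ?_⟩
  intro F hF a b B δ ha hab hb hδ hB hFB τ hτ
  rcases hab.eq_or_lt with rfl | hab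
  · refine ⟨⟨id, id, MeasurePreserving.id _, MeasurePreserving.id _, ?_, ?_⟩, fun _ => 0,
      ?_, ?_, ?_, ?_⟩
    · exact Eventually.of_forall fun x => rfl
    · exact Eventually.of_forall fun x => rfl
    · rw [Ico_self]
      exact StepOn.empty
    · exact Eventually.of_forall fun x _ => rfl
    · refine Eventually.of_forall fun x hx => ?_
      rw [Ico_self] at hx
      exact hx.elim
    · rw [NN_zero]
      exact zero_le
  have hba : 0 < b - a := by linarith
  set D : Set ℝ := Ico a b with hDdef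
  have hDm : MeasurableSet D := measurableSet_Ico
  have hDvol : volume D = ENNReal.ofReal (b - a) := Real.volume_Ico
  have hDfin : volume D ≠ ⊤ := by rw [hDvol]; exact ENNReal.ofReal_ne_top
  have hDsub : D ⊆ Icc (-1) 1 := fun x hx => ⟨ha.le.trans hx.1, hx.2.le.trans hb.le⟩
  haveI hfinD : IsFiniteMeasure (volume.restrict D) := ⟨by
    rw [Measure.restrict_apply_univ]; exact lt_top_iff_ne_top.2 hDfin⟩
  -- transfer between mu1 and volume.restrict D
  have htr : ∀ P : ℝ → Prop, (∀ᵐ x ∂mu1, x ∈ D → P x) ↔ ∀ᵐ x ∂volume.restrict D, P x := by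
    intro P
    rw [mu1, ae_restrict_iff' measurableSet_Icc, ae_restrict_iff' hDm]
    constructor
    · intro h
      filter_upwards [h] with x hx hxD
      exact hx (hDsub hxD) hxD
    · intro h
      filter_upwards [h] with x hx _ hxD
      exact hx hxD
  have hmu : ∀ S : Set ℝ, MeasurableSet S → mu1 (D ∩ S) = volume (D ∩ S) := by
    intro S hS
    rw [mu1, Measure.restrict_apply (hDm.inter hS)]
    congr 1
    exact inter_eq_left.2 (inter_subset_left.trans hDsub)
  have hFB' : ∀ᵐ x ∂volume.restrict D, |F x| ≤ B := (htr _).1 hFB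
  set u : ℝ → ℝ := fun x => QQ δ (F x) with hu
  have hum : Measurable u := (QQ_meas δ).comp hF
  -- the values
  set K : ℤ := ⌊B / δ⌋ with hK
  set V : Finset ℝ := (Finset.Icc (-K) K).image (fun k : ℤ => δ * (k : ℝ)) with hV
  have hKB : δ * (K : ℝ) ≤ B := by
    have := Int.floor_le (B / δ)
    rw [le_div_iff₀ hδ] at this
    linarith
  have hVb : ∀ v ∈ V, |v| ≤ B := by
    intro v hv
    rw [hV, Finset.mem_image] at hv
    obtain ⟨k, hk, rfl⟩ := hv
    rw [Finset.mem_Icc] at hk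
    have h1 : |(k : ℝ)| ≤ K := by
      rw [abs_le]
      constructor
      · exact_mod_cast hk.1
      · exact_mod_cast hk.2
    rw [abs_mul, abs_of_pos hδ]
    calc δ * |(k:ℝ)| ≤ δ * K := by gcongr
      _ ≤ B := hKB
  have huV : ∀ᵐ x ∂volume.restrict D, u x ∈ V := by
    filter_upwards [hFB'] with x hx
    obtain ⟨k, hk⟩ := QQ_mem hδ (F x)
    have h1 := (QQ_abs_le hδ (F x)).1
    have h2 : |δ * (k : ℝ)| ≤ B := by
      rw [← hk]; exact h1.trans hx
    rw [abs_mul, abs_of_pos hδ] at h2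
    have h3 : |(k:ℝ)| ≤ B / δ := by
      rw [le_div_iff₀ hδ]; linarith
    have h4 := abs_le.1 h3
    rw [hV, Finset.mem_image]
    refine ⟨k, ?_, ?_⟩
    · rw [Finset.mem_Icc]
      constructor
      · have : -k ≤ K := by
          rw [hK, Int.le_floor]
          push_cast
          linarith [h4.1]
        omega
      · rw [hK, Int.le_floor]
        exact h4.2
    · show δ * (k:ℝ) = QQ δ (F x)
      exact hk.symm
  have hVne : V.Nonempty := by
    refine ⟨δ * ((0:ℤ) : ℝ), ?_⟩
    rw [hV, Finset.mem_image]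
    refine ⟨0, ?_, rfl⟩
    rw [Finset.mem_Icc]
    have : 0 ≤ K := Int.floor_nonneg.2 (div_nonneg hB hδ.le)
    omega
  set p : ℝ → ℝ := fun v => (volume (D ∩ u ⁻¹' {v})).toReal with hp
  have hpfin : ∀ v, volume (D ∩ u ⁻¹' {v}) ≠ ⊤ := fun v =>
    ne_top_of_le_ne_top hDfin (measure_mono inter_subset_left)
  have hp0 : ∀ v, 0 ≤ p v := fun v => ENNReal.toReal_nonneg
  have hpV : ∀ v, v ∉ V → p v = 0 := by
    intro v hv
    have h1 : volume (D ∩ u ⁻¹' {v}) = 0 := by
      rw [ae_restrict_iff' hDm, ae_iff] at huV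
      apply measure_mono_null _ huV
      intro x hx
      simp only [mem_setOf_eq, Classical.not_imp]
      refine ⟨hx.1, ?_⟩
      have h2 : u x = v := hx.2
      rw [h2]
      exact hv
    rw [hp]
    simp only
    rw [h1]
    rfl
  have hpsum : ∑ v ∈ V, p v = b - a := by
    have h1 := fin_val_vol hDm hum V huV
    rw [hDvol] at h1
    have h2 : (ENNReal.ofReal (b - a)).toReal = (∑ v ∈ V, volume (D ∩ u ⁻¹' {v})).toReal := by
      rw [h1]
    rw [ENNReal.toReal_ofReal hba.le, ENNReal.toReal_sum (fun v _ => hpfin v)] at h2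
    exact h2.symm
  have hpsum1 : ∑ v ∈ V, p v / (b - a) = 1 := by
    rw [← Finset.sum_div, hpsum, div_self hba.ne']
  obtain ⟨m, g0, c, al, hg0, hc0, hgc, hal, hlev⟩ := sortedPattern V hVne (fun v => p v / (b - a))
    (fun v => div_nonneg (hp0 v) hba.le) (fun v hv => by rw [hpV v hv, zero_div]) 1 hpsum1
    (-B) B (fun v hv => (abs_le.1 (hVb v hv)).1) (fun v hv => (abs_le.1 (hVb v hv)).2)
  set mm : ℝ := (∫ x in D, u x) / (b - a) with hmm
  have hmm1 : mm = ∑ v ∈ V, v * (p v / (b - a)) := by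
    rw [hmm, fin_val_int hDm hDfin hum V huV, Finset.sum_div]
    apply Finset.sum_congr rfl
    intro v _
    rw [mul_div_assoc]
  -- the mean of the pattern
  have hpatm := pat_meas g0 c al
  have hpatV : ∀ᵐ x ∂volume.restrict (Ico (0:ℝ) 1), pat g0 c al x ∈ V := by
    apply fin_val_ae measurableSet_Ico (by simp) hpatm
    simp_rw [hlev]
    rw [← ENNReal.ofReal_sum_of_nonneg (fun v _ => div_nonneg (hp0 v) hba.le), hpsum1]
    simp
  have hmm2 : mm = g0 + ∑ k, c k * (1 - al k) := by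
    rw [← pat_int g0 c al hal, fin_val_int measurableSet_Ico (by simp) hpatm V hpatV, hmm1]
    apply Finset.sum_congr rfl
    intro v _
    rw [hlev, ENNReal.toReal_ofReal (div_nonneg (hp0 v) hba.le)]
  have hmmB : |mm| ≤ B := by
    rw [hmm1]
    calc |∑ v ∈ V, v * (p v / (b - a))| ≤ ∑ v ∈ V, |v * (p v / (b - a))| :=
          Finset.abs_sum_le_sum_abs _ _
      _ ≤ ∑ v ∈ V, B * (p v / (b - a)) := by
          apply Finset.sum_le_sum
          intro v hv
          rw [abs_mul, abs_of_nonneg (div_nonneg (hp0 v) hba.le)]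
          exact mul_le_mul_of_nonneg_right (hVb v hv) (div_nonneg (hp0 v) hba.le)
      _ = B := by rw [← Finset.mul_sum, hpsum1, mul_one]
  obtain ⟨h0, h0s, h0l, h0N⟩ := hblock a b ha hab hb m (g0 - mm) c al 1 one_pos le_rfl
    (fun k => ⟨by linarith [(hal k).1], (hal k).2⟩) (by rw [hmm2]; ring) τ hτ
  set h : ℝ → ℝ := D.indicator (fun x => h0 x + mm) with hh
  have hs : StepOn D h := h0s.map_const (fun y => y + mm)
  have hhm : Measurable h := hs.meas
  have hlevh : ∀ v, volume (D ∩ h ⁻¹' {v}) = volume (D ∩ u ⁻¹' {v}) := by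
    intro v
    have e1 : D ∩ h ⁻¹' {v} = D ∩ h0 ⁻¹' {v - mm} := by
      ext x
      simp only [mem_inter_iff, mem_preimage, mem_singleton_iff]
      constructor
      · rintro ⟨hx, h2⟩
        rw [hh, indicator_of_mem hx] at h2
        exact ⟨hx, by linarith⟩
      · rintro ⟨hx, h2⟩
        refine ⟨hx, ?_⟩
        rw [hh, indicator_of_mem hx, h2]
        ring
    have e2 : (pat (g0 - mm) c al) ⁻¹' {v - mm} = (pat g0 c al) ⁻¹' {v} := by
      ext s
      simp only [mem_preimage, mem_singleton_iff, pat]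
      constructor
      · intro h2; linarith
      · intro h2; linarith
    rw [e1, h0l, e2, hlev, ← ENNReal.ofReal_mul hba.le, mul_div_cancel₀ _ hba.ne']
    exact ENNReal.ofReal_toReal (hpfin v)
  have hhV : ∀ᵐ x ∂volume.restrict D, h x ∈ V := by
    apply fin_val_ae hDm hDfin hhm
    simp_rw [hlevh]
    exact fin_val_vol hDm hum V huV
  obtain ⟨ω, hω1, hω2, -⟩ := match_on D hDm u h hum hhm V ((htr _).2 huV) ((htr _).2 hhV) (by
    intro v
    rw [hmu _ (hum (measurableSet_singleton v)), hmu _ (hhm (measurableSet_singleton v)), hlevh])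
  refine ⟨ω, h, hs, hω2, hω1, ?_⟩
  -- the estimate
  have hFint : Integrable F (volume.restrict D) :=
    Integrable.mono' (g := fun _ => B) (integrable_const B) hF.aestronglyMeasurable (by
      filter_upwards [hFB'] with x hx
      rwa [Real.norm_eq_abs])
  have huint : Integrable u (volume.restrict D) :=
    Integrable.mono' (g := fun _ => B) (integrable_const B) hum.aestronglyMeasurable (by
      filter_upwards [hFB'] with x hx
      rw [Real.norm_eq_abs]
      exact ((QQ_abs_le hδ (F x)).1).trans hx)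
  have hFI : ∫ x in a..b, F x = ∫ x in D, F x := by
    rw [intervalIntegral.integral_of_le hab.le, hDdef, integral_Ico_eq_integral_Ioc]
  have hdiff : |(∫ x in D, u x) - ∫ x in D, F x| ≤ δ * (b - a) := by
    rw [← integral_sub huint hFint]
    have h1 := norm_integral_le_of_norm_le_const (μ := volume.restrict D)
      (f := fun x => u x - F x) (C := δ) (by
        refine Eventually.of_forall fun x => ?_
        rw [Real.norm_eq_abs, abs_sub_comm]
        exact (QQ_abs_le hδ (F x)).2.le)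
    rw [Real.norm_eq_abs] at h1
    refine h1.trans (le_of_eq ?_)
    rw [Measure.real, Measure.restrict_apply_univ, hDvol, ENNReal.toReal_ofReal hba.le]
  have hmmle : |mm| ≤ |∫ x in a..b, F x| / (b - a) + δ := by
    rw [hmm, abs_div, abs_of_pos hba, hFI]
    have h1 : |∫ x in D, u x| ≤ |∫ x in D, F x| + δ * (b - a) := by
      have := abs_sub_abs_le_abs_sub (∫ x in D, u x) (∫ x in D, F x)
      linarith
    rw [div_add' _ _ _ hba.ne', div_le_div_iff_of_pos_right hba]
    exact h1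
  have hsplit : h = fun x => h0 x + mm * D.indicator 1 x := by
    funext x
    by_cases hx : x ∈ D
    · rw [hh, indicator_of_mem hx, indicator_of_mem hx]
      simp
    · rw [hh, indicator_of_notMem hx, indicator_of_notMem hx]
      obtain ⟨_, _, _, _, _, _, _, _, _, _, h0z⟩ := h0s
      rw [h0z x hx]
      simp
  calc NN h ≤ NN h0 + NN (fun x => mm * D.indicator 1 x) := by
        rw [hsplit]
        exact NN_add h0s.ii ((ind_ii a b).const_mul mm)
    _ = NN h0 + ‖mm‖ₑ * NN (D.indicator 1) := by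
        rw [NN_const_mul mm (ind_ii a b)]
    _ ≤ _ := by
        gcongr
        · refine h0N.trans (ENNReal.ofReal_le_ofReal ?_)
          have h1 : |g0 - mm| ≤ 2 * B := by
            have hg : g0 ≤ B := by
              have : 0 ≤ ∑ k, c k := Finset.sum_nonneg fun k _ => hc0 k
              linarith
            have := abs_le.1 hmmB
            rw [abs_le]
            constructor <;> linarith
          have h2 : ∑ k, |c k| ≤ 2 * B := by
            have e : ∑ k, |c k| = ∑ k, c k := Finset.sum_congr rfl fun k _ => abs_of_nonneg (hc0 k)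
            rw [e]
            linarith
          rw [Real.sqrt_one, mul_one]
          have h3 : C * (b - a) * (|g0 - mm| + ∑ k, |c k|) ≤ C * (b - a) * (4 * B) := by
            apply mul_le_mul_of_nonneg_left _ (by positivity)
            linarith
          linarith
        · rw [← ofReal_norm, Real.norm_eq_abs]
          exact ENNReal.ofReal_le_ofReal hmmle

end Pool.Agent.Helper187.Leg.O1
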