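import Pool.Agent.Helper187.Leg.Norm

open MeasureTheory Set Real Filter Topology
open scoped ENNReal

namespace Pool.Agent.Helper187.Leg.O2

open Pool.Agent.Helper187.Leg





/-! ### helper lemmas for O2 -/

theorem QQ_neg' (δ v : ℝ) : QQ δ (-v) = -QQ δ v := by
  unfold QQ
  rcases lt_trichotomy v 0 with h | h | h
  · rw [if_pos (by linarith), if_neg (by linarith)]; ring
  · subst h; simp
  · rw [if_neg (by linarith), if_pos h.le, neg_neg]

theorem QQ_pos_facts {δ v : ℝ} (hδ : 0 < δ) (hv : 0 ≤ v) :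
    0 ≤ QQ δ v ∧ QQ δ v ≤ v ∧ v < QQ δ v + δ := by
  unfold QQ
  rw [if_pos hv]
  have h1 : (⌊v / δ⌋ : ℝ) ≤ v / δ := Int.floor_le _
  have h2 : v / δ < ⌊v / δ⌋ + 1 := Int.lt_floor_add_one _
  have h3 : (0 : ℝ) ≤ ⌊v / δ⌋ := by exact_mod_cast Int.floor_nonneg.2 (div_nonneg hv hδ.le)
  refine ⟨mul_nonneg hδ.le h3, ?_, ?_⟩
  · rw [le_div_iff₀ hδ] at h1; linarith
  · rw [div_lt_iff₀ hδ] at h2; linarith

theorem QQ_neg_facts {δ v : ℝ} (hδ : 0 < δ) (hv : v ≤ 0) :
    QQ δ v ≤ 0 ∧ v ≤ QQ δ v ∧ QQ δ v - δ < v := by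
  have h := QQ_pos_facts hδ (v := -v) (by linarith)
  rw [QQ_neg'] at h
  refine ⟨by linarith, by linarith, by linarith⟩

theorem QQ_abs_le {δ v : ℝ} (hδ : 0 < δ) : |QQ δ v| ≤ |v| := by
  rcases le_total 0 v with h | h
  · have := QQ_pos_facts hδ h
    rw [abs_of_nonneg this.1, abs_of_nonneg h]; exact this.2.1
  · have := QQ_neg_facts hδ h
    rw [abs_of_nonpos this.1, abs_of_nonpos h]; linarith

theorem QQ_QQ {δ : ℝ} (hδ : 0 < δ) {m : ℕ} (hm : 0 < m) (v : ℝ) :
    QQ δ (QQ (δ / m) v) = QQ δ v := by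
  have hm' : (0 : ℝ) < m := by exact_mod_cast hm
  have hd : 0 < δ / m := div_pos hδ hm'
  have key : ∀ v : ℝ, 0 ≤ v → QQ δ (QQ (δ / m) v) = QQ δ v := by
    intro v hv
    have h0 := (QQ_pos_facts hd hv).1
    have e1 : QQ (δ / m) v = (δ / m) * ⌊v / (δ / m)⌋ := by unfold QQ; rw [if_pos hv]
    unfold QQ at h0 ⊢
    rw [if_pos hv] at h0 ⊢
    rw [if_pos hv, if_pos h0]
    congr 2
    have e2 : δ / m * (⌊v / (δ / m)⌋ : ℝ) / δ = (⌊v / (δ / m)⌋ : ℝ) / (m : ℕ) := by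
      field_simp
    have e3 : v / δ = (v / (δ / m)) / (m : ℕ) := by field_simp
    rw [e2, e3, Int.floor_div_natCast, Int.floor_div_natCast, Int.floor_intCast]
  rcases le_total 0 v with h | h
  · exact key v h
  · have := key (-v) (by linarith)
    rw [QQ_neg', QQ_neg', QQ_neg'] at this
    linarith

theorem QQ_meas (δ : ℝ) : Measurable (QQ δ) := by
  unfold QQ
  have hc : Measurable fun k : ℤ => (k : ℝ) := measurable_from_top
  refine Measurable.ite measurableSet_Ici ?_ ?_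
  · exact (hc.comp (Int.measurable_floor.comp (measurable_id.div_const δ))).const_mul δ
  · exact ((hc.comp (Int.measurable_floor.comp (measurable_neg.div_const δ))).const_mul δ).neg

/-- the finite set of grid values of absolute value at most `B`. -/
noncomputable def grid (d B : ℝ) : Finset ℝ :=
  (Finset.Icc (-⌊B / d⌋) ⌊B / d⌋).image fun k : ℤ => d * k

theorem grid_le {d B v : ℝ} (hd : 0 < d) (hv : v ∈ grid d B) : |v| ≤ B := by
  unfold grid at hv
  obtain ⟨k, hk, rfl⟩ := Finset.mem_image.1 hv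
  rw [Finset.mem_Icc] at hk
  rw [abs_mul, abs_of_pos hd]
  have h1 : |(k : ℝ)| ≤ ⌊B / d⌋ := by
    rw [abs_le]
    constructor
    · exact_mod_cast hk.1
    · exact_mod_cast hk.2
  have h2 : (⌊B / d⌋ : ℝ) ≤ B / d := Int.floor_le _
  have h3 := h1.trans h2
  rw [le_div_iff₀ hd] at h3
  linarith

theorem grid_mem {d B v : ℝ} (hd : 0 < d) (hv : |v| ≤ B) : QQ d v ∈ grid d B := by
  unfold grid
  rw [Finset.mem_image]
  rw [abs_le] at hv
  unfold QQ
  split_ifs with h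
  · refine ⟨⌊v / d⌋, ?_, rfl⟩
    rw [Finset.mem_Icc]
    have h1 : ⌊v / d⌋ ≤ ⌊B / d⌋ := Int.floor_le_floor (div_le_div_of_nonneg_right hv.2 hd.le)
    have h2 : 0 ≤ ⌊v / d⌋ := Int.floor_nonneg.2 (div_nonneg h hd.le)
    constructor
    · linarith
    · exact h1
  · refine ⟨-⌊-v / d⌋, ?_, by push_cast; ring⟩
    rw [Finset.mem_Icc]
    have h1 : ⌊-v / d⌋ ≤ ⌊B / d⌋ := Int.floor_le_floor (div_le_div_of_nonneg_right (by linarith) hd.le)
    have h2 : 0 ≤ ⌊-v / d⌋ := Int.floor_nonneg.2 (div_nonneg (by linarith) hd.le)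
    constructor <;> linarith

/-! level sets -/

theorem vol_levels_add {S : Set ℝ} {f : ℝ → ℝ} (hf : Measurable f)
    (hS : MeasurableSet S) (V : Finset ℝ) :
    volume (S ∩ f ⁻¹' (V : Set ℝ)) = ∑ v ∈ V, volume (S ∩ f ⁻¹' {v}) := by
  classical
  have : S ∩ f ⁻¹' (V : Set ℝ) = ⋃ v ∈ V, (S ∩ f ⁻¹' {v}) := by
    ext x; simp
  rw [this, measure_biUnion_finset]
  · intro v _ w _ hvw
    refine disjoint_left.2 fun x hx hx' => hvw ?_
    have h1 : f x = v := hx.2
    have h2 : f x = w := hx'.2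
    exact h1.symm.trans h2
  · intro v _
    exact hS.inter (hf (measurableSet_singleton v))

theorem vol_levels_ae {S : Set ℝ} {f : ℝ → ℝ} (hf : Measurable f)
    (hS : MeasurableSet S) (V : Finset ℝ) (h : ∀ᵐ x ∂(volume.restrict S), f x ∈ V) :
    volume S = ∑ v ∈ V, volume (S ∩ f ⁻¹' {v}) := by
  rw [← vol_levels_add hf hS]
  refine (measure_congr ?_)
  rw [ae_restrict_iff' hS] at h
  filter_upwards [h] with x hx
  refine propext ?_
  show x ∈ S ↔ x ∈ S ∩ f ⁻¹' (V : Set ℝ)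
  constructor
  · intro hxS; exact ⟨hxS, hx hxS⟩
  · exact fun h => h.1

theorem ae_of_vol_levels {S : Set ℝ} {f : ℝ → ℝ} (hf : Measurable f)
    (hS : MeasurableSet S) (hfin : volume S ≠ ⊤) (V : Finset ℝ)
    (h : volume S = ∑ v ∈ V, volume (S ∩ f ⁻¹' {v})) : ∀ᵐ x ∂(volume.restrict S), f x ∈ V := by
  rw [ae_restrict_iff' hS, ae_iff]
  rw [← vol_levels_add hf hS] at h
  have hm : MeasurableSet (S ∩ f ⁻¹' (V : Set ℝ)) := hS.inter (hf V.measurableSet)
  have e : {x | ¬(x ∈ S → f x ∈ V)} = S \ (S ∩ f ⁻¹' (V : Set ℝ)) := by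
    ext x
    simp only [mem_setOf_eq, mem_diff, mem_inter_iff, mem_preimage, Finset.mem_coe]
    tauto
  rw [e, measure_diff inter_subset_left hm.nullMeasurableSet
    (ne_top_of_le_ne_top hfin (measure_mono inter_subset_left)), ← h, tsub_self]

theorem integral_levels {S : Set ℝ} {f : ℝ → ℝ} (hf : Measurable f)
    (hS : MeasurableSet S) (hfin : volume S ≠ ⊤) (V : Finset ℝ)
    (h : ∀ᵐ x ∂(volume.restrict S), f x ∈ V) :
    ∫ x in S, f x = ∑ v ∈ V, v * (volume (S ∩ f ⁻¹' {v})).toReal := by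
  classical
  have e : ∀ᵐ x ∂(volume.restrict S), f x = ∑ v ∈ V, (f ⁻¹' {v}).indicator (fun _ => v) x := by
    filter_upwards [h] with x hx
    rw [Finset.sum_eq_single (f x)]
    · rw [indicator_of_mem (by rfl)]
    · intro v _ hv
      rw [indicator_of_notMem]
      intro h'
      exact hv (h'.symm)
    · intro h'; exact absurd hx h'
  rw [integral_congr_ae e, integral_finset_sum]
  · refine Finset.sum_congr rfl fun v _ => ?_
    rw [integral_indicator (hf (measurableSet_singleton v)), integral_const,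
      Measure.restrict_restrict (hf (measurableSet_singleton v)), measureReal_def,
      Measure.restrict_apply MeasurableSet.univ, univ_inter, inter_comm, smul_eq_mul, mul_comm]
  · intro v _
    have : IsFiniteMeasure (volume.restrict S) := ⟨by
      rw [Measure.restrict_apply MeasurableSet.univ, univ_inter]
      exact lt_top_iff_ne_top.2 hfin⟩
    exact (integrable_const v).indicator (hf (measurableSet_singleton v))

/-! patterns -/

theorem pat_meas {m : ℕ} (g : ℝ) (c a : Fin m → ℝ) : Measurable (pat g c a) := by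
  unfold pat
  refine measurable_const.add (Finset.measurable_sum _ fun k _ => ?_)
  exact Measurable.ite measurableSet_Ici measurable_const measurable_const

theorem pat_integral {m : ℕ} (g : ℝ) (c a : Fin m → ℝ) {L : ℝ} (hL : 0 ≤ L)
    (ha : ∀ k, 0 ≤ a k ∧ a k ≤ L) :
    ∫ x in Ico 0 L, pat g c a x = g * L + ∑ k, c k * (L - a k) := by
  have hfm : IsFiniteMeasure (volume.restrict (Ico 0 L)) := ⟨by simp⟩
  have hi : ∀ k, Integrable (fun x : ℝ => if a k ≤ x then c k else 0) (volume.restrict (Ico 0 L)) := by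
    intro k
    exact (integrable_const (c k)).indicator (measurableSet_Ici (a := a k))
  unfold pat
  rw [integral_add (integrable_const g) (integrable_finsetSum _ fun k _ => hi k),
    integral_finset_sum _ fun k _ => hi k]
  congr 1
  · rw [setIntegral_const, measureReal_def, Real.volume_Ico, smul_eq_mul, ENNReal.toReal_ofReal (by linarith)]
    ring
  · refine Finset.sum_congr rfl fun k _ => ?_
    have e : (fun x : ℝ => if a k ≤ x then c k else 0) = (Ici (a k)).indicator fun _ => c k := by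
      funext x; rfl
    rw [e, setIntegral_indicator measurableSet_Ici]
    have e2 : Ico 0 L ∩ Ici (a k) = Ico (a k) L := by
      ext x
      simp only [mem_inter_iff, mem_Ico, mem_Ici]
      constructor
      · rintro ⟨⟨_, h2⟩, h3⟩; exact ⟨h3, h2⟩
      · rintro ⟨h1, h2⟩; exact ⟨⟨(ha k).1.trans h1, h2⟩, h1⟩
    rw [e2, setIntegral_const, measureReal_def, Real.volume_Ico, smul_eq_mul,
      ENNReal.toReal_ofReal (by linarith [(ha k).2])]
    ring

theorem pat_cons {m : ℕ} (g g0 t : ℝ) (c a : Fin m → ℝ) (ha : ∀ k, 0 ≤ a k) (s : ℝ) :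
    pat g (Fin.cons (g0 - g) c : Fin (m + 1) → ℝ) (Fin.cons t (fun k => t + a k) : Fin (m + 1) → ℝ) s =
      if t ≤ s then pat g0 c a (s - t) else g := by
  unfold pat
  rw [Fin.sum_univ_succ]
  simp only [Fin.cons_zero, Fin.cons_succ]
  split_ifs with h
  · have : ∀ k, (if t + a k ≤ s then c k else 0) = if a k ≤ s - t then c k else 0 := by
      intro k
      congr 1
      exact propext ⟨fun h => by linarith, fun h => by linarith⟩
    simp_rw [this]
    ring
  · have : ∀ k, (if t + a k ≤ s then c k else 0) = 0 := by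
      intro k
      rw [if_neg]
      intro h'
      exact h (by linarith [ha k])
    simp_rw [this]
    simp

/-- the pattern used on a piece. -/
theorem piece_pattern
    (sortedPattern : ∀ (V : Finset ℝ), V.Nonempty → ∀ (p : ℝ → ℝ), (∀ v, 0 ≤ p v) →
      (∀ v, v ∉ V → p v = 0) → ∀ (L : ℝ), ∑ v ∈ V, p v = L → ∀ (lo hi : ℝ),
      (∀ v ∈ V, lo ≤ v) → (∀ v ∈ V, v ≤ hi) →
      ∃ (m : ℕ) (g : ℝ) (c a : Fin m → ℝ), lo ≤ g ∧ (∀ k, 0 ≤ c k) ∧ g + ∑ k, c k ≤ hi ∧
        (∀ k, 0 ≤ a k ∧ a k ≤ L) ∧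
        ∀ v, volume (Ico 0 L ∩ (pat g c a) ⁻¹' {v}) = ENNReal.ofReal (p v))
    {V : Finset ℝ} (hV : V.Nonempty) {B : ℝ} (hVB : ∀ v ∈ V, |v| ≤ B)
    {ν : ℝ → ℝ} (hν : ∀ v, 0 ≤ ν v) (hν0 : ∀ v, v ∉ V → ν v = 0) (hν1 : ∑ v ∈ V, ν v = 1)
    {c r η : ℝ} (hc : |c| ≤ B) (hr : |r| ≤ B) (hη : 0 < η) (hη1 : η ≤ 1)
    (hg : r - c = η * (r - ∑ v ∈ V, v * ν v)) :
    ∃ (m : ℕ) (c' a' : Fin m → ℝ), (∀ k, 1 - η ≤ a' k ∧ a' k ≤ 1) ∧
      (r - c) + ∑ k, c' k * (1 - a' k) = 0 ∧ (∑ k, |c' k|) ≤ 8 * B ∧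
      (∀ v, volume (Ico 0 1 ∩ (pat (r - c) c' a') ⁻¹' {v})
        ≤ ENNReal.ofReal ((if v + c = r then 1 else 0) + η * ν (v + c))) ∧
      ENNReal.ofReal (1 - η) ≤ volume (Ico 0 1 ∩ (pat (r - c) c' a') ⁻¹' {r - c}) := by
  classical
  have hB : 0 ≤ B := (abs_nonneg _).trans hc
  rw [abs_le] at hc hr
  set V' : Finset ℝ := V.image fun v => v - c with hV'
  have hinj : Set.InjOn (fun v : ℝ => v - c) (V : Set ℝ) := by
    intro x _ y _ h
    simp only at h
    linarith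
  have hsum : ∀ f : ℝ → ℝ, ∑ v ∈ V', f v = ∑ v ∈ V, f (v - c) := by
    intro f
    rw [hV', Finset.sum_image]
    exact fun x hx y hy h => hinj hx hy h
  obtain ⟨m, g0, c0, a0, h1, h2, h3, h4, h5⟩ := sortedPattern V' (hV.image _) (fun v => η * ν (v + c))
    (fun v => mul_nonneg hη.le (hν _))
    (fun v hv => by
      have : v + c ∉ V := fun h => hv (by
        rw [hV', Finset.mem_image]; exact ⟨v + c, h, by ring⟩)
      show η * ν (v + c) = 0
      rw [hν0 _ this, mul_zero]) η (by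
        rw [hsum]
        simp only [sub_add_cancel]
        rw [← Finset.mul_sum, hν1, mul_one]) (-(2 * B)) (2 * B)
    (by
      intro v hv
      rw [hV', Finset.mem_image] at hv
      obtain ⟨w, hw, rfl⟩ := hv
      have := abs_le.1 (hVB w hw)
      linarith [this.1, hc.2])
    (by
      intro v hv
      rw [hV', Finset.mem_image] at hv
      obtain ⟨w, hw, rfl⟩ := hv
      have := abs_le.1 (hVB w hw)
      linarith [this.2, hc.1])
  -- the integral of the sorted pattern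
  have hfin : volume (Ico (0 : ℝ) η) ≠ ⊤ := by simp
  have hae : ∀ᵐ x ∂(volume.restrict (Ico 0 η)), pat g0 c0 a0 x ∈ V' := by
    refine ae_of_vol_levels (pat_meas _ _ _) measurableSet_Ico hfin V' ?_
    simp_rw [h5]
    rw [← ENNReal.ofReal_sum_of_nonneg (fun v _ => mul_nonneg hη.le (hν _)), hsum]
    simp only [sub_add_cancel]
    rw [← Finset.mul_sum, hν1, mul_one, Real.volume_Ico, sub_zero]
  have hint : g0 * η + ∑ k, c0 k * (η - a0 k) = ∑ v ∈ V, (v - c) * (η * ν v) := by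
    rw [← pat_integral g0 c0 a0 hη.le h4, integral_levels (pat_meas _ _ _) measurableSet_Ico hfin V' hae]
    simp_rw [h5]
    rw [hsum]
    refine Finset.sum_congr rfl fun v _ => ?_
    rw [ENNReal.toReal_ofReal (mul_nonneg hη.le (hν _)), sub_add_cancel]
  have hpc := pat_cons (r - c) g0 (1 - η) c0 a0 (fun k => (h4 k).1)
  refine ⟨m + 1, Fin.cons (g0 - (r - c)) c0, Fin.cons (1 - η) (fun k => 1 - η + a0 k), ?_, ?_, ?_, ?_, ?_⟩
  · intro k
    refine Fin.cases ?_ (fun k => ?_) k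
    · simp only [Fin.cons_zero]
      constructor <;> linarith
    · simp only [Fin.cons_succ]
      constructor <;> linarith [(h4 k).1, (h4 k).2]
  · rw [Fin.sum_univ_succ]
    simp only [Fin.cons_zero, Fin.cons_succ]
    have e1 : ∑ k, c0 k * (1 - (1 - η + a0 k)) = ∑ k, c0 k * (η - a0 k) := by
      refine Finset.sum_congr rfl fun k _ => by ring
    rw [e1]
    have e2 : ∑ v ∈ V, (v - c) * (η * ν v) = η * ∑ v ∈ V, v * ν v - c * η := by
      have : ∀ v ∈ V, (v - c) * (η * ν v) = η * (v * ν v) - c * η * ν v := fun v _ => by ring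
      rw [Finset.sum_congr rfl this, Finset.sum_sub_distrib, ← Finset.mul_sum, ← Finset.mul_sum, hν1, mul_one]
    rw [e2] at hint
    have : ∑ k, c0 k * (η - a0 k) = η * ∑ v ∈ V, v * ν v - c * η - g0 * η := by linarith
    rw [this]
    linear_combination hg
  · rw [Fin.sum_univ_succ]
    simp only [Fin.cons_zero, Fin.cons_succ]
    have e1 : ∑ k, |c0 k| = ∑ k, c0 k := Finset.sum_congr rfl fun k _ => abs_of_nonneg (h2 k)
    have e3 : 0 ≤ ∑ k, c0 k := Finset.sum_nonneg fun k _ => h2 k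
    rw [e1]
    have e2 : |g0 - (r - c)| ≤ 4 * B := by
      rw [abs_le]
      constructor <;> linarith [hr.1, hr.2, hc.1, hc.2]
    linarith
  · intro v
    have hsub : Ico (0 : ℝ) 1 ∩ (pat (r - c) (Fin.cons (g0 - (r - c)) c0 : Fin (m + 1) → ℝ)
        (Fin.cons (1 - η) (fun k => 1 - η + a0 k) : Fin (m + 1) → ℝ)) ⁻¹' {v} ⊆
        (if v + c = r then Ico 0 1 else ∅) ∪
          (fun x => x - (1 - η)) ⁻¹' (Ico 0 η ∩ (pat g0 c0 a0) ⁻¹' {v}) := by
      rintro x ⟨hx1, hx2⟩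
      have hx2' : pat (r - c) (Fin.cons (g0 - (r - c)) c0 : Fin (m + 1) → ℝ)
        (Fin.cons (1 - η) (fun k => 1 - η + a0 k) : Fin (m + 1) → ℝ) x = v := hx2
      rw [hpc] at hx2'
      split_ifs at hx2' with h
      · right
        exact ⟨⟨by simp only; linarith, by simp only; linarith [hx1.2]⟩, hx2'⟩
      · left
        rw [if_pos (by linarith)]
        exact hx1
    refine (measure_mono hsub).trans ((measure_union_le _ _).trans ?_)
    rw [(measurePreserving_sub_right volume (1 - η)).measure_preimage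
      (measurableSet_Ico.inter (pat_meas g0 c0 a0 (measurableSet_singleton v))).nullMeasurableSet, h5, ENNReal.ofReal_add (by split_ifs <;> norm_num) (mul_nonneg hη.le (hν _))]
    refine add_le_add_left ?_ _
    split_ifs
    · simp
    · simp
  · have hsub : Ico (0 : ℝ) (1 - η) ⊆ Ico (0 : ℝ) 1 ∩ (pat (r - c) (Fin.cons (g0 - (r - c)) c0 : Fin (m + 1) → ℝ)
        (Fin.cons (1 - η) (fun k => 1 - η + a0 k) : Fin (m + 1) → ℝ)) ⁻¹' {r - c} := by
      intro x hx
      refine ⟨⟨hx.1, by linarith [hx.2]⟩, ?_⟩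
      show pat (r - c) (Fin.cons (g0 - (r - c)) c0 : Fin (m + 1) → ℝ)
        (Fin.cons (1 - η) (fun k => 1 - η + a0 k) : Fin (m + 1) → ℝ) x = r - c
      rw [hpc, if_neg (by linarith [hx.2])]
    refine le_trans ?_ (measure_mono hsub)
    rw [Real.volume_Ico, sub_zero]

/-- the correction on a piece. -/
theorem piece {C : ℝ} (hC : 0 < C)
    (sortedPattern : ∀ (V : Finset ℝ), V.Nonempty → ∀ (p : ℝ → ℝ), (∀ v, 0 ≤ p v) →
      (∀ v, v ∉ V → p v = 0) → ∀ (L : ℝ), ∑ v ∈ V, p v = L → ∀ (lo hi : ℝ),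
      (∀ v ∈ V, lo ≤ v) → (∀ v ∈ V, v ≤ hi) →
      ∃ (m : ℕ) (g : ℝ) (c a : Fin m → ℝ), lo ≤ g ∧ (∀ k, 0 ≤ c k) ∧ g + ∑ k, c k ≤ hi ∧
        (∀ k, 0 ≤ a k ∧ a k ≤ L) ∧
        ∀ v, volume (Ico 0 L ∩ (pat g c a) ⁻¹' {v}) = ENNReal.ofReal (p v))
    (hblock : ∀ (A B : ℝ), -1 < A → A < B → B < 1 →
      ∀ (m : ℕ) (g : ℝ) (c a : Fin m → ℝ) (η : ℝ), 0 < η → η ≤ 1 →
      (∀ k, 1 - η ≤ a k ∧ a k ≤ 1) → g + ∑ k, c k * (1 - a k) = 0 → ∀ τ : ℝ, 0 < τ →
      ∃ h : ℝ → ℝ, StepOn (Ico A B) h ∧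
        (∀ v, volume (Ico A B ∩ h ⁻¹' {v})
          = ENNReal.ofReal (B - A) * volume (Ico 0 1 ∩ (pat g c a) ⁻¹' {v})) ∧
        NN h ≤ ENNReal.ofReal (C * (B - A) * (|g| + (∑ k, |c k|) * √η) + τ))
    {A A' : ℝ} (hA : -1 < A) (hAA : A < A') (hA' : A' < 1)
    {V : Finset ℝ} (hV : V.Nonempty) {B : ℝ} (hVB : ∀ v ∈ V, |v| ≤ B)
    {ν : ℝ → ℝ} (hν : ∀ v, 0 ≤ ν v) (hν0 : ∀ v, v ∉ V → ν v = 0) (hν1 : ∑ v ∈ V, ν v = 1)
    {c r η : ℝ} (hc : |c| ≤ B) (hr : |r| ≤ B) (hη : 0 ≤ η) (hη1 : η ≤ 1)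
    (hg : r - c = η * (r - ∑ v ∈ V, v * ν v)) {δ : ℝ} (hδ : |r - c| ≤ δ) {τ : ℝ} (hτ : 0 < τ) :
    ∃ h : ℝ → ℝ, StepOn (Ico A A') h ∧
      (∀ v, volume (Ico A A' ∩ {x | h x + c = v})
        ≤ ENNReal.ofReal ((A' - A) * ((if v = r then 1 else 0) + η * ν v))) ∧
      volume (Ico A A' ∩ {x | h x + c ≠ r}) ≤ ENNReal.ofReal ((A' - A) * η) ∧
      NN h ≤ ENNReal.ofReal (C * (A' - A) * (δ + 8 * B * √η) + τ) := by
  rcases hη.eq_or_lt with h0 | hη
  · -- trivial piece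
    subst h0
    have hrc : r = c := by linarith [hg, zero_mul (r - ∑ v ∈ V, v * ν v)]
    subst hrc
    have hB : 0 ≤ B := (abs_nonneg _).trans hc
    have hδ0 : 0 ≤ δ := (abs_nonneg _).trans hδ
    refine ⟨(Ico A A').indicator fun _ => 0, StepOn.const hA hAA hA' 0, ?_, ?_, ?_⟩
    · intro v
      simp only [indicator_zero, zero_add, zero_mul, add_zero]
      by_cases hv : v = r
      · rw [if_pos hv]
        refine (measure_mono inter_subset_left).trans ?_
        rw [Real.volume_Ico, mul_one]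
      · have : Ico A A' ∩ {x : ℝ | r = v} = ∅ := by
          rw [eq_empty_iff_forall_notMem]
          rintro x ⟨_, hx⟩
          exact hv hx.symm
        rw [this]; simp
    · simp
    · have : NN ((Ico A A').indicator fun _ => 0) = 0 := by
        rw [indicator_zero]; exact NN_zero
      rw [this]; exact bot_le
  · obtain ⟨m, c', a', h1, h2, h3, h4, h5⟩ :=
      piece_pattern sortedPattern hV hVB hν hν0 hν1 hc hr hη hη1 hg
    obtain ⟨h, hs, hl, hN⟩ := hblock A A' hA hAA hA' m (r - c) c' a' η hη hη1 h1 h2 τ hτ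
    refine ⟨h, hs, ?_, ?_, ?_⟩
    · intro v
      have e : Ico A A' ∩ {x | h x + c = v} = Ico A A' ∩ h ⁻¹' {v - c} := by
        ext x
        simp only [mem_inter_iff, mem_preimage, mem_singleton_iff]
        refine and_congr_right fun _ => ?_
        show h x + c = v ↔ _
        constructor <;> intro h' <;> linarith
      rw [e, hl, ENNReal.ofReal_mul (by linarith)]
      refine mul_le_mul_right ?_ _
      have := h4 (v - c)
      rwa [sub_add_cancel] at this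
    · have e : Ico A A' ∩ {x | h x + c ≠ r} = Ico A A' \ (Ico A A' ∩ h ⁻¹' {r - c}) := by
        ext x
        simp only [mem_inter_iff, mem_preimage, mem_singleton_iff, Set.mem_sdiff]
        constructor
        · rintro ⟨hx, hx'⟩
          refine ⟨hx, fun h' => hx' ?_⟩
          show h x + c = r
          linarith [h'.2]
        · rintro ⟨hx, hx'⟩
          refine ⟨hx, fun h' => hx' ⟨hx, ?_⟩⟩
          have h'' : h x + c = r := h'
          linarith
      have hm : MeasurableSet (Ico A A' ∩ h ⁻¹' {r - c}) :=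
        measurableSet_Ico.inter (hs.meas (measurableSet_singleton _))
      rw [e, measure_sdiff inter_subset_left hm.nullMeasurableSet
        (ne_top_of_le_ne_top (by simp) (measure_mono inter_subset_left)), hl, Real.volume_Ico]
      calc ENNReal.ofReal (A' - A) - ENNReal.ofReal (A' - A) * volume (Ico 0 1 ∩ pat (r - c) c' a' ⁻¹' {r - c})
          ≤ ENNReal.ofReal (A' - A) - ENNReal.ofReal (A' - A) * ENNReal.ofReal (1 - η) :=
            tsub_le_tsub_left (mul_le_mul_right h5 _) _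
        _ = ENNReal.ofReal ((A' - A) * η) := by
            rw [← ENNReal.ofReal_mul (by linarith), ← ENNReal.ofReal_sub _ (mul_nonneg (by linarith) (by linarith))]
            congr 1; ring
    · refine hN.trans (ENNReal.ofReal_le_ofReal ?_)
      have h6 : |r - c| + (∑ k, |c' k|) * √η ≤ δ + 8 * B * √η :=
        add_le_add hδ (mul_le_mul_of_nonneg_right h3 (Real.sqrt_nonneg _))
      have h7 : C * (A' - A) * (|r - c| + (∑ k, |c' k|) * √η) ≤ C * (A' - A) * (δ + 8 * B * √η) :=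
        mul_le_mul_of_nonneg_left h6 (mul_nonneg hC.le (by linarith))
      linarith

theorem vol_iUnion_fin {κ : Type} [Fintype κ] (E : κ → Set ℝ) (hE : ∀ j, MeasurableSet (E j))
    (hd : ∀ i j, i ≠ j → Disjoint (E i) (E j)) : volume (⋃ j, E j) = ∑ j, volume (E j) := by
  rw [measure_iUnion (fun i j hij => hd i j hij) hE, tsum_fintype]

theorem partition_data
    (stepApprox : ∀ (A B : ℝ), -1 < A → A < B → B < 1 → ∀ (u : ℝ → ℝ), Measurable u →
      ∀ (V : Finset ℝ), (∀ᵐ x ∂(volume.restrict (Ico A B)), u x ∈ V) → ∀ ε : ℝ, 0 < ε →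
      ∃ w : ℝ → ℝ, StepOn (Ico A B) w ∧
        (∀ v, volume (Ico A B ∩ w ⁻¹' {v}) = volume (Ico A B ∩ u ⁻¹' {v})) ∧
        volume (Ico A B ∩ {x | w x ≠ u x}) ≤ ENNReal.ofReal ε)
    {R : Set ℝ} {s u : ℝ → ℝ} (hs : StepOn R s) (hu : Measurable u) (V : Finset ℝ)
    (huV : ∀ᵐ x ∂mu1, x ∈ R → u x ∈ V) (P : ℝ → ℝ → Prop)
    (hP : ∀ᵐ x ∂mu1, x ∈ R → P (s x) (u x)) {τ : ℝ} (hτ : 0 < τ) :
    ∃ (κ : Type) (_ : Fintype κ) (A A' cc rr : κ → ℝ), (∀ j, A j < A' j) ∧ (∀ j, -1 < A j ∧ A' j < 1) ∧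
      (∀ i j, i ≠ j → Disjoint (Ico (A i) (A' i)) (Ico (A j) (A' j))) ∧
      (R = ⋃ j, Ico (A j) (A' j)) ∧ (∀ j, ∀ x ∈ Ico (A j) (A' j), s x = cc j) ∧
      (∀ v, ∑ j, (if v = rr j then ENNReal.ofReal (A' j - A j) else 0) ≤ volume (R ∩ u ⁻¹' {v})) ∧
      volume (⋃ j, (Ico (A j) (A' j) ∩ {x | rr j ≠ u x})) ≤ ENNReal.ofReal τ ∧
      (∀ j, P (cc j) (rr j)) := by
  classical
  obtain ⟨ι, hι, a, b, c, hab, hin, hdis, hR, hc, h0⟩ := hs
  have hsub : ∀ i, Ico (a i) (b i) ⊆ Icc (-1) 1 := fun i x hx =>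
    ⟨((hin i).1.trans_le hx.1).le, (hx.2.trans (hin i).2).le⟩
  have hsubR : ∀ i, Ico (a i) (b i) ⊆ R := fun i => by
    rw [hR]; exact subset_iUnion (fun i => Ico (a i) (b i)) i
  have hvol : ∀ Q : ℝ → Prop, (∀ᵐ x ∂mu1, x ∈ R → Q x) → ∀ i, ∀ᵐ x, x ∈ Ico (a i) (b i) → Q x := by
    intro Q hQ i
    rw [mu1, ae_restrict_iff' measurableSet_Icc] at hQ
    filter_upwards [hQ] with x hx hxi
    exact hx (hsub i hxi) (hsubR i hxi)
  have hε : 0 < τ / (Fintype.card ι + 1) := by positivity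
  have hw := fun i => stepApprox (a i) (b i) (hin i).1 (hab i) (hin i).2 u hu V
    ((ae_restrict_iff' measurableSet_Ico).2 (hvol _ huV i)) _ hε
  choose w hw1 hw2 hw3 using hw
  choose K hK a' b' c' h1 h2 h3 h4 h5 h6 using hw1
  letI : ∀ i, Fintype (K i) := hK
  have hsub' : ∀ i j, Ico (a' i j) (b' i j) ⊆ Ico (a i) (b i) := fun i j => by
    rw [h4 i]; exact subset_iUnion (fun j => Ico (a' i j) (b' i j)) j
  refine ⟨Σ i, K i, inferInstance, fun σ => a' σ.1 σ.2, fun σ => b' σ.1 σ.2, fun σ => c σ.1,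
    fun σ => c' σ.1 σ.2, fun σ => h1 _ _, fun σ => h2 _ _, ?_, ?_, ?_, ?_, ?_, ?_⟩
  · rintro ⟨i, j⟩ ⟨i', j'⟩ hne
    by_cases hii : i = i'
    · subst hii
      refine h3 i j j' fun e => hne (by rw [e])
    · exact (hdis i i' hii).mono (hsub' i j) (hsub' i' j')
  · rw [hR, iUnion_sigma]
    exact iUnion_congr fun i => h4 i
  · rintro ⟨i, j⟩ x hx
    exact hc i x (hsub' i j hx)
  · intro v
    rw [Fintype.sum_sigma]
    have e1 : R ∩ u ⁻¹' {v} = ⋃ i, (Ico (a i) (b i) ∩ u ⁻¹' {v}) := by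
      rw [hR, iUnion_inter]
    rw [e1, vol_iUnion_fin _ (fun i => measurableSet_Ico.inter (hu (measurableSet_singleton v)))
      (fun i j hij => (hdis i j hij).mono inter_subset_left inter_subset_left)]
    refine Finset.sum_le_sum fun i _ => ?_
    rw [← hw2 i v]
    have hwm : Measurable (w i) := by
      have : StepOn (Ico (a i) (b i)) (w i) :=
        ⟨K i, inferInstance, a' i, b' i, c' i, h1 i, h2 i, h3 i, h4 i, h5 i, h6 i⟩
      exact this.meas
    have e2 : Ico (a i) (b i) ∩ w i ⁻¹' {v} = ⋃ j, (Ico (a' i j) (b' i j) ∩ w i ⁻¹' {v}) := by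
      rw [h4 i, iUnion_inter]
    rw [e2, vol_iUnion_fin _ (fun j => measurableSet_Ico.inter (hwm (measurableSet_singleton v)))
      (fun j j' hij => (h3 i j j' hij).mono inter_subset_left inter_subset_left)]
    refine Finset.sum_le_sum fun j _ => ?_
    simp only
    split_ifs with hv
    · have : Ico (a' i j) (b' i j) ∩ w i ⁻¹' {v} = Ico (a' i j) (b' i j) := by
        refine inter_eq_left.2 fun x hx => ?_
        show w i x = v
        rw [h5 i j x hx, hv]
      rw [this, Real.volume_Ico]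
    · exact bot_le
  · have hs' : (⋃ σ : (Σ i, K i), (Ico (a' σ.1 σ.2) (b' σ.1 σ.2) ∩ {x | c' σ.1 σ.2 ≠ u x})) ⊆
        ⋃ i, (Ico (a i) (b i) ∩ {x | w i x ≠ u x}) := by
      refine iUnion_subset ?_
      rintro ⟨i, j⟩ x ⟨hx1, hx2⟩
      refine mem_iUnion.2 ⟨i, hsub' i j hx1, ?_⟩
      show w i x ≠ u x
      rw [h5 i j x hx1]
      exact hx2
    refine (measure_mono hs').trans ((measure_iUnion_fintype_le _ _).trans ?_)
    refine (Finset.sum_le_sum fun i _ => hw3 i).trans ?_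
    rw [Finset.sum_const, Finset.card_univ, nsmul_eq_mul, ← ENNReal.ofReal_natCast,
      ← ENNReal.ofReal_mul (by positivity)]
    refine ENNReal.ofReal_le_ofReal ?_
    have : (0 : ℝ) ≤ Fintype.card ι := by positivity
    rw [mul_div_assoc', div_le_iff₀ (by positivity)]
    nlinarith
  · rintro ⟨i, j⟩
    by_contra hno
    simp only at hno
    have hz : volume (Ico (a i) (b i) ∩ u ⁻¹' {c' i j}) = 0 := by
      have := hvol _ hP i
      rw [ae_iff] at this
      refine measure_mono_null ?_ this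
      rintro x ⟨hx1, hx2⟩ h
      have h' := h hx1
      have h7 : u x = c' i j := hx2
      rw [hc i x hx1, h7] at h'
      exact hno h'
    rw [← hw2 i] at hz
    have hp : 0 < volume (Ico (a' i j) (b' i j)) := by
      rw [Real.volume_Ico]
      exact ENNReal.ofReal_pos.2 (by linarith [h1 i j])
    refine hp.ne' (measure_mono_null ?_ hz)
    intro x hx
    exact ⟨hsub' i j hx, h5 i j x hx⟩

theorem _root_.Pool.Agent.Helper187.Leg.StepOn.zero_off {J : Set ℝ} {h : ℝ → ℝ} (hs : StepOn J h) {x : ℝ} (hx : x ∉ J) : h x = 0 := by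
  obtain ⟨ι, hι, a, b, c, hab, hin, hdis, hJ, hc, h0⟩ := hs
  exact h0 x hx

theorem _root_.Pool.Agent.Helper187.Leg.StepOn.mem_of_levels {J : Set ℝ} {h : ℝ → ℝ} (hs : StepOn J h) (V : Finset ℝ)
    (hV : ∀ v, v ∉ V → volume (J ∩ h ⁻¹' {v}) = 0) : ∀ x ∈ J, h x ∈ V := by
  obtain ⟨ι, hι, a, b, c, hab, hin, hdis, hJ, hc, h0⟩ := hs
  intro x hx
  have hx' := hx
  rw [hJ] at hx'
  obtain ⟨i, hi⟩ := mem_iUnion.1 hx'
  by_contra hno
  rw [hc i x hi] at hno
  have h1 := hV _ hno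
  have hp : 0 < volume (Ico (a i) (b i)) := by
    rw [Real.volume_Ico]
    exact ENNReal.ofReal_pos.2 (by linarith [hab i])
  refine hp.ne' (measure_mono_null ?_ h1)
  intro y hy
  exact ⟨by rw [hJ]; exact mem_iUnion.2 ⟨i, hy⟩, hc i y hy⟩

theorem nu_facts {Y : Set ℝ} (hY : MeasurableSet Y) {u : ℝ → ℝ} (hu : Measurable u)
    (V : Finset ℝ) (huV : ∀ᵐ x, x ∈ Y → u x ∈ V) (hM : 0 < (volume Y).toReal)
    (hfin : volume Y ≠ ⊤) {ν : ℝ → ℝ} (hν : ν = fun v => (volume (Y ∩ u ⁻¹' {v})).toReal / (volume Y).toReal) :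
    (∀ v, 0 ≤ ν v) ∧ (∀ v, v ∉ V → ν v = 0) ∧ (∑ v ∈ V, ν v = 1) ∧
      (∀ K, (∀ᵐ x, x ∈ Y → u x ≤ K) → ∑ v ∈ V, v * ν v ≤ K) ∧
      (∀ K, (∀ᵐ x, x ∈ Y → K ≤ u x) → K ≤ ∑ v ∈ V, v * ν v) := by
  have h0 : ∀ v, 0 ≤ ν v := fun v => by rw [hν]; positivity
  have h1 : ∑ v ∈ V, ν v = 1 := by
    rw [hν]
    simp only
    rw [← Finset.sum_div, div_eq_one_iff_eq hM.ne',
      ← ENNReal.toReal_sum fun v _ => ne_top_of_le_ne_top hfin (measure_mono inter_subset_left),
      ← vol_levels_ae hu hY V ((ae_restrict_iff' hY).2 huV)]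
  have hnull : ∀ v, (∀ᵐ x, x ∈ Y → u x ≠ v) → ν v = 0 := by
    intro v hv
    rw [hν]
    simp only
    have : volume (Y ∩ u ⁻¹' {v}) = 0 := by
      rw [ae_iff] at hv
      refine measure_mono_null ?_ hv
      rintro x ⟨hx1, hx2⟩ h
      exact h hx1 hx2
    rw [this]; simp
  refine ⟨h0, ?_, h1, ?_, ?_⟩
  · intro v hv
    refine hnull v ?_
    filter_upwards [huV] with x hx hxY h
    exact hv (h ▸ hx hxY)
  · intro K hK
    have : ∀ v ∈ V, v * ν v ≤ K * ν v := by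
      intro v _
      by_cases hv : v ≤ K
      · exact mul_le_mul_of_nonneg_right hv (h0 v)
      · rw [hnull v (by
          filter_upwards [hK] with x hx hxY h
          exact hv (h ▸ hx hxY))]
        simp
    calc ∑ v ∈ V, v * ν v ≤ ∑ v ∈ V, K * ν v := Finset.sum_le_sum this
      _ = K := by rw [← Finset.mul_sum, h1, mul_one]
  · intro K hK
    have : ∀ v ∈ V, K * ν v ≤ v * ν v := by
      intro v _
      by_cases hv : K ≤ v
      · exact mul_le_mul_of_nonneg_right hv (h0 v)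
      · rw [hnull v (by
          filter_upwards [hK] with x hx hxY h
          exact hv (h ▸ hx hxY))]
        simp
    calc K = ∑ v ∈ V, K * ν v := by rw [← Finset.mul_sum, h1, mul_one]
      _ ≤ _ := Finset.sum_le_sum this

theorem eta_exists {c r δ κ y B vn vp : ℝ} {m : ℕ} (hm : 0 < m) (hδ : 0 < δ) (hκ : 0 < κ)
    (hc : QQ δ y = c) (hr : QQ (δ / m) y = r) (hy : |y| ≤ B) (hvn : vn ≤ -(κ / 2)) (hvp : κ / 2 ≤ vp) :
    |c| ≤ B ∧ |r| ≤ B ∧ |r - c| ≤ δ ∧ ∃ η : ℝ, 0 ≤ η ∧ η ≤ 1 ∧ η ≤ 2 * δ / κ ∧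
      (r - c = η * (r - vn) ∨ r - c = η * (r - vp)) := by
  have hm' : (0 : ℝ) < m := by exact_mod_cast hm
  have hd : 0 < δ / m := div_pos hδ hm'
  have hc' : QQ δ r = c := by rw [← hr, QQ_QQ hδ hm, hc]
  have h1 : |c| ≤ B := by rw [← hc]; exact (QQ_abs_le hδ).trans hy
  have h2 : |r| ≤ B := by rw [← hr]; exact (QQ_abs_le hd).trans hy
  refine ⟨h1, h2, ?_⟩
  rcases le_total 0 y with h | h
  · have hr0 : 0 ≤ r := by rw [← hr]; exact (QQ_pos_facts hd h).1
    have hf := QQ_pos_facts hδ hr0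
    rw [hc'] at hf
    have hden : 0 < r - vn := by linarith
    refine ⟨by rw [abs_le]; constructor <;> linarith, (r - c) / (r - vn), ?_, ?_, ?_, Or.inl ?_⟩
    · exact div_nonneg (by linarith) hden.le
    · rw [div_le_one hden]; linarith
    · rw [div_le_div_iff₀ hden hκ]
      nlinarith
    · field_simp
  · have hr0 : r ≤ 0 := by rw [← hr]; exact (QQ_neg_facts hd h).1
    have hf := QQ_neg_facts hδ hr0
    rw [hc'] at hf
    have hden : 0 < vp - r := by linarith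
    refine ⟨by rw [abs_le]; constructor <;> linarith, (c - r) / (vp - r), ?_, ?_, ?_, Or.inr ?_⟩
    · exact div_nonneg (by linarith) hden.le
    · rw [div_le_one hden]; linarith
    · rw [div_le_div_iff₀ hden hκ]
      nlinarith
    · field_simp; ring

theorem mu1_eq {S : Set ℝ} (hS : S ⊆ Icc (-1) 1) : mu1 S = volume S := by
  rw [mu1]; exact Measure.restrict_eq_self _ hS

theorem ae_mu1 {S : Set ℝ} (hS : S ⊆ Icc (-1) 1) {Q : ℝ → Prop} :
    (∀ᵐ x ∂mu1, x ∈ S → Q x) ↔ ∀ᵐ x, x ∈ S → Q x := by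
  rw [mu1, ae_restrict_iff' measurableSet_Icc]
  constructor
  · intro h
    filter_upwards [h] with x hx hxS
    exact hx (hS hxS) hxS
  · intro h
    filter_upwards [h] with x hx _ hxS
    exact hx hxS

/-! ### TARGET -/

theorem op2
    (sortedPattern : ∀ (V : Finset ℝ), V.Nonempty → ∀ (p : ℝ → ℝ), (∀ v, 0 ≤ p v) →
      (∀ v, v ∉ V → p v = 0) → ∀ (L : ℝ), ∑ v ∈ V, p v = L → ∀ (lo hi : ℝ),
      (∀ v ∈ V, lo ≤ v) → (∀ v ∈ V, v ≤ hi) →
      ∃ (m : ℕ) (g : ℝ) (c a : Fin m → ℝ), lo ≤ g ∧ (∀ k, 0 ≤ c k) ∧ g + ∑ k, c k ≤ hi ∧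
        (∀ k, 0 ≤ a k ∧ a k ≤ L) ∧
        ∀ v, volume (Ico 0 L ∩ (pat g c a) ⁻¹' {v}) = ENNReal.ofReal (p v))
    (match_on : ∀ (D : Set ℝ), MeasurableSet D → ∀ (u w : ℝ → ℝ), Measurable u → Measurable w →
      ∀ (V : Finset ℝ), (∀ᵐ x ∂mu1, x ∈ D → u x ∈ V) → (∀ᵐ x ∂mu1, x ∈ D → w x ∈ V) →
      (∀ v, mu1 (D ∩ u ⁻¹' {v}) = mu1 (D ∩ w ⁻¹' {v})) →
      ∃ τ : MPI mu1, (∀ᵐ x ∂mu1, x ∈ D → τ.f x ∈ D ∧ u (τ.f x) = w x) ∧
        (∀ᵐ x ∂mu1, x ∉ D → τ.f x = x) ∧ (∀ᵐ x ∂mu1, x ∈ D → u x = w x → τ.f x = x))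
    (arrange : ∀ (A B : ℝ), -1 < A → A ≤ B → B < 1 → ∀ (V : Finset ℝ) (p : ℝ → ℝ),
      (∀ v, 0 ≤ p v) → (∀ v, v ∉ V → p v = 0) → ∑ v ∈ V, p v = B - A →
      ∃ w : ℝ → ℝ, StepOn (Ico A B) w ∧ ∀ v, volume (Ico A B ∩ w ⁻¹' {v}) = ENNReal.ofReal (p v))
    (stepApprox : ∀ (A B : ℝ), -1 < A → A < B → B < 1 → ∀ (u : ℝ → ℝ), Measurable u →
      ∀ (V : Finset ℝ), (∀ᵐ x ∂(volume.restrict (Ico A B)), u x ∈ V) → ∀ ε : ℝ, 0 < ε →
      ∃ w : ℝ → ℝ, StepOn (Ico A B) w ∧
        (∀ v, volume (Ico A B ∩ w ⁻¹' {v}) = volume (Ico A B ∩ u ⁻¹' {v})) ∧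
        volume (Ico A B ∩ {x | w x ≠ u x}) ≤ ENNReal.ofReal ε)
    (blockThm : ∃ C : ℝ, 0 < C ∧ ∀ (A B : ℝ), -1 < A → A < B → B < 1 →
      ∀ (m : ℕ) (g : ℝ) (c a : Fin m → ℝ) (η : ℝ), 0 < η → η ≤ 1 →
      (∀ k, 1 - η ≤ a k ∧ a k ≤ 1) → g + ∑ k, c k * (1 - a k) = 0 → ∀ τ : ℝ, 0 < τ →
      ∃ h : ℝ → ℝ, StepOn (Ico A B) h ∧
        (∀ v, volume (Ico A B ∩ h ⁻¹' {v})
          = ENNReal.ofReal (B - A) * volume (Ico 0 1 ∩ (pat g c a) ⁻¹' {v})) ∧
        NN h ≤ ENNReal.ofReal (C * (B - A) * (|g| + (∑ k, |c k|) * √η) + τ)) :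
    ∃ C : ℝ, 0 < C ∧ ∀ (F s : ℝ → ℝ) (R : Set ℝ) (z1 z2 κ δ B : ℝ) (m : ℕ), Measurable F →
      StepOn R s → -1 < z1 → z1 < z2 → z2 < 1 → Disjoint R (Ico z1 z2) → 0 < κ → 0 < δ →
      4 * δ ≤ κ → κ ≤ B → 0 < m → (∀ᵐ x ∂mu1, x ∈ R → QQ δ (F x) = s x ∧ |F x| ≤ B) →
      (∀ᵐ x ∂mu1, x ∈ Ico z1 z2 → κ ≤ |F x| ∧ |F x| ≤ B) →
      ENNReal.ofReal (8 * δ / κ) ≤ mu1 (Ico z1 z2 ∩ {x | 0 < F x}) →
      ENNReal.ofReal (8 * δ / κ) ≤ mu1 (Ico z1 z2 ∩ {x | F x < 0}) → ∀ τ : ℝ, 0 < τ →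
      ∃ (ω : MPI mu1) (s' : ℝ → ℝ), StepOn R s' ∧
        (∀ᵐ x ∂mu1, x ∈ R ∪ Ico z1 z2 → ω.f x ∈ R ∪ Ico z1 z2) ∧
        (∀ᵐ x ∂mu1, x ∉ R ∪ Ico z1 z2 → ω.f x = x) ∧
        (∀ᵐ x ∂mu1, x ∈ R → QQ (δ / m) (F (ω.f x)) = s' x) ∧
        NN (fun x => s' x - s x) ≤ ENNReal.ofReal (C * (δ + B * √(δ / κ)) + τ) ∧
        mu1 {x | x ∈ R ∧ ω.f x ≠ x} ≤ ENNReal.ofReal (8 * δ / κ + τ) := by
  obtain ⟨C, hC, hblock⟩ := blockThm
  refine ⟨32 * C, by positivity, ?_⟩
  intro F s R z1 z2 κ δ B m hF hs hz1 hz hz2 hd hκ hδ h4δ hκB hm hFR hFZ hpos hneg τ hτ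
  classical
  have hm' : (1 : ℝ) ≤ m := by exact_mod_cast hm
  have hm0 : (0 : ℝ) < m := by linarith
  set d1 : ℝ := δ / m with hd1def
  have hd1 : 0 < d1 := div_pos hδ hm0
  have hd1δ : d1 ≤ δ := div_le_self hδ.le hm'
  have hB : 0 < B := hκ.trans_le hκB
  set u : ℝ → ℝ := fun x => QQ d1 (F x) with hudef
  have hu : Measurable u := (QQ_meas d1).comp hF
  set V := grid d1 B with hVdef
  have hVB : ∀ v ∈ V, |v| ≤ B := fun v hv => grid_le hd1 hv
  set Z := Ico z1 z2 with hZdef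
  have hZm : MeasurableSet Z := measurableSet_Ico
  have hRm : MeasurableSet R := hs.meas_set
  have hRI : R ⊆ Icc (-1) 1 := hs.sub_set.trans Ioo_subset_Icc_self
  have hZI : Z ⊆ Icc (-1) 1 := fun x hx => ⟨(hz1.trans_le hx.1).le, (hx.2.trans hz2).le⟩
  set D := R ∪ Z with hDdef
  have hDm : MeasurableSet D := hRm.union hZm
  have hDI : D ⊆ Icc (-1) 1 := union_subset hRI hZI
  have hfinI : ∀ S : Set ℝ, S ⊆ Icc (-1) 1 → volume S ≠ ⊤ := fun S hS =>
    ne_top_of_le_ne_top (by simp) (measure_mono hS)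
  have hFR' := (ae_mu1 hRI).1 hFR
  have hFZ' := (ae_mu1 hZI).1 hFZ
  have huR : ∀ᵐ x, x ∈ R → u x ∈ V := by
    filter_upwards [hFR'] with x hx hxR
    exact grid_mem hd1 (hx hxR).2
  have huZ : ∀ᵐ x, x ∈ Z → u x ∈ V := by
    filter_upwards [hFZ'] with x hx hxZ
    exact grid_mem hd1 (hx hxZ).2
  have huD : ∀ᵐ x, x ∈ D → u x ∈ V := by
    filter_upwards [huR, huZ] with x h1 h2 hx
    rcases hx with hx | hx
    · exact h1 hx
    · exact h2 hx
  -- the two reservoirs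
  set Zp := Z ∩ {x | 0 < F x} with hZp
  set Zn := Z ∩ {x | F x < 0} with hZn
  have hZpm : MeasurableSet Zp := hZm.inter (measurableSet_lt measurable_const hF)
  have hZnm : MeasurableSet Zn := hZm.inter (measurableSet_lt hF measurable_const)
  have hZpI : Zp ⊆ Icc (-1) 1 := inter_subset_left.trans hZI
  have hZnI : Zn ⊆ Icc (-1) 1 := inter_subset_left.trans hZI
  rw [mu1_eq hZpI] at hpos
  rw [mu1_eq hZnI] at hneg
  have hq0 : 0 < 8 * δ / κ := by positivity
  have hMp : 8 * δ / κ ≤ (volume Zp).toReal :=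
    (ENNReal.ofReal_le_iff_le_toReal (hfinI _ hZpI)).1 hpos
  have hMn : 8 * δ / κ ≤ (volume Zn).toReal :=
    (ENNReal.ofReal_le_iff_le_toReal (hfinI _ hZnI)).1 hneg
  set νp : ℝ → ℝ := fun v => (volume (Zp ∩ u ⁻¹' {v})).toReal / (volume Zp).toReal with hνp
  set νn : ℝ → ℝ := fun v => (volume (Zn ∩ u ⁻¹' {v})).toReal / (volume Zn).toReal with hνn
  obtain ⟨p1, p2, p3, p4, p5⟩ := nu_facts hZpm hu V
    (by filter_upwards [huZ] with x hx hxZ using hx hxZ.1) (hq0.trans_le hMp) (hfinI _ hZpI) hνp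
  obtain ⟨n1, n2, n3, n4, n5⟩ := nu_facts hZnm hu V
    (by filter_upwards [huZ] with x hx hxZ using hx hxZ.1) (hq0.trans_le hMn) (hfinI _ hZnI) hνn
  have hvp : κ / 2 ≤ ∑ v ∈ V, v * νp v := by
    refine p5 _ ?_
    filter_upwards [hFZ'] with x hx hxZ
    have h1 := (hx hxZ.1).1
    have h2 : 0 < F x := hxZ.2
    rw [abs_of_pos h2] at h1
    have h3 := QQ_pos_facts hd1 h2.le
    show κ / 2 ≤ QQ d1 (F x)
    linarith [h3.2.2]
  have hvn : ∑ v ∈ V, v * νn v ≤ -(κ / 2) := by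
    refine n4 _ ?_
    filter_upwards [hFZ'] with x hx hxZ
    have h1 := (hx hxZ.1).1
    have h2 : F x < 0 := hxZ.2
    rw [abs_of_neg h2] at h1
    have h3 := QQ_neg_facts hd1 h2.le
    show QQ d1 (F x) ≤ -(κ / 2)
    linarith [h3.2.2]
  have hVne : V.Nonempty := by
    rw [Finset.nonempty_iff_ne_empty]
    intro h
    rw [h] at p3
    simp at p3
  -- the partition
  have hτ2 : 0 < τ := hτ
  obtain ⟨K, hK, A, A', cc, rr, k1, k2, k3, k4, k5, k6, k7, k8⟩ :=
    partition_data stepApprox hs hu V ((ae_mu1 hRI).2 huR)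
      (fun c r => ∃ y, QQ δ y = c ∧ QQ d1 y = r ∧ |y| ≤ B)
      (by
        filter_upwards [hFR] with x hx hxR
        exact ⟨F x, (hx hxR).1, rfl, (hx hxR).2⟩) hτ2
  have hJR : ∀ j, Ico (A j) (A' j) ⊆ R := fun j => by
    rw [k4]; exact subset_iUnion (fun j => Ico (A j) (A' j)) j
  have hτ' : 0 < τ / (Fintype.card K + 1) := by positivity
  have hpiece : ∀ j, ∃ η : ℝ, 0 ≤ η ∧ η ≤ 2 * δ / κ ∧ ∃ h : ℝ → ℝ, StepOn (Ico (A j) (A' j)) h ∧
      (∀ v, volume (Ico (A j) (A' j) ∩ {x | h x + cc j = v})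
        ≤ ENNReal.ofReal ((A' j - A j) * ((if v = rr j then 1 else 0) + η * (νp v + νn v)))) ∧
      volume (Ico (A j) (A' j) ∩ {x | h x + cc j ≠ rr j}) ≤ ENNReal.ofReal ((A' j - A j) * η) ∧
      NN h ≤ ENNReal.ofReal (C * (A' j - A j) * (δ + 8 * B * √η) + τ / (Fintype.card K + 1)) := by
    intro j
    obtain ⟨y, hy1, hy2, hy3⟩ := k8 j
    obtain ⟨hc, hr, hcr, η, h0, h1, h2, h3⟩ := eta_exists hm hδ hκ hy1 hy2 hy3 hvn hvp
    refine ⟨η, h0, h2, ?_⟩
    have hlen : 0 ≤ A' j - A j := by linarith [k1 j]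
    rcases h3 with h3 | h3
    · obtain ⟨h, g1, g2, g3, g4⟩ := piece hC sortedPattern hblock (k2 j).1 (k1 j) (k2 j).2 hVne hVB
        n1 n2 n3 hc hr h0 h1 h3 hcr hτ'
      refine ⟨h, g1, fun v => (g2 v).trans (ENNReal.ofReal_le_ofReal ?_), g3, g4⟩
      refine mul_le_mul_of_nonneg_left ?_ hlen
      have := mul_nonneg h0 (p1 v)
      linarith
    · obtain ⟨h, g1, g2, g3, g4⟩ := piece hC sortedPattern hblock (k2 j).1 (k1 j) (k2 j).2 hVne hVB
        p1 p2 p3 hc hr h0 h1 h3 hcr hτ'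
      refine ⟨h, g1, fun v => (g2 v).trans (ENNReal.ofReal_le_ofReal ?_), g3, g4⟩
      refine mul_le_mul_of_nonneg_left ?_ hlen
      have := mul_nonneg h0 (n1 v)
      linarith
  choose η e1 e2 h g1 g2 g3 g4 using hpiece
  -- total length
  have hlen : ∑ j, (A' j - A j) ≤ 2 := by
    have h1 : ∑ j, ENNReal.ofReal (A' j - A j) ≤ volume (Icc (-1 : ℝ) 1) := by
      have := vol_iUnion_fin (fun j => Ico (A j) (A' j)) (fun j => measurableSet_Ico) k3
      simp only [Real.volume_Ico] at this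
      rw [← this, ← k4]
      exact measure_mono hRI
    rw [← ENNReal.ofReal_sum_of_nonneg (fun j _ => by linarith [k1 j]), Real.volume_Icc] at h1
    have := (ENNReal.ofReal_le_ofReal_iff (by norm_num)).1 h1
    linarith
  set s' : ℝ → ℝ := fun x => ∑ j, (Ico (A j) (A' j)).indicator (fun x => h j x + cc j) x with hs'def
  have hs' : StepOn R s' := by
    rw [k4]
    exact StepOn.glue (fun j => Ico (A j) (A' j)) _ (fun j => (g1 j).map_const (fun v => v + cc j)) k3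
  have hs'on : ∀ j, ∀ x ∈ Ico (A j) (A' j), s' x = h j x + cc j := by
    intro j x hx
    rw [hs'def]
    simp only
    rw [Finset.sum_eq_single j]
    · rw [indicator_of_mem hx]
    · intro i _ hij
      refine indicator_of_notMem (fun hi => ?_) _
      exact disjoint_left.1 (k3 i j hij) hi hx
    · intro hni; exact absurd (Finset.mem_univ j) hni
  have hdiff : ∀ x, s' x - s x = ∑ j, h j x := by
    intro x
    by_cases hx : x ∈ R
    · have hx' := hx
      rw [k4] at hx'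
      obtain ⟨j, hj⟩ := mem_iUnion.1 hx'
      rw [hs'on j x hj, k5 j x hj, Finset.sum_eq_single j]
      · ring
      · intro i _ hij
        exact (g1 i).zero_off fun hi => disjoint_left.1 (k3 i j hij) hi hj
      · intro hni; exact absurd (Finset.mem_univ j) hni
    · rw [hs'.zero_off hx, hs.zero_off hx, sub_self]
      symm
      exact Finset.sum_eq_zero fun j _ => (g1 j).zero_off fun hj => hx (hJR j hj)
  have hNN : NN (fun x => s' x - s x) ≤ ENNReal.ofReal (32 * C * (δ + B * √(δ / κ)) + τ) := by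
    have e : (fun x => s' x - s x) = fun x => ∑ j, h j x := funext hdiff
    rw [e]
    refine (NN_sum _ _ fun j _ => (g1 j).ii).trans ((Finset.sum_le_sum fun j _ => g4 j).trans ?_)
    have hnn : ∀ j, 0 ≤ C * (A' j - A j) * (δ + 8 * B * √(η j)) + τ / (Fintype.card K + 1) := by
      intro j
      have := k1 j
      have h1 : 0 ≤ C * (A' j - A j) := mul_nonneg hC.le (by linarith)
      have h2 : 0 ≤ δ + 8 * B * √(η j) := by positivity
      have := mul_nonneg h1 h2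
      linarith
    rw [← ENNReal.ofReal_sum_of_nonneg fun j _ => hnn j]
    refine ENNReal.ofReal_le_ofReal ?_
    have hsq : ∀ j, √(η j) ≤ 2 * √(δ / κ) := by
      intro j
      rw [Real.sqrt_le_left (by positivity), mul_pow, Real.sq_sqrt (by positivity)]
      refine (e2 j).trans ?_
      have : 0 ≤ δ / κ := by positivity
      rw [mul_div_assoc]
      linarith
    have hb : ∀ j, C * (A' j - A j) * (δ + 8 * B * √(η j)) + τ / (Fintype.card K + 1)
        ≤ C * (δ + 16 * B * √(δ / κ)) * (A' j - A j) + τ / (Fintype.card K + 1) := by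
      intro j
      have h1 : 0 ≤ C * (A' j - A j) := mul_nonneg hC.le (by linarith [k1 j])
      have h2 : δ + 8 * B * √(η j) ≤ δ + 16 * B * √(δ / κ) := by
        have := mul_le_mul_of_nonneg_left (hsq j) (by positivity : 0 ≤ 8 * B)
        linarith
      have h3 := mul_le_mul_of_nonneg_left h2 h1
      linarith
    refine (Finset.sum_le_sum fun j _ => hb j).trans ?_
    rw [Finset.sum_add_distrib, ← Finset.mul_sum, Finset.sum_const, Finset.card_univ, nsmul_eq_mul]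
    have h5 : (Fintype.card K : ℝ) * (τ / (Fintype.card K + 1)) ≤ τ := by
      have : (0 : ℝ) ≤ Fintype.card K := by positivity
      rw [mul_div_assoc', div_le_iff₀ (by positivity)]
      nlinarith
    have h6 : 0 ≤ C * (δ + 16 * B * √(δ / κ)) := by positivity
    have h7 := mul_le_mul_of_nonneg_left hlen h6
    have h8 : C * (δ + 16 * B * √(δ / κ)) * 2 ≤ 32 * C * (δ + B * √(δ / κ)) := by
      have : 0 ≤ C * δ := by positivity
      nlinarith
    linarith
  -- levels of s'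
  have hMfin : ∀ S : Set ℝ, S ⊆ Icc (-1) 1 → ∀ T : Set ℝ, volume (S ∩ T) ≠ ⊤ := fun S hS T =>
    hfinI _ (inter_subset_left.trans hS)
  have hlev : ∀ v, volume (R ∩ s' ⁻¹' {v}) ≤ volume (D ∩ u ⁻¹' {v}) := by
    intro v
    have hD1 : volume (R ∩ u ⁻¹' {v}) + volume (Z ∩ u ⁻¹' {v}) ≤ volume (D ∩ u ⁻¹' {v}) := by
      rw [← measure_union (hd.mono inter_subset_left inter_subset_left)
        (hZm.inter (hu (measurableSet_singleton v))), ← union_inter_distrib_right]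
    have hD2 : volume (Zp ∩ u ⁻¹' {v}) + volume (Zn ∩ u ⁻¹' {v}) ≤ volume (Z ∩ u ⁻¹' {v}) := by
      rw [← measure_union ?_ (hZnm.inter (hu (measurableSet_singleton v)))]
      · refine measure_mono ?_
        rintro x (hx | hx)
        · exact ⟨hx.1.1, hx.2⟩
        · exact ⟨hx.1.1, hx.2⟩
      · refine disjoint_left.2 fun x hx hx' => ?_
        have h1 : 0 < F x := hx.1.2
        have h2 : F x < 0 := hx'.1.2
        linarith
    refine le_trans ?_ hD1
    refine le_trans ?_ (add_le_add_right hD2 _)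
    have e3 : R ∩ s' ⁻¹' {v} = ⋃ j, (Ico (A j) (A' j) ∩ s' ⁻¹' {v}) := by
      rw [← iUnion_inter, ← k4]
    rw [e3, vol_iUnion_fin _ (fun j => measurableSet_Ico.inter (hs'.meas (measurableSet_singleton v)))
      (fun i j hij => (k3 i j hij).mono inter_subset_left inter_subset_left)]
    have e4 : ∀ j, volume (Ico (A j) (A' j) ∩ s' ⁻¹' {v}) ≤
        (if v = rr j then ENNReal.ofReal (A' j - A j) else 0) +
          ENNReal.ofReal ((A' j - A j) * (2 * δ / κ * (νp v + νn v))) := by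
      intro j
      have e5 : Ico (A j) (A' j) ∩ s' ⁻¹' {v} = Ico (A j) (A' j) ∩ {x | h j x + cc j = v} := by
        ext x
        refine and_congr_right fun hx => ?_
        show s' x = v ↔ h j x + cc j = v
        rw [hs'on j x hx]
      rw [e5]
      refine (g2 j v).trans ?_
      have hl : 0 ≤ A' j - A j := by linarith [k1 j]
      have hv0 : 0 ≤ νp v + νn v := add_nonneg (p1 v) (n1 v)
      rw [mul_add, ENNReal.ofReal_add (mul_nonneg hl (by split_ifs <;> norm_num))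
        (mul_nonneg hl (mul_nonneg (e1 j) hv0))]
      refine add_le_add ?_ ?_
      · split_ifs <;> simp
      · exact ENNReal.ofReal_le_ofReal
          (mul_le_mul_of_nonneg_left (mul_le_mul_of_nonneg_right (e2 j) hv0) hl)
    refine (Finset.sum_le_sum fun j _ => e4 j).trans ?_
    rw [Finset.sum_add_distrib]
    refine add_le_add (k6 v) ?_
    have hv0 : 0 ≤ 2 * δ / κ * (νp v + νn v) := mul_nonneg (by positivity) (add_nonneg (p1 v) (n1 v))
    rw [← ENNReal.ofReal_sum_of_nonneg (fun j _ => mul_nonneg (by linarith [k1 j]) hv0), ← Finset.sum_mul]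
    have e6 : (∑ j, (A' j - A j)) * (2 * δ / κ * (νp v + νn v)) ≤
        4 * δ / κ * νp v + 4 * δ / κ * νn v := by
      have := mul_le_mul_of_nonneg_right hlen hv0
      refine this.trans (le_of_eq ?_)
      ring
    have h4p : 4 * δ / κ ≤ (volume Zp).toReal := le_trans (by
      rw [div_le_div_iff_of_pos_right hκ]; linarith) hMp
    have h4n : 4 * δ / κ ≤ (volume Zn).toReal := le_trans (by
      rw [div_le_div_iff_of_pos_right hκ]; linarith) hMn
    refine (ENNReal.ofReal_le_ofReal e6).trans ?_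
    rw [ENNReal.ofReal_add (mul_nonneg (by positivity) (p1 v)) (mul_nonneg (by positivity) (n1 v))]
    refine add_le_add ?_ ?_
    · refine ENNReal.ofReal_le_of_le_toReal ?_
      refine (mul_le_mul_of_nonneg_right h4p (p1 v)).trans (le_of_eq ?_)
      rw [hνp]
      simp only
      rw [mul_div_cancel₀]
      exact (hq0.trans_le hMp).ne'
    · refine ENNReal.ofReal_le_of_le_toReal ?_
      refine (mul_le_mul_of_nonneg_right h4n (n1 v)).trans (le_of_eq ?_)
      rw [hνn]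
      simp only
      rw [mul_div_cancel₀]
      exact (hq0.trans_le hMn).ne'
  have hDnull : ∀ v, v ∉ V → volume (D ∩ u ⁻¹' {v}) = 0 := by
    intro v hv
    rw [ae_iff] at huD
    refine measure_mono_null ?_ huD
    rintro x ⟨hx1, hx2⟩ h'
    have h3 : u x = v := hx2
    have h4 := h' hx1
    rw [h3] at h4
    exact hv h4
  have hs'V : ∀ x ∈ R, s' x ∈ V := hs'.mem_of_levels V fun v hv =>
    le_antisymm ((hlev v).trans (hDnull v hv).le) bot_le
  have hRsum : volume R = ∑ v ∈ V, volume (R ∩ s' ⁻¹' {v}) :=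
    vol_levels_ae hs'.meas hRm V ((ae_restrict_iff' hRm).2 (Eventually.of_forall hs'V))
  have hDsum : volume D = ∑ v ∈ V, volume (D ∩ u ⁻¹' {v}) :=
    vol_levels_ae hu hDm V ((ae_restrict_iff' hDm).2 huD)
  have hDRZ : volume D = volume R + volume Z := measure_union hd hZm
  set q : ℝ → ℝ := fun v => (volume (D ∩ u ⁻¹' {v}) - volume (R ∩ s' ⁻¹' {v})).toReal with hqdef
  obtain ⟨wZ, hwZ, hwZl⟩ := arrange z1 z2 hz1 hz.le hz2 V q (fun v => ENNReal.toReal_nonneg)
    (fun v hv => by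
      rw [hqdef]
      simp only
      rw [hDnull v hv]; simp)
    (by
      rw [hqdef]
      simp only
      have e7 : ∀ v ∈ V, (volume (D ∩ u ⁻¹' {v}) - volume (R ∩ s' ⁻¹' {v})).toReal =
          (volume (D ∩ u ⁻¹' {v})).toReal - (volume (R ∩ s' ⁻¹' {v})).toReal := fun v _ =>
        ENNReal.toReal_sub_of_le (hlev v) (hMfin D hDI _)
      rw [Finset.sum_congr rfl e7, Finset.sum_sub_distrib,
        ← ENNReal.toReal_sum fun v _ => hMfin D hDI _, ← ENNReal.toReal_sum fun v _ => hMfin R hRI _,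
        ← hRsum, ← hDsum, hDRZ, ENNReal.toReal_add (hfinI R hRI) (hfinI Z hZI), hZdef, Real.volume_Ico,
        ENNReal.toReal_ofReal (by linarith)]
      ring)
  set w : ℝ → ℝ := fun x => s' x + wZ x with hwdef
  have hw : Measurable w := hs'.meas.add hwZ.meas
  have hwR : ∀ x ∈ R, w x = s' x := by
    intro x hx
    show s' x + wZ x = s' x
    rw [hwZ.zero_off fun hxZ => disjoint_left.1 hd hx hxZ, add_zero]
  have hwZ' : ∀ x ∈ Z, w x = wZ x := by
    intro x hx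
    show s' x + wZ x = wZ x
    rw [hs'.zero_off fun hxR => disjoint_left.1 hd hxR hx, zero_add]
  have hwl : ∀ v, volume (D ∩ w ⁻¹' {v}) = volume (D ∩ u ⁻¹' {v}) := by
    intro v
    have e8 : D ∩ w ⁻¹' {v} = (R ∩ s' ⁻¹' {v}) ∪ (Z ∩ wZ ⁻¹' {v}) := by
      rw [hDdef, union_inter_distrib_right]
      congr 1
      · ext x
        refine and_congr_right fun hx => ?_
        show w x = v ↔ s' x = v
        rw [hwR x hx]
      · ext x
        refine and_congr_right fun hx => ?_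
        show w x = v ↔ wZ x = v
        rw [hwZ' x hx]
    rw [e8, measure_union (hd.mono inter_subset_left inter_subset_left)
      (hZm.inter (hwZ.meas (measurableSet_singleton v))), hwZl v, hqdef]
    simp only
    rw [ENNReal.ofReal_toReal (ne_top_of_le_ne_top (hMfin D hDI _) tsub_le_self),
      add_tsub_cancel_of_le (hlev v)]
  have hwV : ∀ᵐ x, x ∈ D → w x ∈ V := by
    have := ae_of_vol_levels hw hDm (hfinI D hDI) V (by
      rw [hDsum]; exact Finset.sum_congr rfl fun v _ => (hwl v).symm)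
    exact (ae_restrict_iff' hDm).1 this
  obtain ⟨ω, o1, o2, o3⟩ := match_on D hDm u w hu hw V ((ae_mu1 hDI).2 huD) ((ae_mu1 hDI).2 hwV)
    (by
      intro v
      rw [mu1_eq (inter_subset_left.trans hDI), mu1_eq (inter_subset_left.trans hDI), hwl v])
  refine ⟨ω, s', hs', ?_, o2, ?_, hNN, ?_⟩
  · filter_upwards [o1] with x hx hxD using (hx hxD).1
  · filter_upwards [o1] with x hx hxR
    have := (hx (Or.inl hxR)).2
    rw [hwR x hxR] at this
    exact this
  · have hsubm : ∀ᵐ x ∂mu1, x ∈ {x | x ∈ R ∧ ω.f x ≠ x} → x ∈ (⋃ j, (Ico (A j) (A' j) ∩ {x | rr j ≠ u x})) ∪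
        ⋃ j, (Ico (A j) (A' j) ∩ {x | h j x + cc j ≠ rr j}) := by
      filter_upwards [o3] with x hx hx'
      obtain ⟨hxR, hxω⟩ := hx'
      have h1 : u x ≠ w x := fun h' => hxω (hx (Or.inl hxR) h')
      rw [hwR x hxR] at h1
      have hx2 := hxR
      rw [k4] at hx2
      obtain ⟨j, hj⟩ := mem_iUnion.1 hx2
      rw [hs'on j x hj] at h1
      by_cases h2 : rr j = u x
      · right
        refine mem_iUnion.2 ⟨j, hj, ?_⟩
        show h j x + cc j ≠ rr j
        rw [h2]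
        exact h1.symm
      · left
        exact mem_iUnion.2 ⟨j, hj, h2⟩
    have h1 : mu1 {x | x ∈ R ∧ ω.f x ≠ x} ≤ mu1 ((⋃ j, (Ico (A j) (A' j) ∩ {x | rr j ≠ u x})) ∪
        ⋃ j, (Ico (A j) (A' j) ∩ {x | h j x + cc j ≠ rr j})) := measure_mono_ae hsubm
    refine h1.trans ((Measure.restrict_apply_le _ _).trans ((measure_union_le _ _).trans ?_))
    have h2 : volume (⋃ j, (Ico (A j) (A' j) ∩ {x | h j x + cc j ≠ rr j})) ≤ ENNReal.ofReal (8 * δ / κ) := by
      refine (measure_iUnion_fintype_le _ _).trans ((Finset.sum_le_sum fun j _ => g3 j).trans ?_)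
      rw [← ENNReal.ofReal_sum_of_nonneg fun j _ => mul_nonneg (by linarith [k1 j]) (e1 j)]
      refine ENNReal.ofReal_le_ofReal ?_
      have h3 : ∀ j, (A' j - A j) * η j ≤ (A' j - A j) * (2 * δ / κ) := fun j =>
        mul_le_mul_of_nonneg_left (e2 j) (by linarith [k1 j])
      refine (Finset.sum_le_sum fun j _ => h3 j).trans ?_
      rw [← Finset.sum_mul]
      have h4 := mul_le_mul_of_nonneg_right hlen (by positivity : 0 ≤ 2 * δ / κ)
      refine h4.trans ?_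
      have : 0 ≤ δ / κ := by positivity
      rw [mul_div_assoc, mul_div_assoc]
      linarith
    rw [ENNReal.ofReal_add (by positivity) hτ.le, add_comm (ENNReal.ofReal (8 * δ / κ))]
    exact add_le_add k7 h2

end Pool.Agent.Helper187.Leg.O2
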