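import Pool.Agent.Helper187.Leg.Defs

open MeasureTheory Set Real Filter Topology
open scoped ENNReal

namespace Pool.Agent.Helper187.Leg.S1

open Pool.Agent.Helper187.Leg





theorem stepOn_empty : StepOn ∅ (fun _ => (0:ℝ)) := by
  refine ⟨Empty, inferInstance, fun _ => 0, fun _ => 0, fun _ => 0, ?_, ?_, ?_, ?_, ?_, ?_⟩
  · intro i; exact i.elim
  · intro i; exact i.elim
  · intro i; exact i.elim
  · simp
  · intro i; exact i.elim
  · intro x _; rfl

theorem stepOn_const {A B : ℝ} (hA : -1 < A) (hAB : A ≤ B) (hB : B < 1) (c : ℝ) :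
    StepOn (Ico A B) ((Ico A B).indicator (fun _ => c)) := by
  rcases hAB.eq_or_lt with h | h
  · subst h
    simpa using stepOn_empty
  · refine ⟨Unit, inferInstance, fun _ => A, fun _ => B, fun _ => c, fun _ => h, fun _ => ⟨hA, hB⟩,
      ?_, ?_, ?_, ?_⟩
    · intro i j hij; exact absurd (Subsingleton.elim i j) hij
    · exact (iUnion_const _).symm
    · intro _ x hx; exact indicator_of_mem hx _
    · intro x hx; exact indicator_of_notMem hx _

theorem stepOn_glue {J K : Set ℝ} (hJK : Disjoint J K) {w z : ℝ → ℝ} (hw : StepOn J w)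
    (hz : StepOn K z) : StepOn (J ∪ K) (fun x => w x + z x) := by
  obtain ⟨ι, _, a, b, c, h1, h2, h3, h4, h5, h6⟩ := hw
  obtain ⟨κ, _, a', b', c', k1, k2, k3, k4, k5, k6⟩ := hz
  have hsubJ : ∀ i, Ico (a i) (b i) ⊆ J := fun i => by rw [h4]; exact subset_iUnion (fun i => Ico (a i) (b i)) i
  have hsubK : ∀ i, Ico (a' i) (b' i) ⊆ K := fun i => by rw [k4]; exact subset_iUnion (fun i => Ico (a' i) (b' i)) i
  refine ⟨ι ⊕ κ, inferInstance, Sum.elim a a', Sum.elim b b', Sum.elim c c', ?_, ?_, ?_, ?_, ?_, ?_⟩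
  · rintro (i | i)
    · exact h1 i
    · exact k1 i
  · rintro (i | i)
    · exact h2 i
    · exact k2 i
  · rintro (i | i) (j | j) hij
    · exact h3 i j (fun h => hij (by rw [h]))
    · exact hJK.mono (hsubJ i) (hsubK j)
    · exact (hJK.mono (hsubJ j) (hsubK i)).symm
    · exact k3 i j (fun h => hij (by rw [h]))
  · rw [h4, k4]
    ext x
    simp
  · rintro (i | i) x hx
    · have hxJ : x ∈ J := hsubJ i hx
      have hxK : x ∉ K := fun h => (Set.disjoint_left.mp hJK) hxJ h
      show w x + z x = c i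
      rw [h5 i x hx, k6 x hxK, add_zero]
    · have hxK : x ∈ K := hsubK i hx
      have hxJ : x ∉ J := fun h => (Set.disjoint_left.mp hJK) h hxK
      show w x + z x = c' i
      rw [k5 i x hx, h6 x hxJ, zero_add]
  · intro x hx
    rw [mem_union, not_or] at hx
    show w x + z x = 0
    rw [h6 x hx.1, k6 x hx.2, add_zero]

theorem stepOn_measurable {J : Set ℝ} {w : ℝ → ℝ} (hw : StepOn J w) : Measurable w := by
  classical
  obtain ⟨ι, _, a, b, c, h1, h2, h3, h4, h5, h6⟩ := hw
  have : w = fun x => ∑ i, (Ico (a i) (b i)).indicator (fun _ => c i) x := by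
    funext x
    by_cases hx : x ∈ J
    · have hx' := hx
      rw [h4, mem_iUnion] at hx'
      obtain ⟨i, hi⟩ := hx'
      rw [Finset.sum_eq_single i]
      · rw [indicator_of_mem hi, h5 i x hi]
      · intro j _ hj
        apply indicator_of_notMem
        intro hxj
        exact (Set.disjoint_left.mp (h3 i j (Ne.symm hj))) hi hxj
      · intro h; exact absurd (Finset.mem_univ i) h
    · rw [h6 x hx]
      symm
      apply Finset.sum_eq_zero
      intro i _
      apply indicator_of_notMem
      intro hxi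
      apply hx
      rw [h4]
      exact mem_iUnion.mpr ⟨i, hxi⟩
  rw [this]
  apply Finset.measurable_sum
  intro i _
  exact measurable_const.indicator measurableSet_Ico

theorem stepOn_zero_off {J : Set ℝ} {w : ℝ → ℝ} (hw : StepOn J w) {x : ℝ} (hx : x ∉ J) : w x = 0 := by
  obtain ⟨ι, _, a, b, c, h1, h2, h3, h4, h5, h6⟩ := hw
  exact h6 x hx

theorem Ico_glue {A C B : ℝ} (hAC : A ≤ C) (hCB : C ≤ B) (S : Set ℝ) :
    volume (Ico A B ∩ S) = volume (Ico A C ∩ S) + volume (Ico C B ∩ S) := by
  have h1 : Ico A B ∩ S = (Ico A C ∩ S) ∪ (Ico C B ∩ S) := by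
    rw [← union_inter_distrib_right, Ico_union_Ico_eq_Ico hAC hCB]
  rw [← measure_inter_add_diff (Ico A B ∩ S) (measurableSet_Ico (a := A) (b := C))]
  congr 2
  · ext x
    simp only [mem_inter_iff, mem_Ico]
    constructor
    · rintro ⟨⟨_, h2⟩, h3⟩; exact ⟨h3, h2⟩
    · rintro ⟨h3, h2⟩; exact ⟨⟨⟨h3.1, h3.2.trans_le hCB⟩, h2⟩, h3⟩
  · ext x
    simp only [mem_inter_iff, mem_Ico, mem_diff, not_and, not_lt]
    constructor
    · rintro ⟨⟨h1, h2⟩, h3⟩; exact ⟨⟨h3 h1.1, h1.2⟩, h2⟩
    · rintro ⟨h3, h2⟩; exact ⟨⟨⟨hAC.trans h3.1, h3.2⟩, h2⟩, fun _ => h3.1⟩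

theorem arrange {A B : ℝ} (hA : -1 < A) (hAB : A ≤ B) (hB : B < 1) (V : Finset ℝ) (p : ℝ → ℝ)
    (hp : ∀ v, 0 ≤ p v) (hpV : ∀ v, v ∉ V → p v = 0) (hsum : ∑ v ∈ V, p v = B - A) :
    ∃ w : ℝ → ℝ, StepOn (Ico A B) w ∧ ∀ v, volume (Ico A B ∩ w ⁻¹' {v}) = ENNReal.ofReal (p v) := by
  classical
  induction V using Finset.induction_on generalizing A p with
  | empty =>
    rw [Finset.sum_empty] at hsum
    have : A = B := by linarith
    subst this
    refine ⟨fun _ => 0, by simpa using stepOn_empty, fun v => ?_⟩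
    simp [hpV v (by simp)]
  | insert v0 V hv0 ih =>
    rw [Finset.sum_insert hv0] at hsum
    have hnn : 0 ≤ ∑ v ∈ V, p v := Finset.sum_nonneg (fun v _ => hp v)
    have hp0 := hp v0
    set C := A + p v0 with hC
    have hAC : A ≤ C := by linarith
    have hCB : C ≤ B := by linarith
    obtain ⟨w2, hw2, hl2⟩ := ih (A := C) (by linarith) hCB (Function.update p v0 0)
      (by
        intro v
        by_cases hv : v = v0
        · subst hv; simp
        · rw [Function.update_of_ne hv]; exact hp v)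
      (by
        intro v hv
        by_cases hv' : v = v0
        · subst hv'; simp
        · rw [Function.update_of_ne hv']
          exact hpV v (by simp [hv, hv']))
      (by
        have : ∑ v ∈ V, Function.update p v0 0 v = ∑ v ∈ V, p v := by
          apply Finset.sum_congr rfl
          intro v hv
          rw [Function.update_of_ne]
          intro h; exact hv0 (h ▸ hv)
        rw [this]; linarith)
    have hw1 := stepOn_const hA hAC (by linarith : C < 1) v0
    have hdis : Disjoint (Ico A C) (Ico C B) := by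
      rw [Set.disjoint_left]
      intro x hx hx'
      exact absurd hx.2 (not_lt.mpr hx'.1)
    refine ⟨fun x => (Ico A C).indicator (fun _ => v0) x + w2 x, ?_, ?_⟩
    · have := stepOn_glue hdis hw1 hw2
      rwa [Ico_union_Ico_eq_Ico hAC hCB] at this
    · intro v
      rw [Ico_glue hAC hCB]
      have e1 : Ico A C ∩ (fun x => (Ico A C).indicator (fun _ => v0) x + w2 x) ⁻¹' {v}
          = if v = v0 then Ico A C else ∅ := by
        ext x
        by_cases hx : x ∈ Ico A C
        · have h2 : w2 x = 0 := stepOn_zero_off hw2 (fun h => (Set.disjoint_left.mp hdis) hx h)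
          by_cases hv : v = v0
          · subst hv; simp [hx, h2]
          · simp [hx, h2, hv, Ne.symm hv]
        · by_cases hv : v = v0
          · subst hv; simp [hx]
          · simp [hx, hv]
      have e2 : Ico C B ∩ (fun x => (Ico A C).indicator (fun _ => v0) x + w2 x) ⁻¹' {v}
          = Ico C B ∩ w2 ⁻¹' {v} := by
        ext x
        by_cases hx : x ∈ Ico C B
        · have h2 : x ∉ Ico A C := fun h => (Set.disjoint_left.mp hdis) h hx
          simp [hx, indicator_of_notMem h2]
        · simp [hx]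
      rw [e1, e2, hl2 v]
      by_cases hv : v = v0
      · subst hv
        simp [hC]
      · rw [if_neg hv, Function.update_of_ne hv]
        simp

theorem exists_gap (V : Finset ℝ) : ∃ γ : ℝ, 0 < γ ∧ ∀ v ∈ V, ∀ v' ∈ V, v ≠ v' → γ ≤ |v - v'| := by
  classical
  by_cases h : V.offDiag.Nonempty
  · obtain ⟨q, hq, hmin⟩ := Finset.exists_min_image V.offDiag (fun q => |q.1 - q.2|) h
    rw [Finset.mem_offDiag] at hq
    refine ⟨|q.1 - q.2|, abs_pos.mpr (sub_ne_zero.mpr hq.2.2), ?_⟩
    intro v hv v' hv' hne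
    exact hmin (v, v') (Finset.mem_offDiag.mpr ⟨hv, hv', hne⟩)
  · refine ⟨1, one_pos, ?_⟩
    intro v hv v' hv' hne
    exact absurd ⟨(v, v'), Finset.mem_offDiag.mpr ⟨hv, hv', hne⟩⟩ h

theorem stepApprox {A B : ℝ} (hA : -1 < A) (hAB : A < B) (hB : B < 1) (u : ℝ → ℝ)
    (hu : Measurable u) (V : Finset ℝ) (huV : ∀ᵐ x ∂(volume.restrict (Ico A B)), u x ∈ V)
    {ε : ℝ} (hε : 0 < ε) :
    ∃ w : ℝ → ℝ, StepOn (Ico A B) w ∧
      (∀ v, volume (Ico A B ∩ w ⁻¹' {v}) = volume (Ico A B ∩ u ⁻¹' {v})) ∧
      volume (Ico A B ∩ {x | w x ≠ u x}) ≤ ENNReal.ofReal ε := by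
  classical
  have hVne : V.Nonempty := by
    by_contra h
    rw [Finset.not_nonempty_iff_eq_empty] at h
    subst h
    have h1 : volume (Ico A B) = 0 := by
      have := huV
      simp only [Finset.notMem_empty] at this
      rw [ae_iff] at this
      simpa using this
    rw [Real.volume_Ico] at h1
    rw [ENNReal.ofReal_eq_zero] at h1
    linarith
  obtain ⟨γ, hγ, hgap⟩ := exists_gap V
  set f : ℝ → ℝ := (Ico A B).indicator u with hf
  have hfm : Measurable f := hu.indicator measurableSet_Ico
  obtain ⟨M, hM⟩ : ∃ M : ℝ, ∀ v ∈ V, |v| ≤ M :=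
    ⟨∑ v ∈ V, |v|, fun v hv => Finset.single_le_sum (f := fun v => |v|) (fun i _ => abs_nonneg i) hv⟩
  have hfint : Integrable f volume := by
    rw [hf, integrable_indicator_iff measurableSet_Ico]
    have : IsFiniteMeasure (volume.restrict (Ico A B)) := ⟨by simp⟩
    refine Integrable.of_bound hu.aestronglyMeasurable M ?_
    filter_upwards [huV] with x hx
    exact hM _ hx
  obtain ⟨g, hgs, hgi, hgc, hgint⟩ := hfint.exists_hasCompactSupport_integral_sub_le
    (ε := γ / 8 * (ε / 2)) (by positivity)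
  have hguc : UniformContinuous g := hgs.uniformContinuous_of_continuous hgc
  obtain ⟨η, hη, hgη⟩ := Metric.uniformContinuous_iff.mp hguc (γ / 8) (by positivity)
  set Z : Set ℝ := {x | γ / 8 ≤ ‖f x - g x‖} with hZ
  have hZm : MeasurableSet Z := measurableSet_le measurable_const (hfm.sub hgc.measurable).norm
  have hZvol : volume Z ≤ ENNReal.ofReal (ε / 2) := by
    have h1 := mul_meas_ge_le_integral_of_nonneg (μ := volume) (f := fun x => ‖f x - g x‖)
      (Eventually.of_forall (fun x => norm_nonneg _)) (hfint.sub hgint).norm (γ / 8)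
    have h2 : γ / 8 * volume.real Z ≤ γ / 8 * (ε / 2) := h1.trans hgi
    have h3 : volume.real Z ≤ ε / 2 := le_of_mul_le_mul_left h2 (by positivity)
    have h4 : volume Z ≠ ⊤ := by
      have := (hfint.sub hgint).norm.measure_norm_ge_lt_top (ε := γ / 8) (by positivity)
      simp only [norm_norm] at this
      exact this.ne
    rw [← ENNReal.ofReal_toReal h4]
    exact ENNReal.ofReal_le_ofReal h3
  -- good intervals
  have small : ∀ C D, A ≤ C → C ≤ D → D ≤ B → D - C < η → ∃ w : ℝ → ℝ, StepOn (Ico C D) w ∧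
      (∀ v, volume (Ico C D ∩ w ⁻¹' {v}) = volume (Ico C D ∩ u ⁻¹' {v})) ∧
      volume (Ico C D ∩ {x | w x ≠ u x}) ≤ 2 * volume (Ico C D ∩ Z) := by
    intro C D hAC hCD hDB hDC
    have hsub : Ico C D ⊆ Ico A B := Ico_subset_Ico hAC hDB
    have huV' : ∀ᵐ x ∂(volume.restrict (Ico C D)), u x ∈ V := ae_restrict_of_ae_restrict_of_subset hsub huV
    obtain ⟨v0, hv0, hmin⟩ := Finset.exists_min_image V (fun v => |v - g C|) hVne
    have hfinI : ∀ S : Set ℝ, volume (Ico C D ∩ S) ≠ ⊤ := fun S =>
      ne_top_of_le_ne_top (by simp) (measure_mono (inter_subset_left : Ico C D ∩ S ⊆ Ico C D))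
    have hmeas : ∀ v, MeasurableSet (u ⁻¹' {v}) := fun v => hu (measurableSet_singleton v)
    have hsumV : ∑ v ∈ V, (volume (Ico C D ∩ u ⁻¹' {v})).toReal = D - C := by
      rw [← ENNReal.toReal_sum (fun v _ => hfinI _), ← measure_biUnion_finset]
      · have : volume (⋃ v ∈ V, Ico C D ∩ u ⁻¹' {v}) = volume (Ico C D) := by
          have h1 : (⋃ v ∈ V, Ico C D ∩ u ⁻¹' {v}) = {x | u x ∈ V} ∩ Ico C D := by
            ext x
            simp only [mem_iUnion, mem_inter_iff, mem_preimage, mem_singleton_iff, mem_setOf_eq,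
              exists_prop]
            constructor
            · rintro ⟨v, hv, hx, rfl⟩; exact ⟨hv, hx⟩
            · rintro ⟨hv, hx⟩; exact ⟨u x, hv, hx, rfl⟩
          rw [h1]
          have hms : MeasurableSet {x | u x ∈ V} := hu V.measurableSet
          rw [← Measure.restrict_apply hms]
          have : volume.restrict (Ico C D) {x | u x ∈ V} = volume.restrict (Ico C D) univ := by
            apply measure_congr
            filter_upwards [huV'] with x hx
            apply propext
            constructor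
            · intro _; exact mem_univ x
            · intro _; exact hx
          rw [this, Measure.restrict_apply_univ]
        rw [this, Real.volume_Ico, ENNReal.toReal_ofReal (by linarith)]
      · intro v _ v' _ hvv'
        rw [Function.onFun, Set.disjoint_left]
        rintro x ⟨_, hx⟩ ⟨_, hx'⟩
        exact hvv' (hx.symm.trans hx')
      · intro v _
        exact measurableSet_Ico.inter (hmeas v)
    obtain ⟨w, hw, hl⟩ := arrange (A := C) (B := D) (by linarith) hCD (by linarith) V
      (fun v => (volume (Ico C D ∩ u ⁻¹' {v})).toReal) (fun v => ENNReal.toReal_nonneg)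
      (by
        intro v hv
        have : volume (Ico C D ∩ u ⁻¹' {v}) = 0 := by
          rw [inter_comm, ← Measure.restrict_apply (hmeas v)]
          rw [ae_iff] at huV'
          refine measure_mono_null ?_ huV'
          intro x hx hx'
          rw [mem_preimage, mem_singleton_iff] at hx
          rw [hx] at hx'
          exact hv hx'
        simp [this]) hsumV
    have hl' : ∀ v, volume (Ico C D ∩ w ⁻¹' {v}) = volume (Ico C D ∩ u ⁻¹' {v}) := by
      intro v
      rw [hl v, ENNReal.ofReal_toReal (hfinI _)]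
    refine ⟨w, hw, hl', ?_⟩
    have hwm : Measurable w := stepOn_measurable hw
    have k1 : volume (Ico C D ∩ {x | w x ≠ v0}) = volume (Ico C D ∩ {x | u x ≠ v0}) := by
      have a1 := measure_inter_add_diff (μ := volume) (Ico C D) (hwm (measurableSet_singleton v0))
      have a2 := measure_inter_add_diff (μ := volume) (Ico C D) (hmeas v0)
      rw [hl' v0, ← a2] at a1
      have a3 := (ENNReal.add_right_inj (hfinI _)).mp a1
      rw [diff_eq, diff_eq] at a3
      exact a3
    have k2 : volume (Ico C D ∩ {x | u x ≠ v0}) ≤ volume (Ico C D ∩ Z) := by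
      have : ∀ᵐ x ∂(volume.restrict (Ico C D)), x ∈ {x | u x ≠ v0} → x ∈ Z := by
        filter_upwards [huV', ae_restrict_mem measurableSet_Ico] with x hx hxI hne
        by_contra hxZ
        apply hne
        have hfx : f x = u x := indicator_of_mem (hsub hxI) u
        rw [hZ, mem_setOf_eq, not_le, hfx, Real.norm_eq_abs] at hxZ
        have hgx : |g x - g C| < γ / 8 := by
          have := hgη (a := x) (b := C) (by
            rw [Real.dist_eq, abs_of_nonneg (by linarith [hxI.1])]
            linarith [hxI.2])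
          rwa [Real.dist_eq] at this
        by_contra hne'
        have g1 := hgap (u x) hx v0 hv0 hne'
        have g2 : |u x - g C| ≤ |u x - g x| + |g x - g C| := abs_sub_le _ _ _
        have g3 : |v0 - g C| ≤ |u x - g C| := hmin (u x) hx
        have g4 : |u x - v0| ≤ |u x - g C| + |g C - v0| := abs_sub_le _ _ _
        rw [abs_sub_comm (g C) v0] at g4
        linarith
      have h2 : volume.restrict (Ico C D) {x | u x ≠ v0} ≤ volume.restrict (Ico C D) Z :=
        measure_mono_ae this
      have hm0 : MeasurableSet {x | u x ≠ v0} := (hmeas v0).compl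
      rw [Measure.restrict_apply hm0, Measure.restrict_apply hZm] at h2
      rw [inter_comm _ (Ico C D), inter_comm _ (Ico C D)] at h2
      exact h2
    calc volume (Ico C D ∩ {x | w x ≠ u x})
        ≤ volume ((Ico C D ∩ {x | w x ≠ v0}) ∪ (Ico C D ∩ {x | u x ≠ v0})) := by
          apply measure_mono
          rintro x ⟨hx, hne⟩
          by_cases h : w x = v0
          · right
            refine ⟨hx, fun h' => hne ?_⟩
            rw [h, h']
          · left; exact ⟨hx, h⟩
      _ ≤ volume (Ico C D ∩ {x | w x ≠ v0}) + volume (Ico C D ∩ {x | u x ≠ v0}) :=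
          measure_union_le _ _
      _ ≤ volume (Ico C D ∩ Z) + volume (Ico C D ∩ Z) := by
          rw [k1]; exact add_le_add k2 k2
      _ = 2 * volume (Ico C D ∩ Z) := by rw [two_mul]
  have glue : ∀ C D E, A ≤ C → C ≤ D → D ≤ E → E ≤ B →
      (∃ w : ℝ → ℝ, StepOn (Ico C D) w ∧
      (∀ v, volume (Ico C D ∩ w ⁻¹' {v}) = volume (Ico C D ∩ u ⁻¹' {v})) ∧
      volume (Ico C D ∩ {x | w x ≠ u x}) ≤ 2 * volume (Ico C D ∩ Z)) →
      (∃ w : ℝ → ℝ, StepOn (Ico D E) w ∧
      (∀ v, volume (Ico D E ∩ w ⁻¹' {v}) = volume (Ico D E ∩ u ⁻¹' {v})) ∧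
      volume (Ico D E ∩ {x | w x ≠ u x}) ≤ 2 * volume (Ico D E ∩ Z)) →
      (∃ w : ℝ → ℝ, StepOn (Ico C E) w ∧
      (∀ v, volume (Ico C E ∩ w ⁻¹' {v}) = volume (Ico C E ∩ u ⁻¹' {v})) ∧
      volume (Ico C E ∩ {x | w x ≠ u x}) ≤ 2 * volume (Ico C E ∩ Z)) := by
    rintro C D E hAC hCD hDE hEB ⟨w, hw, hl, hd⟩ ⟨z, hz, hl', hd'⟩
    have hdis : Disjoint (Ico C D) (Ico D E) := by
      rw [Set.disjoint_left]
      intro x hx hx'
      exact absurd hx.2 (not_lt.mpr hx'.1)
    have e1 : ∀ x ∈ Ico C D, w x + z x = w x := fun x hx => by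
      rw [stepOn_zero_off hz (fun h => (Set.disjoint_left.mp hdis) hx h), add_zero]
    have e2 : ∀ x ∈ Ico D E, w x + z x = z x := fun x hx => by
      rw [stepOn_zero_off hw (fun h => (Set.disjoint_left.mp hdis) h hx), zero_add]
    refine ⟨fun x => w x + z x, ?_, ?_, ?_⟩
    · have := stepOn_glue hdis hw hz
      rwa [Ico_union_Ico_eq_Ico hCD hDE] at this
    · intro v
      rw [Ico_glue hCD hDE, Ico_glue hCD hDE (u ⁻¹' {v}), ← hl v, ← hl' v]
      congr 2
      · ext x
        constructor
        · rintro ⟨hx, h⟩; refine ⟨hx, ?_⟩; rw [mem_preimage, e1 x hx] at h; exact h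
        · rintro ⟨hx, h⟩; refine ⟨hx, ?_⟩; rw [mem_preimage, e1 x hx]; exact h
      · ext x
        constructor
        · rintro ⟨hx, h⟩; refine ⟨hx, ?_⟩; rw [mem_preimage, e2 x hx] at h; exact h
        · rintro ⟨hx, h⟩; refine ⟨hx, ?_⟩; rw [mem_preimage, e2 x hx]; exact h
    · rw [Ico_glue hCD hDE, Ico_glue hCD hDE Z, mul_add]
      apply add_le_add
      · refine le_trans (measure_mono ?_) hd
        rintro x ⟨hx, h⟩
        refine ⟨hx, ?_⟩
        intro hc
        apply h
        show w x + z x = u x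
        rw [e1 x hx, hc]
      · refine le_trans (measure_mono ?_) hd'
        rintro x ⟨hx, h⟩
        refine ⟨hx, ?_⟩
        intro hc
        apply h
        show w x + z x = u x
        rw [e2 x hx, hc]
  obtain ⟨N, hN⟩ := exists_nat_gt ((B - A) / η)
  have hNpos : (0:ℝ) < N := lt_of_le_of_lt (by apply div_nonneg <;> linarith) hN
  set h := (B - A) / N with hh
  have hhpos : 0 < h := div_pos (by linarith) hNpos
  have hhη : h < η := by
    rw [hh, div_lt_iff₀ hNpos]
    rw [div_lt_iff₀ hη] at hN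
    linarith
  have hind : ∀ i : ℕ, i ≤ N → ∃ w : ℝ → ℝ, StepOn (Ico A (A + i * h)) w ∧
      (∀ v, volume (Ico A (A + i * h) ∩ w ⁻¹' {v}) = volume (Ico A (A + i * h) ∩ u ⁻¹' {v})) ∧
      volume (Ico A (A + i * h) ∩ {x | w x ≠ u x}) ≤ 2 * volume (Ico A (A + i * h) ∩ Z) := by
    intro i
    induction i with
    | zero =>
      intro _
      have := small A A le_rfl le_rfl hAB.le (by simpa using hη)
      simpa using this
    | succ i ih =>
      intro hi
      have hi' : ((i:ℝ) + 1) ≤ N := by exact_mod_cast hi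
      have hNh : N * h = B - A := by rw [hh]; field_simp
      have hle : A + ((i + 1 : ℕ) : ℝ) * h ≤ B := by
        have : ((i:ℝ) + 1) * h ≤ N * h := mul_le_mul_of_nonneg_right hi' hhpos.le
        push_cast
        linarith
      have hi0 : (0:ℝ) ≤ i * h := mul_nonneg (Nat.cast_nonneg i) hhpos.le
      have hstep : A + ((i + 1 : ℕ) : ℝ) * h = A + i * h + h := by push_cast; ring
      have hs := small (A + i * h) (A + ((i + 1 : ℕ) : ℝ) * h) (by linarith) (by linarith) hle
        (by linarith)
      exact glue A (A + i * h) (A + ((i + 1 : ℕ) : ℝ) * h) le_rfl (by linarith) (by linarith) hle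
        (ih (by omega)) hs
  obtain ⟨w, hw, hl, hd⟩ := hind N le_rfl
  have hNh : A + N * h = B := by rw [hh]; field_simp; ring
  rw [hNh] at hw hl hd
  refine ⟨w, hw, hl, hd.trans ?_⟩
  calc 2 * volume (Ico A B ∩ Z) ≤ 2 * ENNReal.ofReal (ε / 2) := by
        gcongr
        exact (measure_mono inter_subset_right).trans hZvol
    _ = ENNReal.ofReal ε := by
        rw [show (2:ℝ≥0∞) = ENNReal.ofReal 2 by simp, ← ENNReal.ofReal_mul (by norm_num)]
        congr 1
        ring

end Pool.Agent.Helper187.Leg.S1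

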