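import Pool.Agent.Helper187.Leg.Defs

open MeasureTheory Set Real Filter Topology
open scoped ENNReal

namespace Pool.Agent.Helper187.Leg.S2

open Pool.Agent.Helper187.Leg





theorem sortedPattern_core (p : ℝ → ℝ) (hp : ∀ v, 0 ≤ p v) (V : Finset ℝ) :
    V.Nonempty → ∃ (m : ℕ) (g : ℝ) (c a : Fin m → ℝ), g ∈ V ∧ (∀ k, 0 ≤ c k) ∧
      g + ∑ k, c k ∈ V ∧ (∀ v ∈ V, v ≤ g + ∑ k, c k) ∧
      (∀ k, 0 ≤ a k ∧ a k ≤ ∑ v ∈ V, p v) ∧
      (∀ s, 0 ≤ s → s < ∑ v ∈ V, p v → pat g c a s ∈ V) ∧
      ∀ v ∈ V, volume (Ico 0 (∑ v ∈ V, p v) ∩ (pat g c a) ⁻¹' {v}) = ENNReal.ofReal (p v) := by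
  classical
  induction V using Finset.induction_on_max with
  | empty => intro h; exact absurd h (by simp)
  | insert w V hw ih =>
    intro _
    have hwV : w ∉ V := fun h => lt_irrefl _ (hw w h)
    rw [Finset.sum_insert hwV]
    rcases V.eq_empty_or_nonempty with hV | hV
    · subst hV
      refine ⟨0, w, fun _ => 0, fun _ => 0, by simp, fun k => le_rfl, by simp, by simp,
        fun k => k.elim0, fun s _ _ => by simp [pat], ?_⟩
      intro v hv
      simp only [insert_empty_eq, Finset.mem_singleton] at hv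
      subst hv
      have : Ico 0 (p v + ∑ v ∈ (∅ : Finset ℝ), p v) ∩
          (pat v (fun _ : Fin 0 => (0 : ℝ)) (fun _ => 0)) ⁻¹' {v} = Ico 0 (p v) := by
        ext s; simp [pat]
      rw [this, Real.volume_Ico, sub_zero]
    · obtain ⟨m, g, c, a, hg, hc, hT, hmax, ha, hpat, hvol⟩ := ih hV
      set L1 := ∑ v ∈ V, p v with hL1
      set T := g + ∑ k, c k with hTdef
      have hL10 : 0 ≤ L1 := Finset.sum_nonneg fun v _ => hp v
      have hp' : ∀ s, pat g (Fin.snoc c (w - T) : Fin (m + 1) → ℝ)
          (Fin.snoc a L1 : Fin (m + 1) → ℝ) s = pat g c a s + (if L1 ≤ s then w - T else 0) := by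
        intro s
        unfold pat
        rw [Fin.sum_univ_castSucc]
        simp only [Fin.snoc_castSucc, Fin.snoc_last]
        ring
      have h1 : ∀ s, s < L1 → pat g (Fin.snoc c (w - T) : Fin (m + 1) → ℝ)
          (Fin.snoc a L1 : Fin (m + 1) → ℝ) s = pat g c a s := by
        intro s hs
        rw [hp', if_neg (not_le.2 hs), add_zero]
      have h2 : ∀ s, L1 ≤ s → pat g (Fin.snoc c (w - T) : Fin (m + 1) → ℝ)
          (Fin.snoc a L1 : Fin (m + 1) → ℝ) s = w := by
        intro s hs
        rw [hp', if_pos hs]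
        have : pat g c a s = T := by
          unfold pat
          rw [hTdef]
          congr 1
          refine Finset.sum_congr rfl fun k _ => ?_
          rw [if_pos ((ha k).2.trans hs)]
        rw [this]; ring
      have hsum : g + ∑ k, (Fin.snoc c (w - T) : Fin (m + 1) → ℝ) k = w := by
        rw [Fin.sum_univ_castSucc]
        simp only [Fin.snoc_castSucc, Fin.snoc_last]
        linarith
      refine ⟨m + 1, g, Fin.snoc c (w - T), Fin.snoc a L1, Finset.mem_insert_of_mem hg, ?_, ?_, ?_,
        ?_, ?_, ?_⟩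
      · intro k
        refine Fin.lastCases ?_ (fun k => ?_) k
        · rw [Fin.snoc_last]
          have := hw _ hT
          linarith
        · rw [Fin.snoc_castSucc]
          exact hc k
      · rw [hsum]; exact Finset.mem_insert_self _ _
      · intro v hv
        rw [hsum]
        rcases Finset.mem_insert.1 hv with h | h
        · exact h.le
        · exact (hw v h).le
      · intro k
        refine Fin.lastCases ?_ (fun k => ?_) k
        · rw [Fin.snoc_last]
          exact ⟨hL10, by linarith [hp w]⟩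
        · rw [Fin.snoc_castSucc]
          exact ⟨(ha k).1, by linarith [hp w, (ha k).2]⟩
      · intro s hs0 hs
        rcases lt_or_ge s L1 with h | h
        · rw [h1 s h]
          exact Finset.mem_insert_of_mem (hpat s hs0 h)
        · rw [h2 s h]; exact Finset.mem_insert_self _ _
      · intro v hv
        rcases Finset.mem_insert.1 hv with h | h
        · subst h
          have : Ico 0 (p v + L1) ∩ (pat g (Fin.snoc c (v - T) : Fin (m + 1) → ℝ)
              (Fin.snoc a L1 : Fin (m + 1) → ℝ)) ⁻¹' {v} = Ico L1 (p v + L1) := by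
            ext s
            simp only [mem_inter_iff, mem_Ico, mem_preimage, mem_singleton_iff]
            constructor
            · rintro ⟨⟨hs0, hs⟩, hs2⟩
              refine ⟨?_, hs⟩
              by_contra hcon
              push Not at hcon
              rw [h1 s hcon] at hs2
              exact hwV (hs2 ▸ hpat s hs0 hcon)
            · rintro ⟨hs0, hs⟩
              exact ⟨⟨hL10.trans hs0, hs⟩, h2 s hs0⟩
          rw [this, Real.volume_Ico]
          congr 1; ring
        · have hvw : v ≠ w := fun h' => hwV (h' ▸ h)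
          have : Ico 0 (p w + L1) ∩ (pat g (Fin.snoc c (w - T) : Fin (m + 1) → ℝ)
              (Fin.snoc a L1 : Fin (m + 1) → ℝ)) ⁻¹' {v} = Ico 0 L1 ∩ (pat g c a) ⁻¹' {v} := by
            ext s
            simp only [mem_inter_iff, mem_Ico, mem_preimage, mem_singleton_iff]
            constructor
            · rintro ⟨⟨hs0, hs⟩, hs2⟩
              have hlt : s < L1 := by
                by_contra hcon
                push Not at hcon
                rw [h2 s hcon] at hs2
                exact hvw hs2.symm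
              rw [h1 s hlt] at hs2
              exact ⟨⟨hs0, hlt⟩, hs2⟩
            · rintro ⟨⟨hs0, hs⟩, hs2⟩
              refine ⟨⟨hs0, by linarith [hp w]⟩, ?_⟩
              rw [h1 s hs]; exact hs2
          rw [this]
          exact hvol v h


theorem sortedPattern (V : Finset ℝ) (hV : V.Nonempty) (p : ℝ → ℝ) (hp : ∀ v, 0 ≤ p v)
    (hpV : ∀ v, v ∉ V → p v = 0) (L : ℝ) (hsum : ∑ v ∈ V, p v = L) (lo hi : ℝ)
    (hlo : ∀ v ∈ V, lo ≤ v) (hhi : ∀ v ∈ V, v ≤ hi) :
    ∃ (m : ℕ) (g : ℝ) (c a : Fin m → ℝ), lo ≤ g ∧ (∀ k, 0 ≤ c k) ∧ g + ∑ k, c k ≤ hi ∧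
      (∀ k, 0 ≤ a k ∧ a k ≤ L) ∧
      ∀ v, volume (Ico 0 L ∩ (pat g c a) ⁻¹' {v}) = ENNReal.ofReal (p v) := by
  obtain ⟨m, g, c, a, hg, hc, hT, hmax, ha, hpat, hvol⟩ := sortedPattern_core p hp V hV
  rw [hsum] at ha hpat hvol
  refine ⟨m, g, c, a, hlo g hg, hc, hhi _ hT, ha, fun v => ?_⟩
  by_cases hv : v ∈ V
  · exact hvol v hv
  · have : Ico 0 L ∩ (pat g c a) ⁻¹' {v} = ∅ := by
      ext s
      simp only [mem_inter_iff, mem_Ico, mem_preimage, mem_singleton_iff, mem_empty_iff_false,
        iff_false]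
      rintro ⟨⟨hs0, hs⟩, hs2⟩
      exact hv (hs2 ▸ hpat s hs0 hs)
    rw [this, measure_empty, hpV v hv, ENNReal.ofReal_zero]


end Pool.Agent.Helper187.Leg.S2
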