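import Pool.Agent.Helper187.Leg.Defs

open MeasureTheory Set Real Filter Topology
open scoped ENNReal

namespace Pool.Agent.Helper187.Leg.S3

open Pool.Agent.Helper187.Leg







open Classical in
/-- encoding of the values -/
noncomputable def enc (V : Finset ℝ) (v : ℝ) : ℕ := if h : v ∈ V then (V.equivFin ⟨v, h⟩ : ℕ) + 1 else 0

theorem enc_pos (V : Finset ℝ) (v : ℝ) : enc V v ≠ 0 ↔ v ∈ V := by
  unfold enc
  split_ifs with h
  · simp [h]
  · simp [h]

theorem enc_inj (V : Finset ℝ) (v w : ℝ) (hv : v ∈ V) (h : enc V v = enc V w) : v = w := by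
  have hw : w ∈ V := by
    rw [← enc_pos, ← h, enc_pos]; exact hv
  unfold enc at h
  rw [dif_pos hv, dif_pos hw] at h
  have h2 : V.equivFin ⟨v, hv⟩ = V.equivFin ⟨w, hw⟩ := Fin.ext (by omega)
  have h3 := V.equivFin.injective h2
  exact congrArg Subtype.val h3

theorem enc_meas (V : Finset ℝ) : Measurable (enc V) := by
  apply measurable_to_countable'
  intro n
  rcases Nat.eq_zero_or_pos n with rfl | hn
  · have : enc V ⁻¹' {0} = (V : Set ℝ)ᶜ := by
      ext v
      rw [mem_preimage, mem_singleton_iff, mem_compl_iff, Finset.mem_coe, ← enc_pos, not_not]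
    rw [this]
    exact V.finite_toSet.measurableSet.compl
  · apply Set.Finite.measurableSet
    apply V.finite_toSet.subset
    intro v hv
    rw [mem_preimage, mem_singleton_iff] at hv
    rw [Finset.mem_coe, ← enc_pos, hv]
    omega

open Classical in
/-- the labelled function -/
noncomputable def lab (V : Finset ℝ) (D : Set ℝ) (u : ℝ → ℝ) (x : ℝ) : ℕ :=
  if x ∈ D then enc V (u x) else 0

theorem lab_meas (V : Finset ℝ) (D : Set ℝ) (hD : MeasurableSet D) (u : ℝ → ℝ) (hu : Measurable u) :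
    Measurable (lab V D u) :=
  Measurable.ite hD ((enc_meas V).comp hu) measurable_const

theorem lab_pre (V : Finset ℝ) (D : Set ℝ) (u : ℝ → ℝ) (v : ℝ) (hv : v ∈ V) :
    lab V D u ⁻¹' {enc V v} = D ∩ u ⁻¹' {v} := by
  ext x
  rw [mem_preimage, mem_singleton_iff, mem_inter_iff, mem_preimage, mem_singleton_iff]
  have hv0 := (enc_pos V v).2 hv
  unfold lab
  split_ifs with hx
  · constructor
    · intro h
      exact ⟨hx, (enc_inj V v (u x) hv h.symm).symm⟩
    · rintro ⟨-, h⟩; rw [h]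
  · constructor
    · intro h; exact absurd h.symm hv0
    · rintro ⟨h, -⟩; exact absurd h hx

theorem lab_ne (V : Finset ℝ) (D : Set ℝ) (u : ℝ → ℝ) :
    (lab V D u ⁻¹' {0})ᶜ = ⋃ v ∈ V, D ∩ u ⁻¹' {v} := by
  ext x
  rw [mem_compl_iff, mem_preimage, mem_singleton_iff, mem_iUnion₂]
  unfold lab
  split_ifs with hx
  · rw [← ne_eq, enc_pos]
    constructor
    · intro h; exact ⟨u x, h, hx, rfl⟩
    · rintro ⟨v, hv, -, h⟩
      rw [mem_preimage, mem_singleton_iff] at h
      rw [h]; exact hv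
  · constructor
    · intro h; exact absurd rfl h
    · rintro ⟨v, hv, h, -⟩; exact absurd h hx

theorem match_on
    (match_levels : ∀ (u v : ℝ → ℕ), Measurable u → Measurable v →
      (∀ i, mu1 (u ⁻¹' {i}) = mu1 (v ⁻¹' {i})) →
      ∃ τ : MPI mu1, (∀ᵐ x ∂mu1, u (τ.f x) = v x) ∧ (∀ᵐ x ∂mu1, u x = v x → τ.f x = x))
    (D : Set ℝ) (hD : MeasurableSet D) (u w : ℝ → ℝ) (hu : Measurable u)
    (hw : Measurable w) (V : Finset ℝ) (huV : ∀ᵐ x ∂mu1, x ∈ D → u x ∈ V)
    (hwV : ∀ᵐ x ∂mu1, x ∈ D → w x ∈ V)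
    (h : ∀ v, mu1 (D ∩ u ⁻¹' {v}) = mu1 (D ∩ w ⁻¹' {v})) :
    ∃ τ : MPI mu1, (∀ᵐ x ∂mu1, x ∈ D → τ.f x ∈ D ∧ u (τ.f x) = w x) ∧
      (∀ᵐ x ∂mu1, x ∉ D → τ.f x = x) ∧ (∀ᵐ x ∂mu1, x ∈ D → u x = w x → τ.f x = x) := by
  classical
  have hfin : IsFiniteMeasure mu1 := by unfold mu1; infer_instance
  have hum := lab_meas V D hD u hu
  have hwm := lab_meas V D hD w hw
  have hneg : ∀ y : ℝ → ℝ, Measurable y → mu1 (lab V D y ⁻¹' {0}) =
      mu1 univ - ∑ v ∈ V, mu1 (D ∩ y ⁻¹' {v}) := by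
    intro y hy
    have h1 : lab V D y ⁻¹' {0} = (⋃ v ∈ V, D ∩ y ⁻¹' {v})ᶜ := by
      rw [← lab_ne, compl_compl]
    have hms : ∀ v ∈ V, MeasurableSet (D ∩ y ⁻¹' {v}) := fun v _ =>
      hD.inter (hy (measurableSet_singleton v))
    rw [h1, measure_compl (Finset.measurableSet_biUnion V hms) (measure_ne_top _ _),
      measure_biUnion_finset _ hms]
    intro v _ v' _ hvv
    rw [Function.onFun, Set.disjoint_left]
    rintro x ⟨-, h2⟩ ⟨-, h3⟩
    exact hvv (h2.symm.trans h3)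
  have hlev : ∀ i, mu1 (lab V D u ⁻¹' {i}) = mu1 (lab V D w ⁻¹' {i}) := by
    intro i
    rcases Nat.eq_zero_or_pos i with rfl | hi
    · rw [hneg u hu, hneg w hw]
      congr 1
      exact Finset.sum_congr rfl (fun v _ => h v)
    · by_cases hex : ∃ v ∈ V, enc V v = i
      · obtain ⟨v, hv, rfl⟩ := hex
        rw [lab_pre V D u v hv, lab_pre V D w v hv, h v]
      · have hemp : ∀ y : ℝ → ℝ, lab V D y ⁻¹' {i} = ∅ := by
          intro y
          rw [eq_empty_iff_forall_notMem]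
          intro x hx
          rw [mem_preimage, mem_singleton_iff] at hx
          unfold lab at hx
          split_ifs at hx with hxD
          · exact hex ⟨y x, by rw [← enc_pos, hx]; omega, hx⟩
          · omega
        rw [hemp, hemp]
  obtain ⟨τ, h1, h2⟩ := match_levels _ _ hum hwm hlev
  refine ⟨τ, ?_, ?_, ?_⟩
  · filter_upwards [h1, hwV] with x hx1 hx2 hxD
    have hwx := hx2 hxD
    have e1 : lab V D w x = enc V (w x) := by unfold lab; rw [if_pos hxD]
    rw [e1] at hx1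
    have hne : lab V D u (τ.f x) ≠ 0 := by rw [hx1, enc_pos]; exact hwx
    have hD2 : τ.f x ∈ D := by
      by_contra hcon
      apply hne
      unfold lab; rw [if_neg hcon]
    refine ⟨hD2, ?_⟩
    have e2 : lab V D u (τ.f x) = enc V (u (τ.f x)) := by unfold lab; rw [if_pos hD2]
    rw [e2] at hx1
    exact (enc_inj V (w x) _ hwx hx1.symm).symm
  · filter_upwards [h2] with x hx hxD
    apply hx
    unfold lab
    rw [if_neg hxD, if_neg hxD]
  · filter_upwards [h2] with x hx hxD huw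
    apply hx
    unfold lab
    rw [if_pos hxD, if_pos hxD, huw]

end Pool.Agent.Helper187.Leg.S3
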