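import Pool.Agent.Helper187.Leg.Blk
import Pool.Agent.Helper187.Leg.C1
import Pool.Agent.Helper187.Leg.C2
import Pool.Agent.Helper187.Leg.S1
import Pool.Agent.Helper187.Leg.S2
import Pool.Agent.Helper187.Leg.S3
import Pool.Agent.Helper187.Leg.I1
import Pool.Agent.Helper187.Leg.M1
import Pool.Agent.Helper187.Leg.L1
import Pool.Agent.Helper187.Leg.O1
import Pool.Agent.Helper187.Leg.O2
import Pool.Agent.Helper187.Leg.CN

open MeasureTheory Set Real Filter Topology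
open scoped ENNReal

namespace Pool.Agent.Helper187.Leg

instance : IsFiniteMeasure mu1 := ⟨by simp [mu1]⟩

instance : NullSingletonClass mu1 := by unfold mu1; infer_instance

theorem fmatch_levels (u v : ℝ → ℕ) (hu : Measurable u) (hv : Measurable v)
    (h : ∀ i, mu1 (u ⁻¹' {i}) = mu1 (v ⁻¹' {i})) :
    ∃ τ : MPI mu1, (∀ᵐ x ∂mu1, u (τ.f x) = v x) ∧ (∀ᵐ x ∂mu1, u x = v x → τ.f x = x) :=
  C1.match_levels mu1 u v hu hv h

theorem fmatch_on (D : Set ℝ) (hD : MeasurableSet D) (u w : ℝ → ℝ) (hu : Measurable u)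
    (hw : Measurable w) (V : Finset ℝ) (huV : ∀ᵐ x ∂mu1, x ∈ D → u x ∈ V)
    (hwV : ∀ᵐ x ∂mu1, x ∈ D → w x ∈ V)
    (h : ∀ v, mu1 (D ∩ u ⁻¹' {v}) = mu1 (D ∩ w ⁻¹' {v})) :
    ∃ τ : MPI mu1, (∀ᵐ x ∂mu1, x ∈ D → τ.f x ∈ D ∧ u (τ.f x) = w x) ∧
      (∀ᵐ x ∂mu1, x ∉ D → τ.f x = x) ∧ (∀ᵐ x ∂mu1, x ∈ D → u x = w x → τ.f x = x) :=
  S3.match_on fmatch_levels D hD u w hu hw V huV hwV h

theorem fstepApprox (A B : ℝ) (hA : -1 < A) (hAB : A < B) (hB : B < 1) (u : ℝ → ℝ)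
    (hu : Measurable u) (V : Finset ℝ) (huV : ∀ᵐ x ∂(volume.restrict (Ico A B)), u x ∈ V)
    (ε : ℝ) (hε : 0 < ε) :
    ∃ w : ℝ → ℝ, StepOn (Ico A B) w ∧
      (∀ v, volume (Ico A B ∩ w ⁻¹' {v}) = volume (Ico A B ∩ u ⁻¹' {v})) ∧
      volume (Ico A B ∩ {x | w x ≠ u x}) ≤ ENNReal.ofReal ε :=
  S1.stepApprox hA hAB hB u hu V huV hε

theorem farrange (A B : ℝ) (hA : -1 < A) (hAB : A ≤ B) (hB : B < 1) (V : Finset ℝ) (p : ℝ → ℝ)
    (hp : ∀ v, 0 ≤ p v) (hpV : ∀ v, v ∉ V → p v = 0) (hsum : ∑ v ∈ V, p v = B - A) :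
    ∃ w : ℝ → ℝ, StepOn (Ico A B) w ∧ ∀ v, volume (Ico A B ∩ w ⁻¹' {v}) = ENNReal.ofReal (p v) :=
  S1.arrange hA hAB hB V p hp hpV hsum

theorem fsorted (V : Finset ℝ) (hV : V.Nonempty) (p : ℝ → ℝ) (hp : ∀ v, 0 ≤ p v)
    (hpV : ∀ v, v ∉ V → p v = 0) (L : ℝ) (hsum : ∑ v ∈ V, p v = L) (lo hi : ℝ)
    (hlo : ∀ v ∈ V, lo ≤ v) (hhi : ∀ v ∈ V, v ≤ hi) :
    ∃ (m : ℕ) (g : ℝ) (c a : Fin m → ℝ), lo ≤ g ∧ (∀ k, 0 ≤ c k) ∧ g + ∑ k, c k ≤ hi ∧
      (∀ k, 0 ≤ a k ∧ a k ≤ L) ∧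
      ∀ v, volume (Ico 0 L ∩ (pat g c a) ⁻¹' {v}) = ENNReal.ofReal (p v) :=
  S2.sortedPattern V hV p hp hpV L hsum lo hi hlo hhi

theorem fconstruct (F : ℝ → ℝ) (hF : Measurable F) (hFi : Integrable F mu1) {ε : ℝ} (hε : 0 < ε)
    (S : Pieces F ε) :
    ∃ ω : MPI mu1, mu1 {x | ω.f x ≠ x} ≤ ENNReal.ofReal (3 * ε) ∧ NN (F ∘ ω.f) < ⊤ :=
  CN.construct fmatch_on fstepApprox fNN_interval fassembly (fun τ h => C2.limit_comps mu1 τ h)
    (O1.op1 fsorted fmatch_on blockThm) (O2.op2 fsorted fmatch_on farrange fstepApprox blockThm) F hF hFi hε S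

theorem NN_one_lt : NN (fun _ => (1 : ℝ)) < ⊤ := by
  have h : ∀ n x, Sn n (fun _ => (1 : ℝ)) x = 1 := by
    intro n x
    unfold Sn
    simp only [mul_one]
    exact K3.integral_LK n x
  unfold NN Smax
  simp only [h]
  simp

theorem comp_NN_lt (c : ℝ) {F : ℝ → ℝ} (hF : IntervalIntegrable F volume (-1) 1) (h : NN F < ⊤) :
    NN (fun x => F x + c) < ⊤ := by
  have hc : IntervalIntegrable (fun _ : ℝ => c * (1 : ℝ)) volume (-1) 1 := by simp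
  have e : (fun x => F x + c) = fun x => F x + c * (fun _ => (1 : ℝ)) x := by funext x; simp
  rw [e]
  refine (NN_add hF hc).trans_lt (ENNReal.add_lt_top.2 ⟨h, ?_⟩)
  rw [NN_const_mul c (h := fun _ => (1 : ℝ)) (by simp)]
  exact ENNReal.mul_lt_top (by simp) NN_one_lt

/-- the theorem on the line. -/
theorem main_line (p : ℝ) (hp : 1 < p) (f : ℝ → ℝ) (hf : Measurable f) (hfi : Integrable f mu1)
    (hM : ∫⁻ t in Ioi (0 : ℝ), ENNReal.ofReal
      (t ^ (p - 2) * |∫ x, (if t < |f x| then f x else 0) ∂mu1|) < ⊤) {ε : ℝ} (hε : 0 < ε) :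
    ∃ ω : MPI mu1, mu1 {x | ω.f x ≠ x} ≤ ENNReal.ofReal ε ∧ Integrable (f ∘ ω.f) mu1 ∧
      NN (f ∘ ω.f) < ⊤ := by
  by_cases hne : ∃ c : ℝ, ∀ᵐ x ∂mu1, f x = c
  · obtain ⟨c, hc⟩ := hne
    refine ⟨⟨id, id, MeasurePreserving.id _, MeasurePreserving.id _, Eventually.of_forall fun _ => rfl,
      Eventually.of_forall fun _ => rfl⟩, by simp, hfi, ?_⟩
    have : NN (f ∘ id) = NN (fun _ => c * 1) := NN_congr (by filter_upwards [hc] with x hx; simp [hx])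
    show NN (f ∘ id) < ⊤
    rw [this, NN_const_mul c (h := fun _ => (1 : ℝ)) (by simp)]
    exact ENNReal.mul_lt_top (by simp) NN_one_lt
  · set ε1 := min (ε / 10) (1 / 4) with hε1
    have hε1pos : 0 < ε1 := lt_min (by positivity) (by norm_num)
    obtain ⟨c, κ, M, e, B, E, hκ, he, hκB, hMB, hB, hB2, hE, hEd, hEb, hE0, hoff, hpos, hneg, hsE, hsM, hεE⟩ :=
      M1.thresholds p hp f hf hfi hM hne hε1pos
    have hfc : Measurable fun x => f x - c := hf.sub_const c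
    have hfci : Integrable (fun x => f x - c) mu1 := hfi.sub (integrable_const c)
    obtain ⟨τ, hτ, ⟨S⟩⟩ := I1.initArr fmatch_levels (fun x => f x - c) hfc hfci κ M e B E hκ he hκB hMB hB hB2 hE hEd
      hEb hE0 hoff hpos hneg hsE hsM hε1pos hεE (min_le_right _ _)
    obtain ⟨σ, hσ, hN⟩ := fconstruct ((fun x => f x - c) ∘ τ.f) (hfc.comp τ.f_mp.measurable)
      (τ.f_mp.integrable_comp_of_integrable hfci) (by positivity) S
    refine ⟨⟨τ.f ∘ σ.f, σ.g ∘ τ.g, τ.f_mp.comp σ.f_mp, σ.g_mp.comp τ.g_mp, ?_, ?_⟩, ?_, ?_, ?_⟩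
    · have h1 := σ.f_mp.quasiMeasurePreserving.ae τ.gf
      filter_upwards [h1, σ.gf] with x hx hx2
      simp only [Function.comp_apply]
      rw [hx, hx2]
    · have h1 := τ.g_mp.quasiMeasurePreserving.ae σ.fg
      filter_upwards [h1, τ.fg] with x hx hx2
      simp only [Function.comp_apply]
      rw [hx, hx2]
    · have hsub : {x | (τ.f ∘ σ.f) x ≠ x} ⊆ {x | τ.f x ≠ x} ∪ {x | σ.f x ≠ x} := by
        intro x hx
        by_contra hcon
        simp only [mem_union, mem_ofPred_eq, not_or, not_not] at hcon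
        apply hx
        simp only [Function.comp_apply, hcon.2, hcon.1]
      calc mu1 {x | (τ.f ∘ σ.f) x ≠ x} ≤ mu1 {x | τ.f x ≠ x} + mu1 {x | σ.f x ≠ x} :=
            (measure_mono hsub).trans (measure_union_le _ _)
        _ ≤ ENNReal.ofReal (4 * ε1) + ENNReal.ofReal (3 * (2 * ε1)) := add_le_add hτ hσ
        _ = ENNReal.ofReal (10 * ε1) := by
            rw [← ENNReal.ofReal_add (by positivity) (by positivity)]; congr 1; ring
        _ ≤ ENNReal.ofReal ε := ENNReal.ofReal_le_ofReal (by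
            have := min_le_left (ε / 10) (1 / 4 : ℝ); rw [← hε1] at this; linarith)
    · exact (τ.f_mp.comp σ.f_mp).integrable_comp_of_integrable hfi
    · have h2 : Integrable (((fun x => f x - c) ∘ τ.f) ∘ σ.f) mu1 :=
        σ.f_mp.integrable_comp_of_integrable (τ.f_mp.integrable_comp_of_integrable hfci)
      have h3 := comp_NN_lt c (CN.RHC.ii_of_int h2) hN
      have e : (fun x => (((fun x => f x - c) ∘ τ.f) ∘ σ.f) x + c) = f ∘ (τ.f ∘ σ.f) := by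
        funext x; simp
      rw [e] at h3
      exact h3

end Pool.Agent.Helper187.Leg
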