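import Pool.Agent.Helper187.Leg.Fin1

open MeasureTheory Set Real Filter Topology
open scoped ENNReal

namespace Pool.Agent.Helper187.Leg

theorem int_sub (φ : ℝ → ℝ) : ∫ x : Icc (-1 : ℝ) 1, φ x ∂muS = ∫ x, φ x ∂mu1 :=
  integral_subtype_comap measurableSet_Icc φ

theorem lint_sub (φ : ℝ → ℝ≥0∞) : ∫⁻ x : Icc (-1 : ℝ) 1, φ x ∂muS = ∫⁻ x, φ x ∂mu1 :=
  lintegral_subtype_comap measurableSet_Icc φ

theorem lint_mu1 (h : ℝ → ℝ) : ∫⁻ x, Smax h x ∂mu1 = NN h := by
  unfold NN mu1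
  rw [Measure.restrict_congr_set (μ := volume) (Ioo_ae_eq_Icc (a := (-1 : ℝ)) (b := 1))]

theorem ae_sub {q : ℝ → Prop} : (∀ᵐ x : Icc (-1 : ℝ) 1 ∂muS, q x) ↔ ∀ᵐ x ∂mu1, q x := by
  have h := (MeasurableEmbedding.subtype_coe (measurableSet_Icc (a := (-1 : ℝ)) (b := 1))).map_comap (μ := volume)
  rw [Subtype.range_coe] at h
  unfold mu1
  rw [← h, (MeasurableEmbedding.subtype_coe measurableSet_Icc).ae_map_iff]
  rfl

theorem main_subtype (p : ℝ) (hp : 1 < p) (f : Icc (-1 : ℝ) 1 → ℝ) (hfi : Integrable f muS)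
    (hM : ∫⁻ t in Ioi (0 : ℝ), ENNReal.ofReal
      (t ^ (p - 2) * |∫ x, (if t < |f x| then f x else 0) ∂muS|) < ⊤) {ε : ℝ} (hε : 0 < ε) :
    ∃ e : Icc (-1 : ℝ) 1 ≃ᵐ Icc (-1 : ℝ) 1, MeasurePreserving e muS muS ∧
      muS {x | e x ≠ x} ≤ ENNReal.ofReal ε ∧ Integrable (f ∘ e) muS ∧
      ∫⁻ x : Icc (-1 : ℝ) 1, (⨆ n : ℕ, ENNReal.ofReal |∑ k ∈ Finset.range (n + 1),
        (∫ t : Icc (-1 : ℝ) 1, f (e t) * (√((k : ℝ) + 1 / 2) * leg k t) ∂muS) * (√((k : ℝ) + 1 / 2) * leg k x)|) ∂muS < ⊤ := by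
  classical
  -- a measurable representative on the line
  obtain ⟨f', hf', hff'⟩ : ∃ f' : Icc (-1 : ℝ) 1 → ℝ, Measurable f' ∧ f =ᵐ[muS] f' :=
    ⟨hfi.aestronglyMeasurable.mk f, hfi.aestronglyMeasurable.stronglyMeasurable_mk.measurable,
      hfi.aestronglyMeasurable.ae_eq_mk⟩
  set F : ℝ → ℝ := Function.extend Subtype.val f' (fun _ => 0) with hF
  have hFx : ∀ x : Icc (-1 : ℝ) 1, F x = f' x := fun x => Subtype.val_injective.extend_apply _ _ x
  have hFm : Measurable F := (MeasurableEmbedding.subtype_coe measurableSet_Icc).measurable_extend hf' measurable_const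
  have hFi : Integrable F mu1 := by
    have h1 : Integrable (F ∘ Subtype.val) muS := by
      refine hfi.congr ?_
      filter_upwards [hff'] with x hx
      simp only [Function.comp_apply, hFx, hx]
    have h := (MeasurableEmbedding.subtype_coe (measurableSet_Icc (a := (-1 : ℝ)) (b := 1))).map_comap (μ := volume)
    rw [Subtype.range_coe] at h
    unfold mu1
    rw [← h, (MeasurableEmbedding.subtype_coe measurableSet_Icc).integrable_map_iff]
    exact h1
  have hM' : ∫⁻ t in Ioi (0 : ℝ), ENNReal.ofReal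
      (t ^ (p - 2) * |∫ x, (if t < |F x| then F x else 0) ∂mu1|) < ⊤ := by
    have e : ∀ t : ℝ, ∫ x, (if t < |F x| then F x else 0) ∂mu1 = ∫ x, (if t < |f x| then f x else 0) ∂muS := by
      intro t
      rw [← int_sub]
      refine integral_congr_ae ?_
      filter_upwards [hff'] with x hx
      rw [hFx, hx]
    simp_rw [e]
    exact hM
  obtain ⟨ω, hω, hωi, hωN⟩ := main_line p hp F hFm hFi hM' hε
  obtain ⟨e, he, hee⟩ := C2.upgrade ω
  have he' : MeasurePreserving e muS muS := he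
  have hee' : ∀ᵐ x : Icc (-1 : ℝ) 1 ∂muS, ((e x : Icc (-1 : ℝ) 1) : ℝ) = ω.f x := hee
  have hcomp : ∀ᵐ x : Icc (-1 : ℝ) 1 ∂muS, f (e x) = F (ω.f x) := by
    have h1 : ∀ᵐ x : Icc (-1 : ℝ) 1 ∂muS, f (e x) = f' (e x) := he'.quasiMeasurePreserving.ae hff'
    filter_upwards [h1, hee'] with x hx hx2
    rw [hx, ← hFx, hx2]
  refine ⟨e, he', ?_, he'.integrable_comp_of_integrable hfi, ?_⟩
  · refine le_trans ?_ hω
    have h1 : muS {x : Icc (-1 : ℝ) 1 | e x ≠ x} ≤ muS {x : Icc (-1 : ℝ) 1 | ω.f x ≠ x} := by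
      refine measure_mono_ae ?_
      filter_upwards [hee'] with x hx hx2 hx3
      apply hx2
      exact Subtype.ext (hx.trans hx3)
    refine h1.trans (le_of_eq ?_)
    have h2 := (MeasurableEmbedding.subtype_coe (measurableSet_Icc (a := (-1 : ℝ)) (b := 1))).comap_apply volume
      {x : Icc (-1 : ℝ) 1 | ω.f x ≠ x}
    have h3 : Subtype.val '' {x : Icc (-1 : ℝ) 1 | ω.f x ≠ x} = {x | ω.f x ≠ x} ∩ Icc (-1) 1 := by
      ext x
      constructor
      · rintro ⟨y, hy, rfl⟩; exact ⟨hy, y.2⟩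
      · rintro ⟨h, h'⟩; exact ⟨⟨x, h'⟩, h, rfl⟩
    show Measure.comap Subtype.val volume {x : Icc (-1 : ℝ) 1 | ω.f x ≠ x} = _
    rw [h2, h3]
    unfold mu1
    rw [Measure.restrict_apply]
    exact (measurableSet_eq_fun ω.f_mp.measurable measurable_id).compl
  · have hii : IntervalIntegrable (F ∘ ω.f) volume (-1) 1 := CN.RHC.ii_of_int hωi
    have hcoef : ∀ k : ℕ, ∫ t : Icc (-1 : ℝ) 1, f (e t) * (√((k : ℝ) + 1 / 2) * leg k t) ∂muS
        = √((k : ℝ) + 1 / 2) * ∫ t in (-1 : ℝ)..1, leg k t * (F ∘ ω.f) t := by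
      intro k
      have h1 : ∫ t : Icc (-1 : ℝ) 1, f (e t) * (√((k : ℝ) + 1 / 2) * leg k t) ∂muS
          = ∫ t : Icc (-1 : ℝ) 1, (fun s : ℝ => √((k : ℝ) + 1 / 2) * (leg k s * (F ∘ ω.f) s)) t ∂muS := by
        refine integral_congr_ae ?_
        filter_upwards [hcomp] with t ht
        simp only [Function.comp_apply]
        rw [ht]; ring
      rw [h1, int_sub (fun s : ℝ => √((k : ℝ) + 1 / 2) * (leg k s * (F ∘ ω.f) s)), integral_const_mul, CN.RHC.int_full]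
    have hS : ∀ (n : ℕ) (x : Icc (-1 : ℝ) 1), ∑ k ∈ Finset.range (n + 1),
        (∫ t : Icc (-1 : ℝ) 1, f (e t) * (√((k : ℝ) + 1 / 2) * leg k t) ∂muS) * (√((k : ℝ) + 1 / 2) * leg k x)
        = Sn n (F ∘ ω.f) x := by
      intro n x
      rw [Sn_eq n hii]
      refine Finset.sum_congr rfl fun k _ => ?_
      rw [hcoef k]
      have hs : √((k : ℝ) + 1 / 2) * √((k : ℝ) + 1 / 2) = (k : ℝ) + 1 / 2 := mul_self_sqrt (by positivity)
      calc _ = (√((k : ℝ) + 1 / 2) * √((k : ℝ) + 1 / 2)) * (∫ t in (-1 : ℝ)..1, leg k t * (F ∘ ω.f) t) * leg k x := by ring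
        _ = _ := by rw [hs]
    simp_rw [hS]
    have h4 : ∫⁻ x : Icc (-1 : ℝ) 1, (⨆ n : ℕ, ENNReal.ofReal |Sn n (F ∘ ω.f) x|) ∂muS
        = ∫⁻ x : Icc (-1 : ℝ) 1, (fun y : ℝ => Smax (F ∘ ω.f) y) x ∂muS := by
      refine lintegral_congr fun x => ?_
      unfold Smax
      refine iSup_congr fun n => ?_
      rw [Real.enorm_eq_ofReal_abs]
    rw [h4, lint_sub (fun y : ℝ => Smax (F ∘ ω.f) y)]
    have h6 : ∫⁻ x, Smax (F ∘ ω.f) x ∂mu1 = NN (F ∘ ω.f) := lint_mu1 _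
    rw [h6]
    exact hωN

theorem main_Lp (p : ℝ) (hp : 1 < p) (f : Icc (-1 : ℝ) 1 → ℝ) (hfp : MemLp f (ENNReal.ofReal p) muS) :
    Integrable f muS ∧ ∫⁻ t in Ioi (0 : ℝ), ENNReal.ofReal
      (t ^ (p - 2) * |∫ x, (if t < |f x| then f x else 0) ∂muS|) < ⊤ := by
  classical
  have : IsFiniteMeasure muS := ⟨by
    have := lint_sub (fun _ => 1)
    simp only [lintegral_const, one_mul] at this
    rw [this]; exact measure_lt_top _ _⟩
  obtain ⟨f', hf', hff'⟩ : ∃ f' : Icc (-1 : ℝ) 1 → ℝ, Measurable f' ∧ f =ᵐ[muS] f' :=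
    ⟨hfp.aestronglyMeasurable.mk f, hfp.aestronglyMeasurable.stronglyMeasurable_mk.measurable,
      hfp.aestronglyMeasurable.ae_eq_mk⟩
  refine ⟨hfp.integrable (by rw [← ENNReal.ofReal_one]; exact ENNReal.ofReal_le_ofReal hp.le), ?_⟩
  set F : ℝ → ℝ := Function.extend Subtype.val f' (fun _ => 0) with hF
  have hFx : ∀ x : Icc (-1 : ℝ) 1, F x = f' x := fun x => Subtype.val_injective.extend_apply _ _ x
  have hFm : Measurable F := (MeasurableEmbedding.subtype_coe measurableSet_Icc).measurable_extend hf' measurable_const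
  have hFp : MemLp F (ENNReal.ofReal p) mu1 := by
    have h1 : MemLp (F ∘ Subtype.val) (ENNReal.ofReal p) muS := by
      refine (memLp_congr_ae ?_).1 hfp
      filter_upwards [hff'] with x hx
      simp only [Function.comp_apply, hFx, hx]
    have h := (MeasurableEmbedding.subtype_coe (measurableSet_Icc (a := (-1 : ℝ)) (b := 1))).map_comap (μ := volume)
    rw [Subtype.range_coe] at h
    unfold mu1
    rw [← h, (MeasurableEmbedding.subtype_coe measurableSet_Icc).memLp_map_measure_iff]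
    exact h1
  have := L1.Lp_sub_Mp p hp F hFm hFp
  have e : ∀ t : ℝ, ∫ x, (if t < |F x| then F x else 0) ∂mu1 = ∫ x, (if t < |f x| then f x else 0) ∂muS := by
    intro t
    rw [← int_sub]
    refine integral_congr_ae ?_
    filter_upwards [hff'] with x hx
    rw [hFx, hx]
  simp_rw [e] at this
  exact this

end Pool.Agent.Helper187.Leg
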