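import Pool.Agent.Helper187.Leg.Defs

open Real Filter Topology MeasureTheory

namespace Pool.Agent.Helper187.Leg.K3

open Pool.Agent.Helper187.Leg








lemma leg_zero (x : ℝ) : leg 0 x = 1 := by simp [leg]
lemma leg_one (x : ℝ) : leg 1 x = x := by simp [leg]
lemma leg_succ_succ (n : ℕ) (x : ℝ) :
    leg (n + 2) x = ((2 * n + 3) * x * leg (n + 1) x - (n + 1) * leg n x) / (n + 2) := by
  simp [leg]

lemma leg_rec (n : ℕ) (x : ℝ) :
    ((n : ℝ) + 2) * leg (n + 2) x = (2 * n + 3) * x * leg (n + 1) x - (n + 1) * leg n x := by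
  rw [leg_succ_succ]
  have : (n : ℝ) + 2 ≠ 0 := by positivity
  field_simp

/-- derivative of the Legendre polynomials -/
noncomputable def dleg : ℕ → ℝ → ℝ
  | 0, _ => 0
  | 1, _ => 1
  | (n + 2), x => ((2 * n + 3) * (leg (n + 1) x + x * dleg (n + 1) x) - (n + 1) * dleg n x) / (n + 2)

lemma dleg_succ_succ (n : ℕ) (x : ℝ) :
    dleg (n + 2) x =
      ((2 * n + 3) * (leg (n + 1) x + x * dleg (n + 1) x) - (n + 1) * dleg n x) / (n + 2) := by
  simp [dleg]

lemma dleg_rec (n : ℕ) (x : ℝ) :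
    ((n : ℝ) + 2) * dleg (n + 2) x =
      (2 * n + 3) * (leg (n + 1) x + x * dleg (n + 1) x) - (n + 1) * dleg n x := by
  rw [dleg_succ_succ]
  have : (n : ℝ) + 2 ≠ 0 := by positivity
  field_simp

lemma leg_hasDeriv (x : ℝ) : ∀ n : ℕ, HasDerivAt (leg n) (dleg n x) x ∧
    HasDerivAt (leg (n + 1)) (dleg (n + 1) x) x := by
  intro n
  induction n with
  | zero =>
    constructor
    · have : leg 0 = fun _ => (1 : ℝ) := by funext y; exact leg_zero y
      rw [this]; simpa [dleg] using hasDerivAt_const x (1 : ℝ)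
    · have : leg (0 + 1) = fun y => y := by funext y; exact leg_one y
      rw [this]; simpa [dleg] using hasDerivAt_id' x
  | succ n ih =>
    refine ⟨ih.2, ?_⟩
    have e : leg (n + 1 + 1) = fun y =>
        ((2 * (n : ℝ) + 3) * y * leg (n + 1) y - (n + 1) * leg n y) / (n + 2) := by
      funext y; exact leg_succ_succ n y
    rw [e]
    have h1 : HasDerivAt (fun y => (2 * (n : ℝ) + 3) * y * leg (n + 1) y)
        (((2 * (n : ℝ) + 3) * 1) * leg (n + 1) x + (2 * (n : ℝ) + 3) * x * dleg (n + 1) x) x :=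
      ((hasDerivAt_id x).const_mul (2 * (n : ℝ) + 3)).mul ih.2
    have h2 : HasDerivAt (fun y => ((n : ℝ) + 1) * leg n y) (((n : ℝ) + 1) * dleg n x) x :=
      ih.1.const_mul _
    have h3 := (h1.sub h2).div_const ((n : ℝ) + 2)
    refine h3.congr_deriv ?_
    rw [dleg_succ_succ]; ring

lemma leg_continuous (n : ℕ) : Continuous (leg n) :=
  continuous_iff_continuousAt.2 fun x => (leg_hasDeriv x n).1.continuousAt

lemma dleg_AB (x : ℝ) : ∀ n : ℕ,
    dleg (n + 1) x = x * dleg n x + (n + 1) * leg n x ∧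
    x * dleg (n + 1) x - dleg n x = (n + 1) * leg (n + 1) x := by
  intro n
  induction n with
  | zero => simp [dleg, leg]
  | succ n ih =>
    obtain ⟨hA, hB⟩ := ih
    have hn : (n : ℝ) + 2 ≠ 0 := by positivity
    have r1 := dleg_rec n x
    have r2 := leg_rec n x
    have hA' : dleg (n + 1 + 1) x = x * dleg (n + 1) x + ((n + 1 : ℕ) + 1 : ℝ) * leg (n + 1) x := by
      apply mul_left_cancel₀ hn
      push_cast
      linear_combination r1 + (n + 1) * hB
    refine ⟨hA', ?_⟩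
    have hC : (x ^ 2 - 1) * dleg (n + 1) x = (n + 1) * (x * leg (n + 1) x - leg n x) := by
      linear_combination x * hB - hA
    rw [hA']
    push_cast
    show _ = ((n : ℝ) + 1 + 1) * leg (n + 2) x
    linear_combination hC - r2

lemma dleg_diff (x : ℝ) (n : ℕ) : dleg (n + 2) x - dleg n x = (2 * n + 3) * leg (n + 1) x := by
  have h1 := (dleg_AB x (n + 1)).1
  have h2 := (dleg_AB x n).2
  push_cast at h1
  have h1' : dleg (n + 2) x = x * dleg (n + 1) x + ((n : ℝ) + 1 + 1) * leg (n + 1) x := h1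
  linear_combination h1' + h2

/-- antiderivative of `leg (n+1)` -/
noncomputable def GG (n : ℕ) (x : ℝ) : ℝ := (leg (n + 2) x - leg n x) / (2 * n + 3)

lemma GG_hasDeriv (n : ℕ) (x : ℝ) : HasDerivAt (GG n) (leg (n + 1) x) x := by
  have h1 := (leg_hasDeriv x (n + 2)).1
  have h2 := (leg_hasDeriv x n).1
  have h3 := (h1.sub h2).div_const (2 * (n : ℝ) + 3)
  refine h3.congr_deriv ?_
  rw [dleg_diff]
  have : 2 * (n : ℝ) + 3 ≠ 0 := by positivity
  field_simp

lemma GG_continuous (n : ℕ) : Continuous (GG n) :=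
  continuous_iff_continuousAt.2 fun x => (GG_hasDeriv n x).continuousAt

lemma leg_at_one : ∀ n : ℕ, leg n 1 = 1 ∧ leg (n + 1) 1 = 1 := by
  intro n
  induction n with
  | zero => simp [leg]
  | succ n ih =>
    refine ⟨ih.2, ?_⟩
    show leg (n + 2) 1 = 1
    have := leg_rec n 1
    rw [ih.1, ih.2] at this
    have hn : (n : ℝ) + 2 ≠ 0 := by positivity
    apply mul_left_cancel₀ hn
    linear_combination this

lemma leg_at_neg_one : ∀ n : ℕ, leg n (-1) = (-1) ^ n ∧ leg (n + 1) (-1) = (-1) ^ (n + 1) := by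
  intro n
  induction n with
  | zero => simp [leg]
  | succ n ih =>
    refine ⟨ih.2, ?_⟩
    show leg (n + 2) (-1) = (-1) ^ (n + 2)
    have := leg_rec n (-1)
    rw [ih.1, ih.2] at this
    have hn : (n : ℝ) + 2 ≠ 0 := by positivity
    apply mul_left_cancel₀ hn
    rw [this]; ring

lemma integral_leg_succ (n : ℕ) : ∫ t in (-1 : ℝ)..1, leg (n + 1) t = 0 := by
  rw [intervalIntegral.integral_eq_sub_of_hasDerivAt (fun x _ => GG_hasDeriv n x)
    ((leg_continuous _).intervalIntegrable _ _)]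
  unfold GG
  rw [(leg_at_one (n + 2)).1, (leg_at_one n).1, (leg_at_neg_one (n + 2)).1, (leg_at_neg_one n).1]
  ring

lemma integral_LK (n : ℕ) (x : ℝ) : ∫ t in (-1 : ℝ)..1, LK n x t = 1 := by
  unfold LK
  rw [intervalIntegral.integral_finsetSum]
  · rw [Finset.sum_range_succ']
    have h0 : ∀ k ∈ Finset.range n, ∫ t in (-1 : ℝ)..1,
        (((k + 1 : ℕ) : ℝ) + 1 / 2) * leg (k + 1) x * leg (k + 1) t = 0 := by
      intro k _
      rw [intervalIntegral.integral_const_mul, integral_leg_succ, mul_zero]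
    rw [Finset.sum_eq_zero h0]
    simp only [leg_zero]
    norm_num
  · intro k _
    exact ((leg_continuous k).const_mul _).intervalIntegrable _ _

section bounds

variable {C : ℝ} (hC : 0 < C)
  (hb : ∀ (n : ℕ) (ψ : ℝ), |ψ| < π / 2 → |leg n (sin ψ)| * √(cos ψ) * √(n + 1) ≤ C)

include hb in
lemma leg_pt {x : ℝ} (hx : -1 < x) (hx' : x < 1) :
    ∃ K : ℝ, 0 < K ∧ ∀ n : ℕ, |leg n x| * √(n + 1) ≤ K := by
  have hψ : |arcsin x| < π / 2 := by
    rw [abs_lt]
    exact ⟨Real.neg_pi_div_two_lt_arcsin.2 hx, Real.arcsin_lt_pi_div_two.2 hx'⟩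
  have hcos : 0 < cos (arcsin x) := Real.cos_pos_of_mem_Ioo ⟨(abs_lt.1 hψ).1, (abs_lt.1 hψ).2⟩
  have hs := Real.sin_arcsin hx.le hx'.le
  have hsq : 0 < √(cos (arcsin x)) := Real.sqrt_pos.2 hcos
  refine ⟨max (C / √(cos (arcsin x))) 1, by positivity, fun n => ?_⟩
  have h := hb n (arcsin x) hψ
  rw [hs] at h
  refine le_trans ?_ (le_max_left _ _)
  rw [le_div_iff₀ hsq]
  linarith

include hb in
lemma leg_pt' {x : ℝ} (hx : -1 ≤ x) (hx' : x ≤ 1) :
    ∃ K : ℝ, 0 < K ∧ ∀ n : ℕ, |leg n x| ≤ K := by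
  rcases eq_or_lt_of_le hx with h | h
  · subst h
    exact ⟨1, one_pos, fun n => by rw [(leg_at_neg_one n).1]; simp⟩
  rcases eq_or_lt_of_le hx' with h' | h'
  · subst h'
    exact ⟨1, one_pos, fun n => by rw [(leg_at_one n).1]; simp⟩
  obtain ⟨K, hK, hK'⟩ := leg_pt hb h h'
  refine ⟨K, hK, fun n => ?_⟩
  have h1 : (1 : ℝ) ≤ √(n + 1) := by
    rw [show (1 : ℝ) = √1 by simp]
    exact Real.sqrt_le_sqrt (by simp)
  have h2 := hK' n
  nlinarith [abs_nonneg (leg n x)]

include hC hb in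
lemma leg_int (n : ℕ) : ∫ t in (-1 : ℝ)..1, |leg n t| ≤ C * π := by
  have hsub := intervalIntegral.integral_comp_mul_deriv (a := -(π / 2)) (b := π / 2)
    (f := sin) (f' := cos) (g := fun t => |leg n t|) (fun x _ => Real.hasDerivAt_sin x)
    Real.continuous_cos.continuousOn (leg_continuous n).abs
  rw [Real.sin_neg, Real.sin_pi_div_two] at hsub
  rw [← hsub]
  have hbd : ∀ ψ ∈ Set.uIoc (-(π / 2)) (π / 2),
      ‖((fun t => |leg n t|) ∘ sin) ψ * cos ψ‖ ≤ C := by
    intro ψ hψ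
    have hpi := Real.pi_pos
    rw [Set.uIoc_of_le (by linarith)] at hψ
    have hcos : 0 ≤ cos ψ := Real.cos_nonneg_of_mem_Icc ⟨hψ.1.le, hψ.2⟩
    simp only [Function.comp]
    rw [Real.norm_eq_abs, abs_mul, abs_abs, abs_of_nonneg hcos]
    rcases eq_or_lt_of_le hψ.2 with h | h
    · rw [h, Real.cos_pi_div_two, mul_zero]; exact hC.le
    · have h1 := hb n ψ (abs_lt.2 ⟨hψ.1, h⟩)
      have h2 : (1 : ℝ) ≤ √(n + 1) := by
        rw [show (1 : ℝ) = √1 by simp]
        exact Real.sqrt_le_sqrt (by simp)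
      have h3 : √(cos ψ) ≤ 1 := by
        rw [show (1 : ℝ) = √1 by simp]
        exact Real.sqrt_le_sqrt (Real.cos_le_one ψ)
      have h4 : cos ψ = √(cos ψ) * √(cos ψ) := (Real.mul_self_sqrt hcos).symm
      have h5 := Real.sqrt_nonneg (cos ψ)
      have h6 := abs_nonneg (leg n (sin ψ))
      calc |leg n (sin ψ)| * cos ψ = (|leg n (sin ψ)| * √(cos ψ)) * √(cos ψ) := by
            rw [mul_assoc, ← h4]
        _ ≤ (|leg n (sin ψ)| * √(cos ψ)) * 1 :=
            mul_le_mul_of_nonneg_left h3 (mul_nonneg h6 h5)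
        _ ≤ (|leg n (sin ψ)| * √(cos ψ)) * √(n + 1) :=
            mul_le_mul_of_nonneg_left h2 (mul_nonneg h6 h5)
        _ ≤ C := h1
  have h := intervalIntegral.norm_integral_le_of_norm_le_const hbd
  have hpi := Real.pi_pos
  rw [show π / 2 - -(π / 2) = π by ring, abs_of_pos hpi] at h
  exact (le_abs_self _).trans h

lemma GG_abs (n : ℕ) (x : ℝ) : |GG n x| ≤ (|leg (n + 2) x| + |leg n x|) / (2 * n + 3) := by
  unfold GG
  rw [abs_div, abs_of_pos (show (0 : ℝ) < 2 * n + 3 by positivity)]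
  exact div_le_div_of_nonneg_right (abs_sub _ _) (by positivity)

include hC hb in
lemma GG_int {c d : ℝ} (hc : -1 ≤ c) (hcd : c ≤ d) (hd : d ≤ 1) (n : ℕ) :
    ∫ t in c..d, |GG n t| ≤ (2 * (C * π)) / (2 * n + 3) := by
  have h1 : ∫ t in c..d, |GG n t| ≤ ∫ t in (-1 : ℝ)..1, |GG n t| := by
    apply intervalIntegral.integral_mono_interval hc hcd hd
    · exact Filter.Eventually.of_forall fun t => abs_nonneg _
    · exact (GG_continuous n).abs.intervalIntegrable _ _
  have h2 : ∫ t in (-1 : ℝ)..1, |GG n t| ≤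
      ∫ t in (-1 : ℝ)..1, (|leg (n + 2) t| + |leg n t|) / (2 * n + 3) := by
    apply intervalIntegral.integral_mono_on (by norm_num)
    · exact (GG_continuous n).abs.intervalIntegrable _ _
    · exact (((leg_continuous _).abs.add (leg_continuous _).abs).div_const _).intervalIntegrable _ _
    · intro t _; exact GG_abs n t
  have h3 : ∫ t in (-1 : ℝ)..1, (|leg (n + 2) t| + |leg n t|) / (2 * n + 3) =
      ((∫ t in (-1 : ℝ)..1, |leg (n + 2) t|) + ∫ t in (-1 : ℝ)..1, |leg n t|) / (2 * n + 3) := by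
    rw [intervalIntegral.integral_div, intervalIntegral.integral_add]
    · exact (leg_continuous _).abs.intervalIntegrable _ _
    · exact (leg_continuous _).abs.intervalIntegrable _ _
  have h4 := leg_int hC hb (n + 2)
  have h5 := leg_int hC hb n
  rw [h3] at h2
  refine h1.trans (h2.trans (div_le_div_of_nonneg_right (by linarith) (by positivity)))

include hC hb in
/-- decay of the integrals away from `x` -/
lemma J_bound {c d x : ℝ} (hc : -1 ≤ c) (hcd : c ≤ d) (hd : d ≤ 1) {δ : ℝ} (hδ : 0 < δ)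
    (hx : ∀ t ∈ Set.Icc c d, δ ≤ |x - t|) :
    ∃ K : ℝ, 0 < K ∧ ∀ n : ℕ, |∫ t in c..d, leg n t * (x - t)⁻¹| * (n + 1) ≤ K := by
  obtain ⟨Kc, hKc, hKc'⟩ := leg_pt' hb hc (hcd.trans hd)
  obtain ⟨Kd, hKd, hKd'⟩ := leg_pt' hb (hc.trans hcd) hd
  have hne : ∀ t ∈ Set.Icc c d, x - t ≠ 0 := by
    intro t ht h
    have := hx t ht
    rw [h, abs_zero] at this
    linarith
  set J : ℕ → ℝ := fun n => ∫ t in c..d, leg n t * (x - t)⁻¹ with hJ
  -- bound for n+1
  have hder : ∀ t ∈ Set.uIcc c d, HasDerivAt (fun t => (x - t)⁻¹) (((x - t) ^ 2)⁻¹) t := by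
    intro t ht
    rw [Set.uIcc_of_le hcd] at ht
    have h1 : HasDerivAt (fun t => x - t) (-1) t := by
      simpa using (hasDerivAt_id t).const_sub x
    have h2 := h1.inv (hne t ht)
    refine h2.congr_deriv ?_
    simp
  have hcont : ContinuousOn (fun t => (x - t)⁻¹) (Set.uIcc c d) := fun t ht =>
    (hder t ht).continuousAt.continuousWithinAt
  have hcont2 : ContinuousOn (fun t => ((x - t) ^ 2)⁻¹) (Set.uIcc c d) := by
    refine ContinuousOn.inv₀ (by fun_prop) ?_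
    intro t ht
    rw [Set.uIcc_of_le hcd] at ht
    exact pow_ne_zero 2 (hne t ht)
  have hparts : ∀ n : ℕ, J (n + 1) = GG n d * (x - d)⁻¹ - GG n c * (x - c)⁻¹ -
      ∫ t in c..d, GG n t * ((x - t) ^ 2)⁻¹ := by
    intro n
    have h := intervalIntegral.integral_mul_deriv_eq_deriv_mul (a := c) (b := d)
      (u := fun t => (x - t)⁻¹) (v := GG n) (u' := fun t => ((x - t) ^ 2)⁻¹) (v' := leg (n + 1))
      hder (fun t _ => GG_hasDeriv n t) hcont2.intervalIntegrable
      ((leg_continuous _).intervalIntegrable _ _)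
    have e1 : J (n + 1) = ∫ t in c..d, (x - t)⁻¹ * leg (n + 1) t := by
      simp only [hJ]
      exact intervalIntegral.integral_congr fun t _ => mul_comm _ _
    have e2 : (∫ t in c..d, ((x - t) ^ 2)⁻¹ * GG n t) = ∫ t in c..d, GG n t * ((x - t) ^ 2)⁻¹ :=
      intervalIntegral.integral_congr fun t _ => mul_comm _ _
    rw [e1, h, e2]
    ring
  have hinv : ∀ t ∈ Set.Icc c d, |(x - t)⁻¹| ≤ δ⁻¹ := by
    intro t ht
    rw [abs_inv]
    exact inv_anti₀ hδ (hx t ht)
  have hinv2 : ∀ t ∈ Set.Icc c d, |((x - t) ^ 2)⁻¹| ≤ (δ ^ 2)⁻¹ := by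
    intro t ht
    rw [abs_inv, abs_pow]
    exact inv_anti₀ (by positivity) (pow_le_pow_left₀ hδ.le (hx t ht) 2)
  have hJn : ∀ n : ℕ, |J (n + 1)| ≤ (2 * Kd * δ⁻¹ + 2 * Kc * δ⁻¹ + 2 * (C * π) * (δ ^ 2)⁻¹) /
      (2 * n + 3) := by
    intro n
    have hpos : (0 : ℝ) < 2 * n + 3 := by positivity
    have a1 : |GG n d * (x - d)⁻¹| ≤ (2 * Kd * δ⁻¹) / (2 * n + 3) := by
      rw [abs_mul]
      have h1 : |GG n d| ≤ (2 * Kd) / (2 * n + 3) :=
        (GG_abs n d).trans (div_le_div_of_nonneg_right (by linarith [hKd' n, hKd' (n + 2)]) hpos.le)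
      have h2 := hinv d ⟨hcd, le_rfl⟩
      calc |GG n d| * |(x - d)⁻¹| ≤ (2 * Kd) / (2 * n + 3) * δ⁻¹ :=
            mul_le_mul h1 h2 (abs_nonneg _) (by positivity)
        _ = _ := by ring
    have a2 : |GG n c * (x - c)⁻¹| ≤ (2 * Kc * δ⁻¹) / (2 * n + 3) := by
      rw [abs_mul]
      have h1 : |GG n c| ≤ (2 * Kc) / (2 * n + 3) :=
        (GG_abs n c).trans (div_le_div_of_nonneg_right (by linarith [hKc' n, hKc' (n + 2)]) hpos.le)
      have h2 := hinv c ⟨le_rfl, hcd⟩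
      calc |GG n c| * |(x - c)⁻¹| ≤ (2 * Kc) / (2 * n + 3) * δ⁻¹ :=
            mul_le_mul h1 h2 (abs_nonneg _) (by positivity)
        _ = _ := by ring
    have a3 : |∫ t in c..d, GG n t * ((x - t) ^ 2)⁻¹| ≤
        (2 * (C * π) * (δ ^ 2)⁻¹) / (2 * n + 3) := by
      have h1 : |∫ t in c..d, GG n t * ((x - t) ^ 2)⁻¹| ≤
          ∫ t in c..d, |GG n t| * (δ ^ 2)⁻¹ := by
        have := intervalIntegral.norm_integral_le_of_norm_le (f := fun t => GG n t * ((x - t) ^ 2)⁻¹)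
          (g := fun t => |GG n t| * (δ ^ 2)⁻¹) (μ := volume) hcd
          (Filter.Eventually.of_forall fun t ht => ?_) 
          (((GG_continuous n).abs.mul_const _).intervalIntegrable _ _)
        · exact this
        · rw [Real.norm_eq_abs, abs_mul]
          exact mul_le_mul_of_nonneg_left (hinv2 t ⟨ht.1.le, ht.2⟩) (abs_nonneg _)
      rw [intervalIntegral.integral_mul_const] at h1
      refine h1.trans ?_
      have h2 := GG_int hC hb hc hcd hd n
      calc (∫ t in c..d, |GG n t|) * (δ ^ 2)⁻¹ ≤ (2 * (C * π)) / (2 * n + 3) * (δ ^ 2)⁻¹ :=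
            mul_le_mul_of_nonneg_right h2 (by positivity)
        _ = _ := by ring
    rw [hparts n]
    have t1 := abs_sub (GG n d * (x - d)⁻¹ - GG n c * (x - c)⁻¹)
      (∫ t in c..d, GG n t * ((x - t) ^ 2)⁻¹)
    have t2 := abs_sub (GG n d * (x - d)⁻¹) (GG n c * (x - c)⁻¹)
    rw [add_div, add_div]
    linarith
  have hpi := Real.pi_pos
  refine ⟨|J 0| + (2 * Kd * δ⁻¹ + 2 * Kc * δ⁻¹ + 2 * (C * π) * (δ ^ 2)⁻¹) , by positivity,
    fun n => ?_⟩
  cases n with
  | zero =>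
    have : 0 ≤ 2 * Kd * δ⁻¹ + 2 * Kc * δ⁻¹ + 2 * (C * π) * (δ ^ 2)⁻¹ := by positivity
    show |J 0| * ((0 : ℕ) + 1 : ℝ) ≤ _
    simp only [Nat.cast_zero, zero_add, mul_one]
    linarith
  | succ n =>
    have h1 := hJn n
    have hpos : (0 : ℝ) < 2 * n + 3 := by positivity
    rw [le_div_iff₀ hpos] at h1
    show |J (n + 1)| * (((n + 1 : ℕ) : ℝ) + 1) ≤ _
    push_cast
    have h2 : |J (n + 1)| * ((n : ℝ) + 1 + 1) ≤ |J (n + 1)| * (2 * n + 3) := by
      apply mul_le_mul_of_nonneg_left _ (abs_nonneg _)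
      have : (0 : ℝ) ≤ n := Nat.cast_nonneg n
      linarith
    have h3 := abs_nonneg (J 0)
    linarith

include hC hb in
lemma far_tendsto
    (hcdf : ∀ (n : ℕ) (x t : ℝ), (x - t) * LK n x t
      = (n + 1) / 2 * (leg (n + 1) x * leg n t - leg n x * leg (n + 1) t))
    {c d x : ℝ} (hc : -1 ≤ c) (hcd : c ≤ d) (hd : d ≤ 1) (hx1 : -1 < x) (hx2 : x < 1)
    {δ : ℝ} (hδ : 0 < δ) (hx : ∀ t ∈ Set.Icc c d, δ ≤ |x - t|) :
    Tendsto (fun n : ℕ => ∫ t in c..d, LK n x t) atTop (𝓝 0) := by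
  obtain ⟨K, hK, hK'⟩ := J_bound hC hb hc hcd hd hδ hx
  obtain ⟨L, hL, hL'⟩ := leg_pt hb hx1 hx2
  have hne : ∀ t ∈ Set.Icc c d, x - t ≠ 0 := by
    intro t ht h
    have := hx t ht
    rw [h, abs_zero] at this
    linarith
  have hcont : ContinuousOn (fun t => (x - t)⁻¹) (Set.uIcc c d) := by
    refine ContinuousOn.inv₀ (by fun_prop) ?_
    intro t ht
    rw [Set.uIcc_of_le hcd] at ht
    exact hne t ht
  have hint : ∀ n : ℕ, IntervalIntegrable (fun t => leg n t * (x - t)⁻¹) volume c d := fun n =>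
    ((leg_continuous n).continuousOn.mul hcont).intervalIntegrable
  have heq : ∀ n : ℕ, ∫ t in c..d, LK n x t = (n + 1) / 2 *
      (leg (n + 1) x * (∫ t in c..d, leg n t * (x - t)⁻¹) -
        leg n x * ∫ t in c..d, leg (n + 1) t * (x - t)⁻¹) := by
    intro n
    rw [← intervalIntegral.integral_const_mul, ← intervalIntegral.integral_const_mul,
      ← intervalIntegral.integral_sub ((hint n).const_mul _) ((hint (n + 1)).const_mul _),
      ← intervalIntegral.integral_const_mul]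
    refine intervalIntegral.integral_congr fun t ht => ?_
    rw [Set.uIcc_of_le hcd] at ht
    have h1 := hne t ht
    have h2 := hcdf n x t
    show LK n x t = _
    have h3 : LK n x t = ((x - t) * LK n x t) * (x - t)⁻¹ := by field_simp
    rw [h3, h2]; ring
  have hbd : ∀ n : ℕ, ‖∫ t in c..d, LK n x t‖ ≤ (K * L) * (1 / √((n : ℝ) + 1)) := by
    intro n
    have hn : (0 : ℝ) < n + 1 := by positivity
    have hs : 0 < √((n : ℝ) + 1) := Real.sqrt_pos.2 hn
    have hs2 : 0 < √(((n + 1 : ℕ) : ℝ) + 1) := Real.sqrt_pos.2 (by positivity)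
    have b1 : |leg (n + 1) x| ≤ L / √((n : ℝ) + 1) := by
      rw [le_div_iff₀ hs]
      refine le_trans ?_ (hL' (n + 1))
      apply mul_le_mul_of_nonneg_left _ (abs_nonneg _)
      apply Real.sqrt_le_sqrt
      push_cast; linarith
    have b2 : |leg n x| ≤ L / √((n : ℝ) + 1) := by
      rw [le_div_iff₀ hs]; exact hL' n
    have b3 : |∫ t in c..d, leg n t * (x - t)⁻¹| ≤ K / (n + 1) := by
      rw [le_div_iff₀ hn]; exact hK' n
    have b4 : |∫ t in c..d, leg (n + 1) t * (x - t)⁻¹| ≤ K / (n + 1) := by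
      rw [le_div_iff₀ hn]
      refine le_trans ?_ (hK' (n + 1))
      apply mul_le_mul_of_nonneg_left _ (abs_nonneg _)
      push_cast; linarith
    rw [heq n, Real.norm_eq_abs, abs_mul, abs_of_pos (show (0 : ℝ) < (n + 1) / 2 by positivity)]
    have t1 := abs_sub (leg (n + 1) x * (∫ t in c..d, leg n t * (x - t)⁻¹))
      (leg n x * ∫ t in c..d, leg (n + 1) t * (x - t)⁻¹)
    rw [abs_mul, abs_mul] at t1
    have t2 : |leg (n + 1) x| * |∫ t in c..d, leg n t * (x - t)⁻¹| ≤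
        L / √((n : ℝ) + 1) * (K / (n + 1)) :=
      mul_le_mul b1 b3 (abs_nonneg _) (by positivity)
    have t3 : |leg n x| * |∫ t in c..d, leg (n + 1) t * (x - t)⁻¹| ≤
        L / √((n : ℝ) + 1) * (K / (n + 1)) :=
      mul_le_mul b2 b4 (abs_nonneg _) (by positivity)
    calc (n + 1) / 2 * |leg (n + 1) x * (∫ t in c..d, leg n t * (x - t)⁻¹) -
        leg n x * ∫ t in c..d, leg (n + 1) t * (x - t)⁻¹|
        ≤ ((n : ℝ) + 1) / 2 * (L / √((n : ℝ) + 1) * (K / (n + 1)) +
          L / √((n : ℝ) + 1) * (K / (n + 1))) :=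
          mul_le_mul_of_nonneg_left (by linarith) (by positivity)
      _ = (K * L) * (1 / √((n : ℝ) + 1)) := by
          field_simp
          ring
  refine squeeze_zero_norm hbd ?_
  have h1 : Tendsto (fun n : ℕ => 1 / √((n : ℝ) + 1)) atTop (𝓝 0) := by
    have h2 : Tendsto (fun n : ℕ => √((n : ℝ) + 1)) atTop atTop :=
      Real.tendsto_sqrt_atTop.comp (tendsto_atTop_add_const_right _ _ tendsto_natCast_atTop_atTop)
    simp only [one_div]
    exact h2.inv_tendsto_atTop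
  simpa using h1.const_mul (K * L)

end bounds

lemma LK_continuous (n : ℕ) (x : ℝ) : Continuous (fun t => LK n x t) := by
  unfold LK
  exact continuous_finsetSum _ fun k _ => (leg_continuous k).const_mul _

/-- Pointwise convergence of the Legendre series of the indicator of an interval. The three
hypotheses are proved in another file (Bernstein bound, interior asymptotics, Christoffel-Darboux). -/
theorem LK_interval
    (hbound : ∃ C : ℝ, 0 < C ∧ ∀ (n : ℕ) (ψ : ℝ), |ψ| < π / 2 → |leg n (sin ψ)| * √(cos ψ) * √(n + 1) ≤ C)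
    (hasymp : ∃ (C : ℝ) (a b : ℕ → ℝ), 0 < C ∧ (∀ n, |a n| * √(n + 1) ≤ C) ∧ (∀ n, |b n| * √(n + 1) ≤ C) ∧
      ∀ ρ : ℝ, 0 < ρ → ∃ Cρ : ℝ, 0 < Cρ ∧ ∀ (n : ℕ) (ψ : ℝ), |ψ| ≤ π / 2 - ρ →
        |leg n (sin ψ) * √(cos ψ) - (a n * cos ((n + 1 / 2) * ψ) + b n * sin ((n + 1 / 2) * ψ))|
          * ((n + 1) * √(n + 1)) ≤ Cρ)
    (hcd : ∀ (n : ℕ) (x t : ℝ), (x - t) * LK n x t
      = (n + 1) / 2 * (leg (n + 1) x * leg n t - leg n x * leg (n + 1) t))
    {a b : ℝ} (ha : -1 < a) (hab : a < b) (hb : b < 1) {x : ℝ} (hx : -1 < x) (hx' : x < 1)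
    (hxa : x ≠ a) (hxb : x ≠ b) :
    Tendsto (fun n : ℕ => ∫ t in a..b, LK n x t) atTop (𝓝 (if a < x ∧ x < b then 1 else 0)) := by
  obtain ⟨C, hC, hb0⟩ := hbound
  have hfar : ∀ c d : ℝ, -1 ≤ c → c ≤ d → d ≤ 1 → (x < c ∨ d < x) →
      Tendsto (fun n : ℕ => ∫ t in c..d, LK n x t) atTop (𝓝 0) := by
    intro c d hc hcd' hd hxx
    rcases hxx with h | h
    · refine far_tendsto hC hb0 hcd hc hcd' hd hx hx' (sub_pos.2 h) ?_
      intro t ht
      rw [abs_sub_comm, abs_of_pos (by linarith [ht.1])]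
      linarith [ht.1]
    · refine far_tendsto hC hb0 hcd hc hcd' hd hx hx' (sub_pos.2 h) ?_
      intro t ht
      rw [abs_of_pos (by linarith [ht.2])]
      linarith [ht.2]
  by_cases hin : a < x ∧ x < b
  · rw [if_pos hin]
    have h1 := hfar (-1) a le_rfl ha.le (hab.le.trans hb.le) (Or.inr hin.1)
    have h2 := hfar b 1 (ha.le.trans hab.le) hb.le le_rfl (Or.inl hin.2)
    have h3 : Tendsto (fun n : ℕ => 1 - (∫ t in (-1 : ℝ)..a, LK n x t) - ∫ t in b..1, LK n x t)
        atTop (𝓝 (1 - 0 - 0)) := (tendsto_const_nhds.sub h1).sub h2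
    rw [sub_zero, sub_zero] at h3
    refine h3.congr fun n => ?_
    have hi : ∀ p q : ℝ, IntervalIntegrable (fun t => LK n x t) volume p q := fun p q =>
      (LK_continuous n x).intervalIntegrable _ _
    have e1 := intervalIntegral.integral_add_adjacent_intervals (hi (-1) a) (hi a b)
    have e2 := intervalIntegral.integral_add_adjacent_intervals (hi (-1) b) (hi b 1)
    have e3 := integral_LK n x
    linarith
  · rw [if_neg hin]
    refine hfar a b ha.le hab.le hb.le ?_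
    by_contra hcon
    push Not at hcon
    exact hin ⟨lt_of_le_of_ne hcon.1 (Ne.symm hxa), lt_of_le_of_ne hcon.2 hxb⟩

end Pool.Agent.Helper187.Leg.K3
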