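import Pool.Agent.Helper187.Leg.Defs

open Real

namespace Pool.Agent.Helper187.Leg.KA

open Pool.Agent.Helper187.Leg







/-! ### derivatives -/

/-- derivative of the Legendre polynomials -/
noncomputable def dleg : ℕ → ℝ → ℝ
  | 0, _ => 0
  | 1, _ => 1
  | (n + 2), x => ((2 * n + 3) * (leg (n + 1) x + x * dleg (n + 1) x) - (n + 1) * dleg n x) / (n + 2)

theorem leg_zero (x : ℝ) : leg 0 x = 1 := by rw [leg]
theorem leg_one (x : ℝ) : leg 1 x = x := by rw [leg]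
theorem leg_add_two (n : ℕ) (x : ℝ) :
    leg (n + 2) x = ((2 * n + 3) * x * leg (n + 1) x - (n + 1) * leg n x) / (n + 2) := by rw [leg]
theorem dleg_zero (x : ℝ) : dleg 0 x = 0 := by rw [dleg]
theorem dleg_one (x : ℝ) : dleg 1 x = 1 := by rw [dleg]
theorem dleg_add_two (n : ℕ) (x : ℝ) :
    dleg (n + 2) x = ((2 * n + 3) * (leg (n + 1) x + x * dleg (n + 1) x) - (n + 1) * dleg n x)
      / (n + 2) := by rw [dleg]

theorem leg_rec (n : ℕ) (x : ℝ) :
    (n + 2) * leg (n + 2) x = (2 * n + 3) * x * leg (n + 1) x - (n + 1) * leg n x := by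
  rw [leg_add_two]
  have : (n : ℝ) + 2 ≠ 0 := by positivity
  field_simp

theorem dleg_rec (n : ℕ) (x : ℝ) :
    (n + 2) * dleg (n + 2) x = (2 * n + 3) * (leg (n + 1) x + x * dleg (n + 1) x)
      - (n + 1) * dleg n x := by
  rw [dleg_add_two]
  have : (n : ℝ) + 2 ≠ 0 := by positivity
  field_simp

theorem hasDerivAt_leg_aux (x : ℝ) (n : ℕ) :
    HasDerivAt (leg n) (dleg n x) x ∧ HasDerivAt (leg (n + 1)) (dleg (n + 1) x) x := by
  induction n with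
  | zero =>
    constructor
    · have h : leg 0 = fun _ => (1 : ℝ) := by funext y; exact leg_zero y
      rw [h, dleg_zero]
      exact hasDerivAt_const x 1
    · have h : leg (0 + 1) = fun y => y := by funext y; exact leg_one y
      rw [h, zero_add, dleg_one]
      exact hasDerivAt_id x
  | succ n ih =>
    refine ⟨ih.2, ?_⟩
    have h : leg (n + 1 + 1) = fun y => ((2 * n + 3) * y * leg (n + 1) y - (n + 1) * leg n y) / (n + 2) := by
      funext y; exact leg_add_two n y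
    rw [h]
    have h1 := ((((hasDerivAt_id x).const_mul (2 * (n : ℝ) + 3)).mul ih.2).sub
      (ih.1.const_mul ((n : ℝ) + 1))).div_const ((n : ℝ) + 2)
    refine h1.congr_deriv ?_
    have h2 := dleg_add_two n x
    rw [show n + 1 + 1 = n + 2 from rfl, h2]
    simp only [id, mul_one]
    ring

theorem hasDerivAt_leg (n : ℕ) (x : ℝ) : HasDerivAt (leg n) (dleg n x) x :=
  (hasDerivAt_leg_aux x n).1

theorem rel_ab (x : ℝ) (n : ℕ) :
    dleg (n + 1) x = x * dleg n x + (n + 1) * leg n x ∧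
      x * dleg (n + 1) x - dleg n x = (n + 1) * leg (n + 1) x := by
  induction n with
  | zero =>
    simp [dleg_zero, dleg_one, leg_zero, leg_one]
  | succ n ih =>
    obtain ⟨ha, hb⟩ := ih
    have hn : (n : ℝ) + 2 ≠ 0 := by positivity
    have hr := leg_rec n x
    have hd := dleg_rec n x
    have h1 : dleg (n + 2) x = x * dleg (n + 1) x + (n + 2) * leg (n + 1) x := by
      apply mul_left_cancel₀ hn
      linear_combination hd + ((n : ℝ) + 1) * hb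
    constructor
    · rw [show n + 1 + 1 = n + 2 from rfl, h1]
      push_cast; ring
    · rw [show n + 1 + 1 = n + 2 from rfl, h1]
      push_cast
      have h2 : ((n : ℝ) + 1 + 1) * leg (n + 2) x = (2 * n + 3) * x * leg (n + 1) x - (n + 1) * leg n x := by
        rw [← hr]; ring
      rw [h2]
      linear_combination x * hb - ha

/-- `(1 - x^2) P'` -/
noncomputable def G (n : ℕ) (x : ℝ) : ℝ := (1 - x ^ 2) * dleg n x

theorem G_succ (n : ℕ) (x : ℝ) : G (n + 1) x = (n + 1) * (leg n x - x * leg (n + 1) x) := by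
  obtain ⟨ha, hb⟩ := rel_ab x n
  rw [G]
  linear_combination (-x) * hb + ha

theorem hasDerivAt_G (n : ℕ) (x : ℝ) : HasDerivAt (G n) (-(n * (n + 1)) * leg n x) x := by
  cases n with
  | zero =>
    have h : G 0 = fun _ => (0 : ℝ) := by funext y; rw [G, dleg_zero, mul_zero]
    rw [h]
    simpa using hasDerivAt_const x (0 : ℝ)
  | succ n =>
    have h : G (n + 1) = fun y => ((n : ℝ) + 1) * (leg n y - y * leg (n + 1) y) := by
      funext y; exact G_succ n y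
    rw [h]
    have h1 := ((hasDerivAt_leg n x).sub ((hasDerivAt_id x).mul (hasDerivAt_leg (n + 1) x))).const_mul
      ((n : ℝ) + 1)
    refine h1.congr_deriv ?_
    obtain ⟨ha, hb⟩ := rel_ab x n
    simp only [id, one_mul]
    push_cast
    linear_combination (-((n : ℝ) + 1)) * hb

theorem leg_neg_aux (x : ℝ) (n : ℕ) :
    leg n (-x) = (-1) ^ n * leg n x ∧ leg (n + 1) (-x) = (-1) ^ (n + 1) * leg (n + 1) x := by
  induction n with
  | zero => simp [leg_zero, leg_one]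
  | succ n ih =>
    refine ⟨ih.2, ?_⟩
    rw [show n + 1 + 1 = n + 2 from rfl, leg_add_two, leg_add_two, ih.1, ih.2]
    ring

theorem leg_neg (n : ℕ) (x : ℝ) : leg n (-x) = (-1) ^ n * leg n x := (leg_neg_aux x n).1

theorem abs_leg_neg (n : ℕ) (x : ℝ) : |leg n (-x)| = |leg n x| := by
  rw [leg_neg, abs_mul, abs_pow, abs_neg, abs_one, one_pow, one_mul]

/-! ### the function `u` -/

noncomputable def U (n : ℕ) (ψ : ℝ) : ℝ := leg n (sin ψ) * √(cos ψ)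
noncomputable def V (n : ℕ) (ψ : ℝ) : ℝ := (G n (sin ψ) - sin ψ * leg n (sin ψ) / 2) / √(cos ψ)
noncomputable def Q (n : ℕ) (ψ : ℝ) : ℝ := ((n : ℝ) + 1 / 2) ^ 2 + 1 / (4 * cos ψ ^ 2)

theorem hasDerivAt_U (n : ℕ) {ψ : ℝ} (hc : 0 < cos ψ) : HasDerivAt (U n) (V n ψ) ψ := by
  have h1 : HasDerivAt (fun ψ => leg n (sin ψ)) (dleg n (sin ψ) * cos ψ) ψ :=
    (hasDerivAt_leg n (sin ψ)).comp ψ (hasDerivAt_sin ψ)
  have h2 := (hasDerivAt_cos ψ).sqrt hc.ne'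
  have h3 := h1.mul h2
  refine h3.congr_deriv ?_
  have hr : √(cos ψ) ≠ 0 := (Real.sqrt_pos.mpr hc).ne'
  have hrr : √(cos ψ) ^ 2 = cos ψ := Real.sq_sqrt hc.le
  have hs : sin ψ ^ 2 = 1 - cos ψ ^ 2 := Real.sin_sq ψ
  rw [V, G]
  field_simp
  rw [hrr, hs]
  ring

theorem hasDerivAt_V (n : ℕ) {ψ : ℝ} (hc : 0 < cos ψ) :
    HasDerivAt (V n) (-(Q n ψ) * U n ψ) ψ := by
  have h1 : HasDerivAt (fun ψ => leg n (sin ψ)) (dleg n (sin ψ) * cos ψ) ψ :=
    (hasDerivAt_leg n (sin ψ)).comp ψ (hasDerivAt_sin ψ)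
  have h2 := (hasDerivAt_cos ψ).sqrt hc.ne'
  have h3 : HasDerivAt (fun ψ => G n (sin ψ)) (-(n * (n + 1)) * leg n (sin ψ) * cos ψ) ψ :=
    (hasDerivAt_G n (sin ψ)).comp ψ (hasDerivAt_sin ψ)
  have hr : √(cos ψ) ≠ 0 := (Real.sqrt_pos.mpr hc).ne'
  have h4 := (h3.sub (((hasDerivAt_sin ψ).mul h1).div_const 2)).div h2 hr
  refine h4.congr_deriv ?_
  have hrr : √(cos ψ) ^ 2 = cos ψ := Real.sq_sqrt hc.le
  have hs : sin ψ ^ 2 = 1 - cos ψ ^ 2 := Real.sin_sq ψ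
  set r := √(cos ψ) with hrdef
  have hc2 : cos ψ = r ^ 2 := hrr.symm
  have hr4 : sin ψ ^ 2 = 1 - r ^ 4 := by rw [hs, hc2]; ring
  rw [Q, U, ← hrdef]
  simp only [G]
  rw [hc2]
  simp only [Pi.mul_apply, Pi.sub_apply]
  field_simp
  linear_combination (-8 * sin ψ * dleg n (sin ψ) - 4 * leg n (sin ψ)) * hr4


/-! ### values at zero -/

theorem leg_zero_step (n : ℕ) : (n + 2) * leg (n + 2) 0 = -((n + 1) * leg n 0) := by
  have := leg_rec n 0
  linear_combination this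

theorem leg_prod_zero (n : ℕ) : leg n 0 * leg (n + 1) 0 = 0 := by
  induction n with
  | zero => simp [leg_one]
  | succ n ih =>
    have h := leg_zero_step n
    have hn : (n : ℝ) + 2 ≠ 0 := by positivity
    apply mul_left_cancel₀ hn
    rw [show n + 1 + 1 = n + 2 from rfl]
    linear_combination (leg (n + 1) 0) * h - ((n : ℝ) + 1) * ih

theorem leg_zero_bound_aux (n : ℕ) :
    (leg n 0) ^ 2 * (n + 1) ≤ 1 ∧ (leg (n + 1) 0) ^ 2 * (n + 2) ≤ 1 := by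
  induction n with
  | zero => simp [leg_zero, leg_one]
  | succ n ih =>
    constructor
    · have := ih.2
      push_cast
      linarith
    · have h := leg_zero_step n
      have hn : (0 : ℝ) < (n : ℝ) + 2 := by positivity
      have h1 : leg (n + 2) 0 = -((n + 1) * leg n 0) / (n + 2) := by
        rw [eq_div_iff hn.ne', ← h]; ring
      rw [show n + 1 + 1 = n + 2 from rfl, h1]
      have h2 := ih.1
      push_cast
      have h3 : (-((n + 1) * leg n 0) / ((n : ℝ) + 2)) ^ 2 * ((n : ℝ) + 1 + 2)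
          = (leg n 0 ^ 2 * (n + 1)) * (((n : ℝ) + 1) * (n + 3) / (n + 2) ^ 2) := by
        field_simp
        ring
      rw [h3]
      have h4 : ((n : ℝ) + 1) * (n + 3) / (n + 2) ^ 2 ≤ 1 := by
        rw [div_le_one (by positivity)]
        nlinarith
      have h5 : 0 ≤ ((n : ℝ) + 1) * (n + 3) / (n + 2) ^ 2 := by positivity
      calc _ ≤ 1 * (((n : ℝ) + 1) * (n + 3) / (n + 2) ^ 2) := mul_le_mul_of_nonneg_right h2 h5
        _ ≤ 1 := by linarith

theorem leg_zero_bound (n : ℕ) : (leg n 0) ^ 2 * (n + 1) ≤ 1 := (leg_zero_bound_aux n).1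

theorem dleg_succ_zero (n : ℕ) : dleg (n + 1) 0 = (n + 1) * leg n 0 := by
  have := (rel_ab 0 n).1
  linear_combination this

theorem dleg_zero_bound (n : ℕ) : (dleg n 0) ^ 2 * (n + 1) ≤ (n + 1 / 2) ^ 2 := by
  cases n with
  | zero =>
    rw [dleg_zero]
    norm_num
  | succ n =>
    rw [dleg_succ_zero]
    have h := leg_zero_bound n
    push_cast
    have h1 : (((n : ℝ) + 1) * leg n 0) ^ 2 * (n + 1 + 1) = (leg n 0 ^ 2 * (n + 1)) * ((n + 1) * (n + 2)) := by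
      ring
    rw [h1]
    have h2 : (0 : ℝ) ≤ ((n : ℝ) + 1) * (n + 2) := by positivity
    nlinarith

/-! ### the Sonin function -/

theorem Q_pos (n : ℕ) {ψ : ℝ} (hc : 0 < cos ψ) : 0 < Q n ψ := by
  rw [Q]; positivity

theorem hasDerivAt_Q (n : ℕ) {ψ : ℝ} (hc : 0 < cos ψ) :
    HasDerivAt (Q n) (sin ψ / (2 * cos ψ ^ 3)) ψ := by
  have h1 := (((hasDerivAt_cos ψ).pow 2).const_mul 4).inv (by
    simp only [Pi.pow_apply]; positivity)
  have h2 := h1.const_add (((n : ℝ) + 1 / 2) ^ 2)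
  have h3 : Q n = fun ψ => ((n : ℝ) + 1 / 2) ^ 2 + (4 * cos ψ ^ 2)⁻¹ := by
    funext ψ; rw [Q, one_div (4 * cos ψ ^ 2)]
  rw [h3]
  refine h2.congr_deriv ?_
  simp only [Pi.pow_apply]
  field_simp
  ring

/-- Sonin function -/
noncomputable def So (n : ℕ) (ψ : ℝ) : ℝ := U n ψ ^ 2 + V n ψ ^ 2 / Q n ψ

theorem hasDerivAt_So (n : ℕ) {ψ : ℝ} (hc : 0 < cos ψ) :
    HasDerivAt (So n) (-(sin ψ / (2 * cos ψ ^ 3)) * V n ψ ^ 2 / Q n ψ ^ 2) ψ := by
  have hQ := (Q_pos n hc).ne'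
  have h1 := ((hasDerivAt_U n hc).pow 2).add
    (((hasDerivAt_V n hc).pow 2).div (hasDerivAt_Q n hc) hQ)
  refine h1.congr_deriv ?_
  simp only [Pi.pow_apply]
  field_simp
  ring

theorem cos_pos' {ψ : ℝ} (h : |ψ| < π / 2) : 0 < cos ψ := by
  rw [abs_lt] at h
  exact cos_pos_of_mem_Ioo ⟨by linarith [h.1], h.2⟩

theorem So_anti (n : ℕ) : AntitoneOn (So n) (Set.Ico 0 (π / 2)) := by
  have hcos : ∀ x ∈ Set.Ico (0 : ℝ) (π / 2), 0 < cos x := by
    intro x hx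
    exact cos_pos_of_mem_Ioo ⟨by linarith [hx.1, pi_pos], hx.2⟩
  apply antitoneOn_of_deriv_nonpos (convex_Ico 0 (π / 2))
  · intro x hx
    exact (hasDerivAt_So n (hcos x hx)).continuousAt.continuousWithinAt
  · intro x hx
    exact (hasDerivAt_So n (hcos x (interior_subset hx))).differentiableAt.differentiableWithinAt
  · intro x hx
    have hx' := interior_subset hx
    rw [(hasDerivAt_So n (hcos x hx')).deriv]
    have h1 := hcos x hx'
    have h2 : 0 ≤ sin x := sin_nonneg_of_nonneg_of_le_pi hx'.1 (by linarith [hx'.2, pi_pos])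
    have h3 : 0 ≤ sin x / (2 * cos x ^ 3) * V n x ^ 2 / Q n x ^ 2 := by positivity
    have h4 : -(sin x / (2 * cos x ^ 3)) * V n x ^ 2 / Q n x ^ 2
        = -(sin x / (2 * cos x ^ 3) * V n x ^ 2 / Q n x ^ 2) := by ring
    rw [h4]
    linarith

theorem U_zero (n : ℕ) : U n 0 = leg n 0 := by simp [U]
theorem V_zero (n : ℕ) : V n 0 = dleg n 0 := by simp [V, G]

theorem So_zero_bound (n : ℕ) : So n 0 * (n + 1) ≤ 2 := by
  have h1 := leg_zero_bound n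
  have h2 := dleg_zero_bound n
  have hQ : 0 < Q n 0 := Q_pos n (by simp)
  have hQ1 : ((n : ℝ) + 1 / 2) ^ 2 ≤ Q n 0 := by
    rw [Q]; simp
  rw [So, U_zero, V_zero, add_mul]
  have h3 : dleg n 0 ^ 2 / Q n 0 * (n + 1) ≤ 1 := by
    rw [div_mul_eq_mul_div, div_le_one hQ]
    linarith
  linarith

theorem abs_U_bound (n : ℕ) {ψ : ℝ} (h : |ψ| < π / 2) : |U n ψ| * √(n + 1) ≤ 2 := by
  have key : ∀ ψ, 0 ≤ ψ → ψ < π / 2 → |U n ψ| * √(n + 1) ≤ 2 := by
    intro ψ h0 h1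
    have hc : 0 < cos ψ := cos_pos' (by rw [abs_of_nonneg h0]; exact h1)
    have h2 := So_anti n ⟨le_refl 0, by positivity⟩ ⟨h0, h1⟩ h0
    have h3 := So_zero_bound n
    have h4 : U n ψ ^ 2 ≤ So n ψ := by
      rw [So]
      have := Q_pos n hc
      have : 0 ≤ V n ψ ^ 2 / Q n ψ := by positivity
      linarith
    have hn : (0 : ℝ) < (n : ℝ) + 1 := by positivity
    have h5 : (|U n ψ| * √(n + 1)) ^ 2 ≤ 2 := by
      rw [mul_pow, sq_abs, Real.sq_sqrt hn.le]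
      calc U n ψ ^ 2 * (n + 1) ≤ So n 0 * (n + 1) := by
            apply mul_le_mul_of_nonneg_right _ hn.le
            linarith
        _ ≤ 2 := h3
    have h6 : 0 ≤ |U n ψ| * √(n + 1) := by positivity
    nlinarith
  rcases le_total 0 ψ with h0 | h0
  · rw [abs_of_nonneg h0] at h
    exact key ψ h0 h
  · rw [abs_of_nonpos h0] at h
    have := key (-ψ) (by linarith) h
    have e : |U n (-ψ)| = |U n ψ| := by
      rw [U, U, sin_neg, cos_neg, abs_mul, abs_mul, abs_leg_neg]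
    rwa [e] at this

/-- Bernstein bound. -/
theorem leg_bound : ∃ C : ℝ, 0 < C ∧ ∀ (n : ℕ) (ψ : ℝ), |ψ| < π / 2 →
    |leg n (sin ψ)| * √(cos ψ) * √(n + 1) ≤ C := by
  refine ⟨2, by norm_num, ?_⟩
  intro n ψ h
  have := abs_U_bound n h
  rwa [U, abs_mul, abs_of_nonneg (Real.sqrt_nonneg (cos ψ))] at this

/-- Christoffel-Darboux. -/
theorem LK_cd (n : ℕ) (x t : ℝ) : (x - t) * LK n x t
    = (n + 1) / 2 * (leg (n + 1) x * leg n t - leg n x * leg (n + 1) t) := by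
  induction n with
  | zero =>
    simp [LK, leg_zero, leg_one]
    ring
  | succ n ih =>
    have h1 : LK (n + 1) x t = LK n x t + (((n + 1 : ℕ) : ℝ) + 1 / 2) * leg (n + 1) x * leg (n + 1) t := by
      rw [LK, Finset.sum_range_succ, ← LK]
    rw [h1, mul_add, ih]
    have hx := leg_rec n x
    have ht := leg_rec n t
    rw [show n + 1 + 1 = n + 2 from rfl]
    push_cast
    linear_combination (-(1 / 2 : ℝ) * leg (n + 1) t) * hx + ((1 / 2 : ℝ) * leg (n + 1) x) * ht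

/-- far bound for the kernel. -/
theorem LK_far : ∃ C : ℝ, 0 < C ∧ ∀ (n : ℕ) (ψ φ : ℝ), |ψ| < π / 2 → |φ| < π / 2 →
    |LK n (sin ψ) (sin φ)| * |sin ψ - sin φ| * (√(cos ψ) * √(cos φ)) ≤ C := by
  refine ⟨4, by norm_num, ?_⟩
  intro n ψ φ hψ hφ
  have h1 := LK_cd n (sin ψ) (sin φ)
  have hn : (0 : ℝ) < (n : ℝ) + 1 := by positivity
  have e1 : |LK n (sin ψ) (sin φ)| * |sin ψ - sin φ| * (√(cos ψ) * √(cos φ))
      = (n + 1) / 2 * |U (n + 1) ψ * U n φ - U n ψ * U (n + 1) φ| := by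
    have e2 : U (n + 1) ψ * U n φ - U n ψ * U (n + 1) φ
        = (leg (n + 1) (sin ψ) * leg n (sin φ) - leg n (sin ψ) * leg (n + 1) (sin φ)) *
          (√(cos ψ) * √(cos φ)) := by
      simp only [U]; ring
    rw [e2, abs_mul, abs_of_nonneg (by positivity : 0 ≤ √(cos ψ) * √(cos φ)), ← abs_mul,
      mul_comm (LK n (sin ψ) (sin φ)), h1, abs_mul, abs_of_nonneg (by positivity : (0 : ℝ) ≤ (n + 1) / 2)]
    ring
  rw [e1]
  have b1 := abs_U_bound n hψ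
  have b2 := abs_U_bound (n + 1) hψ
  have b3 := abs_U_bound n hφ
  have b4 := abs_U_bound (n + 1) hφ
  have hs : √((n : ℝ) + 1) ^ 2 = n + 1 := Real.sq_sqrt hn.le
  have hmono : √((n : ℝ) + 1) ≤ √(((n + 1 : ℕ) : ℝ) + 1) := Real.sqrt_le_sqrt (by push_cast; linarith)
  set w := √((n : ℝ) + 1) with hw
  have hw0 : 0 ≤ w := Real.sqrt_nonneg _
  have c2 : |U (n + 1) ψ| * w ≤ 2 := (mul_le_mul_of_nonneg_left hmono (abs_nonneg _)).trans b2
  have c4 : |U (n + 1) φ| * w ≤ 2 := (mul_le_mul_of_nonneg_left hmono (abs_nonneg _)).trans b4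
  have h3 : |U (n + 1) ψ * U n φ - U n ψ * U (n + 1) φ| ≤
      |U (n + 1) ψ| * |U n φ| + |U n ψ| * |U (n + 1) φ| := by
    rw [← abs_mul, ← abs_mul]
    exact abs_sub _ _
  have h4 : (|U (n + 1) ψ| * |U n φ|) * (n + 1) ≤ 4 := by
    rw [← hs]
    calc |U (n + 1) ψ| * |U n φ| * w ^ 2 = (|U (n + 1) ψ| * w) * (|U n φ| * w) := by ring
      _ ≤ 2 * 2 := by gcongr
      _ = 4 := by norm_num
  have h5 : (|U n ψ| * |U (n + 1) φ|) * (n + 1) ≤ 4 := by
    rw [← hs]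
    calc |U n ψ| * |U (n + 1) φ| * w ^ 2 = (|U n ψ| * w) * (|U (n + 1) φ| * w) := by ring
      _ ≤ 2 * 2 := by gcongr
      _ = 4 := by norm_num
  nlinarith


/-! ### interior asymptotics -/

noncomputable def aa (n : ℕ) : ℝ := leg n 0
noncomputable def bb (n : ℕ) : ℝ := dleg n 0 / (n + 1 / 2)
noncomputable def mm (n : ℕ) (ψ : ℝ) : ℝ :=
  aa n * cos ((n + 1 / 2) * ψ) + bb n * sin ((n + 1 / 2) * ψ)
noncomputable def md (n : ℕ) (ψ : ℝ) : ℝ :=
  ((n : ℝ) + 1 / 2) * (-(aa n * sin ((n + 1 / 2) * ψ)) + bb n * cos ((n + 1 / 2) * ψ))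

theorem hasDerivAt_mm (n : ℕ) (ψ : ℝ) : HasDerivAt (mm n) (md n ψ) ψ := by
  have h0 := (hasDerivAt_id' ψ).const_mul ((n : ℝ) + 1 / 2)
  have h1 := (h0.cos.const_mul (aa n)).add (h0.sin.const_mul (bb n))
  refine h1.congr_deriv ?_
  rw [md]; ring

theorem hasDerivAt_md (n : ℕ) (ψ : ℝ) :
    HasDerivAt (md n) (-(((n : ℝ) + 1 / 2) ^ 2) * mm n ψ) ψ := by
  have h0 := (hasDerivAt_id' ψ).const_mul ((n : ℝ) + 1 / 2)
  have h1 := ((h0.sin.const_mul (aa n)).neg.add (h0.cos.const_mul (bb n))).const_mul ((n : ℝ) + 1 / 2)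
  refine h1.congr_deriv ?_
  rw [mm]; ring

theorem sqrt_mul_le_of_sq {a : ℝ} {n : ℕ} {C : ℝ} (hC : 0 ≤ C) (h : a ^ 2 * (n + 1) ≤ C ^ 2) :
    |a| * √((n : ℝ) + 1) ≤ C := by
  have hn : (0 : ℝ) < (n : ℝ) + 1 := by positivity
  apply abs_le_of_sq_le_sq' _ hC |>.2
  rw [mul_pow, sq_abs, Real.sq_sqrt hn.le]
  exact h

theorem aa_bound (n : ℕ) : |aa n| * √((n : ℝ) + 1) ≤ 1 :=
  sqrt_mul_le_of_sq zero_le_one (by rw [one_pow]; exact leg_zero_bound n)

theorem bb_bound (n : ℕ) : |bb n| * √((n : ℝ) + 1) ≤ 1 := by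
  apply sqrt_mul_le_of_sq zero_le_one
  have h := dleg_zero_bound n
  rw [bb, one_pow, div_pow, div_mul_eq_mul_div, div_le_one (by positivity)]
  exact h

/-- the auxiliary complex function -/
noncomputable def Zf (n : ℕ) (ψ : ℝ) : ℂ :=
  (((V n ψ - md n ψ : ℝ) : ℂ) + Complex.I * ((((n : ℝ) + 1 / 2) * (U n ψ - mm n ψ) : ℝ) : ℂ)) *
    Complex.exp ((-Complex.I * (((n : ℝ) + 1 / 2 : ℝ) : ℂ)) * (ψ : ℂ))

theorem hasDerivAt_Zf (n : ℕ) {ψ : ℝ} (hc : 0 < cos ψ) :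
    HasDerivAt (Zf n) ((((-(1 / (4 * cos ψ ^ 2)) * U n ψ : ℝ)) : ℂ) *
      Complex.exp ((-Complex.I * (((n : ℝ) + 1 / 2 : ℝ) : ℂ)) * (ψ : ℂ))) ψ := by
  have h1 := ((hasDerivAt_V n hc).sub (hasDerivAt_md n ψ)).ofReal_comp
  have h2 := ((((hasDerivAt_U n hc).sub (hasDerivAt_mm n ψ)).const_mul
    ((n : ℝ) + 1 / 2)).ofReal_comp).const_mul Complex.I
  have h3 := (((hasDerivAt_id' ψ).ofReal_comp).const_mul
    (-Complex.I * (((n : ℝ) + 1 / 2 : ℝ) : ℂ))).cexp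
  have h4 := (h1.add h2).mul h3
  refine h4.congr_deriv ?_
  simp only [Pi.sub_apply, Pi.add_apply, Q]
  push_cast
  ring_nf
  rw [Complex.I_sq]
  ring

theorem Zf_zero (n : ℕ) : Zf n 0 = 0 := by
  have h1 : V n 0 - md n 0 = 0 := by
    have hn : (n : ℝ) + 1 / 2 ≠ 0 := by positivity
    rw [V_zero, md, bb]
    simp only [mul_zero, sin_zero, cos_zero]
    field_simp
    ring
  have h2 : U n 0 - mm n 0 = 0 := by
    rw [U_zero, mm, aa]
    simp
  rw [Zf, h1, h2]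
  simp

theorem norm_exp_I (c ψ : ℝ) : ‖Complex.exp ((-Complex.I * (c : ℂ)) * (ψ : ℂ))‖ = 1 := by
  have : (-Complex.I * (c : ℂ)) * (ψ : ℂ) = ((-(c * ψ) : ℝ) : ℂ) * Complex.I := by
    push_cast; ring
  rw [this, Complex.norm_exp_ofReal_mul_I]

theorem core {ρ : ℝ} (hρ : 0 < ρ) (hρ2 : ρ ≤ π / 2) : ∃ K : ℝ, 0 < K ∧ ∀ (n : ℕ) (ψ : ℝ),
    |ψ| ≤ π / 2 - ρ → |U n ψ - mm n ψ| * ((n + 1) * √((n : ℝ) + 1)) ≤ K ∧
      |V n ψ - md n ψ| * √((n : ℝ) + 1) ≤ K := by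
  have hκ : 0 < sin ρ := sin_pos_of_pos_of_lt_pi hρ (by linarith [pi_pos])
  set κ := sin ρ with hκdef
  have hcos : ∀ ψ : ℝ, |ψ| ≤ π / 2 - ρ → κ ≤ cos ψ := by
    intro ψ hψ
    rw [hκdef, ← cos_pi_div_two_sub, ← cos_abs ψ]
    apply cos_le_cos_of_nonneg_of_le_pi (abs_nonneg ψ) (by linarith [pi_pos]) hψ
  refine ⟨2 * ((1 / (4 * κ ^ 2) * 2) * (π / 2)), by positivity, ?_⟩
  intro n ψ hψ
  have hn : (0 : ℝ) < (n : ℝ) + 1 := by positivity
  have hs0 : 0 < √((n : ℝ) + 1) := Real.sqrt_pos.mpr hn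
  have hR : 0 ≤ π / 2 - ρ := by linarith
  have hbound : ‖Zf n ψ - Zf n 0‖ ≤ ((1 / (4 * κ ^ 2) * 2) / √((n : ℝ) + 1)) * ‖ψ - 0‖ := by
    apply Convex.norm_image_sub_le_of_norm_hasDerivWithin_le
      (s := Set.Icc (-(π / 2 - ρ)) (π / 2 - ρ)) (f := Zf n)
      (f' := fun ψ => (((-(1 / (4 * cos ψ ^ 2)) * U n ψ : ℝ)) : ℂ) *
      Complex.exp ((-Complex.I * (((n : ℝ) + 1 / 2 : ℝ) : ℂ)) * (ψ : ℂ)))
    · intro x hx
      have hc := hcos x (abs_le.mpr hx)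
      exact (hasDerivAt_Zf n (hκ.trans_le hc)).hasDerivWithinAt
    · intro x hx
      have hc := hcos x (abs_le.mpr hx)
      have hx2 : |x| < π / 2 := by
        have := abs_le.mpr hx
        linarith
      have hU := abs_U_bound n hx2
      rw [norm_mul, norm_exp_I, mul_one, Complex.norm_real, Real.norm_eq_abs, abs_mul, abs_neg,
        abs_of_nonneg (by positivity : 0 ≤ 1 / (4 * cos x ^ 2))]
      have h1 : 1 / (4 * cos x ^ 2) ≤ 1 / (4 * κ ^ 2) := by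
        apply one_div_le_one_div_of_le (by positivity)
        have := mul_self_le_mul_self hκ.le hc
        nlinarith
      have h2 : |U n x| ≤ 2 / √((n : ℝ) + 1) := by
        rw [le_div_iff₀ hs0]; exact hU
      calc 1 / (4 * cos x ^ 2) * |U n x| ≤ 1 / (4 * κ ^ 2) * (2 / √((n : ℝ) + 1)) := by
            gcongr
        _ = (1 / (4 * κ ^ 2) * 2) / √((n : ℝ) + 1) := by ring
    · exact convex_Icc _ _
    · exact ⟨by linarith, hR⟩
    · exact abs_le.mp hψ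
  rw [Zf_zero, sub_zero, sub_zero, Real.norm_eq_abs] at hbound
  have hψ2 : |ψ| ≤ π / 2 := by linarith
  have hZ : ‖Zf n ψ‖ * √((n : ℝ) + 1) ≤ (1 / (4 * κ ^ 2) * 2) * (π / 2) := by
    calc ‖Zf n ψ‖ * √((n : ℝ) + 1)
        ≤ ((1 / (4 * κ ^ 2) * 2) / √((n : ℝ) + 1) * |ψ|) * √((n : ℝ) + 1) := by gcongr
      _ = (1 / (4 * κ ^ 2) * 2) * |ψ| := by field_simp
      _ ≤ (1 / (4 * κ ^ 2) * 2) * (π / 2) := by gcongr
  have hnorm : ‖Zf n ψ‖ = ‖((V n ψ - md n ψ : ℝ) : ℂ) +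
      Complex.I * ((((n : ℝ) + 1 / 2) * (U n ψ - mm n ψ) : ℝ) : ℂ)‖ := by
    rw [Zf, norm_mul, norm_exp_I, mul_one]
  have hre : |V n ψ - md n ψ| ≤ ‖Zf n ψ‖ := by
    rw [hnorm]
    have := Complex.abs_re_le_norm (((V n ψ - md n ψ : ℝ) : ℂ) +
      Complex.I * ((((n : ℝ) + 1 / 2) * (U n ψ - mm n ψ) : ℝ) : ℂ))
    simpa using this
  have him : ((n : ℝ) + 1 / 2) * |U n ψ - mm n ψ| ≤ ‖Zf n ψ‖ := by
    rw [hnorm]
    have := Complex.abs_im_le_norm (((V n ψ - md n ψ : ℝ) : ℂ) +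
      Complex.I * ((((n : ℝ) + 1 / 2) * (U n ψ - mm n ψ) : ℝ) : ℂ))
    have e : (((V n ψ - md n ψ : ℝ) : ℂ) +
      Complex.I * ((((n : ℝ) + 1 / 2) * (U n ψ - mm n ψ) : ℝ) : ℂ)).im
        = ((n : ℝ) + 1 / 2) * (U n ψ - mm n ψ) := by
      simp
    rw [e, abs_mul, abs_of_nonneg (by positivity : (0 : ℝ) ≤ (n : ℝ) + 1 / 2)] at this
    exact this
  constructor
  · have h1 : (n : ℝ) + 1 ≤ 2 * ((n : ℝ) + 1 / 2) := by
      have : (0 : ℝ) ≤ n := Nat.cast_nonneg n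
      linarith
    calc |U n ψ - mm n ψ| * ((n + 1) * √((n : ℝ) + 1))
        = (((n : ℝ) + 1) * |U n ψ - mm n ψ|) * √((n : ℝ) + 1) := by ring
      _ ≤ ((2 * ((n : ℝ) + 1 / 2)) * |U n ψ - mm n ψ|) * √((n : ℝ) + 1) := by gcongr
      _ = 2 * ((((n : ℝ) + 1 / 2) * |U n ψ - mm n ψ|) * √((n : ℝ) + 1)) := by ring
      _ ≤ 2 * (‖Zf n ψ‖ * √((n : ℝ) + 1)) := by gcongr
      _ ≤ 2 * ((1 / (4 * κ ^ 2) * 2) * (π / 2)) := by gcongr
  · have h0 : 0 ≤ (1 / (4 * κ ^ 2) * 2) * (π / 2) := by positivity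
    calc |V n ψ - md n ψ| * √((n : ℝ) + 1) ≤ ‖Zf n ψ‖ * √((n : ℝ) + 1) := by gcongr
      _ ≤ (1 / (4 * κ ^ 2) * 2) * (π / 2) := hZ
      _ ≤ 2 * ((1 / (4 * κ ^ 2) * 2) * (π / 2)) := by linarith

/-- interior asymptotics with error `O(n^{-3/2})`. -/
theorem leg_asymp : ∃ (C : ℝ) (a b : ℕ → ℝ), 0 < C ∧ (∀ n, |a n| * √(n + 1) ≤ C) ∧ (∀ n, |b n| * √(n + 1) ≤ C) ∧
    ∀ ρ : ℝ, 0 < ρ → ∃ Cρ : ℝ, 0 < Cρ ∧ ∀ (n : ℕ) (ψ : ℝ), |ψ| ≤ π / 2 - ρ →
      |leg n (sin ψ) * √(cos ψ) - (a n * cos ((n + 1 / 2) * ψ) + b n * sin ((n + 1 / 2) * ψ))|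
        * ((n + 1) * √(n + 1)) ≤ Cρ := by
  refine ⟨1, aa, bb, one_pos, aa_bound, bb_bound, ?_⟩
  intro ρ hρ
  by_cases hρ2 : ρ ≤ π / 2
  · obtain ⟨K, hK, h⟩ := core hρ hρ2
    exact ⟨K, hK, fun n ψ hψ => (h n ψ hψ).1⟩
  · refine ⟨1, one_pos, fun n ψ hψ => ?_⟩
    have := abs_nonneg ψ
    push Not at hρ2
    linarith


/-! ### comparison with the Dirichlet kernel -/

theorem aa_prod (n : ℕ) : aa n * aa (n + 1) = 0 := leg_prod_zero n

theorem bb_prod (n : ℕ) : bb n * bb (n + 1) = 0 := by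
  have h : dleg n 0 * dleg (n + 1) 0 = 0 := by
    cases n with
    | zero => rw [dleg_zero, zero_mul]
    | succ n =>
      rw [dleg_succ_zero, dleg_succ_zero]
      have := leg_prod_zero n
      push_cast
      linear_combination (((n : ℝ) + 1) * ((n : ℝ) + 1 + 1)) * this
  rw [bb, bb, div_mul_div_comm, h, zero_div]

theorem main_identity (n : ℕ) (ψ φ : ℝ) :
    mm (n + 1) ψ * mm n φ - mm n ψ * mm (n + 1) φ =
      (aa n * bb (n + 1) + aa (n + 1) * bb n) * (cos ((n + 1) * (ψ + φ)) * sin ((ψ - φ) / 2)) +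
      (aa n * bb (n + 1) - aa (n + 1) * bb n) * (sin ((n + 1) * (ψ - φ)) * cos ((ψ + φ) / 2)) := by
  have e1 : (((n + 1 : ℕ) : ℝ) + 1 / 2) * ψ = (n + 1) * ψ + ψ / 2 := by push_cast; ring
  have e2 : (((n + 1 : ℕ) : ℝ) + 1 / 2) * φ = (n + 1) * φ + φ / 2 := by push_cast; ring
  have e3 : ((n : ℝ) + 1 / 2) * ψ = (n + 1) * ψ - ψ / 2 := by ring
  have e4 : ((n : ℝ) + 1 / 2) * φ = (n + 1) * φ - φ / 2 := by ring
  have e5 : ((n : ℝ) + 1) * (ψ + φ) = (n + 1) * ψ + (n + 1) * φ := by ring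
  have e6 : ((n : ℝ) + 1) * (ψ - φ) = (n + 1) * ψ - (n + 1) * φ := by ring
  have e7 : (ψ - φ) / 2 = ψ / 2 - φ / 2 := by ring
  have e8 : (ψ + φ) / 2 = ψ / 2 + φ / 2 := by ring
  simp only [mm, e1, e2, e3, e4, e5, e6, e7, e8]
  have ha := aa_prod n
  have hb := bb_prod n
  simp only [sin_add, cos_add, sin_sub, cos_sub]
  generalize ((n : ℝ) + 1) * ψ = X
  generalize ((n : ℝ) + 1) * φ = Y
  generalize ψ / 2 = p
  generalize φ / 2 = q
  linear_combination ((cos X * cos p - sin X * sin p) * (cos Y * cos q + sin Y * sin q)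
      - (cos X * cos p + sin X * sin p) * (cos Y * cos q - sin Y * sin q)) * ha
    + ((sin X * cos p + cos X * sin p) * (sin Y * cos q - cos Y * sin q)
      - (sin X * cos p - cos X * sin p) * (sin Y * cos q + cos Y * sin q)) * hb

theorem LK_rel (n : ℕ) (ψ φ : ℝ) :
    (sin ψ - sin φ) * (LK n (sin ψ) (sin φ) * (√(cos ψ) * √(cos φ))) =
      (n + 1) / 2 * (U (n + 1) ψ * U n φ - U n ψ * U (n + 1) φ) := by
  have h1 := LK_cd n (sin ψ) (sin φ)
  simp only [U]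
  linear_combination (√(cos ψ) * √(cos φ)) * h1

theorem sin_diff {δ : ℝ} (h0 : δ ≠ 0) (h : |δ| ≤ π / 2) :
    2 / π * |δ| ≤ |sin δ| ∧ |1 / sin δ - 1 / δ| ≤ π / 2 := by
  have key : ∀ δ : ℝ, 0 < δ → δ ≤ π / 2 → 2 / π * δ ≤ sin δ ∧ |1 / sin δ - 1 / δ| ≤ π / 2 := by
    intro δ h0 h
    have h1 : 2 / π * δ ≤ sin δ := mul_le_sin h0.le h
    refine ⟨h1, ?_⟩
    have h2 : 0 < sin δ := lt_of_lt_of_le (by positivity) h1
    have h3 : sin δ < δ := sin_lt h0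
    have h4 : δ - sin δ ≤ δ ^ 2 := by
      by_cases h5 : δ ≤ 1
      · have h6 := sin_gt_sub_cube h0
        have h7 : δ ^ 3 ≤ δ ^ 2 := by
          nlinarith [mul_nonneg (sq_nonneg δ) (sub_nonneg.mpr h5)]
        nlinarith [pow_pos h0 2, pow_pos h0 3]
      · push Not at h5
        nlinarith
    have h5 : 1 / sin δ - 1 / δ = (δ - sin δ) / (sin δ * δ) := by
      field_simp
    rw [h5, abs_of_nonneg (by apply div_nonneg <;> nlinarith), div_le_iff₀ (by positivity)]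
    have h6 : π / 2 * (2 / π * δ) = δ := by field_simp
    calc δ - sin δ ≤ δ ^ 2 := h4
      _ = (π / 2 * (2 / π * δ)) * δ := by rw [h6]; ring
      _ ≤ (π / 2 * sin δ) * δ := by gcongr
      _ = π / 2 * (sin δ * δ) := by ring
  rcases lt_or_gt_of_ne h0 with h1 | h1
  · rw [abs_of_neg h1] at h ⊢
    obtain ⟨h2, h3⟩ := key (-δ) (by linarith) h
    rw [sin_neg] at h2 h3
    refine ⟨h2.trans (neg_le_abs _), ?_⟩
    have : 1 / -sin δ - 1 / -δ = -(1 / sin δ - 1 / δ) := by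
      rw [div_neg, div_neg]; ring
    rwa [this, abs_neg] at h3
  · rw [abs_of_pos h1] at h ⊢
    obtain ⟨h2, h3⟩ := key δ h1 h
    exact ⟨h2.trans (le_abs_self _), h3⟩

theorem mm_bound (n : ℕ) (ψ : ℝ) : |mm n ψ| * √((n : ℝ) + 1) ≤ 2 := by
  have h1 : |mm n ψ| ≤ |aa n| + |bb n| := by
    rw [mm]
    refine (abs_add_le _ _).trans ?_
    rw [abs_mul, abs_mul]
    have := abs_cos_le_one ((n + 1 / 2) * ψ)
    have := abs_sin_le_one ((n + 1 / 2) * ψ)
    have := abs_nonneg (aa n)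
    have := abs_nonneg (bb n)
    nlinarith
  calc |mm n ψ| * √((n : ℝ) + 1) ≤ (|aa n| + |bb n|) * √((n : ℝ) + 1) := by gcongr
    _ = |aa n| * √((n : ℝ) + 1) + |bb n| * √((n : ℝ) + 1) := by ring
    _ ≤ 2 := by linarith [aa_bound n, bb_bound n]

theorem md_bound (n : ℕ) (ψ : ℝ) : |md n ψ| * √((n : ℝ) + 1) ≤ 2 * (n + 1) := by
  have h1 : |md n ψ| ≤ ((n : ℝ) + 1 / 2) * (|aa n| + |bb n|) := by
    rw [md, abs_mul, abs_of_nonneg (by positivity : (0 : ℝ) ≤ (n : ℝ) + 1 / 2)]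
    gcongr
    refine (abs_add_le _ _).trans ?_
    rw [abs_neg, abs_mul, abs_mul]
    have := abs_cos_le_one ((n + 1 / 2) * ψ)
    have := abs_sin_le_one ((n + 1 / 2) * ψ)
    have := abs_nonneg (aa n)
    have := abs_nonneg (bb n)
    nlinarith
  have h0 : (0 : ℝ) ≤ n := Nat.cast_nonneg n
  calc |md n ψ| * √((n : ℝ) + 1) ≤ (((n : ℝ) + 1 / 2) * (|aa n| + |bb n|)) * √((n : ℝ) + 1) := by gcongr
    _ = ((n : ℝ) + 1 / 2) * (|aa n| * √((n : ℝ) + 1) + |bb n| * √((n : ℝ) + 1)) := by ring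
    _ ≤ ((n : ℝ) + 1 / 2) * 2 := by
        gcongr
        linarith [aa_bound n, bb_bound n]
    _ ≤ 2 * (n + 1) := by linarith

theorem prod_bound {a b w K L m : ℝ} (hw : 0 < w) (hm : 0 < m) (hK : 0 ≤ K)
    (ha : |a| * w ≤ K * m) (hb : |b| * (m * w) ≤ L) : |a * b| * w ^ 2 ≤ K * L := by
  have h1 : 0 ≤ |b| * (m * w) := by positivity
  have h2 : (|a| * w) * (|b| * (m * w)) ≤ (K * m) * L := by
    apply mul_le_mul ha hb h1 (by positivity)
  rw [abs_mul]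
  have h3 : (|a| * |b| * w ^ 2) * m ≤ (K * L) * m := by nlinarith
  exact le_of_mul_le_mul_right h3 hm

/-- interior comparison with the Dirichlet kernel. -/
theorem LK_main : ∃ (C : ℝ) (c : ℕ → ℝ), 0 < C ∧ (∀ n, |c n| ≤ C) ∧
    ∀ ρ : ℝ, 0 < ρ → ∃ Cρ : ℝ, 0 < Cρ ∧ ∀ (n : ℕ) (ψ φ : ℝ), |ψ| ≤ π / 2 - ρ → |φ| ≤ π / 2 - ρ → ψ ≠ φ →
      |LK n (sin ψ) (sin φ) * (√(cos ψ) * √(cos φ)) - c n * (sin ((n + 1) * (ψ - φ)) / (ψ - φ))| ≤ Cρ := by
  have habn : ∀ n, |aa n * bb (n + 1)| * ((n : ℝ) + 1) ≤ 1 ∧ |aa (n + 1) * bb n| * ((n : ℝ) + 1) ≤ 1 := by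
    intro n
    have hn : (0 : ℝ) < (n : ℝ) + 1 := by positivity
    have hmono : √((n : ℝ) + 1) ≤ √(((n + 1 : ℕ) : ℝ) + 1) := Real.sqrt_le_sqrt (by push_cast; linarith)
    have hs : √((n : ℝ) + 1) ^ 2 = n + 1 := Real.sq_sqrt hn.le
    have h1 := aa_bound n
    have h2 := bb_bound n
    have h3 := (mul_le_mul_of_nonneg_left hmono (abs_nonneg (aa (n + 1)))).trans (aa_bound (n + 1))
    have h4 := (mul_le_mul_of_nonneg_left hmono (abs_nonneg (bb (n + 1)))).trans (bb_bound (n + 1))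
    rw [← hs]
    constructor
    · rw [abs_mul]
      calc |aa n| * |bb (n + 1)| * √((n : ℝ) + 1) ^ 2
          = (|aa n| * √((n : ℝ) + 1)) * (|bb (n + 1)| * √((n : ℝ) + 1)) := by ring
        _ ≤ 1 * 1 := by gcongr
        _ = 1 := by norm_num
    · rw [abs_mul]
      calc |aa (n + 1)| * |bb n| * √((n : ℝ) + 1) ^ 2
          = (|aa (n + 1)| * √((n : ℝ) + 1)) * (|bb n| * √((n : ℝ) + 1)) := by ring
        _ ≤ 1 * 1 := by gcongr
        _ = 1 := by norm_num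
  have hAB : ∀ n, |aa n * bb (n + 1) + aa (n + 1) * bb n| * ((n : ℝ) + 1) ≤ 2 ∧
      |aa n * bb (n + 1) - aa (n + 1) * bb n| * ((n : ℝ) + 1) ≤ 2 := by
    intro n
    obtain ⟨h1, h2⟩ := habn n
    have hn : (0 : ℝ) < (n : ℝ) + 1 := by positivity
    have h3 := abs_add_le (aa n * bb (n + 1)) (aa (n + 1) * bb n)
    have h4 := abs_sub (aa n * bb (n + 1)) (aa (n + 1) * bb n)
    constructor <;> nlinarith
  refine ⟨1, fun n => ((n : ℝ) + 1) / 2 * (aa n * bb (n + 1) - aa (n + 1) * bb n), one_pos, ?_, ?_⟩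
  · intro n
    have := (hAB n).2
    rw [abs_mul, abs_of_nonneg (by positivity : (0 : ℝ) ≤ ((n : ℝ) + 1) / 2)]
    linarith
  intro ρ hρ
  by_cases hρ2 : ρ ≤ π / 2
  swap
  · refine ⟨1, one_pos, fun n ψ φ hψ _ _ => ?_⟩
    have := abs_nonneg ψ
    push Not at hρ2
    linarith
  obtain ⟨K, hK, hcore⟩ := core hρ hρ2
  have hκ : 0 < sin ρ := sin_pos_of_pos_of_lt_pi hρ (by linarith [pi_pos])
  set κ := sin ρ with hκdef
  have hcos : ∀ ψ : ℝ, |ψ| ≤ π / 2 - ρ → κ ≤ cos ψ := by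
    intro ψ hψ
    rw [hκdef, ← cos_pi_div_two_sub, ← cos_abs ψ]
    apply cos_le_cos_of_nonneg_of_le_pi (abs_nonneg ψ) (by linarith [pi_pos]) hψ
  set K2 : ℝ := 2 * (4 * K + 2 * K + K * K) with hK2
  have hK2pos : 0 < K2 := by positivity
  refine ⟨1 / 4 * (2 / κ + 2 * (π / 2) + K2 * π / κ), by positivity, ?_⟩
  intro n ψ φ hψ hφ hne
  have hn : (0 : ℝ) < (n : ℝ) + 1 := by positivity
  have hn0 : (0 : ℝ) ≤ n := Nat.cast_nonneg n
  have hw2 : √((n : ℝ) + 1) ^ 2 = n + 1 := Real.sq_sqrt hn.le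
  have hmono : √((n : ℝ) + 1) ≤ √(((n + 1 : ℕ) : ℝ) + 1) := Real.sqrt_le_sqrt (by push_cast; linarith)
  set w := √((n : ℝ) + 1) with hw
  have hw0 : 0 < w := Real.sqrt_pos.mpr hn
  -- the error term
  set E : ℝ → ℝ := fun ψ => (U (n + 1) ψ * U n φ - U n ψ * U (n + 1) φ) -
    (mm (n + 1) ψ * mm n φ - mm n ψ * mm (n + 1) φ) with hE
  have hE0 : E φ = 0 := by simp only [hE]; ring
  have hEbound : ‖E ψ - E φ‖ ≤ (K2 / (n + 1)) * ‖ψ - φ‖ := by
    apply Convex.norm_image_sub_le_of_norm_hasDerivWithin_le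
      (s := Set.Icc (-(π / 2 - ρ)) (π / 2 - ρ)) (f := E)
      (f' := fun ψ => (V (n + 1) ψ * U n φ - V n ψ * U (n + 1) φ) -
        (md (n + 1) ψ * mm n φ - md n ψ * mm (n + 1) φ))
    · intro x hx
      have hc := hκ.trans_le (hcos x (abs_le.mpr hx))
      have h1 := (((hasDerivAt_U (n + 1) hc).mul_const (U n φ)).sub
        ((hasDerivAt_U n hc).mul_const (U (n + 1) φ))).sub
        (((hasDerivAt_mm (n + 1) x).mul_const (mm n φ)).sub
        ((hasDerivAt_mm n x).mul_const (mm (n + 1) φ)))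
      exact h1.hasDerivWithinAt
    · intro x hx
      obtain ⟨c1, c2⟩ := hcore n x (abs_le.mpr hx)
      obtain ⟨c3, c4⟩ := hcore (n + 1) x (abs_le.mpr hx)
      obtain ⟨d1, d2⟩ := hcore n φ hφ
      obtain ⟨d3, d4⟩ := hcore (n + 1) φ hφ
      have m1 := mm_bound n φ
      have m2 := (mul_le_mul_of_nonneg_left hmono (abs_nonneg (mm (n + 1) φ))).trans (mm_bound (n + 1) φ)
      have m3 := md_bound n x
      have m4 := (mul_le_mul_of_nonneg_left hmono (abs_nonneg (md (n + 1) x))).trans (md_bound (n + 1) x)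
      have c4' := (mul_le_mul_of_nonneg_left hmono (abs_nonneg (V (n + 1) x - md (n + 1) x))).trans c4
      have d3' : |U (n + 1) φ - mm (n + 1) φ| * ((n + 1) * w) ≤ K := by
        refine le_trans ?_ d3
        push_cast at hmono ⊢
        gcongr
        linarith
      rw [← hw] at d1 c2 m1 m3
      have t1 : |md (n + 1) x * (U n φ - mm n φ)| * w ^ 2 ≤ 4 * K := by
        apply prod_bound hw0 hn (by norm_num) _ d1
        refine m4.trans ?_
        push_cast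
        linarith
      have t2 : |(V (n + 1) x - md (n + 1) x) * mm n φ| * w ^ 2 ≤ K * 2 := by
        apply prod_bound hw0 (one_pos) hK.le (by rw [mul_one]; exact c4') (by rw [one_mul]; exact m1)
      have t3 : |(V (n + 1) x - md (n + 1) x) * (U n φ - mm n φ)| * w ^ 2 ≤ K * K := by
        apply prod_bound hw0 hn hK.le _ d1
        nlinarith
      have t4 : |md n x * (U (n + 1) φ - mm (n + 1) φ)| * w ^ 2 ≤ 4 * K := by
        apply prod_bound hw0 hn (by norm_num) _ d3'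
        linarith
      have t5 : |(V n x - md n x) * mm (n + 1) φ| * w ^ 2 ≤ K * 2 := by
        apply prod_bound hw0 (one_pos) hK.le (by rw [mul_one]; exact c2) (by rw [one_mul]; exact m2)
      have t6 : |(V n x - md n x) * (U (n + 1) φ - mm (n + 1) φ)| * w ^ 2 ≤ K * K := by
        apply prod_bound hw0 hn hK.le _ d3'
        nlinarith
      rw [Real.norm_eq_abs, le_div_iff₀ hn, ← hw2]
      have e : (V (n + 1) x * U n φ - V n x * U (n + 1) φ) -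
        (md (n + 1) x * mm n φ - md n x * mm (n + 1) φ) =
        (md (n + 1) x * (U n φ - mm n φ) + (V (n + 1) x - md (n + 1) x) * mm n φ +
          (V (n + 1) x - md (n + 1) x) * (U n φ - mm n φ)) -
        (md n x * (U (n + 1) φ - mm (n + 1) φ) + (V n x - md n x) * mm (n + 1) φ +
          (V n x - md n x) * (U (n + 1) φ - mm (n + 1) φ)) := by ring
      rw [e]
      have a1 := abs_sub (md (n + 1) x * (U n φ - mm n φ) + (V (n + 1) x - md (n + 1) x) * mm n φ +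
          (V (n + 1) x - md (n + 1) x) * (U n φ - mm n φ))
        (md n x * (U (n + 1) φ - mm (n + 1) φ) + (V n x - md n x) * mm (n + 1) φ +
          (V n x - md n x) * (U (n + 1) φ - mm (n + 1) φ))
      have a2 := abs_add_three (md (n + 1) x * (U n φ - mm n φ)) ((V (n + 1) x - md (n + 1) x) * mm n φ)
          ((V (n + 1) x - md (n + 1) x) * (U n φ - mm n φ))
      have a3 := abs_add_three (md n x * (U (n + 1) φ - mm (n + 1) φ)) ((V n x - md n x) * mm (n + 1) φ)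
          ((V n x - md n x) * (U (n + 1) φ - mm (n + 1) φ))
      have hw2pos : 0 < w ^ 2 := by positivity
      calc _ ≤ (|md (n + 1) x * (U n φ - mm n φ)| + |(V (n + 1) x - md (n + 1) x) * mm n φ| +
          |(V (n + 1) x - md (n + 1) x) * (U n φ - mm n φ)| +
          (|md n x * (U (n + 1) φ - mm (n + 1) φ)| + |(V n x - md n x) * mm (n + 1) φ| +
          |(V n x - md n x) * (U (n + 1) φ - mm (n + 1) φ)|)) * w ^ 2 := by
            apply mul_le_mul_of_nonneg_right _ hw2pos.le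
            linarith
        _ ≤ K2 := by
            rw [hK2]
            linarith
    · exact convex_Icc _ _
    · exact abs_le.mp hφ
    · exact abs_le.mp hψ
  rw [hE0, sub_zero, Real.norm_eq_abs, Real.norm_eq_abs] at hEbound
  -- geometry
  set δ : ℝ := (ψ - φ) / 2 with hδ
  set σ : ℝ := (ψ + φ) / 2 with hσ
  have hδ0 : δ ≠ 0 := by
    rw [hδ]
    intro h
    apply hne
    linarith
  have hδ1 : |δ| ≤ π / 2 := by
    rw [abs_le] at hψ hφ ⊢
    rw [hδ]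
    constructor <;> linarith [hψ.1, hψ.2, hφ.1, hφ.2]
  have hσ1 : |σ| ≤ π / 2 - ρ := by
    rw [abs_le] at hψ hφ ⊢
    rw [hσ]
    constructor <;> linarith [hψ.1, hψ.2, hφ.1, hφ.2]
  have hcσ := hcos σ hσ1
  have hcσ0 : 0 < cos σ := hκ.trans_le hcσ
  obtain ⟨s1, s2⟩ := sin_diff hδ0 hδ1
  have hδpos : 0 < |δ| := abs_pos.mpr hδ0
  have hsδ : 0 < |sin δ| := lt_of_lt_of_le (by positivity) s1
  have hsδ0 : sin δ ≠ 0 := abs_pos.mp hsδ
  have hsub : sin ψ - sin φ = 2 * sin δ * cos σ := Real.sin_sub_sin ψ φ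
  have hrel := LK_rel n ψ φ
  have hM := main_identity n ψ φ
  rw [← hδ, ← hσ] at hM
  set A := aa n * bb (n + 1) + aa (n + 1) * bb n with hA
  set B := aa n * bb (n + 1) - aa (n + 1) * bb n with hB
  obtain ⟨hA2, hB2⟩ := hAB n
  rw [← hA] at hA2
  rw [← hB] at hB2
  set X := LK n (sin ψ) (sin φ) * (√(cos ψ) * √(cos φ)) with hX
  have hXeq : X = (n + 1) / 4 * (A * cos ((n + 1) * (ψ + φ)) / cos σ +
      B * sin ((n + 1) * (ψ - φ)) / sin δ + E ψ / (sin δ * cos σ)) := by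
    have h1 : (sin δ * cos σ) ≠ 0 := mul_ne_zero hsδ0 hcσ0.ne'
    have h2 : U (n + 1) ψ * U n φ - U n ψ * U (n + 1) φ = E ψ +
        (mm (n + 1) ψ * mm n φ - mm n ψ * mm (n + 1) φ) := by
      simp only [hE]; ring
    rw [hsub, h2, hM] at hrel
    field_simp
    linear_combination 2 * hrel
  have hψφ : ψ - φ = 2 * δ := by rw [hδ]; ring
  have hdiff : X - (((n : ℝ) + 1) / 2 * B) * (sin ((n + 1) * (ψ - φ)) / (ψ - φ)) =
      1 / 4 * ((A * (n + 1)) * cos ((n + 1) * (ψ + φ)) / cos σ +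
      (B * (n + 1)) * (sin ((n + 1) * (ψ - φ)) * (1 / sin δ - 1 / δ)) +
      ((n + 1) * E ψ) / (sin δ * cos σ)) := by
    rw [hXeq]
    have h3 : sin ((n + 1) * (ψ - φ)) / (ψ - φ) = sin ((n + 1) * (ψ - φ)) * (1 / δ) / 2 := by
      rw [div_eq_iff (by rw [hψφ]; positivity)]
      rw [show (ψ - φ) = 2 * δ from hψφ]
      field_simp
    rw [h3]
    ring
  rw [hdiff, abs_mul, abs_of_nonneg (by norm_num : (0 : ℝ) ≤ 1 / 4)]
  apply mul_le_mul_of_nonneg_left _ (by norm_num)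
  refine (abs_add_three _ _ _).trans ?_
  have T1 : |(A * (n + 1)) * cos ((n + 1) * (ψ + φ)) / cos σ| ≤ 2 / κ := by
    rw [abs_div, abs_of_pos hcσ0, abs_mul, abs_mul, abs_of_pos hn]
    have := abs_cos_le_one ((n + 1) * (ψ + φ))
    calc |A| * ((n : ℝ) + 1) * |cos ((n + 1) * (ψ + φ))| / cos σ ≤ 2 * 1 / κ := by gcongr
      _ = 2 / κ := by ring
  have T2 : |(B * (n + 1)) * (sin ((n + 1) * (ψ - φ)) * (1 / sin δ - 1 / δ))| ≤ 2 * (π / 2) := by
    rw [abs_mul, abs_mul, abs_of_pos hn, abs_mul]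
    have := abs_sin_le_one ((n + 1) * (ψ - φ))
    calc |B| * ((n : ℝ) + 1) * (|sin ((n + 1) * (ψ - φ))| * |1 / sin δ - 1 / δ|)
        ≤ 2 * (1 * (π / 2)) := by gcongr
      _ = 2 * (π / 2) := by ring
  have T3 : |((n + 1) * E ψ) / (sin δ * cos σ)| ≤ K2 * π / κ := by
    rw [abs_div, abs_mul, abs_mul, abs_of_pos hcσ0, abs_of_pos hn]
    have h1 : ((n : ℝ) + 1) * |E ψ| ≤ K2 * (2 * |δ|) := by
      calc ((n : ℝ) + 1) * |E ψ| ≤ (n + 1) * ((K2 / (n + 1)) * |ψ - φ|) := by gcongr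
        _ = K2 * |ψ - φ| := by field_simp
        _ = K2 * (2 * |δ|) := by rw [hψφ, abs_mul, abs_of_pos (by norm_num : (0 : ℝ) < 2)]
    calc ((n : ℝ) + 1) * |E ψ| / (|sin δ| * cos σ) ≤ K2 * (2 * |δ|) / ((2 / π * |δ|) * κ) := by gcongr
      _ = K2 * π / κ := by field_simp
  linarith

end Pool.Agent.Helper187.Leg.KA
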