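import Pool.Agent.Helper187.Leg.Norm

open MeasureTheory Set Real Filter Topology
open scoped ENNReal

namespace Pool.Agent.Helper187.Leg

/-- the Dirichlet type kernel. -/
noncomputable def DD (n : ℕ) (u : ℝ) : ℝ := sin ((n + 1) * u) / u

theorem DD_le (n : ℕ) (u : ℝ) : |DD n u| ≤ n + 1 := by
  unfold DD
  rcases eq_or_ne u 0 with rfl | hu
  · simp; positivity
  · rw [abs_div, div_le_iff₀ (abs_pos.2 hu)]
    refine (abs_sin_le_abs).trans ?_
    rw [abs_mul]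
    have : |((n : ℝ) + 1)| = n + 1 := abs_of_pos (by positivity)
    rw [this]

theorem DD_le_inv (n : ℕ) (u : ℝ) : |DD n u| ≤ 1 / |u| := by
  unfold DD
  rw [abs_div]
  exact div_le_div_of_nonneg_right (abs_sin_le_one _) (abs_nonneg _)

theorem DD_meas (n : ℕ) (ψ : ℝ) : Measurable fun φ => DD n (ψ - φ) := by
  unfold DD; fun_prop

theorem DD_ii (n : ℕ) (ψ α β : ℝ) : IntervalIntegrable (fun φ => DD n (ψ - φ)) volume α β := by
  rw [intervalIntegrable_iff]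
  have : IsFiniteMeasure (volume.restrict (uIoc α β)) := ⟨by simp [uIoc]⟩
  refine Integrable.mono' (g := fun _ => (n : ℝ) + 1) (integrable_const _) (DD_meas n ψ).aestronglyMeasurable ?_
  exact Eventually.of_forall fun φ => DD_le n _

theorem cos_lower {ρ φ : ℝ} (hρ : 0 < ρ) (hφ : |φ| ≤ π / 2 - ρ) : sin ρ ≤ cos φ ∧ 0 < sin ρ := by
  have h1 : ρ ≤ π / 2 := by linarith [abs_nonneg φ]
  have h0 : 0 < sin ρ := sin_pos_of_pos_of_lt_pi hρ (by linarith [pi_pos])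
  refine ⟨?_, h0⟩
  rw [← cos_abs φ]
  have : sin ρ = cos (π / 2 - ρ) := by rw [cos_pi_div_two_sub]
  rw [this]
  exact cos_le_cos_of_nonneg_of_le_pi (abs_nonneg _) (by linarith [pi_pos]) hφ

section
variable
  (LK_main : ∃ (C : ℝ) (c : ℕ → ℝ), 0 < C ∧ (∀ n, |c n| ≤ C) ∧
    ∀ ρ : ℝ, 0 < ρ → ∃ Cρ : ℝ, 0 < Cρ ∧ ∀ (n : ℕ) (ψ φ : ℝ), |ψ| ≤ π / 2 - ρ → |φ| ≤ π / 2 - ρ → ψ ≠ φ →
      |LK n (sin ψ) (sin φ) * (√(cos ψ) * √(cos φ)) - c n * (sin ((n + 1) * (ψ - φ)) / (ψ - φ))| ≤ Cρ)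
  (LK_far : ∃ C : ℝ, 0 < C ∧ ∀ (n : ℕ) (ψ φ : ℝ), |ψ| < π / 2 → |φ| < π / 2 →
    |LK n (sin ψ) (sin φ)| * |sin ψ - sin φ| * (√(cos ψ) * √(cos φ)) ≤ C)

theorem LK_subst (n : ℕ) (x α β : ℝ) :
    ∫ t in (sin α)..(sin β), LK n x t = ∫ φ in α..β, LK n x (sin φ) * cos φ := by
  rw [← intervalIntegral.integral_comp_mul_deriv (f := sin) (f' := cos) (g := LK n x)
    (fun x _ => hasDerivAt_sin x) continuous_cos.continuousOn (LK_cont n x)]
  rfl

include LK_main in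
theorem R1 : ∃ (C : ℝ) (c : ℕ → ℝ), 0 < C ∧ (∀ n, |c n| ≤ C) ∧ ∀ ρ : ℝ, 0 < ρ → ∃ Cρ : ℝ, 0 < Cρ ∧
      ∀ (n : ℕ) (ψ α β : ℝ), |ψ| ≤ π / 2 - ρ → -(π / 2) + ρ ≤ α → α ≤ β → β ≤ π / 2 - ρ →
        |(∫ t in (sin α)..(sin β), LK n (sin ψ) t)
          - c n * ∫ φ in α..β, sin ((n + 1) * (ψ - φ)) / (ψ - φ)| ≤ Cρ * (β - α) := by
  obtain ⟨C, c, hC, hc, H⟩ := LK_main
  refine ⟨C, c, hC, hc, fun ρ hρ => ?_⟩
  obtain ⟨K, hK, HK⟩ := H ρ hρ
  by_cases hρ2 : ρ ≤ π / 2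
  swap
  · refine ⟨1, one_pos, fun n ψ α β hψ _ _ _ => ?_⟩
    exfalso; push Not at hρ2; linarith [abs_nonneg ψ]
  have hs : 0 < sin ρ := sin_pos_of_pos_of_lt_pi hρ (by linarith [pi_pos])
  set q := √(sin ρ) with hq
  have hqpos : 0 < q := sqrt_pos.2 hs
  refine ⟨K / q + C / (q * q), by positivity, fun n ψ α β hψ hα hαβ hβ => ?_⟩
  rw [LK_subst, ← intervalIntegral.integral_const_mul, ← intervalIntegral.integral_sub]
  rotate_left
  · exact ((LK_cont n (sin ψ)).comp continuous_sin |>.mul continuous_cos).intervalIntegrable _ _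
  · exact (DD_ii n ψ α β).const_mul (c n)
  have key : ∀ φ ∈ uIoc α β, φ ≠ ψ →
      ‖LK n (sin ψ) (sin φ) * cos φ - c n * (sin ((n + 1) * (ψ - φ)) / (ψ - φ))‖ ≤ K / q + C / (q * q) := by
    intro φ hφ hne
    rw [uIoc_of_le hαβ] at hφ
    have hφ' : |φ| ≤ π / 2 - ρ := abs_le.2 ⟨by linarith [hφ.1], by linarith [hφ.2]⟩
    have h1 := HK n ψ φ hψ hφ' (Ne.symm hne)
    have cψ := (cos_lower hρ hψ).1
    have cφ := (cos_lower hρ hφ').1
    have hψq : q ≤ √(cos ψ) := sqrt_le_sqrt cψ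
    have hφq : q ≤ √(cos φ) := sqrt_le_sqrt cφ
    have hψ0 : 0 < √(cos ψ) := hqpos.trans_le hψq
    have hφ0 : 0 < √(cos φ) := hqpos.trans_le hφq
    have hφ1 : √(cos φ) ≤ 1 := by
      rw [show (1 : ℝ) = √1 by simp]; exact sqrt_le_sqrt (cos_le_one φ)
    have hcφ : cos φ = √(cos φ) * √(cos φ) := (mul_self_sqrt (hs.le.trans cφ)).symm
    have hcψ : cos ψ = √(cos ψ) * √(cos ψ) := (mul_self_sqrt (hs.le.trans cψ)).symm
    set D := sin ((n + 1) * (ψ - φ)) / (ψ - φ) with hD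
    set L := LK n (sin ψ) (sin φ) with hL
    -- difference of square roots
    have hdiff : |√(cos φ) - √(cos ψ)| ≤ |ψ - φ| / q := by
      rw [le_div_iff₀ hqpos]
      have e1 : (√(cos φ) - √(cos ψ)) * (√(cos φ) + √(cos ψ)) = cos φ - cos ψ := by
        have w1 : √(cos φ) ^ 2 = cos φ := sq_sqrt (hs.le.trans cφ)
        have w2 : √(cos ψ) ^ 2 = cos ψ := sq_sqrt (hs.le.trans cψ)
        calc _ = √(cos φ) ^ 2 - √(cos ψ) ^ 2 := by ring
          _ = _ := by rw [w1, w2]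
      have e2 : |cos φ - cos ψ| ≤ |ψ - φ| := by
        have := abs_cos_sub_cos_le φ ψ
        rw [abs_sub_comm ψ φ]; exact this
      calc |√(cos φ) - √(cos ψ)| * q ≤ |√(cos φ) - √(cos ψ)| * (√(cos φ) + √(cos ψ)) := by
            apply mul_le_mul_of_nonneg_left _ (abs_nonneg _); linarith
        _ = |cos φ - cos ψ| := by
            rw [← e1, abs_mul, abs_of_pos (by positivity : 0 < √(cos φ) + √(cos ψ))]
        _ ≤ _ := e2
    have hne' : 0 < |ψ - φ| := abs_pos.2 (sub_ne_zero.2 (Ne.symm hne))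
    have hDle : |D| ≤ 1 / |ψ - φ| := by
      rw [hD, abs_div]
      exact div_le_div_of_nonneg_right (abs_sin_le_one _) (abs_nonneg _)
    have e3 : L * cos φ - c n * D
        = (L * (√(cos ψ) * √(cos φ)) - c n * D) * (√(cos φ) / √(cos ψ)) + c n * D * ((√(cos φ) - √(cos ψ)) / √(cos ψ)) := by
      conv_lhs => rw [hcφ]
      field_simp
      ring
    rw [e3, Real.norm_eq_abs]
    refine (abs_add_le _ _).trans (add_le_add ?_ ?_)
    · rw [abs_mul, abs_div, abs_of_pos hφ0, abs_of_pos hψ0]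
      calc _ ≤ K * (1 / q) := by
            apply mul_le_mul h1 _ (by positivity) hK.le
            exact div_le_div₀ zero_le_one hφ1 hqpos hψq
        _ = K / q := by ring
    · rw [abs_mul, abs_mul, abs_div (√(cos φ) - √(cos ψ)), abs_of_pos hψ0]
      calc |c n| * |D| * (|√(cos φ) - √(cos ψ)| / √(cos ψ))
          ≤ C * (1 / |ψ - φ|) * ((|ψ - φ| / q) / q) := by
            apply mul_le_mul (mul_le_mul (hc n) hDle (abs_nonneg _) hC.le) _ (by positivity) (by positivity)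
            exact div_le_div₀ (by positivity) hdiff hqpos hψq
        _ = C / (q * q) := by field_simp
  have h2 : ∀ᵐ φ ∂volume, φ ∈ uIoc α β →
      ‖LK n (sin ψ) (sin φ) * cos φ - c n * (sin ((n + 1) * (ψ - φ)) / (ψ - φ))‖ ≤ K / q + C / (q * q) := by
    have : ∀ᵐ φ : ℝ ∂volume, φ ≠ ψ := by
      rw [ae_iff]; simp
    filter_upwards [this] with φ hne hφ using key φ hφ hne
  have h3 := intervalIntegral.norm_integral_le_of_norm_le_const_ae h2
  rw [Real.norm_eq_abs, abs_of_nonneg (sub_nonneg.2 hαβ)] at h3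
  exact h3

include LK_far in
theorem R2 : ∀ ρ : ℝ, 0 < ρ → ∃ Cρ : ℝ, 0 < Cρ ∧
      ∀ (n : ℕ) (ψ α β : ℝ), |ψ| < π / 2 → π / 2 - ρ / 2 ≤ |ψ| → -(π / 2) + ρ ≤ α → α ≤ β →
        β ≤ π / 2 - ρ → |∫ t in (sin α)..(sin β), LK n (sin ψ) t| ≤ Cρ * (β - α) / √(cos ψ) := by
  obtain ⟨C, hC, H⟩ := LK_far
  intro ρ hρ
  by_cases hρ2 : ρ ≤ π / 2
  swap
  · refine ⟨1, one_pos, fun n ψ α β _ _ _ _ _ => ?_⟩
    exfalso; push Not at hρ2; linarith
  have hs : 0 < sin ρ := sin_pos_of_pos_of_lt_pi hρ (by linarith [pi_pos])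
  set q := √(sin ρ) with hq
  have hqpos : 0 < q := sqrt_pos.2 hs
  have hgap : 0 < cos (ρ / 2) - cos ρ := by
    have := cos_lt_cos_of_nonneg_of_le_pi (x := ρ / 2) (y := ρ) (by linarith) (by linarith [pi_pos]) (by linarith)
    linarith
  set G := cos (ρ / 2) - cos ρ with hG
  refine ⟨C / (G * q), by positivity, fun n ψ α β hψ hψ' hα hαβ hβ => ?_⟩
  rw [LK_subst]
  have hcψ : 0 < √(cos ψ) := sqrt_pos.2 (cos_pos_of_mem_Ioo ⟨by linarith [(abs_lt.1 hψ).1], (abs_lt.1 hψ).2⟩)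
  have key : ∀ φ ∈ uIoc α β, ‖LK n (sin ψ) (sin φ) * cos φ‖ ≤ C / (G * q) / √(cos ψ) := by
    intro φ hφ
    rw [uIoc_of_le hαβ] at hφ
    have hφ' : |φ| ≤ π / 2 - ρ := abs_le.2 ⟨by linarith [hφ.1], by linarith [hφ.2]⟩
    have h1 := H n ψ φ hψ (by linarith)
    have cφ := (cos_lower hρ hφ').1
    have hφq : q ≤ √(cos φ) := sqrt_le_sqrt cφ
    have hφ0 : 0 < √(cos φ) := hqpos.trans_le hφq
    have hcos0 : 0 ≤ cos φ := hs.le.trans cφ
    have hcos1 : cos φ ≤ 1 := cos_le_one φ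
    have hgap' : G ≤ |sin ψ - sin φ| := by
      have hφr : |sin φ| ≤ cos ρ := by
        have : cos ρ = sin (π / 2 - ρ) := by rw [sin_pi_div_two_sub]
        rw [this, abs_le, ← sin_neg]
        constructor
        · exact sin_le_sin_of_le_of_le_pi_div_two (by linarith) (by linarith [(abs_le.1 hφ').2]) (by linarith [(abs_le.1 hφ').1])
        · exact sin_le_sin_of_le_of_le_pi_div_two (by linarith [(abs_le.1 hφ').1, pi_pos]) (by linarith) (abs_le.1 hφ').2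
      have hψr : cos (ρ / 2) ≤ |sin ψ| := by
        have : cos (ρ / 2) = sin (π / 2 - ρ / 2) := by rw [sin_pi_div_two_sub]
        rw [this]
        have e : |sin ψ| = sin |ψ| := by
          rcases abs_cases ψ with ⟨h, h'⟩ | ⟨h, h'⟩
          · rw [h, abs_of_nonneg (sin_nonneg_of_nonneg_of_le_pi h' (by linarith [(abs_lt.1 hψ).2, pi_pos]))]
          · rw [h, sin_neg, abs_of_neg]
            exact sin_neg_of_neg_of_neg_pi_lt h' (by linarith [(abs_lt.1 hψ).1, pi_pos])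
        rw [e]
        exact sin_le_sin_of_le_of_le_pi_div_two (by linarith [pi_pos]) hψ.le hψ'
      have := abs_sub_abs_le_abs_sub (sin ψ) (sin φ)
      linarith
    rw [Real.norm_eq_abs, abs_mul, abs_of_nonneg hcos0]
    have h2 : |LK n (sin ψ) (sin φ)| * (G * (√(cos ψ) * q)) ≤ C := by
      refine le_trans ?_ h1
      rw [mul_assoc]
      apply mul_le_mul_of_nonneg_left _ (abs_nonneg _)
      apply mul_le_mul hgap' _ (by positivity) (abs_nonneg _)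
      exact mul_le_mul_of_nonneg_left hφq hcψ.le
    calc |LK n (sin ψ) (sin φ)| * cos φ ≤ |LK n (sin ψ) (sin φ)| * 1 := mul_le_mul_of_nonneg_left hcos1 (abs_nonneg _)
      _ = |LK n (sin ψ) (sin φ)| := mul_one _
      _ ≤ C / (G * q) / √(cos ψ) := by
          rw [div_div, le_div_iff₀ (by positivity)]
          calc _ = |LK n (sin ψ) (sin φ)| * (G * (√(cos ψ) * q)) := by ring
            _ ≤ C := h2
  have h3 := intervalIntegral.norm_integral_le_of_norm_le_const key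
  rw [Real.norm_eq_abs, abs_of_nonneg (sub_nonneg.2 hαβ)] at h3
  calc _ ≤ C / (G * q) / √(cos ψ) * (β - α) := h3
    _ = _ := by ring

end

end Pool.Agent.Helper187.Leg
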