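import Pool.Agent.Helper187.Leg.Norm

open MeasureTheory Set Real Filter Topology
open scoped ENNReal

namespace Pool.Agent.Helper187.Leg.N2

open Pool.Agent.Helper187.Leg




/-! ### TARGETS -/

theorem Sn_ind (n : ℕ) {a b : ℝ} (ha : -1 < a) (hab : a < b) (hb : b < 1) (x : ℝ) :
    Sn n ((Ico a b).indicator 1) x = ∫ t in a..b, LK n x t := by
  unfold Sn
  rw [intervalIntegral.integral_of_le (by norm_num), intervalIntegral.integral_of_le hab.le]
  have e : ∀ t, LK n x t * (Ico a b).indicator (1 : ℝ → ℝ) t = (Ico a b).indicator (LK n x) t := by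
    intro t
    by_cases ht : t ∈ Ico a b
    · rw [indicator_of_mem ht, indicator_of_mem ht]; simp
    · rw [indicator_of_notMem ht, indicator_of_notMem ht]; simp
  simp_rw [e]
  rw [setIntegral_indicator measurableSet_Ico]
  have h1 : Ioc (-1 : ℝ) 1 ∩ Ico a b = Ico a b := by
    apply inter_eq_right.2
    intro t ht
    exact ⟨lt_of_lt_of_le ha ht.1, (ht.2.trans hb).le⟩
  rw [h1, integral_Ico_eq_integral_Ioo, integral_Ioc_eq_integral_Ioo]

section
variable
  (hfin : ∀ a b : ℝ, -1 < a → a < b → b < 1 → NN ((Ico a b).indicator 1) < ⊤)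
  (hconv : ∀ a b : ℝ, -1 < a → a < b → b < 1 → ∀ x : ℝ, -1 < x → x < 1 → x ≠ a → x ≠ b →
    Tendsto (fun n : ℕ => ∫ t in a..b, LK n x t) atTop (𝓝 (if a < x ∧ x < b then 1 else 0)))

include hfin in
theorem NN_step_finite {J : Set ℝ} {h : ℝ → ℝ} (hs : StepOn J h) : NN h < ⊤ := by
  obtain ⟨ι, hι, a, b, c, hab, hin, he⟩ := hs.eq_sum
  have e : h = fun x => ∑ i, c i * (Ico (a i) (b i)).indicator 1 x := funext he
  rw [e]
  refine lt_of_le_of_lt (NN_sum Finset.univ (fun i x => c i * (Ico (a i) (b i)).indicator 1 x)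
    (fun i _ => (ind_ii _ _).const_mul _)) ?_
  refine ENNReal.sum_lt_top.2 fun i _ => ?_
  rw [NN_const_mul (c i) (ind_ii _ _)]
  exact ENNReal.mul_lt_top enorm_lt_top (hfin _ _ (hin i).1 (hab i) (hin i).2)

include hconv in
/-- pointwise a.e. convergence for step functions. -/
theorem Sn_step_tendsto {J : Set ℝ} {h : ℝ → ℝ} (hs : StepOn J h) :
    ∀ᵐ x ∂mu1, Tendsto (fun n => Sn n h x) atTop (𝓝 (h x)) := by
  obtain ⟨ι, hι, a, b, c, hab, hin, he⟩ := hs.eq_sum
  have e : h = fun x => ∑ i, c i * (Ico (a i) (b i)).indicator 1 x := funext he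
  have hcount : (({-1, 1} : Set ℝ) ∪ (range a ∪ range b)).Countable :=
    ((countable_insert.2 (countable_singleton _))).union
      ((finite_range a).countable.union (finite_range b).countable)
  have hne : ∀ᵐ x ∂(volume : Measure ℝ), x ∉ (({-1, 1} : Set ℝ) ∪ (range a ∪ range b)) :=
    hcount.ae_notMem _
  have hne' : ∀ᵐ x ∂mu1, x ∉ (({-1, 1} : Set ℝ) ∪ (range a ∪ range b)) := ae_restrict_of_ae hne
  have hmem : ∀ᵐ x ∂mu1, x ∈ Icc (-1 : ℝ) 1 := by
    rw [mu1]; exact ae_restrict_mem measurableSet_Icc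
  filter_upwards [hne', hmem] with x hx hxm
  simp only [mem_union, mem_insert_iff, mem_singleton_iff, mem_range, not_or, not_exists] at hx
  obtain ⟨⟨hx1, hx2⟩, hxa, hxb⟩ := hx
  have hxl : -1 < x := lt_of_le_of_ne hxm.1 (Ne.symm hx1)
  have hxr : x < 1 := lt_of_le_of_ne hxm.2 hx2
  rw [e]
  have e2 : ∀ n, Sn n (fun x => ∑ i, c i * (Ico (a i) (b i)).indicator 1 x) x
      = ∑ i, c i * ∫ t in (a i)..(b i), LK n x t := by
    intro n
    rw [Sn_sum n Finset.univ (fun i x => c i * (Ico (a i) (b i)).indicator 1 x)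
      (fun i _ => (ind_ii _ _).const_mul _)]
    refine Finset.sum_congr rfl fun i _ => ?_
    rw [Sn_const_mul, ← Sn_ind n (hin i).1 (hab i) (hin i).2]
  simp_rw [e2]
  refine tendsto_finsetSum _ fun i _ => ?_
  refine Tendsto.const_mul _ ?_
  have h1 := hconv (a i) (b i) (hin i).1 (hab i) (hin i).2 x hxl hxr (fun h => hxa i h.symm) (fun h => hxb i h.symm)
  have h2 : (Ico (a i) (b i)).indicator (1 : ℝ → ℝ) x = if a i < x ∧ x < b i then 1 else 0 := by
    by_cases hc : a i < x ∧ x < b i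
    · have hm : x ∈ Ico (a i) (b i) := ⟨hc.1.le, hc.2⟩
      rw [if_pos hc, indicator_of_mem hm]; rfl
    · rw [if_neg hc, indicator_of_notMem]
      rintro ⟨h3, h4⟩
      exact hc ⟨lt_of_le_of_ne h3 (hxa i), h4⟩
  rw [h2]
  exact h1

theorem Sn_sub_meas {h : ℝ → ℝ} (hh : IntervalIntegrable h volume (-1) 1) (hm : Measurable h) (n : ℕ) :
    Measurable fun x => ‖Sn n h x - h x‖ₑ :=
  ((Sn_cont n hh).measurable.sub hm).enorm

theorem lint_lt_top {h : ℝ → ℝ} (hh : IntervalIntegrable h volume (-1) 1) :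
    ∫⁻ x in Ioo (-1 : ℝ) 1, ‖h x‖ₑ < ⊤ := by
  rw [intervalIntegrable_iff_integrableOn_Ioo_of_le (by norm_num)] at hh
  exact hh.2

theorem mu1_Ioo : mu1 = volume.restrict (Ioo (-1 : ℝ) 1) := by
  rw [mu1]
  exact Measure.restrict_congr_set Ioo_ae_eq_Icc.symm

include hfin hconv in
theorem tail_small {J : Set ℝ} {h : ℝ → ℝ} (hs : StepOn J h) {τ : ℝ} (hτ : 0 < τ) :
    ∃ m : ℕ, ∫⁻ x in Ioo (-1 : ℝ) 1, (⨆ n : ℕ, ⨆ (_ : m ≤ n), ‖Sn n h x - h x‖ₑ)
      ≤ ENNReal.ofReal τ := by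
  have hT : Tendsto (fun m : ℕ => ∫⁻ x in Ioo (-1 : ℝ) 1, (⨆ n : ℕ, ⨆ (_ : m ≤ n), ‖Sn n h x - h x‖ₑ))
      atTop (𝓝 (∫⁻ x in Ioo (-1 : ℝ) 1, (0 : ℝ≥0∞))) := by
    refine tendsto_lintegral_of_dominated_convergence (fun x => Smax h x + ‖h x‖ₑ) ?_ ?_ ?_ ?_
    · intro m
      refine Measurable.iSup fun n => ?_
      refine Measurable.iSup fun _ => ?_
      exact Sn_sub_meas hs.ii hs.meas n
    · intro m
      refine Eventually.of_forall fun x => ?_
      refine iSup_le fun n => iSup_le fun _ => ?_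
      refine (enorm_sub_le).trans ?_
      exact add_le_add (le_iSup (fun n => ‖Sn n h x‖ₑ) n) le_rfl
    · rw [lintegral_add_left (Smax_meas hs.ii)]
      exact (ENNReal.add_lt_top.2 ⟨NN_step_finite hfin hs, lint_lt_top hs.ii⟩).ne
    · have h1 := Sn_step_tendsto hconv hs
      rw [mu1_Ioo] at h1
      filter_upwards [h1] with x hx
      have h2 : Tendsto (fun n => ‖Sn n h x - h x‖ₑ) atTop (𝓝 0) := by
        have h3 : Tendsto (fun n => Sn n h x - h x) atTop (𝓝 (h x - h x)) := hx.sub_const _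
        rw [sub_self] at h3
        have h4 := h3.enorm
        simpa using h4
      rw [ENNReal.tendsto_atTop_zero] at h2 ⊢
      intro ε hε
      obtain ⟨N, hN⟩ := h2 ε hε
      refine ⟨N, fun m hm => ?_⟩
      exact iSup_le fun n => iSup_le fun hn => hN n (le_trans hm hn)
  rw [lintegral_zero, ENNReal.tendsto_atTop_zero] at hT
  obtain ⟨N, hN⟩ := hT (ENNReal.ofReal τ) (ENNReal.ofReal_pos.2 hτ)
  exact ⟨N, hN N le_rfl⟩

include hfin hconv in
theorem assembly (s : ℕ → ℝ → ℝ) (J : ℕ → Set ℝ) (hs : ∀ j, StepOn (J j) (s j)) (F : ℝ → ℝ)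
    (hF : Measurable F) (hsum : ∑' j, NN (fun x => s (j + 1) x - s j x) ≠ ⊤)
    (hlim : ∀ᵐ x ∂mu1, Tendsto (fun j => s j x) atTop (𝓝 (F x))) :
    Integrable F mu1 ∧ NN F < ⊤ := by
  set d : ℕ → ℝ → ℝ := fun j x => s (j + 1) x - s j x with hd
  have hdii : ∀ j, IntervalIntegrable (d j) volume (-1) 1 := fun j => (hs (j + 1)).ii.sub (hs j).ii
  have hdm : ∀ j, Measurable (d j) := fun j => (hs (j + 1)).meas.sub (hs j).meas
  have hnorm : ∀ j, ∫⁻ x in Ioo (-1 : ℝ) 1, ‖d j x‖ₑ ≤ NN (d j) := by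
    intro j
    have h1 := Sn_step_tendsto hconv (hs (j + 1))
    have h0 := Sn_step_tendsto hconv (hs j)
    rw [mu1_Ioo] at h1 h0
    refine lintegral_mono_ae ?_
    filter_upwards [h1, h0] with x hx1 hx0
    have h2 : Tendsto (fun n => ‖Sn n (d j) x‖ₑ) atTop (𝓝 ‖d j x‖ₑ) := by
      have h3 := (hx1.sub hx0).enorm
      refine h3.congr fun n => ?_
      rw [← Sn_sub n (hs (j + 1)).ii (hs j).ii]
    exact le_of_tendsto' h2 fun n => le_iSup (fun n => ‖Sn n (d j) x‖ₑ) n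
  have hstep : ∀ j x, s (j + 1) x = s j x + d j x := fun j x => by simp [hd]
  -- pointwise bound of partial sums
  have hb : ∀ j x, ‖s j x‖ₑ ≤ ‖s 0 x‖ₑ + ∑' i, ‖d i x‖ₑ := by
    intro j x
    have : ‖s j x‖ₑ ≤ ‖s 0 x‖ₑ + ∑ i ∈ Finset.range j, ‖d i x‖ₑ := by
      induction j with
      | zero => simp
      | succ j ih =>
        rw [hstep, Finset.sum_range_succ, ← add_assoc]
        exact (enorm_add_le _ _).trans (add_le_add ih le_rfl)
    exact this.trans (add_le_add le_rfl (ENNReal.sum_le_tsum _))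
  have hGm : Measurable fun x => ‖s 0 x‖ₑ + ∑' i, ‖d i x‖ₑ :=
    (hs 0).meas.enorm.add (Measurable.tsum fun i => (hdm i).enorm)
  have hG : ∫⁻ x in Ioo (-1 : ℝ) 1, (‖s 0 x‖ₑ + ∑' i, ‖d i x‖ₑ) < ⊤ := by
    rw [lintegral_add_left (hs 0).meas.enorm, lintegral_tsum fun i => (hdm i).enorm.aemeasurable]
    refine ENNReal.add_lt_top.2 ⟨lint_lt_top (hs 0).ii, ?_⟩
    exact lt_of_le_of_lt (ENNReal.tsum_le_tsum hnorm) (lt_top_iff_ne_top.2 hsum)
  have hGae : ∀ᵐ x ∂(volume.restrict (Ioo (-1 : ℝ) 1)), (‖s 0 x‖ₑ + ∑' i, ‖d i x‖ₑ) < ⊤ :=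
    ae_lt_top hGm hG.ne
  have hFb : ∀ᵐ x ∂(volume.restrict (Ioo (-1 : ℝ) 1)), ‖F x‖ₑ ≤ ‖s 0 x‖ₑ + ∑' i, ‖d i x‖ₑ := by
    rw [← mu1_Ioo]
    filter_upwards [hlim] with x hx
    exact le_of_tendsto' hx.enorm fun j => hb j x
  have hFi : Integrable F mu1 := by
    refine ⟨hF.aestronglyMeasurable, ?_⟩
    rw [mu1_Ioo]
    exact lt_of_le_of_lt (lintegral_mono_ae hFb) hG
  refine ⟨hFi, ?_⟩
  set g : ℝ → ℝ := fun x => (‖s 0 x‖ₑ + ∑' i, ‖d i x‖ₑ).toReal with hg
  have hgi : IntervalIntegrable g volume (-1) 1 := by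
    rw [intervalIntegrable_iff_integrableOn_Ioo_of_le (by norm_num)]
    exact integrable_toReal_of_lintegral_ne_top hGm.aemeasurable hG.ne
  have hFii : IntervalIntegrable F volume (-1) 1 := by
    rw [intervalIntegrable_iff_integrableOn_Ioo_of_le (by norm_num)]
    rw [mu1_Ioo] at hFi
    exact hFi
  -- convergence of the partial sums
  have hcv : ∀ n x, Tendsto (fun j => Sn n (s j) x) atTop (𝓝 (Sn n F x)) := by
    intro n x
    unfold Sn
    refine intervalIntegral.tendsto_integral_filter_of_dominated_convergence (fun t => ‖LK n x t‖ * g t) ?_ ?_ ?_ ?_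
    · refine Eventually.of_forall fun j => ?_
      exact ((LK_cont n x).measurable.mul (hs j).meas).aestronglyMeasurable
    · refine Eventually.of_forall fun j => ?_
      have : ∀ᵐ t ∂(volume : Measure ℝ), t ∈ Ioo (-1 : ℝ) 1 → (‖s 0 t‖ₑ + ∑' i, ‖d i t‖ₑ) < ⊤ := by
        rwa [ae_restrict_iff' measurableSet_Ioo] at hGae
      have h1 : ∀ᵐ t ∂(volume : Measure ℝ), t ≠ 1 := by
        have := (countable_singleton (1 : ℝ)).ae_notMem (volume : Measure ℝ)
        simpa using this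
      filter_upwards [this, h1] with t ht ht1 hmem
      rw [uIoc_of_le (by norm_num)] at hmem
      rw [norm_mul]
      refine mul_le_mul_of_nonneg_left ?_ (norm_nonneg _)
      have h2 := ht ⟨hmem.1, lt_of_le_of_ne hmem.2 ht1⟩
      have h3 := ENNReal.toReal_mono h2.ne (hb j t)
      rwa [toReal_enorm] at h3
    · exact hgi.continuousOn_mul (LK_cont n x).norm.continuousOn
    · have : ∀ᵐ t ∂(volume : Measure ℝ), t ∈ Icc (-1 : ℝ) 1 → Tendsto (fun j => s j t) atTop (𝓝 (F t)) := by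
        rwa [mu1, ae_restrict_iff' measurableSet_Icc] at hlim
      filter_upwards [this] with t ht hmem
      rw [uIoc_of_le (by norm_num)] at hmem
      exact (ht ⟨hmem.1.le, hmem.2⟩).const_mul _
  have hSm : ∀ x, Smax F x ≤ Smax (s 0) x + ∑' j, Smax (d j) x := by
    intro x
    refine iSup_le fun n => ?_
    refine le_of_tendsto' (hcv n x).enorm fun j => ?_
    have h1 : Smax (s j) x ≤ Smax (s 0) x + ∑ i ∈ Finset.range j, Smax (d i) x := by
      induction j with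
      | zero => simp
      | succ j ih =>
        have e : s (j + 1) = fun t => s j t + d j t := funext fun t => hstep j t
        rw [e, Finset.sum_range_succ, ← add_assoc]
        exact (Smax_add (hs j).ii (hdii j) x).trans (add_le_add ih le_rfl)
    refine (le_iSup (fun n => ‖Sn n (s j) x‖ₑ) n).trans (h1.trans ?_)
    exact add_le_add le_rfl (ENNReal.sum_le_tsum _)
  calc NN F ≤ ∫⁻ x in Ioo (-1 : ℝ) 1, (Smax (s 0) x + ∑' j, Smax (d j) x) := lintegral_mono hSm
    _ = NN (s 0) + ∑' j, NN (d j) := by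
      rw [lintegral_add_left (Smax_meas (hs 0).ii), lintegral_tsum fun i => (Smax_meas (hdii i)).aemeasurable]
      rfl
    _ < ⊤ := ENNReal.add_lt_top.2 ⟨NN_step_finite hfin (hs 0), lt_top_iff_ne_top.2 hsum⟩

end

end Pool.Agent.Helper187.Leg.N2
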