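import Pool.Agent.Helper187.Leg.Norm

open MeasureTheory Set Real Filter Topology
open scoped ENNReal

namespace Pool.Agent.Helper187.Leg.N3

open Pool.Agent.Helper187.Leg





/-! ### helpers -/

theorem io_abs_rpow {e : ℝ} (he1 : e < 1) (c : ℝ) :
    IntegrableOn (fun y : ℝ => |y| ^ (-e)) (Ioo (-c) c) := by
  have h1 : IntervalIntegrable (fun y : ℝ => y ^ (-e)) volume 0 |c| :=
    intervalIntegral.intervalIntegrable_rpow' (by linarith)
  have h2 : IntegrableOn (fun y : ℝ => |y| ^ (-e)) (Ioc 0 |c|) := by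
    rw [intervalIntegrable_iff_integrableOn_Ioc_of_le (abs_nonneg c)] at h1
    refine h1.congr_fun (fun y hy => ?_) measurableSet_Ioc
    simp only
    rw [abs_of_pos hy.1]
  have h3 : IntegrableOn (fun y : ℝ => |y| ^ (-e)) (Ico (-|c|) 0) := by
    have h4 : IntegrableOn ((fun y : ℝ => |y| ^ (-e)) ∘ Neg.neg) (Neg.neg ⁻¹' Ioc 0 |c|) :=
      (Measure.measurePreserving_neg (volume : Measure ℝ)).integrableOn_comp_preimage
        (MeasurableEquiv.neg ℝ).measurableEmbedding |>.2 h2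
    have h5 : (Neg.neg ⁻¹' Ioc 0 |c| : Set ℝ) = Ico (-|c|) 0 := by
      ext y
      simp only [mem_preimage, mem_Ioc, mem_Ico]
      constructor <;> rintro ⟨a, b⟩ <;> constructor <;> linarith
    rw [h5] at h4
    refine h4.congr_fun (fun y _ => ?_) measurableSet_Ico
    simp only [Function.comp_apply, abs_neg]
  refine (h3.union h2 |>.union (integrableOn_singleton (x := (0 : ℝ)) (hx := by simp))).mono_set ?_
  intro y hy
  have h6 := le_abs_self c
  rcases lt_trichotomy y 0 with h | h | h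
  · exact Or.inl (Or.inl ⟨by linarith [hy.1], h⟩)
  · exact Or.inr h
  · exact Or.inl (Or.inr ⟨h, by linarith [hy.2]⟩)

theorem int_pow_bound {e : ℝ} (he1 : e < 1) : ∃ C : ℝ, 0 < C ∧ ∀ p : ℝ, -1 ≤ p → p ≤ 1 →
    ∫⁻ x in Ioo (-1 : ℝ) 1, ENNReal.ofReal (|x - p| ^ (-e)) ≤ ENNReal.ofReal C := by
  have h1 := (io_abs_rpow he1 2).lintegral_lt_top
  set I := ∫⁻ y in Ioo (-2 : ℝ) 2, ENNReal.ofReal (|y| ^ (-e)) with hI
  refine ⟨I.toReal + 1, by positivity, fun p hp1 hp2 => ?_⟩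
  have h2 : ∫⁻ x in Ioo (-1 : ℝ) 1, ENNReal.ofReal (|x - p| ^ (-e)) ≤ I := by
    calc ∫⁻ x in Ioo (-1 : ℝ) 1, ENNReal.ofReal (|x - p| ^ (-e))
        = ∫⁻ x, (Ioo (-1 : ℝ) 1).indicator (fun x => ENNReal.ofReal (|x - p| ^ (-e))) x := by
          rw [lintegral_indicator measurableSet_Ioo]
      _ ≤ ∫⁻ x, (fun y => (Ioo (-2 : ℝ) 2).indicator (fun y => ENNReal.ofReal (|y| ^ (-e))) y) (x - p) := by
          refine lintegral_mono fun x => ?_
          by_cases hx : x ∈ Ioo (-1 : ℝ) 1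
          · rw [indicator_of_mem hx]
            have : x - p ∈ Ioo (-2 : ℝ) 2 := ⟨by linarith [hx.1], by linarith [hx.2]⟩
            simp only
            rw [indicator_of_mem this]
          · rw [indicator_of_notMem hx]
            exact zero_le
      _ = ∫⁻ x, (Ioo (-2 : ℝ) 2).indicator (fun y => ENNReal.ofReal (|y| ^ (-e))) x :=
          lintegral_sub_right_eq_self _ p
      _ = I := by rw [lintegral_indicator measurableSet_Ioo]
  calc _ ≤ I := h2
    _ = ENNReal.ofReal I.toReal := (ENNReal.ofReal_toReal h1.ne).symm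
    _ ≤ _ := ENNReal.ofReal_le_ofReal (by linarith)

theorem Sn_ind (n : ℕ) (x : ℝ) {A B : ℝ} (hA : -1 ≤ A) (hAB : A ≤ B) (hB : B < 1) :
    Sn n ((Ico A B).indicator 1) x = ∫ t in A..B, LK n x t := by
  unfold Sn
  rw [intervalIntegral.integral_of_le (by norm_num), intervalIntegral.integral_of_le hAB]
  have h1 : (fun t => LK n x t * (Ico A B).indicator 1 t) = (Ico A B).indicator (LK n x) := by
    funext t
    by_cases ht : t ∈ Ico A B
    · rw [indicator_of_mem ht, indicator_of_mem ht]; simp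
    · rw [indicator_of_notMem ht, indicator_of_notMem ht]; simp
  rw [h1, ← integral_Ico_eq_integral_Ioc, ← integral_Ico_eq_integral_Ioc,
    setIntegral_indicator measurableSet_Ico]
  congr 2
  ext t
  simp only [mem_inter_iff, mem_Ico]
  constructor
  · rintro ⟨-, h⟩; exact h
  · intro h; exact ⟨⟨by linarith [h.1], by linarith [h.2]⟩, h⟩

theorem kernel_bd {C' : ℝ} (hC' : 0 < C') (sb : ∀ (μ z a b : ℝ), a ≤ b →
      |∫ s in a..b, sin (μ * (z - s)) / (z - s)| ≤ C') {e : ℝ} (he : 0 < e) (he1 : e < 1)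
    (N ψ α β : ℝ) (hab : α < β) (hne : ψ ≠ α) :
    |∫ φ in α..β, sin (N * (ψ - φ)) / (ψ - φ)| ≤
      (2 * C' + 2) * ((β - α) / |ψ - α|) ^ e := by
  have hl : 0 < β - α := by linarith
  have hd : 0 < |ψ - α| := abs_pos.2 (sub_ne_zero.2 hne)
  rcases le_or_gt |ψ - α| (2 * (β - α)) with h | h
  · have h1 : (1 / 2 : ℝ) ≤ ((β - α) / |ψ - α|) ^ e := by
      have h2 : (1 / 2 : ℝ) ≤ (β - α) / |ψ - α| := by
        rw [le_div_iff₀ hd]; linarith
      calc (1 / 2 : ℝ) = (1 / 2 : ℝ) ^ (1 : ℝ) := by rw [Real.rpow_one]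
        _ ≤ (1 / 2 : ℝ) ^ e := Real.rpow_le_rpow_of_exponent_ge (by norm_num) (by norm_num) he1.le
        _ ≤ _ := Real.rpow_le_rpow (by norm_num) h2 he.le
    have h3 := sb N ψ α β hab.le
    nlinarith
  · have h1 : |∫ φ in α..β, sin (N * (ψ - φ)) / (ψ - φ)| ≤ (2 / |ψ - α|) * |β - α| := by
      refine intervalIntegral.norm_integral_le_of_norm_le_const
        (f := fun φ => sin (N * (ψ - φ)) / (ψ - φ)) (C := 2 / |ψ - α|) (fun φ hφ => ?_)
      rw [uIoc_of_le hab.le] at hφ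
      have h4 : |ψ - α| / 2 ≤ |ψ - φ| := by
        have h5 : |ψ - α| ≤ |ψ - φ| + |φ - α| := abs_sub_le _ _ _
        have h6 : |φ - α| ≤ β - α := by
          rw [abs_of_nonneg (by linarith [hφ.1])]; linarith [hφ.2]
        linarith
      rw [Real.norm_eq_abs, abs_div]
      calc |sin (N * (ψ - φ))| / |ψ - φ| ≤ 1 / (|ψ - α| / 2) :=
            div_le_div₀ zero_le_one (abs_sin_le_one _) (by positivity) h4
        _ = 2 / |ψ - α| := by field_simp
    rw [abs_of_pos hl] at h1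
    have h2 : (β - α) / |ψ - α| ≤ ((β - α) / |ψ - α|) ^ e := by
      have h7 : (β - α) / |ψ - α| ≤ 1 := by
        rw [div_le_one hd]; linarith
      calc (β - α) / |ψ - α| = ((β - α) / |ψ - α|) ^ (1 : ℝ) := by rw [Real.rpow_one]
        _ ≤ _ := Real.rpow_le_rpow_of_exponent_ge (by positivity) h7 he1.le
    have h3 : (2 / |ψ - α|) * (β - α) = 2 * ((β - α) / |ψ - α|) := by ring
    rw [h3] at h1
    have h8 : 0 ≤ ((β - α) / |ψ - α|) ^ e := by positivity
    nlinarith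

/-! ### TARGETS -/

theorem cos_bd {x : ℝ} (h1 : -1 < x) (h2 : x < 1) :
    1 / √(cos (arcsin x)) ≤ |x - 1| ^ (-(1 / 4) : ℝ) + |x - (-1)| ^ (-(1 / 4) : ℝ) := by
  have hy : 0 < 1 - x ^ 2 := by nlinarith
  have e1 : √(cos (arcsin x)) = (1 - x ^ 2) ^ (1 / 4 : ℝ) := by
    rw [cos_arcsin, Real.sqrt_eq_rpow, Real.sqrt_eq_rpow, ← Real.rpow_mul hy.le]
    norm_num
  rw [e1, one_div, ← Real.rpow_neg hy.le]
  have p1 : 0 ≤ |x - 1| ^ (-(1 / 4) : ℝ) := by positivity
  have p2 : 0 ≤ |x - (-1)| ^ (-(1 / 4) : ℝ) := by positivity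
  rcases le_or_gt 0 x with h | h
  · have h3 : |x - 1| ≤ 1 - x ^ 2 := by
      rw [abs_sub_comm, abs_of_pos (by linarith)]; nlinarith
    have h4 : 0 < |x - 1| := abs_pos.2 (by linarith)
    have := Real.rpow_le_rpow_of_nonpos h4 h3 (show (-(1 / 4) : ℝ) ≤ 0 by norm_num)
    linarith
  · have h3 : |x - (-1)| ≤ 1 - x ^ 2 := by
      rw [abs_of_pos (by linarith)]; nlinarith
    have h4 : 0 < |x - (-1)| := abs_pos.2 (by linarith)
    have := Real.rpow_le_rpow_of_nonpos h4 h3 (show (-(1 / 4) : ℝ) ≤ 0 by norm_num)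
    linarith

theorem NN_interval
    (sinc_int_bound : ∃ C : ℝ, 0 < C ∧ ∀ (μ z a b : ℝ), a ≤ b →
      |∫ s in a..b, sin (μ * (z - s)) / (z - s)| ≤ C)
    (R1 : ∃ (C : ℝ) (c : ℕ → ℝ), 0 < C ∧ (∀ n, |c n| ≤ C) ∧ ∀ ρ : ℝ, 0 < ρ → ∃ Cρ : ℝ, 0 < Cρ ∧
      ∀ (n : ℕ) (ψ α β : ℝ), |ψ| ≤ π / 2 - ρ → -(π / 2) + ρ ≤ α → α ≤ β → β ≤ π / 2 - ρ →
        |(∫ t in (sin α)..(sin β), LK n (sin ψ) t)
          - c n * ∫ φ in α..β, sin ((n + 1) * (ψ - φ)) / (ψ - φ)| ≤ Cρ * (β - α))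
    (R2 : ∀ ρ : ℝ, 0 < ρ → ∃ Cρ : ℝ, 0 < Cρ ∧
      ∀ (n : ℕ) (ψ α β : ℝ), |ψ| < π / 2 → π / 2 - ρ / 2 ≤ |ψ| → -(π / 2) + ρ ≤ α → α ≤ β →
        β ≤ π / 2 - ρ → |∫ t in (sin α)..(sin β), LK n (sin ψ) t| ≤ Cρ * (β - α) / √(cos ψ))
    (e : ℝ) (he : 0 < e) (he1 : e < 1) (r : ℝ) (hr : 0 < r) :
    ∃ C : ℝ, 0 < C ∧ ∀ A B : ℝ, -1 + r ≤ A → A < B → B ≤ 1 - r →
      NN ((Ico A B).indicator 1) ≤ ENNReal.ofReal (C * (B - A) ^ e) := by
  obtain ⟨C', hC', sb⟩ := sinc_int_bound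
  obtain ⟨C1, c, hC1, hc, R1⟩ := R1
  rcases le_or_gt 1 r with hr1 | hr1
  · exact ⟨1, one_pos, fun A B h1 h2 h3 => by linarith⟩
  have hpi := Real.pi_pos
  set γ := arcsin (1 - r) with hγ
  have hγ0 : 0 < γ := arcsin_pos.2 (by linarith)
  have hγ1 : γ < π / 2 := arcsin_lt_pi_div_two.2 (by linarith)
  set ρ := π / 2 - γ with hρdef
  have hρ : 0 < ρ := by linarith
  have hcos : 0 < cos γ := cos_pos_of_mem_Ioo ⟨by linarith, hγ1⟩
  obtain ⟨K2, hK2, R1'⟩ := R1 (ρ / 2) (by linarith)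
  obtain ⟨K3, hK3, R2'⟩ := R2 ρ hρ
  obtain ⟨Ce, hCe, ibe⟩ := int_pow_bound he1
  obtain ⟨Cq, hCq, ibq⟩ := int_pow_bound (e := 1 / 4) (by norm_num)
  set K1 := C1 * (2 * C' + 2) with hK1def
  have hK1 : 0 < K1 := by positivity
  refine ⟨(K1 * Ce + (2 * K2 + K3 * (2 * Cq)) * π) * (1 / cos γ) ^ e, by positivity, ?_⟩
  intro A B hA hAB hB
  set α := arcsin A with hα
  set β := arcsin B with hβ
  have hsα : sin α = A := sin_arcsin (by linarith) (by linarith)
  have hsβ : sin β = B := sin_arcsin (by linarith) (by linarith)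
  have hαβ : α < β := arcsin_lt_arcsin (by linarith) hAB (by linarith)
  have hβγ : β ≤ γ := monotone_arcsin hB
  have hγα : -γ ≤ α := by
    rw [hγ, ← arcsin_neg]
    exact monotone_arcsin (by linarith)
  set l := β - α with hl
  have hl0 : 0 < l := by linarith
  have hlpi : l ≤ π := by linarith
  have hlip : l ≤ (1 / cos γ) * (B - A) := by
    have h1 : cos γ * l ≤ B - A := by
      have h2 : ∫ x in α..β, cos γ ≤ ∫ x in α..β, cos x := by
        refine intervalIntegral.integral_mono_on hαβ.le (by simp) (continuous_cos.intervalIntegrable _ _) ?_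
        intro x hx
        rw [← cos_abs x]
        refine cos_le_cos_of_nonneg_of_le_pi (abs_nonneg _) (by linarith) ?_
        rw [abs_le]
        exact ⟨by linarith [hx.1], by linarith [hx.2]⟩
      rw [integral_cos, hsα, hsβ, intervalIntegral.integral_const, smul_eq_mul] at h2
      linarith
    rw [one_div, inv_mul_eq_div, le_div_iff₀ hcos]
    linarith
  -- the pointwise bound
  have hpt : ∀ x ∈ Ioo (-1 : ℝ) 1, x ≠ A → ∀ n, |Sn n ((Ico A B).indicator 1) x| ≤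
      K1 * l ^ e * |x - A| ^ (-e) + (K2 * l + K3 * l * (|x - 1| ^ (-(1 / 4) : ℝ) +
        |x - (-1)| ^ (-(1 / 4) : ℝ))) := by
    intro x hx hxA n
    have hx1 : sin (arcsin x) = x := sin_arcsin hx.1.le hx.2.le
    have hψ : |arcsin x| < π / 2 := by
      rw [abs_lt]
      exact ⟨neg_pi_div_two_lt_arcsin.2 hx.1, arcsin_lt_pi_div_two.2 hx.2⟩
    have p1 : 0 ≤ |x - 1| ^ (-(1 / 4) : ℝ) := by positivity
    have p2 : 0 ≤ |x - (-1)| ^ (-(1 / 4) : ℝ) := by positivity
    have p3 : 0 ≤ |x - A| ^ (-e) := by positivity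
    have p4 : 0 ≤ l ^ e := by positivity
    rw [Sn_ind n x (by linarith) hAB.le (by linarith)]
    rcases le_or_gt |arcsin x| (π / 2 - ρ / 2) with h | h
    · have h1 := R1' n (arcsin x) α β h (by linarith) hαβ.le (by linarith)
      rw [hsα, hsβ, hx1] at h1
      have hne : arcsin x ≠ α := by
        intro h2
        apply hxA
        rw [← hx1, h2, hsα]
      have h2 := kernel_bd hC' sb he he1 ((n : ℝ) + 1) (arcsin x) α β hαβ hne
      have h3 : |x - A| ≤ |arcsin x - α| := by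
        have := abs_sin_sub_sin_le (arcsin x) α
        rwa [hx1, hsα] at this
      have h4 : 0 < |x - A| := abs_pos.2 (sub_ne_zero.2 hxA)
      have h5 : (l / |arcsin x - α|) ^ e ≤ l ^ e * |x - A| ^ (-e) := by
        calc (l / |arcsin x - α|) ^ e ≤ (l / |x - A|) ^ e :=
              Real.rpow_le_rpow (by positivity) (div_le_div_of_nonneg_left hl0.le h4 h3) he.le
          _ = l ^ e * |x - A| ^ (-e) := by
              rw [Real.div_rpow hl0.le h4.le, Real.rpow_neg h4.le, div_eq_mul_inv]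
      have h6 : |c n * ∫ φ in α..β, sin (((n : ℝ) + 1) * (arcsin x - φ)) / (arcsin x - φ)| ≤
          K1 * (l ^ e * |x - A| ^ (-e)) := by
        rw [abs_mul, hK1def, mul_assoc]
        refine mul_le_mul (hc n) (h2.trans ?_) (abs_nonneg _) hC1.le
        exact mul_le_mul_of_nonneg_left h5 (by linarith)
      have h7 := abs_sub_abs_le_abs_sub (∫ t in A..B, LK n x t)
        (c n * ∫ φ in α..β, sin (((n : ℝ) + 1) * (arcsin x - φ)) / (arcsin x - φ))
      have h8 : 0 ≤ K3 * l * (|x - 1| ^ (-(1 / 4) : ℝ) + |x - (-1)| ^ (-(1 / 4) : ℝ)) := by positivity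
      linarith
    · have h1 := R2' n (arcsin x) α β hψ h.le (by linarith) hαβ.le (by linarith)
      rw [hsα, hsβ, hx1] at h1
      have h2 := cos_bd hx.1 hx.2
      have h3 : K3 * (β - α) / √(cos (arcsin x)) ≤
          K3 * l * (|x - 1| ^ (-(1 / 4) : ℝ) + |x - (-1)| ^ (-(1 / 4) : ℝ)) := by
        rw [div_eq_mul_one_div]
        exact mul_le_mul_of_nonneg_left h2 (by positivity)
      have h4 : 0 ≤ K1 * l ^ e * |x - A| ^ (-e) := by positivity
      have h5 : 0 ≤ K2 * l := by positivity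
      linarith
  have hle : NN ((Ico A B).indicator 1) ≤ ∫⁻ x in Ioo (-1 : ℝ) 1,
      (ENNReal.ofReal (K1 * l ^ e) * ENNReal.ofReal (|x - A| ^ (-e)) +
        (ENNReal.ofReal (K2 * l) + ENNReal.ofReal (K3 * l) * (ENNReal.ofReal (|x - 1| ^ (-(1 / 4) : ℝ)) +
        ENNReal.ofReal (|x - (-1)| ^ (-(1 / 4) : ℝ))))) := by
    unfold NN
    refine lintegral_mono_ae ?_
    have hne : ∀ᵐ x ∂(volume.restrict (Ioo (-1 : ℝ) 1)), x ≠ A :=
      ae_restrict_of_ae (by
        have h : ({A} : Set ℝ)ᶜ ∈ ae (volume : Measure ℝ) := compl_mem_ae_iff.2 (measure_singleton A)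
        filter_upwards [h] with x hx
        exact hx)
    filter_upwards [hne, ae_restrict_mem measurableSet_Ioo] with x hxA hx
    refine iSup_le fun n => ?_
    rw [← ENNReal.ofReal_add (by positivity) (by positivity), ← ENNReal.ofReal_mul (by positivity),
      ← ENNReal.ofReal_mul (by positivity), ← ENNReal.ofReal_add (by positivity) (by positivity),
      ← ENNReal.ofReal_add (by positivity) (by positivity), ← ofReal_norm, Real.norm_eq_abs]
    exact ENNReal.ofReal_le_ofReal (hpt x hx hxA n)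
  have mA : ∀ p s : ℝ, Measurable (fun x : ℝ => ENNReal.ofReal (|x - p| ^ s)) := by
    intro p s
    exact (((measurable_id.sub_const p).abs).pow_const s).ennreal_ofReal
  have hval : ∫⁻ x in Ioo (-1 : ℝ) 1,
      (ENNReal.ofReal (K1 * l ^ e) * ENNReal.ofReal (|x - A| ^ (-e)) +
        (ENNReal.ofReal (K2 * l) + ENNReal.ofReal (K3 * l) * (ENNReal.ofReal (|x - 1| ^ (-(1 / 4) : ℝ)) +
        ENNReal.ofReal (|x - (-1)| ^ (-(1 / 4) : ℝ))))) ≤
      ENNReal.ofReal (K1 * l ^ e * Ce + (K2 * l * 2 + K3 * l * (Cq + Cq))) := by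
    rw [lintegral_add_left ((mA _ _).const_mul _), lintegral_const_mul _ (mA _ _),
      lintegral_add_left measurable_const, lintegral_const_mul (f := fun a : ℝ =>
        ENNReal.ofReal (|a - 1| ^ (-(1 / 4) : ℝ)) + ENNReal.ofReal (|a - (-1)| ^ (-(1 / 4) : ℝ))) _
        ((mA 1 _).add (mA (-1) _)),
      lintegral_add_left (mA _ _), lintegral_const, Measure.restrict_apply_univ, Real.volume_Ioo]
    rw [ENNReal.ofReal_add (by positivity) (by positivity), ENNReal.ofReal_add (by positivity) (by positivity),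
      ENNReal.ofReal_mul (q := Ce) (by positivity), ENNReal.ofReal_mul (q := 2) (by positivity),
      ENNReal.ofReal_mul (q := Cq + Cq) (by positivity), ENNReal.ofReal_add hCq.le hCq.le]
    have h1 := ibe A (by linarith) (by linarith)
    have h2 := ibq 1 (by norm_num) le_rfl
    have h3 := ibq (-1) le_rfl (by norm_num)
    have h4 : (1 : ℝ) - -1 = 2 := by norm_num
    rw [h4]
    gcongr
  refine hle.trans (hval.trans (ENNReal.ofReal_le_ofReal ?_))
  have h1 : l ≤ π * l ^ e := by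
    have h2 : l ^ (1 - e) ≤ π := by
      calc l ^ (1 - e) ≤ π ^ (1 - e) := Real.rpow_le_rpow hl0.le hlpi (by linarith)
        _ ≤ π ^ (1 : ℝ) := Real.rpow_le_rpow_of_exponent_le (by linarith [Real.pi_gt_three]) (by linarith)
        _ = π := Real.rpow_one _
    calc l = l ^ (1 - e) * l ^ e := by rw [← Real.rpow_add hl0]; simp
      _ ≤ π * l ^ e := mul_le_mul_of_nonneg_right h2 (by positivity)
  have h2 : l ^ e ≤ (1 / cos γ) ^ e * (B - A) ^ e := by
    rw [← Real.mul_rpow (by positivity) (by linarith)]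
    exact Real.rpow_le_rpow hl0.le hlip he.le
  calc K1 * l ^ e * Ce + (K2 * l * 2 + K3 * l * (Cq + Cq))
      = K1 * Ce * l ^ e + (2 * K2 + K3 * (2 * Cq)) * l := by ring
    _ ≤ K1 * Ce * l ^ e + (2 * K2 + K3 * (2 * Cq)) * (π * l ^ e) := by
        gcongr
    _ = (K1 * Ce + (2 * K2 + K3 * (2 * Cq)) * π) * l ^ e := by ring
    _ ≤ (K1 * Ce + (2 * K2 + K3 * (2 * Cq)) * π) * ((1 / cos γ) ^ e * (B - A) ^ e) := by
        gcongr
    _ = _ := by ring

end Pool.Agent.Helper187.Leg.N3
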