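import Pool.Agent.Helper187.Leg.KA
import Pool.Agent.Helper187.Leg.K3
import Pool.Agent.Helper187.Leg.N2
import Pool.Agent.Helper187.Leg.N3
import Pool.Agent.Helper187.Leg.B1c
import Pool.Agent.Helper187.Leg.B2
import Pool.Agent.Helper187.Leg.B3
import Pool.Agent.Helper187.Leg.B4

open MeasureTheory Set Real Filter Topology
open scoped ENNReal

namespace Pool.Agent.Helper187.Leg

theorem fNN_interval (e r : ℝ) (he : 0 < e) (he1 : e < 1) (hr : 0 < r) : ∃ C : ℝ, 0 < C ∧ ∀ A B : ℝ,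
    -1 + r ≤ A → A < B → B ≤ 1 - r →
    NN ((Ico A B).indicator 1) ≤ ENNReal.ofReal (C * (B - A) ^ e) :=
  N3.NN_interval T1.sinc_int_bound (R1 KA.LK_main) (R2 KA.LK_far) e he he1 r hr

theorem ffin (a b : ℝ) (ha : -1 < a) (hab : a < b) (hb : b < 1) : NN ((Ico a b).indicator 1) < ⊤ := by
  obtain ⟨C, -, H⟩ := fNN_interval (1 / 2) (min (1 + a) (1 - b)) (by norm_num) (by norm_num)
    (lt_min (by linarith) (by linarith))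
  exact (H a b (by linarith [min_le_left (1 + a) (1 - b)]) hab (by linarith [min_le_right (1 + a) (1 - b)])).trans_lt
    ENNReal.ofReal_lt_top

theorem fconv (a b : ℝ) (ha : -1 < a) (hab : a < b) (hb : b < 1) (x : ℝ) (hx : -1 < x) (hx' : x < 1)
    (hxa : x ≠ a) (hxb : x ≠ b) :
    Tendsto (fun n : ℕ => ∫ t in a..b, LK n x t) atTop (𝓝 (if a < x ∧ x < b then 1 else 0)) :=
  K3.LK_interval KA.leg_bound KA.leg_asymp KA.LK_cd ha hab hb hx hx' hxa hxb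

theorem ftail {J : Set ℝ} {h : ℝ → ℝ} (hs : StepOn J h) {τ : ℝ} (hτ : 0 < τ) :
    ∃ m : ℕ, ∫⁻ x in Ioo (-1 : ℝ) 1, (⨆ n : ℕ, ⨆ (_ : m ≤ n), ‖Sn n h x - h x‖ₑ)
      ≤ ENNReal.ofReal τ :=
  N2.tail_small ffin fconv hs hτ

theorem fassembly (s : ℕ → ℝ → ℝ) (J : ℕ → Set ℝ) (hs : ∀ j, StepOn (J j) (s j)) (F : ℝ → ℝ)
    (hF : Measurable F) (hsum : ∑' j, NN (fun x => s (j + 1) x - s j x) ≠ ⊤)
    (hlim : ∀ᵐ x ∂mu1, Tendsto (fun j => s j x) atTop (𝓝 (F x))) :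
    Integrable F mu1 ∧ NN F < ⊤ :=
  N2.assembly ffin fconv s J hs F hF hsum hlim

theorem fB1 : ∃ C0 : ℝ, 0 < C0 ∧ ∀ α β : ℝ, -(π / 2) < α → α < β → β < π / 2 → ∀ τ : ℝ, 0 < τ →
    ∃ M0 : ℕ, 0 < M0 ∧ ∀ M : ℕ, M0 ≤ M → ∀ P : ℕ → ℕ, (∀ r, 0 < P r) → ∀ l : ℝ, 0 ≤ l → l ≤ 1 →
      ∫⁻ x in Ioo (-1 : ℝ) 1, (⨆ r ∈ Finset.range M,
        Smax (EE (α + (β - α) / M * r) ((β - α) / M) (P r) l) x)
        ≤ ENNReal.ofReal (C0 * √l * (sin β - sin α) + τ) :=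
  B1 (R1 KA.LK_main) (R2 KA.LK_far)

end Pool.Agent.Helper187.Leg
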