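import Pool.Agent.Helper187.Leg.Kern

open MeasureTheory Set Real Filter Topology
open scoped ENNReal

namespace Pool.Agent.Helper187.Leg

/-- change of variables `x = sin ψ`. -/
theorem lint_sin_le (G : ℝ → ℝ≥0∞) :
    ∫⁻ x in Ioo (-1 : ℝ) 1, G x
      ≤ ∫⁻ ψ in Ioo (-(π / 2)) (π / 2), ENNReal.ofReal (cos ψ) * G (sin ψ) := by
  have h1 : ∫⁻ x in sin '' Ioo (-(π / 2)) (π / 2), G x
      = ∫⁻ ψ in Ioo (-(π / 2)) (π / 2), ENNReal.ofReal |cos ψ| * G (sin ψ) :=
    lintegral_image_eq_lintegral_abs_deriv_mul measurableSet_Ioo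
      (fun x _ => (hasDerivAt_sin x).hasDerivWithinAt)
      (injOn_sin.mono Ioo_subset_Icc_self) G
  have h2 : Ioo (-1 : ℝ) 1 ⊆ sin '' Ioo (-(π / 2)) (π / 2) := by
    intro x hx
    refine ⟨arcsin x, ⟨neg_pi_div_two_lt_arcsin.2 hx.1, arcsin_lt_pi_div_two.2 hx.2⟩, sin_arcsin hx.1.le hx.2.le⟩
  refine (lintegral_mono_set h2).trans (h1.trans_le ?_)
  refine lintegral_mono_ae ?_
  filter_upwards [ae_restrict_mem measurableSet_Ioo] with ψ hψ
  rw [abs_of_pos (cos_pos_of_mem_Ioo hψ)]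

theorem sq_half (L : ℝ) (hL : 0 ≤ L) :
    ∫⁻ u in Ioc 0 L, ENNReal.ofReal (1 / √u) = ENNReal.ofReal (2 * √L) := by
  have h1 : ∫⁻ u in Ioc 0 L, ENNReal.ofReal (1 / √u) = ∫⁻ u in Ioc 0 L, ENNReal.ofReal (u ^ (-(1 / 2) : ℝ)) := by
    refine setLIntegral_congr_fun measurableSet_Ioc ?_
    intro u hu
    simp only
    rw [rpow_neg hu.1.le, ← sqrt_eq_rpow, one_div]
  rw [h1, ← ofReal_integral_eq_lintegral_ofReal]
  · rw [← intervalIntegral.integral_of_le hL, integral_rpow (Or.inl (by norm_num))]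
    congr 1
    rw [sqrt_eq_rpow, zero_rpow (by norm_num)]
    norm_num
    ring
  · have := intervalIntegral.intervalIntegrable_rpow' (a := 0) (b := L) (r := -(1/2)) (by norm_num)
    rwa [intervalIntegrable_iff_integrableOn_Ioc_of_le hL] at this
  · filter_upwards [ae_restrict_mem measurableSet_Ioc] with u hu
    exact rpow_nonneg hu.1.le _

theorem sq_sym (c L s : ℝ) (hL : 0 ≤ L) (hs : 0 ≤ s) (A : Set ℝ) (hA : A ⊆ Icc (c - L) (c + L)) :
    ∫⁻ ψ in A, ENNReal.ofReal (s / √|ψ - c|) ≤ ENNReal.ofReal (4 * s * √L) := by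
  have hsplit : ∀ᵐ ψ ∂(volume : Measure ℝ), ψ ∈ A → ψ ∈ Ioc c (c + L) ∪ Ico (c - L) c := by
    have : ∀ᵐ ψ : ℝ ∂volume, ψ ≠ c := by rw [ae_iff]; simp
    filter_upwards [this] with ψ hne hψ
    have := hA hψ
    rcases lt_or_gt_of_ne hne with h | h
    · exact Or.inr ⟨this.1, h⟩
    · exact Or.inl ⟨h, this.2⟩
  have h0 : ∫⁻ ψ in A, ENNReal.ofReal (s / √|ψ - c|)
      ≤ ∫⁻ ψ in Ioc c (c + L) ∪ Ico (c - L) c, ENNReal.ofReal (s / √|ψ - c|) :=
    lintegral_mono_set' hsplit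
  refine h0.trans ((lintegral_union_le _ _ _).trans ?_)
  have e1 : ∫⁻ ψ in Ioc c (c + L), ENNReal.ofReal (s / √|ψ - c|) = ENNReal.ofReal s * ENNReal.ofReal (2 * √L) := by
    rw [← sq_half L hL]
    have : ∫⁻ ψ in Ioc c (c + L), ENNReal.ofReal (s / √|ψ - c|) = ∫⁻ u in Ioc 0 L, ENNReal.ofReal (s / √|u|) := by
      have := (measurePreserving_add_right volume c).setLIntegral_comp_preimage_emb (measurableEmbedding_addRight c)
        (fun ψ => ENNReal.ofReal (s / √|ψ - c|)) (Ioc c (c + L))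
      rw [← this]
      have e : (fun x => x + c) ⁻¹' Ioc c (c + L) = Ioc 0 L := by
        rw [preimage_add_const_Ioc]; simp
      rw [e]
      simp
    rw [this, ← lintegral_const_mul _ (by fun_prop)]
    refine setLIntegral_congr_fun measurableSet_Ioc ?_
    intro u hu
    simp only
    rw [abs_of_pos hu.1, ← ENNReal.ofReal_mul hs]
    congr 1; ring
  have e2 : ∫⁻ ψ in Ico (c - L) c, ENNReal.ofReal (s / √|ψ - c|) = ENNReal.ofReal s * ENNReal.ofReal (2 * √L) := by
    rw [← sq_half L hL]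
    have : ∫⁻ ψ in Ico (c - L) c, ENNReal.ofReal (s / √|ψ - c|) = ∫⁻ u in Ioc 0 L, ENNReal.ofReal (s / √|u|) := by
      have := (Measure.measurePreserving_sub_left volume c).setLIntegral_comp_preimage_emb (MeasurableEquiv.subLeft c).measurableEmbedding
        (fun ψ => ENNReal.ofReal (s / √|ψ - c|)) (Ico (c - L) c)
      rw [← this]
      have e : (fun x => c - x) ⁻¹' Ico (c - L) c = Ioc 0 L := by
        ext x; simp only [mem_preimage, mem_Ico, mem_Ioc]
        constructor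
        · rintro ⟨h1, h2⟩; constructor <;> linarith
        · rintro ⟨h1, h2⟩; constructor <;> linarith
      rw [e]
      simp
    rw [this, ← lintegral_const_mul _ (by fun_prop)]
    refine setLIntegral_congr_fun measurableSet_Ioc ?_
    intro u hu
    simp only
    rw [abs_of_pos hu.1, ← ENNReal.ofReal_mul hs]
    congr 1; ring
  rw [e1, e2, ← ENNReal.ofReal_mul hs, ← ENNReal.ofReal_add (by positivity) (by positivity)]
  refine ENNReal.ofReal_le_ofReal (le_of_eq (by ring))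

end Pool.Agent.Helper187.Leg
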