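import Pool.Agent.Helper187.Leg.Defs

open MeasureTheory Set Real Filter Topology
open scoped ENNReal

namespace Pool.Agent.Helper187.Leg

theorem leg_cont : ∀ n, Continuous (leg n)
  | 0 => by simpa [leg] using (continuous_const : Continuous fun _ : ℝ => (1 : ℝ))
  | 1 => by
      have : (leg 1) = fun x => x := by funext x; simp [leg]
      rw [this]; exact continuous_id
  | (n + 2) => by
      have h1 := leg_cont (n + 1)
      have h0 := leg_cont n
      have : (leg (n + 2)) = fun x => ((2 * n + 3) * x * leg (n + 1) x - (n + 1) * leg n x) / (n + 2) := by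
        funext x; simp [leg]
      rw [this]
      fun_prop

theorem LK_cont2 (n : ℕ) : Continuous fun q : ℝ × ℝ => LK n q.1 q.2 := by
  unfold LK
  refine continuous_finsetSum _ fun k _ => ?_
  have := leg_cont k
  fun_prop

theorem LK_cont (n : ℕ) (x : ℝ) : Continuous (LK n x) := by
  have := (LK_cont2 n).comp (Continuous.prodMk continuous_const continuous_id : Continuous fun t : ℝ => (x, t))
  exact this

theorem ii_mul_leg (k : ℕ) {h : ℝ → ℝ} (hh : IntervalIntegrable h volume (-1) 1) :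
    IntervalIntegrable (fun t => leg k t * h t) volume (-1) 1 :=
  hh.continuousOn_mul (leg_cont k).continuousOn

theorem Sn_eq (n : ℕ) {h : ℝ → ℝ} (hh : IntervalIntegrable h volume (-1) 1) (x : ℝ) :
    Sn n h x = ∑ k ∈ Finset.range (n + 1), ((k : ℝ) + 1 / 2) * (∫ t in (-1 : ℝ)..1, leg k t * h t) * leg k x := by
  unfold Sn LK
  have : ∀ t, (∑ k ∈ Finset.range (n + 1), ((k : ℝ) + 1 / 2) * leg k x * leg k t) * h t
      = ∑ k ∈ Finset.range (n + 1), (((k : ℝ) + 1 / 2) * leg k x) * (leg k t * h t) := by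
    intro t
    rw [Finset.sum_mul]
    refine Finset.sum_congr rfl fun k _ => by ring
  simp_rw [this]
  rw [intervalIntegral.integral_finsetSum]
  · refine Finset.sum_congr rfl fun k _ => ?_
    rw [intervalIntegral.integral_const_mul]; ring
  · intro k _
    exact (ii_mul_leg k hh).const_mul _

theorem Sn_cont (n : ℕ) {h : ℝ → ℝ} (hh : IntervalIntegrable h volume (-1) 1) : Continuous (Sn n h) := by
  have : Sn n h = fun x => ∑ k ∈ Finset.range (n + 1), ((k : ℝ) + 1 / 2) * (∫ t in (-1 : ℝ)..1, leg k t * h t) * leg k x := by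
    funext x; exact Sn_eq n hh x
  rw [this]
  refine continuous_finsetSum _ fun k _ => ?_
  have := leg_cont k
  fun_prop

theorem ii_LK_mul (n : ℕ) (x : ℝ) {h : ℝ → ℝ} (hh : IntervalIntegrable h volume (-1) 1) :
    IntervalIntegrable (fun t => LK n x t * h t) volume (-1) 1 :=
  hh.continuousOn_mul (LK_cont n x).continuousOn

theorem Sn_add (n : ℕ) {h k : ℝ → ℝ} (hh : IntervalIntegrable h volume (-1) 1)
    (hk : IntervalIntegrable k volume (-1) 1) (x : ℝ) :
    Sn n (fun t => h t + k t) x = Sn n h x + Sn n k x := by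
  unfold Sn
  rw [← intervalIntegral.integral_add (ii_LK_mul n x hh) (ii_LK_mul n x hk)]
  refine intervalIntegral.integral_congr fun t _ => ?_
  simp only; ring

theorem Sn_const_mul (n : ℕ) (c : ℝ) (h : ℝ → ℝ) (x : ℝ) :
    Sn n (fun t => c * h t) x = c * Sn n h x := by
  unfold Sn
  rw [← intervalIntegral.integral_const_mul]
  refine intervalIntegral.integral_congr fun t _ => ?_
  simp only; ring

theorem Sn_sub (n : ℕ) {h k : ℝ → ℝ} (hh : IntervalIntegrable h volume (-1) 1)
    (hk : IntervalIntegrable k volume (-1) 1) (x : ℝ) :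
    Sn n (fun t => h t - k t) x = Sn n h x - Sn n k x := by
  have := Sn_add n hh (hk.const_mul (-1)) x
  rw [Sn_const_mul] at this
  have e : (fun t => h t - k t) = fun t => h t + -1 * k t := by funext t; ring
  rw [e, this]; ring

theorem ii_sum {ι : Type*} (s : Finset ι) (h : ι → ℝ → ℝ)
    (hh : ∀ i ∈ s, IntervalIntegrable (h i) volume (-1) 1) :
    IntervalIntegrable (fun x => ∑ i ∈ s, h i x) volume (-1) 1 := by
  classical
  induction s using Finset.induction with
  | empty => simp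
  | insert i s hi ih =>
    have e : (fun x => ∑ j ∈ insert i s, h j x) = fun x => h i x + ∑ j ∈ s, h j x := by
      funext x; rw [Finset.sum_insert hi]
    rw [e]
    exact (hh i (Finset.mem_insert_self _ _)).add (ih fun j hj => hh j (Finset.mem_insert_of_mem hj))

theorem Sn_sum (n : ℕ) {ι : Type*} (s : Finset ι) (h : ι → ℝ → ℝ)
    (hh : ∀ i ∈ s, IntervalIntegrable (h i) volume (-1) 1) (x : ℝ) :
    Sn n (fun t => ∑ i ∈ s, h i t) x = ∑ i ∈ s, Sn n (h i) x := by
  classical
  induction s using Finset.induction with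
  | empty => simp [Sn]
  | insert i s hi ih =>
    have e : (fun x => ∑ j ∈ insert i s, h j x) = fun x => h i x + ∑ j ∈ s, h j x := by
      funext x; rw [Finset.sum_insert hi]
    rw [e, Sn_add n (hh i (Finset.mem_insert_self _ _)) (ii_sum s h fun j hj => hh j (Finset.mem_insert_of_mem hj)),
      Finset.sum_insert hi, ih fun j hj => hh j (Finset.mem_insert_of_mem hj)]

theorem Smax_meas {h : ℝ → ℝ} (hh : IntervalIntegrable h volume (-1) 1) : Measurable (Smax h) := by
  unfold Smax
  refine Measurable.iSup fun n => ?_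
  exact (Sn_cont n hh).measurable.enorm

theorem Smax_add {h k : ℝ → ℝ} (hh : IntervalIntegrable h volume (-1) 1)
    (hk : IntervalIntegrable k volume (-1) 1) (x : ℝ) :
    Smax (fun t => h t + k t) x ≤ Smax h x + Smax k x := by
  refine iSup_le fun n => ?_
  rw [Sn_add n hh hk]
  refine (enorm_add_le _ _).trans ?_
  exact add_le_add (le_iSup (fun n => ‖Sn n h x‖ₑ) n) (le_iSup (fun n => ‖Sn n k x‖ₑ) n)

theorem Smax_const_mul (c : ℝ) (h : ℝ → ℝ) (x : ℝ) :
    Smax (fun t => c * h t) x = ‖c‖ₑ * Smax h x := by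
  unfold Smax
  rw [ENNReal.mul_iSup]
  refine iSup_congr fun n => ?_
  rw [Sn_const_mul, enorm_mul]

theorem Smax_sum {ι : Type*} (s : Finset ι) (h : ι → ℝ → ℝ)
    (hh : ∀ i ∈ s, IntervalIntegrable (h i) volume (-1) 1) (x : ℝ) :
    Smax (fun t => ∑ i ∈ s, h i t) x ≤ ∑ i ∈ s, Smax (h i) x := by
  refine iSup_le fun n => ?_
  rw [Sn_sum n s h hh]
  refine (enorm_sum_le _ _).trans ?_
  exact Finset.sum_le_sum fun i _ => le_iSup (fun n => ‖Sn n (h i) x‖ₑ) n

theorem NN_add {h k : ℝ → ℝ} (hh : IntervalIntegrable h volume (-1) 1)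
    (hk : IntervalIntegrable k volume (-1) 1) :
    NN (fun t => h t + k t) ≤ NN h + NN k := by
  unfold NN
  rw [← lintegral_add_left (Smax_meas hh)]
  exact lintegral_mono fun x => Smax_add hh hk x

theorem NN_const_mul (c : ℝ) {h : ℝ → ℝ} (hh : IntervalIntegrable h volume (-1) 1) :
    NN (fun t => c * h t) = ‖c‖ₑ * NN h := by
  unfold NN
  simp_rw [Smax_const_mul]
  rw [lintegral_const_mul _ (Smax_meas hh)]

theorem NN_sum {ι : Type*} (s : Finset ι) (h : ι → ℝ → ℝ)
    (hh : ∀ i ∈ s, IntervalIntegrable (h i) volume (-1) 1) :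
    NN (fun t => ∑ i ∈ s, h i t) ≤ ∑ i ∈ s, NN (h i) := by
  unfold NN
  rw [← lintegral_finsetSum' _ (fun i hi => (Smax_meas (hh i hi)).aemeasurable)]
  exact lintegral_mono fun x => Smax_sum s h hh x

theorem Sn_congr (n : ℕ) {h k : ℝ → ℝ} (hk : ∀ᵐ x ∂mu1, h x = k x) (x : ℝ) : Sn n h x = Sn n k x := by
  unfold Sn
  refine intervalIntegral.integral_congr_ae ?_
  have : ∀ᵐ t ∂volume, t ∈ Icc (-1 : ℝ) 1 → h t = k t := by
    rw [mu1, ae_restrict_iff' measurableSet_Icc] at hk
    exact hk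
  filter_upwards [this] with t ht hmem
  rw [uIoc_of_le (by norm_num)] at hmem
  rw [ht ⟨hmem.1.le, hmem.2⟩]

theorem NN_congr {h k : ℝ → ℝ} (hk : ∀ᵐ x ∂mu1, h x = k x) : NN h = NN k := by
  unfold NN Smax
  simp_rw [fun n x => Sn_congr n hk x]

theorem NN_zero : NN (fun _ => 0) = 0 := by
  simp [NN, Smax, Sn]

theorem abs_int_le_NN {h : ℝ → ℝ} (hh : IntervalIntegrable h volume (-1) 1) :
    ENNReal.ofReal |∫ t in (-1 : ℝ)..1, h t| ≤ NN h := by
  have h0 : ∀ x, Sn 0 h x = (1 / 2) * ∫ t in (-1 : ℝ)..1, h t := by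
    intro x
    rw [Sn_eq 0 hh]
    simp [leg]
  have h1 : ∀ x, ENNReal.ofReal ((1 / 2) * |∫ t in (-1 : ℝ)..1, h t|) ≤ Smax h x := by
    intro x
    have := le_iSup (fun n => ‖Sn n h x‖ₑ) 0
    refine le_trans ?_ this
    simp only [h0]
    rw [← ofReal_norm, Real.norm_eq_abs, abs_mul]
    norm_num
  unfold NN
  calc ENNReal.ofReal |∫ t in (-1 : ℝ)..1, h t|
      = ∫⁻ x in Ioo (-1 : ℝ) 1, ENNReal.ofReal ((1 / 2) * |∫ t in (-1 : ℝ)..1, h t|) := by
        rw [lintegral_const, Measure.restrict_apply_univ, Real.volume_Ioo,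
          ← ENNReal.ofReal_mul (by positivity)]
        congr 1; ring
    _ ≤ _ := lintegral_mono fun x => h1 x

/-! ### step functions -/

theorem StepOn.meas_set {J : Set ℝ} {h : ℝ → ℝ} (hs : StepOn J h) : MeasurableSet J := by
  obtain ⟨ι, hι, a, b, c, -, -, -, hJ, -, -⟩ := hs
  rw [hJ]
  exact MeasurableSet.iUnion fun i => measurableSet_Ico

theorem StepOn.eq_sum {J : Set ℝ} {h : ℝ → ℝ} (hs : StepOn J h) :
    ∃ (ι : Type) (_ : Fintype ι) (a b c : ι → ℝ), (∀ i, a i < b i) ∧ (∀ i, -1 < a i ∧ b i < 1) ∧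
      ∀ x, h x = ∑ i, c i * (Ico (a i) (b i)).indicator 1 x := by
  obtain ⟨ι, hι, a, b, c, hab, hin, hdis, hJ, hc, h0⟩ := hs
  refine ⟨ι, hι, a, b, c, hab, hin, fun x => ?_⟩
  classical
  by_cases hx : x ∈ J
  · have hx' := hx
    rw [hJ] at hx'
    obtain ⟨i, hi⟩ := mem_iUnion.1 hx'
    rw [Finset.sum_eq_single i]
    · rw [indicator_of_mem hi, hc i x hi]; simp
    · intro j _ hji
      have : x ∉ Ico (a j) (b j) := fun hj => (disjoint_left.1 (hdis j i hji)) hj hi
      rw [indicator_of_notMem this]; simp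
    · intro hni; exact absurd (Finset.mem_univ i) hni
  · rw [h0 x hx]
    symm
    refine Finset.sum_eq_zero fun i _ => ?_
    have : x ∉ Ico (a i) (b i) := fun hi => hx (by rw [hJ]; exact mem_iUnion.2 ⟨i, hi⟩)
    rw [indicator_of_notMem this]; simp

theorem ind_meas (a b : ℝ) : Measurable ((Ico a b).indicator (1 : ℝ → ℝ)) :=
  measurable_one.indicator measurableSet_Ico

theorem ind_ii (a b : ℝ) : IntervalIntegrable ((Ico a b).indicator (1 : ℝ → ℝ)) volume (-1) 1 := by
  rw [intervalIntegrable_iff, uIoc_of_le (by norm_num)]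
  have : IsFiniteMeasure (volume.restrict (Ioc (-1 : ℝ) 1)) := ⟨by simp⟩
  refine Integrable.mono' (g := fun _ => 1) (integrable_const 1) (ind_meas a b).aestronglyMeasurable ?_
  refine Eventually.of_forall fun x => ?_
  by_cases hx : x ∈ Ico a b
  · rw [indicator_of_mem hx]; simp
  · rw [indicator_of_notMem hx]; simp

theorem StepOn.meas {J : Set ℝ} {h : ℝ → ℝ} (hs : StepOn J h) : Measurable h := by
  obtain ⟨ι, hι, a, b, c, -, -, he⟩ := hs.eq_sum
  have : h = fun x => ∑ i, c i * (Ico (a i) (b i)).indicator 1 x := funext he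
  rw [this]
  exact Finset.measurable_sum _ fun i _ => (ind_meas _ _).const_mul _

theorem StepOn.ii {J : Set ℝ} {h : ℝ → ℝ} (hs : StepOn J h) : IntervalIntegrable h volume (-1) 1 := by
  obtain ⟨ι, hι, a, b, c, -, -, he⟩ := hs.eq_sum
  have : h = fun x => ∑ i, c i * (Ico (a i) (b i)).indicator 1 x := funext he
  rw [this]
  exact ii_sum _ _ fun i _ => (ind_ii _ _).const_mul _

theorem StepOn.union {J K : Set ℝ} {h k : ℝ → ℝ} (hs : StepOn J h) (ks : StepOn K k) (hd : Disjoint J K) :
    StepOn (J ∪ K) (fun x => h x + k x) := by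
  obtain ⟨ι, hι, a, b, c, hab, hin, hdis, hJ, hc, h0⟩ := hs
  obtain ⟨κ, hκ, a', b', c', hab', hin', hdis', hK, hc', h0'⟩ := ks
  have hJi : ∀ i, Ico (a i) (b i) ⊆ J := fun i => by rw [hJ]; exact subset_iUnion (fun i => Ico (a i) (b i)) i
  have hKi : ∀ i, Ico (a' i) (b' i) ⊆ K := fun i => by rw [hK]; exact subset_iUnion (fun i => Ico (a' i) (b' i)) i
  refine ⟨ι ⊕ κ, inferInstance, Sum.elim a a', Sum.elim b b', Sum.elim c c', ?_, ?_, ?_, ?_, ?_, ?_⟩
  · rintro (i | i)
    · exact hab i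
    · exact hab' i
  · rintro (i | i)
    · exact hin i
    · exact hin' i
  · rintro (i | i) (j | j) hij
    · exact hdis i j (fun e => hij (by rw [e]))
    · exact hd.mono (hJi i) (hKi j)
    · exact (hd.mono (hJi j) (hKi i)).symm
    · exact hdis' i j (fun e => hij (by rw [e]))
  · rw [hJ, hK, iUnion_sum]
    rfl
  · rintro (i | i) x hx
    · simp only [Sum.elim_inl] at hx ⊢
      rw [hc i x hx, h0' x (fun hk => disjoint_left.1 hd (hJi i hx) hk), add_zero]
    · simp only [Sum.elim_inr] at hx ⊢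
      rw [hc' i x hx, h0 x (fun hk => disjoint_left.1 hd hk (hKi i hx)), zero_add]
  · intro x hx
    rw [mem_union, not_or] at hx
    show h x + k x = 0
    rw [h0 x hx.1, h0' x hx.2, add_zero]

theorem StepOn.empty : StepOn ∅ (fun _ => 0) :=
  ⟨Empty, inferInstance, Empty.elim, Empty.elim, Empty.elim, fun i => i.elim, fun i => i.elim,
    fun i => i.elim, by simp, fun i => i.elim, fun _ _ => rfl⟩

theorem StepOn.congr {J : Set ℝ} {h k : ℝ → ℝ} (hs : StepOn J h) (e : ∀ x, h x = k x) : StepOn J k := by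
  have : h = k := funext e
  rwa [← this]

theorem StepOn.const {a b : ℝ} (ha : -1 < a) (hab : a < b) (hb : b < 1) (c : ℝ) :
    StepOn (Ico a b) ((Ico a b).indicator fun _ => c) := by
  refine ⟨Unit, inferInstance, fun _ => a, fun _ => b, fun _ => c, fun _ => hab, fun _ => ⟨ha, hb⟩, ?_, ?_, ?_, ?_⟩
  · intro i j hij; exact absurd rfl hij
  · exact (iUnion_const _).symm
  · intro i x hx; rw [indicator_of_mem hx]
  · intro x hx; rw [indicator_of_notMem hx]

/-- gluing a finite family of step functions on disjoint sets. -/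
theorem StepOn.glue {κ : Type} [Fintype κ] (J : κ → Set ℝ) (h : κ → ℝ → ℝ)
    (hs : ∀ i, StepOn (J i) (h i)) (hd : ∀ i j, i ≠ j → Disjoint (J i) (J j)) :
    StepOn (⋃ i, J i) (fun x => ∑ i, h i x) := by
  classical
  have key : ∀ s : Finset κ, StepOn (⋃ i ∈ s, J i) (fun x => ∑ i ∈ s, h i x) := by
    intro s
    induction s using Finset.induction with
    | empty => simpa using StepOn.empty
    | insert i s hi ih =>
      have e1 : (⋃ j ∈ insert i s, J j) = J i ∪ ⋃ j ∈ s, J j := by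
        simp
      have e2 : (fun x => ∑ j ∈ insert i s, h j x) = fun x => h i x + ∑ j ∈ s, h j x := by
        funext x; rw [Finset.sum_insert hi]
      rw [e1, e2]
      refine (hs i).union ih ?_
      rw [disjoint_iUnion₂_right]
      intro j hj
      exact hd i j (fun e => hi (e ▸ hj))
  have := key Finset.univ
  simpa using this

/-- adding a step function vanishing off `J`, constant on the same pieces, etc: value map. -/
theorem StepOn.map_const {J : Set ℝ} {h : ℝ → ℝ} (hs : StepOn J h) (φ : ℝ → ℝ) :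
    StepOn J (J.indicator fun x => φ (h x)) := by
  obtain ⟨ι, hι, a, b, c, hab, hin, hdis, hJ, hc, h0⟩ := hs
  refine ⟨ι, hι, a, b, fun i => φ (c i), hab, hin, hdis, hJ, ?_, ?_⟩
  · intro i x hx
    have : x ∈ J := by rw [hJ]; exact mem_iUnion.2 ⟨i, hx⟩
    rw [indicator_of_mem this, hc i x hx]
  · intro x hx; rw [indicator_of_notMem hx]

theorem StepOn.sub_set {J : Set ℝ} {h : ℝ → ℝ} (hs : StepOn J h) : J ⊆ Ioo (-1) 1 := by
  obtain ⟨ι, hι, a, b, c, hab, hin, hdis, hJ, hc, h0⟩ := hs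
  rw [hJ]
  refine iUnion_subset fun i x hx => ?_
  exact ⟨lt_of_lt_of_le (hin i).1 hx.1, hx.2.trans (hin i).2⟩

end Pool.Agent.Helper187.Leg
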