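import Pool.Agent.Helper187.Leg.Defs

open MeasureTheory Set Real Filter Topology
open scoped ENNReal

namespace Pool.Agent.Helper187.Leg

/-- data of the initial rearrangement. -/
structure Pieces (F : ℝ → ℝ) (ε : ℝ) where
  κ : ℝ
  e : ℝ
  B : ℕ → ℝ
  R0 : Set ℝ
  a : ℕ → ℝ
  b : ℕ → ℝ
  a' : ℕ → ℝ
  b' : ℕ → ℝ
  hκ : 0 < κ
  he : 0 < e ∧ e < 1
  hκB : κ ≤ B 0
  hB : Monotone B
  hR0 : StepOn R0 (fun _ => 0)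
  hab : ∀ j, -1 < a j ∧ a j < b j ∧ b j < 1
  hab' : ∀ j, 0 ≤ a' j ∧ a' j ≤ b' j ∧ b' j ≤ 1 / 2
  dRZ : ∀ j, Disjoint R0 (Ico (a j) (b j))
  dRI : ∀ j, Disjoint R0 (Ico (a' j) (b' j))
  dZZ : ∀ i j, i ≠ j → Disjoint (Ico (a i) (b i)) (Ico (a j) (b j))
  dII : ∀ i j, i ≠ j → Disjoint (Ico (a' i) (b' i)) (Ico (a' j) (b' j))
  dZI : ∀ i j, Disjoint (Ico (a i) (b i)) (Ico (a' j) (b' j))
  cover : Ioo (-1) 1 ⊆ R0 ∪ ⋃ j, (Ico (a j) (b j) ∪ Ico (a' j) (b' j))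
  bR : ∀ᵐ x ∂mu1, x ∈ R0 → |F x| ≤ B 0
  bZ : ∀ j, ∀ᵐ x ∂mu1, x ∈ Ico (a j) (b j) → κ ≤ |F x| ∧ |F x| ≤ B 0
  zZ : ∀ j, ∫ x in a j..b j, F x = 0
  bI : ∀ j, ∀ᵐ x ∂mu1, x ∈ Ico (a' j) (b' j) → |F x| ≤ B j
  sumZ : Summable fun j => B j * (b j - a j)
  sumI : Summable fun j => B j * (b' j - a' j)
  sumM : Summable fun j => |∫ x in a' j..b' j, F x| * (b' j - a' j) ^ (e - 1)
  small : ∀ n, ∑ j ∈ Finset.range n, ((b j - a j) + (b' j - a' j)) ≤ ε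

end Pool.Agent.Helper187.Leg
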